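import Pool.Agent.Helper33.CA.Defs

/-! Elementary facts about `CEq`, `opM`, `tw`, `P1` (MP_464bf1_lc). -/

namespace CA

open scoped InnerProductSpace

section CEq

variable {E F G : Type*} [NormedAddCommGroup E] [InnerProductSpace ℂ E]
  [NormedAddCommGroup F] [InnerProductSpace ℂ F] [NormedAddCommGroup G] [InnerProductSpace ℂ G]

theorem CEq.refl (a : E →L[ℂ] F) : CEq a a := by
  unfold CEq; rw [sub_self]; exact isCompactOperator_zero

theorem CEq.of_eq {a b : E →L[ℂ] F} (h : a = b) : CEq a b := h ▸ CEq.refl a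

theorem CEq.symm {a b : E →L[ℂ] F} (h : CEq a b) : CEq b a := by
  unfold CEq at *
  have := h.neg
  have e : (-(⇑(a - b)) : E → F) = ⇑(b - a) := by ext v; simp
  rwa [e] at this

theorem CEq.add {a b a' b' : E →L[ℂ] F} (h : CEq a b) (h' : CEq a' b') :
    CEq (a + a') (b + b') := by
  unfold CEq at *
  have := IsCompactOperator.add h h'
  have e : (⇑(a - b) + ⇑(a' - b') : E → F) = ⇑(a + a' - (b + b')) := by
    ext v; simp; abel
  rwa [e] at this

theorem CEq.trans {a b c : E →L[ℂ] F} (h : CEq a b) (h' : CEq b c) : CEq a c := by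
  unfold CEq at *
  have := IsCompactOperator.add h h'
  have e : (⇑(a - b) + ⇑(b - c) : E → F) = ⇑(a - c) := by
    ext v; simp
  rwa [e] at this

theorem CEq.neg {a b : E →L[ℂ] F} (h : CEq a b) : CEq (-a) (-b) := by
  unfold CEq at *
  have := IsCompactOperator.neg h
  have e : (-(⇑(a - b)) : E → F) = ⇑(-a - -b) := by ext v; simp; abel
  rwa [e] at this

theorem CEq.sub {a b a' b' : E →L[ℂ] F} (h : CEq a b) (h' : CEq a' b') :
    CEq (a - a') (b - b') := by
  rw [sub_eq_add_neg, sub_eq_add_neg]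
  exact h.add h'.neg

theorem CEq.smul {a b : E →L[ℂ] F} (c : ℂ) (h : CEq a b) : CEq (c • a) (c • b) := by
  unfold CEq at *
  have := IsCompactOperator.smul h c
  have e : (c • (⇑(a - b)) : E → F) = ⇑(c • a - c • b) := by ext v; simp [smul_sub]
  rwa [e] at this

theorem CEq.rsmul {a b : E →L[ℂ] F} (c : ℝ) (h : CEq a b) : CEq (c • a) (c • b) := by
  have := h.smul (c : ℂ)
  have e : ∀ d : E →L[ℂ] F, (c : ℂ) • d = c • d := by intro d; ext v; simp
  rwa [e, e] at this

theorem CEq.sum {ι : Type*} (s : Finset ι) {a b : ι → (E →L[ℂ] F)} (h : ∀ i ∈ s, CEq (a i) (b i)) :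
    CEq (∑ i ∈ s, a i) (∑ i ∈ s, b i) := by
  classical
  induction s using Finset.induction_on with
  | empty => simpa using CEq.refl (0 : E →L[ℂ] F)
  | insert i s hi ih =>
    rw [Finset.sum_insert hi, Finset.sum_insert hi]
    exact (h i (Finset.mem_insert_self _ _)).add (ih fun j hj => h j (Finset.mem_insert_of_mem hj))

theorem CEq.comp_left {a b : E →L[ℂ] F} (c : F →L[ℂ] G) (h : CEq a b) :
    CEq (c ∘L a) (c ∘L b) := by
  unfold CEq at *
  rw [← ContinuousLinearMap.comp_sub]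
  exact h.clm_comp c

theorem CEq.comp_right {a b : F →L[ℂ] G} (c : E →L[ℂ] F) (h : CEq a b) :
    CEq (a ∘L c) (b ∘L c) := by
  unfold CEq at *
  rw [← ContinuousLinearMap.sub_comp]
  exact h.comp_clm c

theorem CEq.mul_left {a b : E →L[ℂ] E} (c : E →L[ℂ] E) (h : CEq a b) : CEq (c * a) (c * b) :=
  h.comp_left c

theorem CEq.mul_right {a b : E →L[ℂ] E} (c : E →L[ℂ] E) (h : CEq a b) : CEq (a * c) (b * c) :=
  h.comp_right c

theorem CEq.mul {a b a' b' : E →L[ℂ] E} (h : CEq a b) (h' : CEq a' b') :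
    CEq (a * a') (b * b') :=
  (h.mul_right a').trans (h'.mul_left b)

theorem CEq.zero_iff {a : E →L[ℂ] F} : CEq a 0 ↔ IsCompactOperator a := by
  unfold CEq; rw [sub_zero]

end CEq

section opM

variable {E : Type*} [NormedAddCommGroup E] [InnerProductSpace ℂ E]
variable {X : Type*} [Fintype X] [DecidableEq X]

@[simp] theorem opM_apply (M : Matrix X X (E →L[ℂ] E)) (v : Amp E X) (x : X) :
    opM M v x = ∑ y, M x y (v y) := by
  simp [opM]

theorem opM_one : opM (1 : Matrix X X (E →L[ℂ] E)) = 1 := by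
  ext v x
  simp only [opM_apply, Matrix.one_apply]
  rw [Finset.sum_eq_single x]
  · simp
  · intro y _ hy
    simp [hy.symm]
  · simp

theorem opM_mul (M N : Matrix X X (E →L[ℂ] E)) : opM (M * N) = opM M * opM N := by
  ext v x
  simp only [opM_apply, Matrix.mul_apply, mul_apply_eq_comp, sum_apply,
    map_sum]
  rw [Finset.sum_comm]

theorem opM_add (M N : Matrix X X (E →L[ℂ] E)) : opM (M + N) = opM M + opM N := by
  ext v x
  simp [Finset.sum_add_distrib]

theorem opM_zero : opM (0 : Matrix X X (E →L[ℂ] E)) = 0 := by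
  ext v x
  simp

theorem opM_smul (c : ℂ) (M : Matrix X X (E →L[ℂ] E)) : opM (c • M) = c • opM M := by
  ext v x
  simp [Finset.smul_sum]

theorem opM_sub (M N : Matrix X X (E →L[ℂ] E)) : opM (M - N) = opM M - opM N := by
  ext v x
  simp [Finset.sum_sub_distrib]

theorem opM_sum {ι : Type*} (s : Finset ι) (M : ι → Matrix X X (E →L[ℂ] E)) :
    opM (∑ i ∈ s, M i) = ∑ i ∈ s, opM (M i) := by
  classical
  induction s using Finset.induction_on with
  | empty => simp [opM_zero]
  | insert i s hi ih => rw [Finset.sum_insert hi, Finset.sum_insert hi, opM_add, ih]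

@[simp] theorem tw_apply (a : E →L[ℂ] E) (σ : Equiv.Perm X) (v : Amp E X) (x : X) :
    tw a σ v x = a (v (σ.symm x)) := by
  simp only [tw, opM_apply, twM]
  rw [Finset.sum_eq_single (σ.symm x)]
  · simp
  · intro y _ hy
    have : σ y ≠ x := by
      intro h; apply hy; rw [← h]; simp
    simp [this]
  · simp

@[simp] theorem P1_apply (v : Amp E X) (x : X) :
    P1 E X v x = (Fintype.card X : ℂ)⁻¹ • ∑ y, v y := by
  simp [P1, P1M, Finset.smul_sum]

theorem tw_one_one : tw (1 : E →L[ℂ] E) (1 : Equiv.Perm X) = 1 := by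
  ext v x; rw [tw_apply]; rfl

theorem tw_mul (a b : E →L[ℂ] E) (σ τ : Equiv.Perm X) :
    tw a σ * tw b τ = tw (a * b) (σ * τ) := by
  ext v x
  simp only [mul_apply_eq_comp, tw_apply]
  rfl

theorem tw_add (a b : E →L[ℂ] E) (σ : Equiv.Perm X) : tw (a + b) σ = tw a σ + tw b σ := by
  ext v x; simp

theorem tw_sub (a b : E →L[ℂ] E) (σ : Equiv.Perm X) : tw (a - b) σ = tw a σ - tw b σ := by
  ext v x; simp

theorem tw_smul (c : ℂ) (a : E →L[ℂ] E) (σ : Equiv.Perm X) : tw (c • a) σ = c • tw a σ := by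
  ext v x; simp

theorem tw_zero (σ : Equiv.Perm X) : tw (0 : E →L[ℂ] E) σ = 0 := by
  ext v x; simp

theorem tw_P1 (a : E →L[ℂ] E) (σ : Equiv.Perm X) : tw a σ * P1 E X = tw a 1 * P1 E X := by
  ext v x; simp

theorem P1_tw (a : E →L[ℂ] E) (σ : Equiv.Perm X) : P1 E X * tw a σ = tw a 1 * P1 E X := by
  ext v x
  simp only [mul_apply_eq_comp, P1_apply, tw_apply]
  rw [map_smul, map_sum]
  congr 1
  exact Equiv.sum_comp σ.symm (fun y => a (v y))

theorem P1_mul_P1 [Nonempty X] : P1 E X * P1 E X = P1 E X := by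
  ext v x
  simp only [mul_apply_eq_comp, P1_apply]
  rw [Finset.sum_const, Finset.card_univ, ← Nat.cast_smul_eq_nsmul ℂ, smul_smul, smul_smul]
  congr 1
  have : (Fintype.card X : ℂ) ≠ 0 := by
    simp
  field_simp

/-- Injection of the `x`-th copy. -/
noncomputable def inj (E : Type*) [NormedAddCommGroup E] [InnerProductSpace ℂ E] {X : Type*}
    [Fintype X] [DecidableEq X] (x : X) : E →L[ℂ] Amp E X :=
  (PiLp.continuousLinearEquiv 2 ℂ (fun _ : X => E)).symm.toContinuousLinearMap ∘L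
    (ContinuousLinearMap.single ℂ (fun _ : X => E) x)

/-- Projection to the `x`-th copy. -/
noncomputable def pr (E : Type*) [NormedAddCommGroup E] [InnerProductSpace ℂ E] {X : Type*}
    [Fintype X] (x : X) : Amp E X →L[ℂ] E :=
  (ContinuousLinearMap.proj x) ∘L (PiLp.continuousLinearEquiv 2 ℂ (fun _ : X => E)).toContinuousLinearMap

@[simp] theorem pr_apply (x : X) (v : Amp E X) : pr E x v = v x := by
  simp [pr]

@[simp] theorem inj_apply (x : X) (v : E) (y : X) : inj E x v y = if y = x then v else 0 := by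
  by_cases h : y = x
  · subst h; simp [inj]
  · simp [inj, h]

theorem opM_eq_sum (M : Matrix X X (E →L[ℂ] E)) :
    opM M = ∑ x, ∑ y, inj E x ∘L (M x y) ∘L pr E y := by
  ext v x
  simp [Finset.sum_apply]

theorem opM_surj (T : Amp E X →L[ℂ] Amp E X) :
    opM (fun x y => pr E x ∘L T ∘L inj E y) = T := by
  apply ContinuousLinearMap.ext
  intro v
  have hv : v = ∑ y, inj E y (v y) := by
    ext x
    simp [Finset.sum_apply]
  ext x
  rw [opM_apply]
  conv_rhs => rw [hv, map_sum]
  simp [Finset.sum_apply]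

theorem CEq.opM {M N : Matrix X X (E →L[ℂ] E)} (h : ∀ x y, CEq (M x y) (N x y)) :
    CEq (opM M) (opM N) := by
  rw [opM_eq_sum, opM_eq_sum]
  exact CEq.sum _ fun x _ => CEq.sum _ fun y _ => ((h x y).comp_right _).comp_left _

theorem CEq.tw {a b : E →L[ℂ] E} (h : CEq a b) (σ : Equiv.Perm X) : CEq (tw a σ) (tw b σ) := by
  apply CEq.opM
  intro x y
  unfold twM
  split_ifs
  · exact h
  · exact CEq.refl _

/-- Norm squared on the amplification. -/
theorem amp_norm_sq (v : Amp E X) : ‖v‖ ^ 2 = ∑ x, ‖v x‖ ^ 2 := by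
  rw [PiLp.norm_sq_eq_of_L2]

theorem amp_inner (v w : Amp E X) : ⟪v, w⟫_ℂ = ∑ x, ⟪v x, w x⟫_ℂ := by
  rw [PiLp.inner_apply]

theorem norm_tw_apply_le (a : E →L[ℂ] E) (σ : Equiv.Perm X) (v : Amp E X) :
    ‖tw a σ v‖ ≤ ‖a‖ * ‖v‖ := by
  rw [← sq_le_sq₀ (norm_nonneg _) (by positivity), mul_pow, amp_norm_sq, amp_norm_sq, Finset.mul_sum]
  rw [← Equiv.sum_comp σ]
  apply Finset.sum_le_sum
  intro x _
  rw [tw_apply, Equiv.symm_apply_apply, ← mul_pow]
  exact pow_le_pow_left₀ (norm_nonneg _) (a.le_opNorm _) 2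

theorem norm_tw_le (a : E →L[ℂ] E) (σ : Equiv.Perm X) : ‖tw a σ‖ ≤ ‖a‖ :=
  ContinuousLinearMap.opNorm_le_bound _ (norm_nonneg _) (norm_tw_apply_le a σ)

end opM

section star

variable {E : Type*} [NormedAddCommGroup E] [InnerProductSpace ℂ E] [CompleteSpace E]
variable {X : Type*} [Fintype X] [DecidableEq X]

theorem inner_star_left (a : E →L[ℂ] E) (v w : E) : ⟪star a v, w⟫_ℂ = ⟪v, a w⟫_ℂ := by
  rw [ContinuousLinearMap.star_eq_adjoint, ContinuousLinearMap.adjoint_inner_left]

theorem inner_star_right (a : E →L[ℂ] E) (v w : E) : ⟪v, star a w⟫_ℂ = ⟪a v, w⟫_ℂ := by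
  rw [ContinuousLinearMap.star_eq_adjoint, ContinuousLinearMap.adjoint_inner_right]

theorem opM_star (M : Matrix X X (E →L[ℂ] E)) : opM (star M) = star (opM M) := by
  apply ContinuousLinearMap.ext
  intro v
  apply ext_inner_left ℂ
  intro w
  rw [inner_star_right, amp_inner, amp_inner]
  simp only [opM_apply, sum_inner, inner_sum]
  rw [Finset.sum_comm]
  apply Finset.sum_congr rfl
  intro x _
  apply Finset.sum_congr rfl
  intro y _
  rw [Matrix.star_apply, inner_star_right]

theorem tw_star (a : E →L[ℂ] E) (σ : Equiv.Perm X) : star (tw a σ) = tw (star a) σ⁻¹ := by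
  apply ContinuousLinearMap.ext
  intro v
  apply ext_inner_left ℂ
  intro w
  rw [inner_star_right, amp_inner, amp_inner]
  simp only [tw_apply]
  rw [← Equiv.sum_comp σ]
  apply Finset.sum_congr rfl
  intro x _
  rw [inner_star_right, Equiv.symm_apply_apply]
  rfl

theorem P1_star : star (P1 E X) = P1 E X := by
  rw [P1, ← opM_star]
  congr 1
  ext x y : 2
  rw [Matrix.star_apply]
  simp [P1M]

end star

end CA
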