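import Pool.Agent.Helper33.CA.Basic

/-! Module CONC1 (MP_464bf1_lc): exact relations of the matrices `W_n`. -/

namespace CA

set_option linter.unusedSectionVars false

variable {H : Type*} [NormedAddCommGroup H] [InnerProductSpace ℂ H] [CompleteSpace H]
  {p : ℕ} [Fact p.Prime] {X : ℕ → Type} [∀ n, Fintype (X n)] [∀ n, DecidableEq (X n)]
  [∀ n, Nontrivial (X n)]
  {P : ∀ n, KMS p (Equiv.Perm (X n))} {V : ∀ n, X n → X n → (H →L[ℂ] H)}
  {U : (∀ n, Equiv.Perm (X n)) →* (H →L[ℂ] H)} {J S : H →L[ℂ] H}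

/-- The coefficients `δ_{xy} - 1/|X|`. -/
noncomputable def conc1c {Y : Type} [Fintype Y] [DecidableEq Y] (x y : Y) : ℂ :=
  (if x = y then (1 : ℂ) else 0) - (Fintype.card Y : ℂ)⁻¹

theorem conc1c_star {Y : Type} [Fintype Y] [DecidableEq Y] (x y : Y) :
    star (conc1c x y) = conc1c x y := by
  unfold conc1c
  rw [star_sub, star_inv₀]
  split_ifs <;> simp

theorem conc1c_perm {Y : Type} [Fintype Y] [DecidableEq Y] (σ : Equiv.Perm Y) (x y : Y) :
    conc1c (σ x) (σ y) = conc1c x y := by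
  unfold conc1c
  simp

theorem conc1c_sum_left {Y : Type} [Fintype Y] [DecidableEq Y] [Nonempty Y] (y : Y) :
    ∑ x, conc1c x y = 0 := by
  unfold conc1c
  rw [Finset.sum_sub_distrib]
  simp

theorem conc1c_sum_right {Y : Type} [Fintype Y] [DecidableEq Y] [Nonempty Y] (x : Y) :
    ∑ y, conc1c x y = 0 := by
  unfold conc1c
  rw [Finset.sum_sub_distrib]
  simp

theorem conc1c_sq {Y : Type} [Fintype Y] [DecidableEq Y] [Nonempty Y] (x : Y) :
    ∑ y, conc1c x y * conc1c x y = 1 - (Fintype.card Y : ℂ)⁻¹ := by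
  have h : ∀ y, conc1c x y * conc1c x y =
      (if x = y then (1 : ℂ) else 0) * (1 - 2 * (Fintype.card Y : ℂ)⁻¹) +
        (Fintype.card Y : ℂ)⁻¹ ^ 2 := by
    intro y
    unfold conc1c
    split_ifs <;> ring
  rw [Finset.sum_congr rfl fun y _ => h y, Finset.sum_add_distrib, ← Finset.sum_mul]
  have hN : (Fintype.card Y : ℂ) ≠ 0 := by simp
  simp only [Finset.sum_ite_eq, Finset.mem_univ, if_true, Finset.sum_const, Finset.card_univ,
    nsmul_eq_mul]
  field_simp
  ring

theorem conc1_W (V : ∀ n, X n → X n → (H →L[ℂ] H)) (n : ℕ) (x j : X n) :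
    Wm V n x j = (((√((Fintype.card (X n) : ℝ) - 1))⁻¹ : ℝ) : ℂ) •
      ∑ y, conc1c x y • V n y j := rfl

theorem conc1_vv (h : Frame V U J S) (n : ℕ) (y j y' j' : X n) :
    star (V n y j) * V n y' j' = if y = y' ∧ j = j' then 1 else 0 := by
  split_ifs with h1
  · obtain ⟨rfl, rfl⟩ := h1
    exact h.v_iso n y j
  · apply h.v_orth
    by_contra h2
    push Not at h2
    exact h1 h2

theorem conc1_kap (n : ℕ) : ((((√((Fintype.card (X n) : ℝ) - 1))⁻¹ : ℝ) : ℂ)) *
    (((√((Fintype.card (X n) : ℝ) - 1))⁻¹ : ℝ) : ℂ) = ((Fintype.card (X n) : ℂ) - 1)⁻¹ := by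
  rw [← Complex.ofReal_mul, ← mul_inv, Real.mul_self_sqrt]
  · push_cast
    rfl
  · have : 1 ≤ Fintype.card (X n) := Fintype.card_pos
    have : (1 : ℝ) ≤ Fintype.card (X n) := by exact_mod_cast this
    linarith

theorem conc1_star_W (V : ∀ n, X n → X n → (H →L[ℂ] H)) (n : ℕ) (x j : X n) :
    star (Wm V n x j) = (((√((Fintype.card (X n) : ℝ) - 1))⁻¹ : ℝ) : ℂ) •
      ∑ y, conc1c x y • star (V n y j) := by
  rw [conc1_W, star_smul, star_sum]
  congr 1
  · simp
  · refine Finset.sum_congr rfl fun y _ => ?_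
    rw [star_smul, conc1c_star]

theorem W_iso (h : Frame V U J S) (n : ℕ) : star (Wm V n) * Wm V n = 1 := by
  have hN : (Fintype.card (X n) : ℂ) ≠ 0 := by simp
  have hN1 : (Fintype.card (X n) : ℂ) - 1 ≠ 0 := by
    have h1 : 1 < Fintype.card (X n) := Fintype.one_lt_card
    intro h0
    have h2 : (Fintype.card (X n) : ℂ) = 1 := sub_eq_zero.1 h0
    have h3 : Fintype.card (X n) = 1 := by exact_mod_cast h2
    omega
  apply Matrix.ext
  intro j j'
  rw [Matrix.mul_apply, Matrix.one_apply]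
  have key : ∀ x, star (Wm V n) j x * Wm V n x j' =
      (((Fintype.card (X n) : ℂ) - 1)⁻¹ * (1 - (Fintype.card (X n) : ℂ)⁻¹)) •
        (if j = j' then (1 : H →L[ℂ] H) else 0) := by
    intro x
    rw [Matrix.star_apply, conc1_star_W, conc1_W, smul_mul_smul_comm, conc1_kap, mul_smul]
    congr 1
    rw [Finset.sum_mul_sum]
    simp only [smul_mul_smul_comm, conc1_vv h]
    have : ∀ y : X n, ∑ y', (conc1c x y * conc1c x y') •
        (if y = y' ∧ j = j' then (1 : H →L[ℂ] H) else 0) =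
        (conc1c x y * conc1c x y) • (if j = j' then (1 : H →L[ℂ] H) else 0) := by
      intro y
      rw [Finset.sum_eq_single y]
      · simp
      · intro y' _ hy'
        rw [if_neg (fun hh => hy' hh.1.symm), smul_zero]
      · simp
    rw [Finset.sum_congr rfl fun y _ => this y, ← Finset.sum_smul, conc1c_sq]
  rw [Finset.sum_congr rfl fun x _ => key x, Finset.sum_const, Finset.card_univ,
    ← Nat.cast_smul_eq_nsmul ℂ, smul_smul]
  have : (Fintype.card (X n) : ℂ) *
      (((Fintype.card (X n) : ℂ) - 1)⁻¹ * (1 - (Fintype.card (X n) : ℂ)⁻¹)) = 1 := by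
    field_simp
  rw [this, one_smul]

theorem conc1_tw_mul (a : H →L[ℂ] H) {n : ℕ} (σ : Equiv.Perm (X n))
    (M : Matrix (X n) (X n) (H →L[ℂ] H)) (x j : X n) :
    (twM a σ * M) x j = a * M (σ.symm x) j := by
  rw [Matrix.mul_apply, Finset.sum_eq_single (σ.symm x)]
  · simp [twM]
  · intro y _ hy
    have : σ y ≠ x := by
      intro h; apply hy; rw [← h]; simp
    simp [twM, this]
  · simp

theorem conc1_mul_tw (a : H →L[ℂ] H) {n : ℕ}
    (M : Matrix (X n) (X n) (H →L[ℂ] H)) (x j : X n) :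
    (M * twM a (1 : Equiv.Perm (X n))) x j = M x j * a := by
  rw [Matrix.mul_apply, Finset.sum_eq_single j]
  · simp [twM]
  · intro y _ hy
    have : (1 : Equiv.Perm (X n)) j ≠ y := fun h => hy h.symm
    simp [twM, hy.symm]
  · simp

theorem conc1_J_pow (h : Frame V U J S) (n : ℕ) (y j : X n) (M : ℕ) :
    J ^ M * V n y j = V n y j * S ^ M := by
  induction M with
  | zero => simp
  | succ M ih => rw [pow_succ, mul_assoc, h.j_v, ← mul_assoc, ih, mul_assoc, ← pow_succ]

theorem W_J (h : Frame V U J S) (n : ℕ) (M : ℕ) :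
    twM (J ^ M) 1 * Wm V n = Wm V n * twM (S ^ M) 1 := by
  apply Matrix.ext
  intro x j
  rw [conc1_tw_mul, conc1_mul_tw]
  have : (Equiv.symm (1 : Equiv.Perm (X n))) x = x := rfl
  rw [this, conc1_W, mul_smul_comm, smul_mul_assoc, Finset.mul_sum, Finset.sum_mul]
  congr 1
  refine Finset.sum_congr rfl fun y _ => ?_
  rw [mul_smul_comm, smul_mul_assoc, conc1_J_pow h]

theorem conc1_inv (h : Frame V U J S) (n : ℕ) (σ : ∀ n, Equiv.Perm (X n)) :
    twM (U σ) (σ n) * Wm V n = Wm V n := by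
  apply Matrix.ext
  intro x j
  rw [conc1_tw_mul, conc1_W, conc1_W, mul_smul_comm, Finset.mul_sum]
  congr 1
  rw [← Equiv.sum_comp (σ n).symm]
  rw [← Equiv.sum_comp (σ n) (fun y => conc1c x y • V n y j)]
  rw [← Equiv.sum_comp (σ n).symm (fun y => conc1c x (σ n y) • V n (σ n y) j)]
  refine Finset.sum_congr rfl fun y _ => ?_
  rw [mul_smul_comm, h.u_v]
  simp only [Equiv.apply_symm_apply]
  rw [← conc1c_perm (σ n) ((σ n).symm x) ((σ n).symm y)]
  simp only [Equiv.apply_symm_apply]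

theorem conc1_e (h : Frame V U J S) (n : ℕ) (i : Fin 3) :
    eM (xK P U).g (P n) i * Wm V n = Wm V n := by
  unfold eM
  rw [smul_mul_assoc, Finset.sum_mul]
  have : ∀ k, twM ((xK P U).g i k) ((P n).g i k) * Wm V n = Wm V n := by
    intro k
    exact conc1_inv h n (fun m => (P m).g i k)
  rw [Finset.sum_congr rfl fun k _ => this k, Finset.sum_const, Finset.card_univ, ZMod.card,
    ← Nat.cast_smul_eq_nsmul ℂ, smul_smul]
  have hp : (p : ℂ) ≠ 0 := by
    exact_mod_cast (Fact.out : p.Prime).ne_zero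
  rw [inv_mul_cancel₀ hp, one_smul]

theorem conc1_P1 (V : ∀ n, X n → X n → (H →L[ℂ] H)) (n : ℕ) : P1M H (X n) * Wm V n = 0 := by
  apply Matrix.ext
  intro x j
  rw [Matrix.mul_apply]
  simp only [P1M, smul_mul_assoc, one_mul, conc1_W, Matrix.zero_apply]
  rw [← Finset.smul_sum, ← Finset.smul_sum, Finset.sum_comm]
  simp only [← Finset.sum_smul, conc1c_sum_left, zero_smul, Finset.sum_const_zero, smul_zero]

theorem D_W (h : Frame V U J S) (n : ℕ) : DM (xK P U).g (P n) * Wm V n = 0 := by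
  unfold DM
  rw [add_mul, Finset.sum_mul, conc1_P1, add_zero]
  refine Finset.sum_eq_zero fun i _ => ?_
  rw [sub_mul, one_mul, conc1_e h, sub_self]

end CA
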