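import Pool.Agent.Helper33.CA.INTER
import Pool.Agent.Helper33.CA.CONC1

/-! Module CONC2 (MP_464bf1_lc): invariant vectors are in the range of `W_n`. -/

namespace CA

set_option linter.unusedSectionVars false

open scoped InnerProductSpace

variable {H : Type*} [NormedAddCommGroup H] [InnerProductSpace ℂ H] [CompleteSpace H]
  {p : ℕ} [Fact p.Prime] {X : ℕ → Type} [∀ n, Fintype (X n)] [∀ n, DecidableEq (X n)]
  {P : ∀ n, KMS p (Equiv.Perm (X n))} {V : ∀ n, X n → X n → (H →L[ℂ] H)}
  {U : (∀ n, Equiv.Perm (X n)) →* (H →L[ℂ] H)} {J S : H →L[ℂ] H}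

theorem conc2_starV (h : Frame V U J S) (τ : ∀ n, Equiv.Perm (X n)) (m : ℕ) (y j : X m) (w : H) :
    star (V m (τ m y) j) (U τ w) = star (V m y j) w := by
  have e : star (V m (τ m y) j) * U τ = star (V m y j) := by
    rw [← star_star (U τ), ← star_mul, h.u_star, h.u_v]
    simp
  rw [← e]
  rfl

theorem conc2_inv (h : Frame V U J S) {n : ℕ} {v : Amp H (X n)}
    (hv : ∀ i k, tw ((xK P U).g i k) ((P n).g i k) v = v) (m : ℕ) (j y : X m) (x : X n)
    (i : Fin 3) (k : ZMod p) :
    star (V m ((P m).g i k y) j) (v ((P n).g i k x)) = star (V m y j) (v x) := by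
  have h1 : v ((P n).g i k x) = U ((prodKMS P).g i k) (v x) := by
    have h2 := congrArg (fun w : Amp H (X n) => w ((P n).g i k x)) (hv i k)
    simp only [tw_apply, Equiv.symm_apply_apply] at h2
    rw [← h2]
    rfl
  rw [h1]
  exact conc2_starV h ((prodKMS P).g i k) m y j (v x)

theorem conc2_sum {n : ℕ} [Nonempty (X n)] {v : Amp H (X n)} (hP : P1 H (X n) v = 0) :
    ∑ x, v x = 0 := by
  obtain ⟨x⟩ := ‹Nonempty (X n)›
  have h2 := congrArg (fun w : Amp H (X n) => w x) hP
  simp only [P1_apply, PiLp.zero_apply, smul_eq_zero, inv_eq_zero, Nat.cast_eq_zero] at h2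
  rcases h2 with h2 | h2
  · exact absurd h2 (Fintype.card_ne_zero)
  · exact h2

/-- For `m ≠ n` all the components vanish. -/
theorem conc2_ne (h : Frame V U J S) (h2 : ∀ n, TwoTrans (P n))
    (ho : ∀ n, Odd (Fintype.card (X n)))
    (h3 : ∀ n, 3 ≤ Fintype.card (X n)) (hinj : Function.Injective (fun n => Fintype.card (X n)))
    {n : ℕ} {v : Amp H (X n)}
    (hv : ∀ i k, tw ((xK P U).g i k) ((P n).g i k) v = v) (hP : P1 H (X n) v = 0)
    {m : ℕ} (hmn : m ≠ n) (j y : X m) (x : X n) : star (V m y j) (v x) = 0 := by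
  have : Nonempty (X n) := Fintype.card_pos_iff.1 (by have := h3 n; omega)
  apply ext_inner_left ℂ
  intro w
  rw [inner_zero_right]
  refine inter_zero (P m) (P n) (h2 m) (h2 n) (ho m) (ho n) (h3 m) (h3 n)
    (fun e => hmn (hinj e)) (fun y x => ⟪w, star (V m y j) (v x)⟫_ℂ) ?_ ?_ y x
  · intro i k y x
    simp only [conc2_inv h hv]
  · intro y
    rw [← inner_sum, ← map_sum, conc2_sum hP, map_zero, inner_zero_right]

/-- For `m = n` the components are multiples of `δ_{xy} - 1/|X|`. -/
theorem conc2_eq (h : Frame V U J S) (h2 : ∀ n, TwoTrans (P n))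
    (h3 : ∀ n, 3 ≤ Fintype.card (X n))
    {n : ℕ} {v : Amp H (X n)}
    (hv : ∀ i k, tw ((xK P U).g i k) ((P n).g i k) v = v) (hP : P1 H (X n) v = 0)
    (j : X n) (w : H) :
    ∃ c : ℂ, ∀ x y : X n, ⟪w, star (V n y j) (v x)⟫_ℂ = conc1c x y * c := by
  have : Nonempty (X n) := Fintype.card_pos_iff.1 (by have := h3 n; omega)
  obtain ⟨a, b, hab⟩ := h2 n (fun y x => ⟪w, star (V n y j) (v x)⟫_ℂ)
    (fun i k y x => by simp only [conc2_inv h hv])
  have hN : (Fintype.card (X n) : ℂ) ≠ 0 := by simp
  have hs : ∀ y : X n, ∑ x : X n, (if y = x then a else b) = 0 := by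
    intro y
    rw [← Finset.sum_congr rfl fun x _ => hab y x, ← inner_sum, ← map_sum, conc2_sum hP, map_zero,
      inner_zero_right]
  obtain ⟨y0⟩ := ‹Nonempty (X n)›
  have hs0 := hs y0
  have e1 : ∀ x : X n, (if y0 = x then a else b) = (if y0 = x then a - b else 0) + b := by
    intro x
    split_ifs <;> ring
  rw [Finset.sum_congr rfl fun x _ => e1 x, Finset.sum_add_distrib, Finset.sum_ite_eq,
    if_pos (Finset.mem_univ _), Finset.sum_const, Finset.card_univ, nsmul_eq_mul] at hs0
  have hb : b = - (Fintype.card (X n) : ℂ)⁻¹ * (a - b) := by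
    field_simp
    linear_combination hs0
  refine ⟨a - b, fun x y => ?_⟩
  rw [hab y x]
  unfold conc1c
  by_cases hxy : x = y
  · subst hxy
    simp only [if_true]
    linear_combination hb
  · rw [if_neg hxy, if_neg (fun e => hxy e.symm)]
    linear_combination hb

theorem D_ker (h : Frame V U J S) (h2 : ∀ n, TwoTrans (P n)) (ho : ∀ n, Odd (Fintype.card (X n)))
    (h3 : ∀ n, 3 ≤ Fintype.card (X n)) (hinj : Function.Injective (fun n => Fintype.card (X n)))
    (n : ℕ) (v : Amp H (X n))
    (hv : ∀ i k, tw ((xK P U).g i k) ((P n).g i k) v = v) (hP : P1 H (X n) v = 0) :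
    opM (Wm V n) (opM (star (Wm V n)) v) = v := by
  have : ∀ n, Nontrivial (X n) := fun n =>
    Fintype.one_lt_card_iff_nontrivial.1 (by have := h3 n; omega)
  set κ : ℂ := (((√((Fintype.card (X n) : ℝ) - 1))⁻¹ : ℝ) : ℂ) with hκ
  have hκκ : κ * κ = ((Fintype.card (X n) : ℂ) - 1)⁻¹ := conc1_kap n
  set u : Amp H (X n) := opM (star (Wm V n)) v with hu
  have huj : ∀ j, u j = κ • ∑ x, ∑ y, conc1c x y • star (V n y j) (v x) := by
    intro j
    rw [hu, opM_apply, Finset.smul_sum]
    refine Finset.sum_congr rfl fun x _ => ?_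
    rw [Matrix.star_apply, conc1_star_W]
    simp [sum_apply, hκ]
  have hWu : ∀ x, opM (Wm V n) u x = ∑ j, κ • ∑ y, conc1c x y • V n y j (u j) := by
    intro x
    rw [opM_apply]
    refine Finset.sum_congr rfl fun j _ => ?_
    rw [conc1_W]
    simp [sum_apply, hκ]
  ext x
  apply sub_eq_zero.1
  apply h.v_total
  intro m y' j'
  rw [map_sub, sub_eq_zero]
  by_cases hmn : m = n
  · subst hmn
    have e1 : star (V m y' j') (opM (Wm V m) u x) = (κ * conc1c x y') • u j' := by
      rw [hWu, map_sum, Finset.sum_eq_single j']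
      · rw [map_smul, map_sum, Finset.sum_eq_single y']
        · rw [map_smul, smul_smul]
          congr 1
          have := congrArg (fun T : H →L[ℂ] H => T (u j')) (h.v_iso m y' j')
          simpa using this
        · intro y _ hy
          rw [map_smul]
          have := congrArg (fun T : H →L[ℂ] H => T (u j')) (h.v_orth m y' j' y j' (Or.inl hy.symm))
          have h0 : star (V m y' j') (V m y j' (u j')) = 0 := by simpa using this
          rw [h0, smul_zero]
        · simp
      · intro j _ hj
        rw [map_smul, map_sum]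
        have : ∀ y, star (V m y' j') (conc1c x y • V m y j (u j)) = 0 := by
          intro y
          rw [map_smul]
          have := congrArg (fun T : H →L[ℂ] H => T (u j)) (h.v_orth m y' j' y j (Or.inr hj.symm))
          have h0 : star (V m y' j') (V m y j (u j)) = 0 := by simpa using this
          rw [h0, smul_zero]
        simp [this]
      · simp
    rw [e1]
    apply ext_inner_left ℂ
    intro w
    obtain ⟨c, hc⟩ := conc2_eq h h2 h3 hv hP j' w
    rw [hc x y', huj, smul_smul, inner_smul_right]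
    simp only [inner_sum, inner_smul_right, hc]
    have hN : (Fintype.card (X m) : ℂ) ≠ 0 := by simp
    have hN1 : (Fintype.card (X m) : ℂ) - 1 ≠ 0 := by
      have h1 : 1 < Fintype.card (X m) := Fintype.one_lt_card
      intro h0
      have h2 : (Fintype.card (X m) : ℂ) = 1 := sub_eq_zero.1 h0
      have h3 : Fintype.card (X m) = 1 := by exact_mod_cast h2
      omega
    have e2 : ∑ x : X m, ∑ y : X m, conc1c x y * (conc1c x y * c) =
        ((Fintype.card (X m) : ℂ) - 1) * c := by
      have : ∀ x : X m, ∑ y : X m, conc1c x y * (conc1c x y * c) =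
          (1 - (Fintype.card (X m) : ℂ)⁻¹) * c := by
        intro x
        rw [← conc1c_sq x, Finset.sum_mul]
        exact Finset.sum_congr rfl fun y _ => by ring
      rw [Finset.sum_congr rfl fun x _ => this x, Finset.sum_const, Finset.card_univ, nsmul_eq_mul]
      field_simp
    rw [e2]
    have e3 : κ * conc1c x y' * κ * (((Fintype.card (X m) : ℂ) - 1) * c) =
        (κ * κ * ((Fintype.card (X m) : ℂ) - 1)) * (conc1c x y' * c) := by ring
    rw [e3, hκκ, inv_mul_cancel₀ hN1, one_mul]
  · rw [conc2_ne h h2 ho h3 hinj hv hP hmn, hWu, map_sum]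
    refine Finset.sum_eq_zero fun j _ => ?_
    rw [map_smul, map_sum]
    have : ∀ y, star (V m y' j') (conc1c x y • V n y j (u j)) = 0 := by
      intro y
      rw [map_smul]
      have := congrArg (fun T : H →L[ℂ] H => T (u j)) (h.v_orth' m n y' j' y j hmn)
      have h0 : star (V m y' j') (V n y j (u j)) = 0 := by simpa using this
      rw [h0, smul_zero]
    simp [this]

end CA
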