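import Pool.Agent.Helper33.CA.Basic

/-! Module GAP (MP_464bf1_lc): positive operators with `D² ≥ ε D`. -/

namespace CA

open scoped InnerProductSpace

variable {G : Type*} [NormedAddCommGroup G] [InnerProductSpace ℂ G] [CompleteSpace G]

theorem gap_norm_sqrt (D : G →L[ℂ] G) (hD : 0 ≤ D) (v : G) :
    ‖CFC.sqrt D v‖ ^ 2 = (⟪D v, v⟫_ℂ).re := by
  have hR : IsSelfAdjoint (CFC.sqrt D) := IsSelfAdjoint.of_nonneg (CFC.sqrt_nonneg D)
  have hRR : CFC.sqrt D * CFC.sqrt D = D := CFC.sqrt_mul_sqrt_self D hD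
  have h1 : ⟪D v, v⟫_ℂ = ⟪CFC.sqrt D v, CFC.sqrt D v⟫_ℂ := by
    conv_lhs => rw [← hRR]
    rw [← inner_star_left, hR.star_eq]
    rfl
  rw [h1, inner_self_eq_norm_sq_to_K]
  norm_cast

theorem gap_symm (D : G →L[ℂ] G) (hD : 0 ≤ D) (v w : G) :
    ⟪D v, w⟫_ℂ = ⟪v, D w⟫_ℂ := by
  rw [← inner_star_left, (IsSelfAdjoint.of_nonneg hD).star_eq]

theorem gap_lemma (D : G →L[ℂ] G) (hD : 0 ≤ D) {ε : ℝ} (hε : 0 < ε)
    (h : ∀ v, ε * (⟪D v, v⟫_ℂ).re ≤ ‖D v‖ ^ 2) :
    ∀ v ∈ (LinearMap.ker D.toLinearMap)ᗮ, ε * ‖v‖ ^ 2 ≤ (⟪D v, v⟫_ℂ).re := by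
  intro v hv
  set R := CFC.sqrt D with hRdef
  have hR : IsSelfAdjoint R := IsSelfAdjoint.of_nonneg (CFC.sqrt_nonneg D)
  have hRR : R * R = D := CFC.sqrt_mul_sqrt_self D hD
  have hker : LinearMap.ker D.toLinearMap = R.ker := by
    ext x
    simp only [LinearMap.mem_ker, ContinuousLinearMap.coe_coe]
    constructor
    · intro hx
      have := gap_norm_sqrt D hD x
      rw [hx, inner_zero_left] at this
      simpa using this
    · intro hx
      rw [← hRR]
      show R (R x) = 0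
      rw [hx, map_zero]
  have hv2 : v ∈ closure (Set.range R) := by
    rw [hker, ContinuousLinearMap.orthogonal_ker] at hv
    rw [← ContinuousLinearMap.star_eq_adjoint, hR.star_eq] at hv
    exact hv
  rw [← gap_norm_sqrt D hD v]
  have hcl : IsClosed {w : G | ε * ‖w‖ ^ 2 ≤ ‖R w‖ ^ 2} := by
    apply isClosed_le <;> fun_prop
  have hsub : Set.range R ⊆ {w : G | ε * ‖w‖ ^ 2 ≤ ‖R w‖ ^ 2} := by
    rintro _ ⟨x, rfl⟩
    show ε * ‖R x‖ ^ 2 ≤ ‖R (R x)‖ ^ 2
    have e1 : R (R x) = D x := by rw [← hRR]; rfl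
    rw [e1, gap_norm_sqrt D hD x]
    exact h x
  exact hcl.closure_subset_iff.mpr hsub hv2

theorem gap_dist (D : G →L[ℂ] G) (hD : 0 ≤ D) {ε : ℝ} (hε : 0 < ε)
    (h : ∀ v, ε * (⟪D v, v⟫_ℂ).re ≤ ‖D v‖ ^ 2) (v : G) :
    ∃ w, D w = 0 ∧ ε * ‖v - w‖ ≤ ‖D v‖ := by
  set K : Submodule ℂ G := LinearMap.ker D.toLinearMap with hK
  have hcl : IsClosed (K : Set G) := ContinuousLinearMap.isClosed_ker D
  have : CompleteSpace K := hcl.completeSpace_coe
  have h0 : D (K.starProjection v) = 0 :=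
    LinearMap.mem_ker.mp (Submodule.starProjection_apply_mem K v)
  refine ⟨K.starProjection v, h0, ?_⟩
  have h1 := gap_lemma D hD hε h (v - K.starProjection v)
    (Submodule.sub_starProjection_mem_orthogonal v)
  have h2 : D (v - K.starProjection v) = D v := by rw [map_sub, h0, sub_zero]
  rw [h2] at h1
  have h3 : (⟪D v, v - K.starProjection v⟫_ℂ).re ≤ ‖D v‖ * ‖v - K.starProjection v‖ :=
    (Complex.re_le_norm _).trans (norm_inner_le_norm _ _)
  rcases eq_or_lt_of_le (norm_nonneg (v - K.starProjection v)) with h4 | h4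
  · rw [← h4, mul_zero]; exact norm_nonneg _
  · have h5 : ε * ‖v - K.starProjection v‖ * ‖v - K.starProjection v‖ ≤
      ‖D v‖ * ‖v - K.starProjection v‖ := by nlinarith
    exact le_of_mul_le_mul_right h5 h4

theorem gap_isometry (D W : G →L[ℂ] G) (hD : 0 ≤ D) {ε : ℝ} (hε : 0 < ε)
    (h : ∀ v, ε * (⟪D v, v⟫_ℂ).re ≤ ‖D v‖ ^ 2) (hW : star W * W = 1) (hDW : D * W = 0)
    (hker : ∀ v, D v = 0 → W (star W v) = v) :
    ∃ Y : G →L[ℂ] G, D - (ε : ℂ) • (1 - W * star W) = star Y * Y := by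
  have hsD : IsSelfAdjoint D := IsSelfAdjoint.of_nonneg hD
  have hT : 0 ≤ D - (ε : ℂ) • (1 - W * star W) := by
    rw [ContinuousLinearMap.nonneg_iff_isPositive, ContinuousLinearMap.isPositive_def']
    refine ⟨?_, ?_⟩
    · apply IsSelfAdjoint.sub hsD
      apply IsSelfAdjoint.smul
      · rw [isSelfAdjoint_iff]; simp
      · apply IsSelfAdjoint.sub (IsSelfAdjoint.one _)
        exact IsSelfAdjoint.mul_star_self W
    · intro v
      set v' := v - W (star W v) with hv'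
      have hWv : star W v' = 0 := by
        have := congrArg (fun T : G →L[ℂ] G => T (star W v)) hW
        simp only [mul_apply_eq_comp, one_apply_eq_self] at this
        rw [hv', map_sub, this, sub_self]
      have hDv : D v' = D v := by
        have : D (W (star W v)) = 0 := by
          have := congrArg (fun T : G →L[ℂ] G => T (star W v)) hDW
          simpa using this
        rw [hv', map_sub, this, sub_zero]
      have hmem : v' ∈ (LinearMap.ker D.toLinearMap)ᗮ := by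
        rw [Submodule.mem_orthogonal]
        intro u hu
        have hu' : D u = 0 := hu
        rw [← hker u hu', ← inner_star_right W, hWv, inner_zero_right]
      have h1 := gap_lemma D hD hε h v' hmem
      have e1 : ⟪D v, v⟫_ℂ = ⟪D v', v'⟫_ℂ := by
        rw [← hDv, gap_symm D hD v' v, ← hDv, ← gap_symm D hD]
      have e2 : ⟪v', v⟫_ℂ = ⟪v', v'⟫_ℂ := by
        have : v = v' + W (star W v) := by rw [hv']; abel
        conv_lhs => rw [this]
        rw [inner_add_right, ← inner_star_left W, hWv, inner_zero_left, add_zero]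
      have e3 : (D - (ε : ℂ) • (1 - W * star W)) v = D v - (ε : ℂ) • v' := by
        simp [hv']
      rw [ContinuousLinearMap.reApplyInnerSelf_apply, e3, inner_sub_left, inner_smul_left, e1, e2,
        inner_self_eq_norm_sq_to_K, map_sub]
      have e4 : RCLike.re ((starRingEnd ℂ) (ε : ℂ) * ((‖v'‖ : ℂ)) ^ 2) = ε * ‖v'‖ ^ 2 := by
        rw [Complex.conj_ofReal]
        norm_cast
      have e5 : RCLike.re (⟪D v', v'⟫_ℂ) = (⟪D v', v'⟫_ℂ).re := rfl
      erw [e4]
      rw [e5]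
      linarith
  refine ⟨CFC.sqrt (D - (ε : ℂ) • (1 - W * star W)), ?_⟩
  have hs : IsSelfAdjoint (CFC.sqrt (D - (ε : ℂ) • (1 - W * star W))) :=
    IsSelfAdjoint.of_nonneg (CFC.sqrt_nonneg _)
  rw [hs.star_eq]
  exact (CFC.sqrt_mul_sqrt_self _ hT).symm

end CA
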