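import Pool.Agent.Helper33.CA.SOS

/-! Module UGAP (MP_464bf1_lc): spectral gap of unitary KMS representations. -/

namespace CA

open scoped InnerProductSpace

section ring

variable {R : Type*} [Ring R] [StarRing R]

theorem ugap_sa_mul3 {A B Z : R} (hA : star A = A) (hB : star B = B) (hZ : star Z = Z)
    (hAB : A * B = B * A) (hAZ : A * Z = Z * A) (hBZ : B * Z = Z * B) :
    star (A * B * Z) = A * B * Z := by
  rw [star_mul, star_mul, hA, hB, hZ, ← hAB, mul_assoc A B Z, hBZ, ← mul_assoc A Z B, hAZ, mul_assoc]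

variable [Algebra ℂ R] [StarModule ℂ R]

theorem ugap_star_real_smul_one (c : ℝ) : star ((c : ℂ) • (1 : R)) = (c : ℂ) • (1 : R) := by
  rw [star_smul, star_one]
  congr 1
  exact Complex.conj_ofReal c

theorem ugap_sa {a ζ : R} (ha : star a = a) (hζ : star ζ = ζ) (hc : a * ζ = ζ * a) (c : ℝ)
    (j : Fin 4) :
    star ((![(2 - a) * (1 - a) * ζ, (2 - a) * a * ζ,
      (((1 + c : ℝ) : ℂ) • (1 : R) - a) * (((1 - c : ℝ) : ℂ) • (1 : R) - a) * (1 - ζ),
      (((1 + c : ℝ) : ℂ) • (1 : R) - a) * a * (1 - ζ)] : Fin 4 → R) j) =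
    (![(2 - a) * (1 - a) * ζ, (2 - a) * a * ζ,
      (((1 + c : ℝ) : ℂ) • (1 : R) - a) * (((1 - c : ℝ) : ℂ) • (1 : R) - a) * (1 - ζ),
      (((1 + c : ℝ) : ℂ) • (1 : R) - a) * a * (1 - ζ)] : Fin 4 → R) j := by
  have h2 : star (2 - a) = 2 - a := by rw [star_sub, ha]; simp
  have h1 : star (1 - a) = 1 - a := by rw [star_sub, ha, star_one]
  have hp : star (((1 + c : ℝ) : ℂ) • (1 : R) - a) = ((1 + c : ℝ) : ℂ) • (1 : R) - a := by
    rw [star_sub, ha, ugap_star_real_smul_one]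
  have hm : star (((1 - c : ℝ) : ℂ) • (1 : R) - a) = ((1 - c : ℝ) : ℂ) • (1 : R) - a := by
    rw [star_sub, ha, ugap_star_real_smul_one]
  have hz : star (1 - ζ) = 1 - ζ := by rw [star_sub, hζ, star_one]
  have c2 : (2 - a) * ζ = ζ * (2 - a) := by
    rw [sub_mul, mul_sub, hc, two_mul, mul_two]
  have c1 : (1 - a) * ζ = ζ * (1 - a) := by
    rw [sub_mul, mul_sub, hc, one_mul, mul_one]
  have cs : ∀ (d : ℂ) (x : R), (d • (1 : R) - a) * x = d • x - a * x := by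
    intro d x; rw [sub_mul, smul_mul_assoc, one_mul]
  have cs' : ∀ (d : ℂ) (x : R), x * (d • (1 : R) - a) = d • x - x * a := by
    intro d x; rw [mul_sub, mul_smul_comm, mul_one]
  have cz : a * (1 - ζ) = (1 - ζ) * a := by
    rw [sub_mul, mul_sub, hc, one_mul, mul_one]
  have cp : ∀ d : ℂ, (d • (1 : R) - a) * (1 - ζ) = (1 - ζ) * (d • (1 : R) - a) := by
    intro d; rw [cs, cs', cz]
  fin_cases j
  · refine ugap_sa_mul3 h2 h1 hζ ?_ c2 c1
    have e2 : (2 : R) - a = 1 + (1 - a) := by rw [← add_sub_assoc, one_add_one_eq_two]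
    rw [e2, add_mul, mul_add, one_mul, mul_one]
  · exact ugap_sa_mul3 h2 ha hζ (by noncomm_ring) c2 hc
  · refine ugap_sa_mul3 hp hm hz ?_ (cp _) (cp _)
    rw [cs, cs, mul_sub, mul_sub, mul_smul_comm, mul_smul_comm, mul_one, smul_sub, smul_sub,
      smul_comm]
    abel
  · exact ugap_sa_mul3 hp ha hz (by rw [cs, cs']) (cp _) cz

end ring

section star

variable {R : Type*} [Ring R] [StarRing R] [Algebra ℂ R] [StarModule ℂ R] {p : ℕ} [NeZero p]

theorem ugap_star_e (K : KMS p R) (hg : ∀ i k, star (K.g i k) = K.g i (-k)) (i : Fin 3) :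
    star (K.e ℂ i) = K.e ℂ i := by
  unfold KMS.e
  rw [star_smul, star_sum]
  congr 1
  · simp
  · rw [← Equiv.sum_comp (Equiv.neg (ZMod p))]
    refine Finset.sum_congr rfl fun k _ => ?_
    rw [hg]
    simp

theorem ugap_star_ze (K : KMS p R) (hz : ∀ i k, star (K.z i k) = K.z i (-k)) (i : Fin 3) :
    star (K.ze ℂ i) = K.ze ℂ i := by
  unfold KMS.ze
  rw [star_smul, star_sum]
  congr 1
  · simp
  · rw [← Equiv.sum_comp (Equiv.neg (ZMod p))]
    refine Finset.sum_congr rfl fun k _ => ?_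
    rw [hz]
    simp

end star

theorem ugap_star_sq {R : Type*} [Ring R] [StarRing R] [Algebra ℂ R] [StarModule ℂ R]
    {p : ℕ} [Fact p.Prime] (K : KMS p R)
    (hg : ∀ i k, star (K.g i k) = K.g i (-k)) (hz : ∀ i k, star (K.z i k) = K.z i (-k)) (c : ℝ)
    (i : Fin 3) (j : Fin 4) : star (K.sq (c : ℂ) i j) = K.sq (c : ℂ) i j := by
  have h := ugap_sa (a := K.e ℂ i + K.e ℂ (i + 1)) (ζ := K.ze ℂ i)
    (by rw [star_add, ugap_star_e K hg, ugap_star_e K hg]) (ugap_star_ze K hz i)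
    (by rw [add_mul, mul_add, K.ze_comm_left, K.ze_comm_right]) c j
  unfold KMS.sq
  have e1 : ((1 + c : ℝ) : ℂ) = 1 + (c : ℂ) := by push_cast; ring
  have e2 : ((1 - c : ℝ) : ℂ) = 1 - (c : ℂ) := by push_cast; ring
  rw [e1, e2] at h
  exact h

theorem ugap_kap_nonneg {c : ℝ} (h0 : 0 < c) (h1 : c < 1) (j : Fin 4) : 0 ≤ kap c j := by
  have h2 : 0 < (1 - c) ^ 2 := by
    have : 0 < 1 - c := by linarith
    positivity
  unfold kap
  fin_cases j
  · show 0 ≤ (1 + c) / 2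
    positivity
  · exact h0.le
  · show 0 ≤ 2 / ((1 + c) * (1 - c) ^ 2)
    positivity
  · show 0 ≤ (1 + c) / (2 * c * (1 - c) ^ 2)
    positivity

theorem ugap_kap_cast (c : ℝ) (j : Fin 4) : kap (c : ℂ) j = ((kap c j : ℝ) : ℂ) := by
  unfold kap
  fin_cases j
  · show (1 + (c : ℂ)) / 2 = (((1 + c) / 2 : ℝ) : ℂ)
    push_cast; rfl
  · rfl
  · show (2 : ℂ) / ((1 + c) * (1 - c) ^ 2) = ((2 / ((1 + c) * (1 - c) ^ 2) : ℝ) : ℂ)
    push_cast; rfl
  · show (1 + (c : ℂ)) / (2 * c * (1 - c) ^ 2) = (((1 + c) / (2 * c * (1 - c) ^ 2) : ℝ) : ℂ)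
    push_cast; rfl

theorem ugap_cc {p : ℕ} (hp : 5 ≤ p) : 0 < cc p ∧ cc p < 1 / 2 ∧ cc p ^ 2 * (p : ℝ) = 1 := by
  have h1 : (5 : ℝ) ≤ p := by exact_mod_cast hp
  have h2 : (2 : ℝ) < √(p : ℝ) := by
    rw [Real.lt_sqrt (by norm_num)]; linarith
  have h3 : (0 : ℝ) < √(p : ℝ) := by linarith
  unfold cc
  refine ⟨by positivity, ?_, ?_⟩
  · rw [inv_lt_comm₀ h3 (by norm_num)]; linarith
  · rw [inv_pow, Real.sq_sqrt (by linarith)]
    field_simp

variable {G : Type*} [NormedAddCommGroup G] [InnerProductSpace ℂ G] [CompleteSpace G]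
  {p : ℕ} [Fact p.Prime]

theorem ugap_inner_sq (T : G →L[ℂ] G) (hT : star T = T) (v : G) :
    (⟪(T * T) v, v⟫_ℂ).re = ‖T v‖ ^ 2 := by
  have h1 : ⟪(T * T) v, v⟫_ℂ = ⟪T v, T v⟫_ℂ := by
    conv_lhs => rw [← hT]
    rw [hT]
    show ⟪T (T v), v⟫_ℂ = _
    conv_lhs => rw [← hT]
    rw [inner_star_left, hT]
  rw [h1, inner_self_eq_norm_sq_to_K]
  norm_cast

theorem ugap_ee {R : Type*} [Ring R] [Algebra ℂ R] (K : KMS p R) (i : Fin 3) :
    (1 - K.e ℂ i) * (1 - K.e ℂ i) = 1 - K.e ℂ i := by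
  rw [sub_mul, one_mul, mul_sub, mul_one, K.e_idem, sub_self, sub_zero]

theorem ugap_identity {R : Type*} [Ring R] [Algebra ℂ R] (K : KMS p R) (P : R)
    (hP2 : P * P = P) (hPc : ∀ i, P * K.e ℂ i = K.e ℂ i * P) (c : ℂ)
    (hc : c ^ 2 * (p : ℂ) = 1) (hc1 : 1 - c ≠ 0) (hc2 : 1 + c ≠ 0) :
    (∑ i, (1 - K.e ℂ i) + P) * (∑ i, (1 - K.e ℂ i) + P) -
      (1 - 2 * c) • (∑ i, (1 - K.e ℂ i) + P) =
      (∑ i, ∑ j, kap c j • (K.sq c i j * K.sq c i j)) + (2 : ℂ) • (∑ i, P * (1 - K.e ℂ i)) +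
        (2 * c) • P := by
  have h1 := K.sos c hc hc1 hc2
  set D0 := ∑ i, (1 - K.e ℂ i) with hD0
  have h2 : P * D0 = D0 * P := by
    rw [hD0, Finset.mul_sum, Finset.sum_mul]
    refine Finset.sum_congr rfl fun i _ => ?_
    rw [mul_sub, sub_mul, hPc, mul_one, one_mul]
  have h3 : ∑ i, P * (1 - K.e ℂ i) = P * D0 := by rw [hD0, Finset.mul_sum]
  rw [← h1, h3, add_mul, mul_add, mul_add, hP2, ← h2, smul_add, two_smul, sub_smul, sub_smul,
    one_smul, one_smul]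
  abel

theorem unitary_gap (hp : 5 ≤ p) (K : KMS p (G →L[ℂ] G)) (hg : ∀ i k, star (K.g i k) = K.g i (-k))
    (hz : ∀ i k, star (K.z i k) = K.z i (-k)) (P : G →L[ℂ] G) (hP1 : star P = P)
    (hP2 : P * P = P) (hPc : ∀ i, P * K.e ℂ i = K.e ℂ i * P) :
    0 ≤ ∑ i, (1 - K.e ℂ i) + P ∧ ∀ v : G,
      eps p * (⟪(∑ i, (1 - K.e ℂ i) + P) v, v⟫_ℂ).re ≤ ‖(∑ i, (1 - K.e ℂ i) + P) v‖ ^ 2 := by
  obtain ⟨hc0, hc12, hcp⟩ := ugap_cc hp
  have he : ∀ i, star (1 - K.e ℂ i) = 1 - K.e ℂ i := by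
    intro i
    rw [star_sub, star_one, ugap_star_e K hg]
  have hee : ∀ i, (1 - K.e ℂ i) * (1 - K.e ℂ i) = 1 - K.e ℂ i := ugap_ee K
  have hT1 : ∀ i, star (P * (1 - K.e ℂ i)) = P * (1 - K.e ℂ i) := by
    intro i
    rw [star_mul, he, hP1, mul_sub, sub_mul, hPc, one_mul, mul_one]
  have hT2 : ∀ i, (P * (1 - K.e ℂ i)) * (P * (1 - K.e ℂ i)) = P * (1 - K.e ℂ i) := by
    intro i
    have h1 : (1 - K.e ℂ i) * P = P * (1 - K.e ℂ i) := by
      rw [mul_sub, sub_mul, hPc, one_mul, mul_one]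
    calc (P * (1 - K.e ℂ i)) * (P * (1 - K.e ℂ i))
        = P * ((1 - K.e ℂ i) * P) * (1 - K.e ℂ i) := by simp only [mul_assoc]
      _ = (P * P) * ((1 - K.e ℂ i) * (1 - K.e ℂ i)) := by rw [h1]; simp only [mul_assoc]
      _ = P * (1 - K.e ℂ i) := by rw [hP2, hee]
  set D := ∑ i, (1 - K.e ℂ i) + P with hD
  have hDs : star D = D := by
    rw [hD, star_add, star_sum, hP1]
    congr 1
    exact Finset.sum_congr rfl fun i _ => he i
  constructor
  · have h1 : D = ∑ i, star (1 - K.e ℂ i) * (1 - K.e ℂ i) + star P * P := by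
      rw [hD, hP1, hP2]
      congr 1
      exact Finset.sum_congr rfl fun i _ => by rw [he, hee]
    rw [h1]
    exact add_nonneg (Finset.sum_nonneg fun i _ => star_mul_self_nonneg _) (star_mul_self_nonneg _)
  · intro v
    have hid := ugap_identity K P hP2 hPc ((cc p : ℝ) : ℂ) (by exact_mod_cast hcp)
      (by
        have : (1 : ℝ) - cc p ≠ 0 := by intro h; linarith
        exact_mod_cast this)
      (by
        have : (1 : ℝ) + cc p ≠ 0 := by intro h; linarith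
        exact_mod_cast this)
    rw [← hD] at hid
    have h2 := congrArg (fun T : G →L[ℂ] G => (⟪T v, v⟫_ℂ).re) hid
    have h3 : (⟪(D * D - (1 - 2 * ((cc p : ℝ) : ℂ)) • D) v, v⟫_ℂ).re =
        ‖D v‖ ^ 2 - eps p * (⟪D v, v⟫_ℂ).re := by
      have e1 : (1 - 2 * ((cc p : ℝ) : ℂ)) = ((eps p : ℝ) : ℂ) := by
        unfold eps; push_cast; ring
      rw [sub_apply, inner_sub_left, Complex.sub_re, ugap_inner_sq D hDs, e1, smul_apply,
        inner_smul_left, Complex.conj_ofReal, Complex.re_ofReal_mul]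
    have h4 : (⟪((∑ i, ∑ j, kap ((cc p : ℝ) : ℂ) j •
          (K.sq ((cc p : ℝ) : ℂ) i j * K.sq ((cc p : ℝ) : ℂ) i j)) +
          (2 : ℂ) • (∑ i, P * (1 - K.e ℂ i)) + (2 * ((cc p : ℝ) : ℂ)) • P) v, v⟫_ℂ).re =
        (∑ i, ∑ j, kap (cc p) j * ‖K.sq ((cc p : ℝ) : ℂ) i j v‖ ^ 2) +
          2 * (∑ i, ‖(P * (1 - K.e ℂ i)) v‖ ^ 2) + (2 * cc p) * ‖P v‖ ^ 2 := by
      rw [add_apply, add_apply, inner_add_left, inner_add_left, Complex.add_re, Complex.add_re]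
      congr 1
      · congr 1
        · rw [sum_apply, sum_inner, Complex.re_sum]
          refine Finset.sum_congr rfl fun i _ => ?_
          rw [sum_apply, sum_inner, Complex.re_sum]
          refine Finset.sum_congr rfl fun j _ => ?_
          rw [smul_apply, inner_smul_left, ugap_kap_cast, Complex.conj_ofReal,
            Complex.re_ofReal_mul, ugap_inner_sq _ (ugap_star_sq K hg hz _ i j)]
        · rw [smul_apply, inner_smul_left, sum_apply, sum_inner]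
          have e2 : (starRingEnd ℂ) 2 = ((2 : ℝ) : ℂ) := Complex.conj_ofReal 2
          rw [e2, Complex.re_ofReal_mul, Complex.re_sum]
          congr 1
          refine Finset.sum_congr rfl fun i _ => ?_
          rw [← ugap_inner_sq _ (hT1 i), hT2]
      · have e3 : (2 * ((cc p : ℝ) : ℂ)) = ((2 * cc p : ℝ) : ℂ) := by push_cast; ring
        rw [smul_apply, inner_smul_left, e3, Complex.conj_ofReal, Complex.re_ofReal_mul,
          ← ugap_inner_sq P hP1, hP2]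
    rw [h3, h4] at h2
    have h5 : 0 ≤ (∑ i, ∑ j, kap (cc p) j * ‖K.sq ((cc p : ℝ) : ℂ) i j v‖ ^ 2) :=
      Finset.sum_nonneg fun i _ => Finset.sum_nonneg fun j _ =>
        mul_nonneg (ugap_kap_nonneg hc0 (by linarith) j) (by positivity)
    have h6 : 0 ≤ (∑ i, ‖(P * (1 - K.e ℂ i)) v‖ ^ 2) :=
      Finset.sum_nonneg fun i _ => by positivity
    have h7 : 0 ≤ (2 * cc p) * ‖P v‖ ^ 2 := by positivity
    linarith

theorem unitary_ker (K : KMS p (G →L[ℂ] G)) (hg : ∀ i k, star (K.g i k) = K.g i (-k))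
    (P : G →L[ℂ] G) (hP1 : star P = P)
    (hP2 : P * P = P) (v : G) (hv : (∑ i, (1 - K.e ℂ i) + P) v = 0) :
    (∀ i k, K.g i k v = v) ∧ P v = 0 := by
  have he : ∀ i, star (1 - K.e ℂ i) = 1 - K.e ℂ i := by
    intro i
    rw [star_sub, star_one, ugap_star_e K hg]
  have hee : ∀ i, (1 - K.e ℂ i) * (1 - K.e ℂ i) = 1 - K.e ℂ i := ugap_ee K
  have h0 : (⟪(∑ i, (1 - K.e ℂ i) + P) v, v⟫_ℂ).re = ∑ i, ‖(1 - K.e ℂ i) v‖ ^ 2 + ‖P v‖ ^ 2 := by
    rw [add_apply, sum_apply, inner_add_left, sum_inner, Complex.add_re, Complex.re_sum]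
    congr 1
    · refine Finset.sum_congr rfl fun i _ => ?_
      rw [← ugap_inner_sq _ (he i), hee]
    · rw [← ugap_inner_sq _ hP1, hP2]
  rw [hv, inner_zero_left, Complex.zero_re] at h0
  have h1 : 0 ≤ ∑ i, ‖(1 - K.e ℂ i) v‖ ^ 2 := Finset.sum_nonneg fun i _ => by positivity
  have h2 : 0 ≤ ‖P v‖ ^ 2 := by positivity
  have h3 : ∑ i, ‖(1 - K.e ℂ i) v‖ ^ 2 = 0 := by linarith
  have h4 : ‖P v‖ ^ 2 = 0 := by linarith
  refine ⟨fun i k => ?_, ?_⟩
  · rw [Finset.sum_eq_zero_iff_of_nonneg (fun i _ => by positivity)] at h3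
    have h5 := h3 i (Finset.mem_univ i)
    have h6 : (1 - K.e ℂ i) v = 0 := by
      rw [← norm_eq_zero]; exact pow_eq_zero_iff (two_ne_zero) |>.mp h5
    have h7 : K.e ℂ i v = v := by
      rw [sub_apply, one_apply_eq_self, sub_eq_zero] at h6
      exact h6.symm
    calc K.g i k v = K.g i k (K.e ℂ i v) := by rw [h7]
      _ = (K.g i k * K.e ℂ i) v := rfl
      _ = v := by rw [K.g_mul_e, h7]
  · rw [← norm_eq_zero]; exact pow_eq_zero_iff (two_ne_zero) |>.mp h4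

end CA
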