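import Pool.Agent.Helper33.CA.CONC1
import Pool.Agent.Helper33.CA.CONC2
import Pool.Agent.Helper33.CA.UGAP
import Pool.Agent.Helper33.CA.GAP

/-! Module CONC3 (MP_464bf1_lc): the exact spectral gap on the concrete side. -/

namespace CA

set_option linter.unusedSectionVars false

variable {H : Type*} [NormedAddCommGroup H] [InnerProductSpace ℂ H] [CompleteSpace H]
  {p : ℕ} [Fact p.Prime] {X : ℕ → Type} [∀ n, Fintype (X n)] [∀ n, DecidableEq (X n)]
  [∀ n, Nontrivial (X n)]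
  {P : ∀ n, KMS p (Equiv.Perm (X n))} {V : ∀ n, X n → X n → (H →L[ℂ] H)}
  {U : (∀ n, Equiv.Perm (X n)) →* (H →L[ℂ] H)} {J S : H →L[ℂ] H}

theorem conc3_eps_pos {p : ℕ} (hp : 5 ≤ p) : 0 < eps p := by
  unfold eps cc
  have h2 : (2 : ℝ) < √(p : ℝ) := by
    rw [show (2 : ℝ) = √4 by
      rw [show (4 : ℝ) = 2 ^ 2 by norm_num, Real.sqrt_sq (by norm_num)]]
    apply Real.sqrt_lt_sqrt (by norm_num)
    have : (5 : ℝ) ≤ p := by exact_mod_cast hp
    linarith
  have h3 : (0 : ℝ) < √(p : ℝ) := by linarith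
  have : 2 * (√(p : ℝ))⁻¹ < 1 := by
    rw [← div_eq_mul_inv, div_lt_one h3]
    exact h2
  linarith

theorem conc3_inj {n : ℕ} {M N : Matrix (X n) (X n) (H →L[ℂ] H)} (h : opM M = opM N) : M = N := by
  apply Matrix.ext
  intro x y
  apply ContinuousLinearMap.ext
  intro w
  have h1 := congrArg (fun T : Amp H (X n) →L[ℂ] Amp H (X n) => T (inj H y w) x) h
  simp only [opM_apply, inj_apply] at h1
  rw [Finset.sum_eq_single y, Finset.sum_eq_single y] at h1
  · simpa using h1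
  · intro z _ hz
    simp [hz]
  · simp
  · intro z _ hz
    simp [hz]
  · simp

/-- The homomorphism `σ ↦ U σ ⊗ σ_n`. -/
noncomputable def conc3hom (U : (∀ n, Equiv.Perm (X n)) →* (H →L[ℂ] H)) (n : ℕ) :
    (∀ n, Equiv.Perm (X n)) →* (Amp H (X n) →L[ℂ] Amp H (X n)) where
  toFun σ := tw (U σ) (σ n)
  map_one' := by
    rw [map_one, Pi.one_apply, tw_one_one]
  map_mul' σ τ := by
    rw [map_mul, Pi.mul_apply, tw_mul]

theorem conc3_neg {G : Type*} [Group G] (f : ZMod p → G) (h0 : f 0 = 1)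
    (hadd : ∀ k l, f (k + l) = f k * f l) (k : ZMod p) : f (-k) = (f k)⁻¹ := by
  apply eq_inv_of_mul_eq_one_left
  rw [← hadd, neg_add_cancel, h0]

theorem conc3_star (h : Frame V U J S) (n : ℕ) (σ : ∀ n, Equiv.Perm (X n)) :
    star (conc3hom U n σ) = conc3hom U n σ⁻¹ := by
  show star (tw (U σ) (σ n)) = tw (U σ⁻¹) (σ⁻¹ n)
  rw [tw_star, h.u_star, Pi.inv_apply]

theorem D_gap (hp : 5 ≤ p) (h : Frame V U J S) (h2 : ∀ n, TwoTrans (P n))
    (ho : ∀ n, Odd (Fintype.card (X n))) (h3 : ∀ n, 3 ≤ Fintype.card (X n))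
    (hinj : Function.Injective (fun n => Fintype.card (X n))) (n : ℕ) :
    ∃ Y : Matrix (X n) (X n) (H →L[ℂ] H),
      DM (xK P U).g (P n) - (eps p : ℂ) • (1 - Wm V n * star (Wm V n)) = star Y * Y := by
  set K : KMS p (Amp H (X n) →L[ℂ] Amp H (X n)) := (prodKMS P).map (conc3hom U n) with hK
  have hg : ∀ i k, star (K.g i k) = K.g i (-k) := by
    intro i k
    show star (conc3hom U n ((prodKMS P).g i k)) = conc3hom U n ((prodKMS P).g i (-k))
    rw [conc3_star h, conc3_neg ((prodKMS P).g i) ((prodKMS P).g_zero i) ((prodKMS P).g_add i)]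
  have hz : ∀ i k, star (K.z i k) = K.z i (-k) := by
    intro i k
    show star (conc3hom U n ((prodKMS P).z i k)) = conc3hom U n ((prodKMS P).z i (-k))
    rw [conc3_star h, conc3_neg ((prodKMS P).z i) ((prodKMS P).z_zero i) ((prodKMS P).z_add i)]
  have hKg : ∀ i k, K.g i k = tw ((xK P U).g i k) ((P n).g i k) := fun i k => rfl
  have hKe : ∀ i, K.e ℂ i = opM (eM (xK P U).g (P n) i) := by
    intro i
    unfold KMS.e eM
    rw [opM_smul, opM_sum]
    rfl
  have hD : ∑ i, (1 - K.e ℂ i) + P1 H (X n) = opM (DM (xK P U).g (P n)) := by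
    unfold DM
    rw [opM_add, opM_sum]
    simp only [opM_sub, opM_one, hKe]
    rfl
  have hPc : ∀ i, P1 H (X n) * K.e ℂ i = K.e ℂ i * P1 H (X n) := by
    intro i
    unfold KMS.e
    rw [mul_smul_comm, smul_mul_assoc, Finset.mul_sum, Finset.sum_mul]
    congr 1
    refine Finset.sum_congr rfl fun k _ => ?_
    rw [hKg, P1_tw, tw_P1 _ ((P n).g i k)]
  obtain ⟨hpos, hgap⟩ := unitary_gap hp K hg hz (P1 H (X n)) P1_star P1_mul_P1 hPc
  rw [hD] at hpos hgap
  have hW : star (opM (Wm V n)) * opM (Wm V n) = 1 := by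
    rw [← opM_star, ← opM_mul, W_iso h, opM_one]
  have hDW : opM (DM (xK P U).g (P n)) * opM (Wm V n) = 0 := by
    rw [← opM_mul, D_W h, opM_zero]
  have hker : ∀ v, opM (DM (xK P U).g (P n)) v = 0 →
      opM (Wm V n) (star (opM (Wm V n)) v) = v := by
    intro v hv
    rw [← hD] at hv
    obtain ⟨h4, h5⟩ := unitary_ker K hg (P1 H (X n)) P1_star P1_mul_P1 v hv
    rw [← opM_star]
    exact D_ker h h2 ho h3 hinj n v h4 h5
  obtain ⟨Y, hY⟩ := gap_isometry (opM (DM (xK P U).g (P n))) (opM (Wm V n)) hpos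
    (conc3_eps_pos hp) hgap hW hDW hker
  refine ⟨fun x y => pr H x ∘L Y ∘L inj H y, ?_⟩
  apply conc3_inj
  rw [opM_sub, opM_smul, opM_sub, opM_one, opM_mul, opM_mul, opM_star, opM_star, opM_surj]
  exact hY

end CA
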