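import Pool.Agent.Helper33.CA.Basic

/-! Module CPT (MP_464bf1_lc): compact operators on Hilbert spaces through finite-dimensional cuts. -/

namespace CA

open scoped InnerProductSpace

variable {E F : Type*} [NormedAddCommGroup E] [InnerProductSpace ℂ E] [CompleteSpace E]
  [NormedAddCommGroup F] [InnerProductSpace ℂ F] [CompleteSpace F]

theorem cpt_cut (T : E →L[ℂ] F) (hT : IsCompactOperator T) {η : ℝ} (hη : 0 < η) :
    ∃ V : Submodule ℂ E, FiniteDimensional ℂ V ∧ ∀ v ∈ Vᗮ, ‖T v‖ ≤ η * ‖v‖ := by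
  have hc : IsCompact (closure (T '' Metric.closedBall 0 1)) :=
    IsCompactOperator.isCompact_closure_image_closedBall (f := T.toLinearMap) hT 1
  obtain ⟨t, htf, ht⟩ := Metric.totallyBounded_iff.1 hc.totallyBounded η hη
  refine ⟨Submodule.span ℂ ((ContinuousLinearMap.adjoint T) '' t),
    FiniteDimensional.span_of_finite ℂ (htf.image _), ?_⟩
  intro v hv
  rcases eq_or_ne v 0 with rfl | hv0
  · simp
  have hn : 0 < ‖v‖ := norm_pos_iff.2 hv0
  set w : E := ((‖v‖⁻¹ : ℝ) : ℂ) • v with hw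
  have hwn : ‖w‖ = 1 := by
    rw [hw, norm_smul, Complex.norm_real, Real.norm_eq_abs, abs_of_pos (inv_pos.2 hn)]
    exact inv_mul_cancel₀ hn.ne'
  have hmem : T w ∈ closure (T '' Metric.closedBall 0 1) :=
    subset_closure ⟨w, by simp [hwn], rfl⟩
  obtain ⟨y, hy, hyw⟩ := Set.mem_iUnion₂.1 (ht hmem)
  have hyw' : ‖T w - y‖ < η := by rwa [Metric.mem_ball, dist_eq_norm] at hyw
  have horth : ⟪y, T w⟫_ℂ = 0 := by
    rw [← ContinuousLinearMap.adjoint_inner_left]
    exact (Submodule.mem_orthogonal _ _).1 (Submodule.smul_mem _ _ hv) _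
      (Submodule.subset_span ⟨y, hy, rfl⟩)
  have h1 : ‖T w‖ * ‖T w‖ ≤ η * ‖T w‖ := by
    have h2 : ⟪T w - y, T w⟫_ℂ = ⟪T w, T w⟫_ℂ := by rw [inner_sub_left, horth, sub_zero]
    have h3 : ‖T w‖ * ‖T w‖ = ‖⟪T w, T w⟫_ℂ‖ := by
      rw [inner_self_eq_norm_sq_to_K, norm_pow]
      simp [sq]
    rw [h3, ← h2]
    exact (norm_inner_le_norm _ _).trans (by gcongr)
  have h4 : ‖T w‖ ≤ η := by
    rcases eq_or_lt_of_le (norm_nonneg (T w)) with h | h
    · rw [← h]; exact hη.le
    · exact le_of_mul_le_mul_right h1 h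
  have h5 : ‖T w‖ = ‖v‖⁻¹ * ‖T v‖ := by
    rw [hw, map_smul, norm_smul, Complex.norm_real, Real.norm_eq_abs, abs_of_pos (inv_pos.2 hn)]
  rw [h5, inv_mul_le_iff₀ hn] at h4
  rwa [mul_comm]

theorem cpt_finiteRange (T : E →L[ℂ] F) (h : FiniteDimensional ℂ (LinearMap.range T.toLinearMap)) :
    IsCompactOperator T := by
  have := h
  let R : E →L[ℂ] (LinearMap.range T.toLinearMap) :=
    T.codRestrict (LinearMap.range T.toLinearMap) (fun x => ⟨x, rfl⟩)
  have : ProperSpace (LinearMap.range T.toLinearMap) := FiniteDimensional.proper ℂ _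
  have h1 : IsCompactOperator R := isCompactOperator_of_locallyCompactSpace_dom R
  have h2 := h1.clm_comp (LinearMap.range T.toLinearMap).subtypeL
  exact h2

/-- `T ∘ P_V` is compact for finite-dimensional `V`. -/
theorem cpt_comp_proj (T : E →L[ℂ] F) (V : Submodule ℂ E) [FiniteDimensional ℂ V] :
    IsCompactOperator (T ∘L V.starProjection) := by
  have : ProperSpace V := FiniteDimensional.proper ℂ _
  have h1 : IsCompactOperator (V.orthogonalProjectionOnto) :=
    isCompactOperator_of_locallyCompactSpace_dom _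
  have h2 := h1.clm_comp (T ∘L V.subtypeL)
  exact h2

/-- `P_V ∘ T` is compact for finite-dimensional `V`. -/
theorem cpt_proj_comp (T : E →L[ℂ] F) (V : Submodule ℂ F) [FiniteDimensional ℂ V] :
    IsCompactOperator (V.starProjection ∘L T) := by
  have : ProperSpace V := FiniteDimensional.proper ℂ _
  have h1 : IsCompactOperator (V.orthogonalProjectionOnto ∘L T) :=
    isCompactOperator_of_locallyCompactSpace_dom _
  have h2 := h1.clm_comp V.subtypeL
  exact h2

/-- The projection onto the complement does not increase the norm. -/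
theorem cpt_norm_sub_proj_le (V : Submodule ℂ E) [FiniteDimensional ℂ V] (v : E) :
    ‖v - V.starProjection v‖ ≤ ‖v‖ := by
  rw [← Submodule.starProjection_orthogonal_val]
  exact Submodule.norm_starProjection_apply_le _ v

theorem cpt_of_cut (T : E →L[ℂ] F)
    (h : ∀ η : ℝ, 0 < η → ∃ V : Submodule ℂ E, FiniteDimensional ℂ V ∧ ∀ v ∈ Vᗮ, ‖T v‖ ≤ η * ‖v‖) :
    IsCompactOperator T := by
  have hcl : IsClosed { f : E →L[ℂ] F | IsCompactOperator f } := isClosed_setOfPred_isCompactOperator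
  have hmem : T ∈ closure { f : E →L[ℂ] F | IsCompactOperator f } := by
    rw [Metric.mem_closure_iff]
    intro ε hε
    obtain ⟨V, hV, hVT⟩ := h (ε / 2) (half_pos hε)
    refine ⟨T ∘L V.starProjection, cpt_comp_proj T V, ?_⟩
    rw [dist_eq_norm]
    refine lt_of_le_of_lt (ContinuousLinearMap.opNorm_le_bound _ (half_pos hε).le ?_)
      (half_lt_self hε)
    intro v
    have e : (T - T ∘L V.starProjection) v = T (v - V.starProjection v) := by
      simp
    rw [e]
    refine (hVT _ (V.sub_starProjection_mem_orthogonal v)).trans ?_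
    gcongr
    exact cpt_norm_sub_proj_le V v
  rw [hcl.closure_eq] at hmem
  exact hmem

/-- If `‖T v‖ ≤ η ‖v‖` on `Vᗮ` then `‖T (1 - P_V)‖ ≤ η`. -/
theorem cpt_opNorm_cut (T : E →L[ℂ] F) (V : Submodule ℂ E) [FiniteDimensional ℂ V] {η : ℝ}
    (hη : 0 ≤ η) (h : ∀ v ∈ Vᗮ, ‖T v‖ ≤ η * ‖v‖) :
    ‖T ∘L (ContinuousLinearMap.id ℂ E - V.starProjection)‖ ≤ η := by
  refine ContinuousLinearMap.opNorm_le_bound _ hη ?_
  intro v
  have e : (T ∘L (ContinuousLinearMap.id ℂ E - V.starProjection)) v = T (v - V.starProjection v) := by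
    simp
  rw [e]
  refine (h _ (V.sub_starProjection_mem_orthogonal v)).trans ?_
  gcongr
  exact cpt_norm_sub_proj_le V v

theorem cpt_adjoint_proj (V : Submodule ℂ E) [FiniteDimensional ℂ V] :
    ContinuousLinearMap.adjoint V.starProjection = V.starProjection := by
  symm
  rw [ContinuousLinearMap.eq_adjoint_iff]
  intro x y
  exact Submodule.inner_starProjection_left_eq_right V x y

theorem cpt_adjoint (T : E →L[ℂ] F) (hT : IsCompactOperator T) :
    IsCompactOperator (ContinuousLinearMap.adjoint T) := by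
  have hcl : IsClosed { f : F →L[ℂ] E | IsCompactOperator f } := isClosed_setOfPred_isCompactOperator
  have hmem : ContinuousLinearMap.adjoint T ∈ closure { f : F →L[ℂ] E | IsCompactOperator f } := by
    rw [Metric.mem_closure_iff]
    intro ε hε
    obtain ⟨V, hV, hVT⟩ := cpt_cut T hT (half_pos hε)
    refine ⟨V.starProjection ∘L ContinuousLinearMap.adjoint T, cpt_proj_comp _ V, ?_⟩
    rw [dist_eq_norm]
    have e : ContinuousLinearMap.adjoint T - V.starProjection ∘L ContinuousLinearMap.adjoint T =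
        ContinuousLinearMap.adjoint (T ∘L (ContinuousLinearMap.id ℂ E - V.starProjection)) := by
      rw [ContinuousLinearMap.adjoint_comp, map_sub, cpt_adjoint_proj,
        ContinuousLinearMap.adjoint_id]
      ext v
      simp
    rw [e, LinearIsometryEquiv.norm_map]
    exact lt_of_le_of_lt (cpt_opNorm_cut T V (half_pos hε).le hVT) (half_lt_self hε)
  rw [hcl.closure_eq] at hmem
  exact hmem

theorem CEq.star {a b : E →L[ℂ] E} (h : CEq a b) : CEq (star a) (star b) := by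
  unfold CEq at *
  rw [← star_sub]
  exact cpt_adjoint (a - b) h

theorem cpt_dom (T : E →L[ℂ] F) (K : E →L[ℂ] E) (hK : IsCompactOperator K)
    (h : ∀ v, ‖T v‖ ^ 2 ≤ (⟪K v, v⟫_ℂ).re) : IsCompactOperator T := by
  apply cpt_of_cut
  intro η hη
  obtain ⟨V, hV, hVK⟩ := cpt_cut K hK (pow_pos hη 2)
  refine ⟨V, hV, fun v hv => ?_⟩
  have h1 : ‖T v‖ ^ 2 ≤ (η * ‖v‖) ^ 2 := by
    calc ‖T v‖ ^ 2 ≤ (⟪K v, v⟫_ℂ).re := h v
      _ ≤ ‖⟪K v, v⟫_ℂ‖ := Complex.re_le_norm _
      _ ≤ ‖K v‖ * ‖v‖ := norm_inner_le_norm _ _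
      _ ≤ (η ^ 2 * ‖v‖) * ‖v‖ := by gcongr; exact hVK v hv
      _ = (η * ‖v‖) ^ 2 := by ring
  exact le_of_sq_le_sq h1 (by positivity)

theorem cpt_norm_cut (a : E →L[ℂ] E) (h : CEq (Star.star a * a) 1) :
    ∃ a' : E →L[ℂ] E, CEq a' a ∧ ‖a'‖ ≤ 2 := by
  obtain ⟨V, hV, hVK⟩ := cpt_cut (Star.star a * a - 1) h (η := 3) (by norm_num)
  refine ⟨a ∘L (ContinuousLinearMap.id ℂ E - V.starProjection), ?_, ?_⟩
  · have h1 := (cpt_comp_proj a V).neg
    unfold CEq
    have e : (-(⇑(a ∘L V.starProjection)) : E → E) =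
        ⇑(a ∘L (ContinuousLinearMap.id ℂ E - V.starProjection) - a) := by
      ext v; simp
    rwa [e] at h1
  · refine cpt_opNorm_cut a V (by norm_num) ?_
    intro v hv
    have h2 : ‖a v‖ ^ 2 ≤ (2 * ‖v‖) ^ 2 := by
      have h3 : ⟪(Star.star a * a - 1) v, v⟫_ℂ = ⟪a v, a v⟫_ℂ - ⟪v, v⟫_ℂ := by
        rw [sub_apply, inner_sub_left, mul_apply_eq_comp, inner_star_left]
        rfl
      have h4 : ‖a v‖ ^ 2 = (⟪(Star.star a * a - 1) v, v⟫_ℂ).re + ‖v‖ ^ 2 := by
        rw [h3, Complex.sub_re]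
        have e1 := inner_self_eq_norm_sq (𝕜 := ℂ) (a v)
        have e2 := inner_self_eq_norm_sq (𝕜 := ℂ) v
        simp only [RCLike.re_to_complex] at e1 e2
        rw [e1, e2]; ring
      rw [h4]
      have h5 : (⟪(Star.star a * a - 1) v, v⟫_ℂ).re ≤ (3 * ‖v‖) * ‖v‖ := by
        calc (⟪(Star.star a * a - 1) v, v⟫_ℂ).re ≤ ‖⟪(Star.star a * a - 1) v, v⟫_ℂ‖ :=
              Complex.re_le_norm _
          _ ≤ ‖(Star.star a * a - 1) v‖ * ‖v‖ := norm_inner_le_norm _ _
          _ ≤ (3 * ‖v‖) * ‖v‖ := by gcongr; exact hVK v hv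
      nlinarith [norm_nonneg v]
    exact le_of_sq_le_sq h2 (by positivity)

end CA
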