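import Pool.Agent.Helper33.CA.FINAL

/-! The Calkin algebra of `ℓ²(ℕ)` (MP_464bf1_lc), with short terms. -/

namespace CA

/-- The Hilbert space `ℓ²(ℕ)`. -/
def Hil : Type := lp (fun _ : ℕ => ℂ) 2

noncomputable instance : NormedAddCommGroup Hil :=
  (inferInstance : NormedAddCommGroup (lp (fun _ : ℕ => ℂ) 2))
noncomputable instance : InnerProductSpace ℂ Hil :=
  (inferInstance : InnerProductSpace ℂ (lp (fun _ : ℕ => ℂ) 2))
instance : CompleteSpace Hil := (inferInstance : CompleteSpace (lp (fun _ : ℕ => ℂ) 2))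

/-- The standard orthonormal basis vector `e_n` of `ℓ²(ℕ)`. -/
noncomputable def bas (n : ℕ) : Hil := lp.single 2 n (1 : ℂ)

/-- The algebra `B(H)` of bounded operators on `H = ℓ²(ℕ)`, with star = adjoint. -/
def BH : Type := Hil →L[ℂ] Hil

noncomputable instance : Ring BH := (inferInstance : Ring (Hil →L[ℂ] Hil))
noncomputable instance : StarRing BH := (inferInstance : StarRing (Hil →L[ℂ] Hil))
noncomputable instance : Algebra ℂ BH := (inferInstance : Algebra ℂ (Hil →L[ℂ] Hil))
instance : StarModule ℂ BH := (inferInstance : StarModule ℂ (Hil →L[ℂ] Hil))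

/-- Application of a bounded operator to a vector. -/
noncomputable def BH.app (T : BH) : Hil → Hil := fun v => (show Hil →L[ℂ] Hil from T) v

/-- The two-sided ideal `K(H)` of compact operators. -/
def KH : Ideal BH where
  carrier := {T | IsCompactOperator T.app}
  add_mem' := fun ha hb => IsCompactOperator.add ha hb
  zero_mem' := isCompactOperator_zero
  smul_mem' := fun c a ha =>
    IsCompactOperator.clm_comp (f := (show Hil →L[ℂ] Hil from a)) ha (show Hil →L[ℂ] Hil from c)

instance : KH.IsTwoSided where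
  mul_mem_of_left := fun {a} b ha =>
    IsCompactOperator.comp_clm (f := (show Hil →L[ℂ] Hil from a)) ha (show Hil →L[ℂ] Hil from b)

/-- The Calkin algebra `Q(H) = B(H)/K(H)`. -/
def QH : Type := BH ⧸ KH

noncomputable instance : Ring QH := (inferInstance : Ring (BH ⧸ KH))
noncomputable instance : Algebra ℂ QH := (inferInstance : Algebra ℂ (BH ⧸ KH))

/-- The quotient map `π : B(H) → Q(H)`. -/
noncomputable def quo : BH →ₐ[ℂ] QH := Ideal.Quotient.mkₐ ℂ KH

theorem quo_surjective : Function.Surjective quo := Ideal.Quotient.mk_surjective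

theorem quo_eq_iff (a b : BH) : quo a = quo b ↔
    CEq (show L2N →L[ℂ] L2N from a) (show L2N →L[ℂ] L2N from b) := by
  show Ideal.Quotient.mk KH a = Ideal.Quotient.mk KH b ↔ _
  rw [Ideal.Quotient.eq]
  rfl

theorem quo_star_congr (a b : BH) (h : quo a = quo b) : quo (star a) = quo (star b) := by
  rw [quo_eq_iff] at h ⊢
  exact h.star

/-- The adjoint on the Calkin algebra: `star (π a) = π (star a)`. -/
noncomputable instance : Star QH where
  star q := Quotient.lift (fun a : BH => quo (star a))
    (fun a b hab => quo_star_congr a b (Quotient.sound hab)) q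

theorem star_quo (a : BH) : star (quo a) = quo (star a) := rfl

/-- A lift of a *-homomorphism `Φ` of `Q(H)` with `Φ 1 = 1` to `B(H)`. -/
theorem exists_liftHomH (Φ : QH →⋆ₙₐ[ℂ] QH) (h1 : Φ 1 = 1) :
    ∃ l : (L2N →L[ℂ] L2N) → (L2N →L[ℂ] L2N), LiftHom l ∧
      ∀ a : BH, quo (show BH from l (show L2N →L[ℂ] L2N from a)) = Φ (quo a) := by
  classical
  have key : ∀ a : BH, ∃ b : BH, quo b = Φ (quo a) ∧
      (star a * a = 1 → ‖(show L2N →L[ℂ] L2N from b)‖ ≤ 2) := by
    intro a
    obtain ⟨b, hb⟩ := quo_surjective (Φ (quo a))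
    by_cases ha : star a * a = 1
    · have hc : quo (star b * b) = quo 1 := by
        rw [map_mul, ← star_quo, hb, ← map_star, ← map_mul, star_quo, ← map_mul, ha, map_one, h1]
      rw [quo_eq_iff] at hc
      obtain ⟨b', hb', hn⟩ := cpt_norm_cut (show L2N →L[ℂ] L2N from b) hc
      refine ⟨b', ?_, fun _ => hn⟩
      rw [← hb, quo_eq_iff]
      exact hb'
    · exact ⟨b, hb, fun h => absurd h ha⟩
  choose l hl hn using key
  refine ⟨l, ⟨?_, ?_, ?_, ?_, ?_, hn⟩, hl⟩
  · refine (quo_eq_iff (l 1) 1).1 ?_
    rw [hl, map_one, h1]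
  · intro a b
    refine (quo_eq_iff (l (show BH from a + b)) ((show BH from l a) + (show BH from l b))).1 ?_
    rw [map_add, hl, hl, hl, ← map_add, ← map_add]
    rfl
  · intro a b
    refine (quo_eq_iff (l (show BH from a * b)) ((show BH from l a) * (show BH from l b))).1 ?_
    rw [map_mul, hl, hl, hl, ← map_mul, ← map_mul]
    rfl
  · intro c a
    refine (quo_eq_iff (l (show BH from c • a)) (c • (show BH from l a))).1 ?_
    rw [map_smul, hl, hl, ← map_smul, ← map_smul]
    rfl
  · intro a
    have e : ∀ b : BH, quo (l (star b)) = quo (star (l b)) := by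
      intro b
      rw [hl, ← star_quo, ← star_quo, hl, map_star]
    exact (quo_eq_iff _ _).1 (e a)

end CA
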