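import Mathlib

/-! Definitions for MP_464bf1_lc (Calkin algebra and the shift). -/

namespace CA

open scoped InnerProductSpace

/-- The Hilbert space `ℓ²(ℕ)`. -/
abbrev L2N : Type := lp (fun _ : ℕ => ℂ) 2

/-- The amplification `E^X` (Hilbert space direct sum of `|X|` copies of `E`). -/
abbrev Amp (E X : Type*) [NormedAddCommGroup E] [Fintype X] : Type _ := PiLp 2 (fun _ : X => E)

/-- Equality modulo compact operators. -/
def CEq {E F : Type*} [NormedAddCommGroup E] [InnerProductSpace ℂ E]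
    [NormedAddCommGroup F] [InnerProductSpace ℂ F] (a b : E →L[ℂ] F) : Prop :=
  IsCompactOperator (a - b)

/-- Kac-Moody-Steinberg data in a monoid: three one-parameter families `g 0, g 1, g 2`
of order `p`; consecutive ones generate a Heisenberg group whose centre is the line `z i`. -/
structure KMS (p : ℕ) (R : Type*) [Monoid R] where
  g : Fin 3 → ZMod p → R
  z : Fin 3 → ZMod p → R
  g_zero : ∀ i, g i 0 = 1
  g_add : ∀ i k l, g i (k + l) = g i k * g i l
  z_zero : ∀ i, z i 0 = 1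
  z_add : ∀ i k l, z i (k + l) = z i k * z i l
  comm : ∀ i k l, g i k * g (i + 1) l = z i (k * l) * g (i + 1) l * g i k
  z_comm_left : ∀ i k l, z i k * g i l = g i l * z i k
  z_comm_right : ∀ i k l, z i k * g (i + 1) l = g (i + 1) l * z i k

/-- Image of KMS data under a monoid homomorphism. -/
def KMS.map {p : ℕ} {R S : Type*} [Monoid R] [Monoid S] (K : KMS p R) (f : R →* S) : KMS p S where
  g i k := f (K.g i k)
  z i k := f (K.z i k)
  g_zero i := by rw [K.g_zero, map_one]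
  g_add i k l := by rw [K.g_add, map_mul]
  z_zero i := by rw [K.z_zero, map_one]
  z_add i k l := by rw [K.z_add, map_mul]
  comm i k l := by rw [← map_mul, K.comm, map_mul, map_mul]
  z_comm_left i k l := by rw [← map_mul, K.z_comm_left, map_mul]
  z_comm_right i k l := by rw [← map_mul, K.z_comm_right, map_mul]

/-- The average `e_i = p⁻¹ ∑_k g i k`. -/
noncomputable def KMS.e {p : ℕ} [NeZero p] (𝕜 : Type*) {R : Type*} [Field 𝕜] [Ring R] [Algebra 𝕜 R]
    (K : KMS p R) (i : Fin 3) : R := (p : 𝕜)⁻¹ • ∑ k, K.g i k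

/-- The average `ζ_i = p⁻¹ ∑_k z i k`. -/
noncomputable def KMS.ze {p : ℕ} [NeZero p] (𝕜 : Type*) {R : Type*} [Field 𝕜] [Ring R] [Algebra 𝕜 R]
    (K : KMS p R) (i : Fin 3) : R := (p : 𝕜)⁻¹ • ∑ k, K.z i k

section Amp

variable {E : Type*} [NormedAddCommGroup E] [InnerProductSpace ℂ E]
variable {X : Type*} [Fintype X] [DecidableEq X]

/-- The operator on `E^X` given by a matrix of operators: `(opM M v) x = ∑ y, M x y (v y)`. -/
noncomputable def opM (M : Matrix X X (E →L[ℂ] E)) : Amp E X →L[ℂ] Amp E X :=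
  (PiLp.continuousLinearEquiv 2 ℂ (fun _ : X => E)).symm.toContinuousLinearMap ∘L
    (ContinuousLinearMap.pi fun x => ∑ y, (M x y) ∘L (ContinuousLinearMap.proj y)) ∘L
    (PiLp.continuousLinearEquiv 2 ℂ (fun _ : X => E)).toContinuousLinearMap

/-- The matrix of `a ⊗ σ`: `(twM a σ) x y = a` if `x = σ y`, and `0` otherwise. -/
def twM (a : E →L[ℂ] E) (σ : Equiv.Perm X) : Matrix X X (E →L[ℂ] E) :=
  fun x y => if σ y = x then a else 0

/-- The operator `a ⊗ σ` on `E^X`: `(tw a σ v) (σ y) = a (v y)`. -/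
noncomputable def tw (a : E →L[ℂ] E) (σ : Equiv.Perm X) : Amp E X →L[ℂ] Amp E X := opM (twM a σ)

/-- The matrix of `1 ⊗ P_1`, where `P_1` is the averaging projection. -/
noncomputable def P1M (E X : Type*) [NormedAddCommGroup E] [InnerProductSpace ℂ E] [Fintype X] :
    Matrix X X (E →L[ℂ] E) := fun _ _ => ((Fintype.card X : ℂ)⁻¹) • (1 : E →L[ℂ] E)

/-- The operator `1 ⊗ P_1` on `E^X`. -/
noncomputable def P1 (E X : Type*) [NormedAddCommGroup E] [InnerProductSpace ℂ E] [Fintype X]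
    [DecidableEq X] : Amp E X →L[ℂ] Amp E X := opM (P1M E X)

/-- `e'_i = p⁻¹ ∑_k x_i(k) ⊗ g_i(k)`, for arbitrary operators `x_i(k)` on `E`. -/
noncomputable def eop {p : ℕ} [NeZero p] (x : Fin 3 → ZMod p → (E →L[ℂ] E))
    (P : KMS p (Equiv.Perm X)) (i : Fin 3) : Amp E X →L[ℂ] Amp E X :=
  (p : ℂ)⁻¹ • ∑ k, tw (x i k) (P.g i k)

/-- The matrix version of `eop`. -/
noncomputable def eM {p : ℕ} [NeZero p] (x : Fin 3 → ZMod p → (E →L[ℂ] E))
    (P : KMS p (Equiv.Perm X)) (i : Fin 3) : Matrix X X (E →L[ℂ] E) :=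
  (p : ℂ)⁻¹ • ∑ k, twM (x i k) (P.g i k)

/-- The matrix `∑_i (1 - e_i) + 1 ⊗ P_1`. -/
noncomputable def DM {p : ℕ} [NeZero p] (x : Fin 3 → ZMod p → (E →L[ℂ] E))
    (P : KMS p (Equiv.Perm X)) : Matrix X X (E →L[ℂ] E) :=
  ∑ i, (1 - eM x P i) + P1M E X

end Amp

section Hilb

variable {E : Type*} [NormedAddCommGroup E] [InnerProductSpace ℂ E] [CompleteSpace E]
variable {X : Type*} [Fintype X] [DecidableEq X]

/-- `D' = ∑_i (1 - e'_i)^* (1 - e'_i) + 1 ⊗ P_1`; it is positive by definition. -/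
noncomputable def Dop {p : ℕ} [NeZero p] (x : Fin 3 → ZMod p → (E →L[ℂ] E))
    (P : KMS p (Equiv.Perm X)) : Amp E X →L[ℂ] Amp E X :=
  ∑ i, star (1 - eop x P i) * (1 - eop x P i) + P1 E X

/-- KMS relations (and unitarity relations) modulo compact operators. -/
structure KMSc {p : ℕ} (x z : Fin 3 → ZMod p → (E →L[ℂ] E)) : Prop where
  g_zero : ∀ i, CEq (x i 0) 1
  g_add : ∀ i k l, CEq (x i (k + l)) (x i k * x i l)
  z_zero : ∀ i, CEq (z i 0) 1
  z_add : ∀ i k l, CEq (z i (k + l)) (z i k * z i l)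
  comm : ∀ i k l, CEq (x i k * x (i + 1) l) (z i (k * l) * x (i + 1) l * x i k)
  z_comm_left : ∀ i k l, CEq (z i k * x i l) (x i l * z i k)
  z_comm_right : ∀ i k l, CEq (z i k * x (i + 1) l) (x (i + 1) l * z i k)
  star_g : ∀ i k, CEq (star (x i k)) (x i (-k))
  star_z : ∀ i k, CEq (star (z i k)) (z i (-k))

end Hilb

/-- The diagonal action on pairs has only the two obvious orbits, in the form of invariant
functions: every function on `X × X` invariant under all `g i k` is constant on the diagonal and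
constant off the diagonal. -/
def TwoTrans {p : ℕ} {X : Type*} [DecidableEq X] (P : KMS p (Equiv.Perm X)) : Prop :=
  ∀ T : X → X → ℂ, (∀ i k x y, T (P.g i k x) (P.g i k y) = T x y) →
    ∃ a b : ℂ, ∀ x y, T x y = if x = y then a else b

/-- The cut-off function: `1` on `(-∞, s]`, `0` on `[t, ∞)`, affine in between (`s < t`). -/
noncomputable def fcut (s t : ℝ) : ℝ → ℝ := fun r => max 0 (min 1 ((t - r) / (t - s)))

/-- The bump function `max 0 ((r - s) * (t - r))`, supported on `[s, t]`. -/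
noncomputable def hcut (s t : ℝ) : ℝ → ℝ := fun r => max 0 ((r - s) * (t - r))

/-- The coefficients of the sum-of-squares identity. -/
noncomputable def kap {𝕜 : Type*} [Field 𝕜] (c : 𝕜) : Fin 4 → 𝕜 :=
  ![(1 + c) / 2, c, 2 / ((1 + c) * (1 - c) ^ 2), (1 + c) / (2 * c * (1 - c) ^ 2)]

/-- The four elements whose squares appear in the sum-of-squares identity, for the consecutive pair
`(i, i + 1)`. -/
noncomputable def KMS.sq {p : ℕ} [NeZero p] {𝕜 : Type*} {R : Type*} [Field 𝕜] [Ring R] [Algebra 𝕜 R]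
    (K : KMS p R) (c : 𝕜) (i : Fin 3) : Fin 4 → R :=
  ![(2 - (K.e 𝕜 i + K.e 𝕜 (i + 1))) * (1 - (K.e 𝕜 i + K.e 𝕜 (i + 1))) * K.ze 𝕜 i,
    (2 - (K.e 𝕜 i + K.e 𝕜 (i + 1))) * (K.e 𝕜 i + K.e 𝕜 (i + 1)) * K.ze 𝕜 i,
    ((1 + c) • (1 : R) - (K.e 𝕜 i + K.e 𝕜 (i + 1))) *
      ((1 - c) • (1 : R) - (K.e 𝕜 i + K.e 𝕜 (i + 1))) * (1 - K.ze 𝕜 i),
    ((1 + c) • (1 : R) - (K.e 𝕜 i + K.e 𝕜 (i + 1))) *
      (K.e 𝕜 i + K.e 𝕜 (i + 1)) * (1 - K.ze 𝕜 i)]

/-- The real number `c = 1/√p`. -/
noncomputable def cc (p : ℕ) : ℝ := (√(p : ℝ))⁻¹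

/-- The spectral gap `ε = 1 - 2/√p` (positive for `p ≥ 5`). -/
noncomputable def eps (p : ℕ) : ℝ := 1 - 2 * cc p

/-- A lift `ℓ` of a unital *-endomorphism of the Calkin algebra: it preserves all operations modulo
compact operators (and isometries are sent to operators of norm at most `2`). -/
structure LiftHom {E : Type*} [NormedAddCommGroup E] [InnerProductSpace ℂ E] [CompleteSpace E]
    (l : (E →L[ℂ] E) → (E →L[ℂ] E)) : Prop where
  one : CEq (l 1) 1
  add : ∀ a b, CEq (l (a + b)) (l a + l b)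
  mul : ∀ a b, CEq (l (a * b)) (l a * l b)
  smul : ∀ (c : ℂ) (a), CEq (l (c • a)) (c • l a)
  star' : ∀ a, CEq (l (star a)) (star (l a))
  norm_le : ∀ a, star a * a = 1 → ‖l a‖ ≤ 2

/-- The two-sided ideal of compact operators. -/
def compactIdeal (E : Type*) [NormedAddCommGroup E] [InnerProductSpace ℂ E] [CompleteSpace E] :
    Ideal (E →L[ℂ] E) where
  carrier := {a | IsCompactOperator a}
  add_mem' := fun {a b} ha hb => by
    have := IsCompactOperator.add ha hb
    exact this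
  zero_mem' := isCompactOperator_zero
  smul_mem' := fun c a ha => by
    have := IsCompactOperator.clm_comp (f := a) ha c
    exact this

instance (E : Type*) [NormedAddCommGroup E] [InnerProductSpace ℂ E] [CompleteSpace E] :
    (compactIdeal E).IsTwoSided where
  mul_mem_of_left := fun {a} b ha => IsCompactOperator.comp_clm (f := a) ha b

/-- The Calkin algebra `B(E)/K(E)`, as a ring. -/
abbrev Calkin (E : Type*) [NormedAddCommGroup E] [InnerProductSpace ℂ E] [CompleteSpace E] :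
    Type _ := (E →L[ℂ] E) ⧸ compactIdeal E

section Frame

variable {H : Type*} [NormedAddCommGroup H] [InnerProductSpace ℂ H] [CompleteSpace H]
  {p : ℕ} {X : ℕ → Type}

/-- A frame: isometries `V n y j` of `H` with orthogonal ranges spanning `H`, indexed by the disjoint
union of the sets `X n × X n`, unitaries `U σ` permuting them through the first index, and an isometry
`J` acting as `S` on each range. -/
structure Frame (V : ∀ n, X n → X n → (H →L[ℂ] H))
    (U : (∀ n, Equiv.Perm (X n)) →* (H →L[ℂ] H)) (J S : H →L[ℂ] H) : Prop where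
  v_iso : ∀ n y j, star (V n y j) * V n y j = 1
  v_orth : ∀ n y j y' j', (y ≠ y' ∨ j ≠ j') → star (V n y j) * V n y' j' = 0
  v_orth' : ∀ n m y j y' j', n ≠ m → star (V n y j) * V m y' j' = 0
  v_total : ∀ v, (∀ n y j, star (V n y j) v = 0) → v = 0
  u_v : ∀ σ n y j, U σ * V n y j = V n (σ n y) j
  u_star : ∀ σ, star (U σ) = U σ⁻¹
  j_iso : star J * J = 1
  j_u : ∀ σ, J * U σ = U σ * J
  j_v : ∀ n y j, J * V n y j = V n y j * S

/-- The product KMS data in the group `∏ n, Perm (X n)`. -/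
def prodKMS (P : ∀ n, KMS p (Equiv.Perm (X n))) : KMS p (∀ n, Equiv.Perm (X n)) where
  g i k n := (P n).g i k
  z i k n := (P n).z i k
  g_zero i := by funext n; exact (P n).g_zero i
  g_add i k l := by funext n; exact (P n).g_add i k l
  z_zero i := by funext n; exact (P n).z_zero i
  z_add i k l := by funext n; exact (P n).z_add i k l
  comm i k l := by funext n; exact (P n).comm i k l
  z_comm_left i k l := by funext n; exact (P n).z_comm_left i k l
  z_comm_right i k l := by funext n; exact (P n).z_comm_right i k l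

/-- The KMS data on `H` given by the frame. -/
def xK (P : ∀ n, KMS p (Equiv.Perm (X n))) (U : (∀ n, Equiv.Perm (X n)) →* (H →L[ℂ] H)) :
    KMS p (H →L[ℂ] H) := (prodKMS P).map U

/-- The matrix `W_n`: `(W_n)_{x j} = κ ∑_y (δ_{xy} - 1/|X|) V n y j`, `κ = 1/√(|X|-1)`. -/
noncomputable def Wm [∀ n, Fintype (X n)] [∀ n, DecidableEq (X n)]
    (V : ∀ n, X n → X n → (H →L[ℂ] H)) (n : ℕ) : Matrix (X n) (X n) (H →L[ℂ] H) :=
  fun x j => (((√((Fintype.card (X n) : ℝ) - 1))⁻¹ : ℝ) : ℂ) •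
    ∑ y, ((if x = y then (1 : ℂ) else 0) - (Fintype.card (X n) : ℂ)⁻¹) • V n y j

end Frame

end CA
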