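import Pool.Agent.Helper33.CA.Basic

/-! Module ENT2 (MP_464bf1_lc): linear algebra of the reduced density matrix. -/

namespace CA

open scoped InnerProductSpace ComplexOrder
open Module

theorem exists_gram_sqrt {X : Type} [Fintype X] [DecidableEq X]
    {E : Type} [NormedAddCommGroup E] [InnerProductSpace ℂ E] (u : Amp E X) :
    ∃ a : Matrix X X ℂ, a.PosSemidef ∧ (∀ i j, (a * a) i j = ⟪u i, u j⟫_ℂ) := by
  open scoped MatrixOrder Matrix.Norms.L2Operator in
  have hA : (0 : Matrix X X ℂ) ≤ Matrix.gram ℂ (fun i => u i) :=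
    Matrix.nonneg_iff_posSemidef.2 (Matrix.posSemidef_gram _ _)
  refine ⟨CFC.sqrt (Matrix.gram ℂ (fun i => u i)),
    Matrix.nonneg_iff_posSemidef.1 (CFC.sqrt_nonneg _), ?_⟩
  intro i j
  rw [CFC.sqrt_mul_sqrt_self _ hA]
  rfl

section aux

variable {X : Type} [Fintype X] [DecidableEq X]

/-- Bessel: the Hilbert-Schmidt norm dominates the norms on an orthonormal family. -/
theorem ent2_bessel (M : Matrix X X ℂ) {ι : Type} [Fintype ι] (q : ι → EuclideanSpace ℂ X)
    (hq : Orthonormal ℂ q) :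
    ∑ k, ∑ i, ‖∑ j, M i j * q k j‖ ^ 2 ≤ ∑ i, ∑ j, ‖M i j‖ ^ 2 := by
  rw [Finset.sum_comm]
  apply Finset.sum_le_sum
  intro i _
  have h := hq.sum_inner_products_le (s := Finset.univ)
    (x := (WithLp.toLp 2 (fun j => (starRingEnd ℂ) (M i j)) : EuclideanSpace ℂ X))
  rw [EuclideanSpace.norm_sq_eq] at h
  refine le_trans (le_of_eq ?_) (h.trans (le_of_eq ?_))
  · apply Finset.sum_congr rfl
    intro k _
    rw [← inner_conj_symm, PiLp.inner_apply, RCLike.norm_conj]
    congr 2
    apply Finset.sum_congr rfl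
    intro j _
    simp [mul_comm]
  · apply Finset.sum_congr rfl
    intro j _
    simp

/-- Minkowski for double sums. -/
theorem ent2_mink {ι κ : Type} [Fintype ι] [Fintype κ] (f g : ι → κ → ℂ) {A B : ℝ}
    (hA : 0 ≤ A) (hB : 0 ≤ B) (hf : ∑ k, ∑ i, ‖f k i‖ ^ 2 ≤ A ^ 2)
    (hg : ∑ k, ∑ i, ‖g k i‖ ^ 2 ≤ B ^ 2) :
    ∑ k, ∑ i, ‖f k i + g k i‖ ^ 2 ≤ (A + B) ^ 2 := by
  let F : EuclideanSpace ℂ (ι × κ) := WithLp.toLp 2 (fun p => f p.1 p.2)
  let G : EuclideanSpace ℂ (ι × κ) := WithLp.toLp 2 (fun p => g p.1 p.2)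
  have hF : ‖F‖ ≤ A := by
    rw [← sq_le_sq₀ (norm_nonneg _) hA, EuclideanSpace.norm_sq_eq, Fintype.sum_prod_type]
    exact hf
  have hG : ‖G‖ ≤ B := by
    rw [← sq_le_sq₀ (norm_nonneg _) hB, EuclideanSpace.norm_sq_eq, Fintype.sum_prod_type]
    exact hg
  have hFG : ‖F + G‖ ≤ A + B := (norm_add_le _ _).trans (add_le_add hF hG)
  rw [← sq_le_sq₀ (norm_nonneg _) (by positivity), EuclideanSpace.norm_sq_eq,
    Fintype.sum_prod_type] at hFG
  exact hFG

variable {E : Type} [NormedAddCommGroup E] [InnerProductSpace ℂ E]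

/-- The norm of a combination of the coordinates of `u` is the norm of its image under `a`. -/
theorem ent2_comb (u : Amp E X) (a : Matrix X X ℂ) (ha : a.PosSemidef)
    (haa : ∀ i j, (a * a) i j = ⟪u i, u j⟫_ℂ) (c : X → ℂ) :
    ‖∑ x, c x • u x‖ ^ 2 = ∑ i, ‖∑ j, a i j * c j‖ ^ 2 := by
  have hg : Matrix.gram ℂ (fun i => u i) = a * a := by
    ext i j
    rw [haa]; rfl
  have h0 := Matrix.star_dotProduct_gram_mulVec (𝕜 := ℂ) (fun i => u i) c c
  rw [hg, ← Matrix.mulVec_mulVec, Matrix.dotProduct_mulVec] at h0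
  have h1 : Matrix.vecMul (star c) a = star (Matrix.mulVec a c) := by
    rw [Matrix.star_mulVec, ha.1]
  rw [h1] at h0
  have h2 : ((‖∑ x, c x • u x‖ ^ 2 : ℝ) : ℂ) = ((∑ i, ‖∑ j, a i j * c j‖ ^ 2 : ℝ) : ℂ) := by
    have e1 : ((‖∑ x, c x • u x‖ ^ 2 : ℝ) : ℂ) = ⟪∑ x, c x • u x, ∑ x, c x • u x⟫_ℂ := by
      rw [inner_self_eq_norm_sq_to_K]; simp
    rw [e1, ← h0, dotProduct]
    push_cast
    apply Finset.sum_congr rfl
    intro i _
    rw [Pi.star_apply, mul_comm]
    change a.mulVec c i * (starRingEnd ℂ) (a.mulVec c i) = _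
    rw [Complex.mul_conj, Complex.normSq_eq_norm_sq]
    push_cast
    rfl
  exact_mod_cast h2

/-- The norm of the component in `V`. -/
theorem ent2_starProj [CompleteSpace E] (V : Submodule ℂ E) [FiniteDimensional ℂ V] (w : E) :
    ‖V.starProjection w‖ ^ 2 =
      ∑ j, ‖⟪((stdOrthonormalBasis ℂ V j : V) : E), w⟫_ℂ‖ ^ 2 := by
  have h := (stdOrthonormalBasis ℂ V).sum_sq_norm_inner_right (V.orthogonalProjectionOnto w)
  rw [Submodule.starProjection_apply]
  refine Eq.trans ?_ (h.symm.trans ?_)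
  · rfl
  · apply Finset.sum_congr rfl
    intro j _
    rw [Submodule.inner_orthogonalProjectionOnto_eq_of_mem_left]

/-- There is an orthonormal family of at most `dim V` vectors `q` with
`‖(P_V ⊗ 1) u‖² ≤ ∑ ‖a q_k‖²`. -/
theorem ent2_key [CompleteSpace E] (u : Amp E X) (a : Matrix X X ℂ) (ha : a.PosSemidef)
    (haa : ∀ i j, (a * a) i j = ⟪u i, u j⟫_ℂ) (V : Submodule ℂ E) [FiniteDimensional ℂ V] :
    ∃ (s : ℕ) (q : Fin s → EuclideanSpace ℂ X), Orthonormal ℂ q ∧ s ≤ finrank ℂ V ∧
      ‖tw V.starProjection (1 : Equiv.Perm X) u‖ ^ 2 ≤ ∑ k, ∑ i, ‖∑ j, a i j * q k j‖ ^ 2 := by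
  classical
  let f : Fin (finrank ℂ V) → E := fun j => ((stdOrthonormalBasis ℂ V j : V) : E)
  have hf : Orthonormal ℂ f := by
    have := (stdOrthonormalBasis ℂ V).orthonormal
    exact this.comp_linearIsometry V.subtypeₗᵢ
  let b : Fin (finrank ℂ V) → EuclideanSpace ℂ X := fun j => WithLp.toLp 2 (fun x => ⟪u x, f j⟫_ℂ)
  let S : Submodule ℂ (EuclideanSpace ℂ X) := Submodule.span ℂ (Set.range b)
  have hS : finrank ℂ S ≤ finrank ℂ V := by
    have := finrank_range_le_card (R := ℂ) b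
    rw [Fintype.card_fin] at this
    exact this
  let q : Fin (finrank ℂ S) → EuclideanSpace ℂ X :=
    fun k => ((stdOrthonormalBasis ℂ S k : S) : EuclideanSpace ℂ X)
  have hq : Orthonormal ℂ q := by
    have := (stdOrthonormalBasis ℂ S).orthonormal
    exact this.comp_linearIsometry S.subtypeₗᵢ
  refine ⟨finrank ℂ S, q, hq, hS, ?_⟩
  have hb : ∀ j, ‖b j‖ ^ 2 = ∑ k, ‖⟪b j, q k⟫_ℂ‖ ^ 2 := by
    intro j
    have hmem : b j ∈ S := Submodule.subset_span ⟨j, rfl⟩
    have h := (stdOrthonormalBasis ℂ S).sum_sq_norm_inner_left (⟨b j, hmem⟩ : S)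
    rw [Submodule.coe_norm] at h
    rw [← h]
    rfl
  have hin : ∀ j k, ⟪b j, q k⟫_ℂ = ⟪f j, ∑ x, q k x • u x⟫_ℂ := by
    intro j k
    rw [PiLp.inner_apply, inner_sum]
    apply Finset.sum_congr rfl
    intro x _
    rw [inner_smul_right]
    simp only [b, RCLike.inner_apply, inner_conj_symm]
  have e1 : ‖tw V.starProjection (1 : Equiv.Perm X) u‖ ^ 2 = ∑ j, ‖b j‖ ^ 2 := by
    rw [amp_norm_sq]
    simp only [tw_apply, ent2_starProj, EuclideanSpace.norm_sq_eq]
    rw [Finset.sum_comm]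
    apply Finset.sum_congr rfl
    intro j _
    apply Finset.sum_congr rfl
    intro x _
    simp only [b]
    rw [← inner_conj_symm, RCLike.norm_conj]
    rfl
  rw [e1]
  simp only [hb, hin]
  rw [Finset.sum_comm]
  apply Finset.sum_le_sum
  intro k _
  rw [← ent2_comb u a ha haa (fun x => q k x)]
  exact hf.sum_inner_products_le (s := Finset.univ) (x := ∑ x, q k x • u x)

end aux

/-- A simple identity for two complex numbers. -/
theorem ent2_id (N : ℝ) (α β : ℂ) :
    (N - 1) * ‖α - β‖ ^ 2 + ‖α + ((N : ℂ) - 1) * β‖ ^ 2 = N * ‖α‖ ^ 2 + N * (N - 1) * ‖β‖ ^ 2 := by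
  rw [Complex.sq_norm, Complex.sq_norm, Complex.sq_norm, Complex.sq_norm, Complex.normSq_apply,
    Complex.normSq_apply, Complex.normSq_apply, Complex.normSq_apply]
  simp
  ring

/-- Removing the mean does not increase the `ℓ²` norm. -/
theorem ent2_mean {X : Type} [Fintype X] [Nonempty X] (q : X → ℂ) :
    ∑ i, ‖q i - (∑ j, q j) / (Fintype.card X : ℂ)‖ ^ 2 ≤ ∑ i, ‖q i‖ ^ 2 := by
  have hN : (0 : ℝ) < Fintype.card X := by exact_mod_cast Fintype.card_pos
  set m : ℂ := ∑ j, q j with hm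
  have h : ∀ i, ‖q i - m / (Fintype.card X : ℂ)‖ ^ 2 =
      ‖q i‖ ^ 2 + ‖m‖ ^ 2 / (Fintype.card X : ℝ) ^ 2 -
        2 * (q i * (starRingEnd ℂ) (m / (Fintype.card X : ℂ))).re := by
    intro i
    rw [Complex.sq_norm, Complex.normSq_sub, Complex.sq_norm, Complex.sq_norm]
    congr 2
    rw [Complex.normSq_div]
    congr 1
    rw [Complex.normSq_natCast]; ring
  simp only [h]
  rw [Finset.sum_sub_distrib, Finset.sum_add_distrib, Finset.sum_const, Finset.card_univ,
    ← Finset.mul_sum, ← Complex.re_sum, ← Finset.sum_mul, ← hm, nsmul_eq_mul]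
  have h2 : (m * (starRingEnd ℂ) (m / (Fintype.card X : ℂ))).re =
      ‖m‖ ^ 2 / (Fintype.card X : ℝ) := by
    rw [map_div₀, Complex.conj_natCast, ← mul_div_assoc, Complex.mul_conj,
      Complex.normSq_eq_norm_sq]
    norm_cast
  rw [h2]
  have h3 : (Fintype.card X : ℝ) * (‖m‖ ^ 2 / (Fintype.card X : ℝ) ^ 2) =
      ‖m‖ ^ 2 / (Fintype.card X : ℝ) := by
    field_simp
  rw [h3]
  have : 0 ≤ ‖m‖ ^ 2 / (Fintype.card X : ℝ) := by positivity
  linarith

theorem ent_alg {X : Type} [Fintype X] [DecidableEq X] [Nontrivial X]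
    {E : Type} [NormedAddCommGroup E] [InnerProductSpace ℂ E] [CompleteSpace E]
    (u : Amp E X) (a : Matrix X X ℂ) (ha : a.PosSemidef)
    (haa : ∀ i j, (a * a) i j = ⟪u i, u j⟫_ℂ) (α β : ℂ) (κ δ : ℝ) (hκ : 0 ≤ κ) (hδ : 0 ≤ δ)
    (h1 : ∑ i, ∑ j, ‖a i j - (if i = j then α else β)‖ ^ 2 ≤ (κ * ‖u‖) ^ 2)
    (h2 : ‖P1 E X u‖ ≤ δ * ‖u‖) (V : Submodule ℂ E) [FiniteDimensional ℂ V] :
    ‖tw V.starProjection (1 : Equiv.Perm X) u‖ ≤
      (√((finrank ℂ V : ℝ) / (Fintype.card X - 1)) + (3 * κ + δ)) * ‖u‖ := by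
  classical
  have hN2 : (2 : ℝ) ≤ Fintype.card X := by
    exact_mod_cast Fintype.one_lt_card
  set N : ℝ := (Fintype.card X : ℝ) with hN
  have hu0 := norm_nonneg u
  rcases le_or_gt (N - 1) (finrank ℂ V : ℝ) with hr | hr
  · -- trivial case
    have h3 : (1 : ℝ) ≤ √((finrank ℂ V : ℝ) / (N - 1)) := by
      rw [Real.one_le_sqrt, one_le_div (by linarith)]
      exact hr
    have h4 : ‖tw V.starProjection (1 : Equiv.Perm X) u‖ ≤ 1 * ‖u‖ := by
      refine (norm_tw_apply_le _ _ _).trans ?_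
      exact mul_le_mul_of_nonneg_right (Submodule.starProjection_norm_le V) hu0
    refine h4.trans (mul_le_mul_of_nonneg_right ?_ hu0)
    linarith
  · -- main case
    set r : ℝ := (finrank ℂ V : ℝ) with hrdef
    have hr0 : 0 ≤ r := Nat.cast_nonneg _
    obtain ⟨s, q, hq, hs, hkey⟩ := ent2_key u a ha haa V
    -- the Hilbert-Schmidt norm of `a`
    have hHSa : ∑ i, ∑ j, ‖a i j‖ ^ 2 = ‖u‖ ^ 2 := by
      rw [Finset.sum_comm, amp_norm_sq]
      apply Finset.sum_congr rfl
      intro x _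
      have := ent2_comb u a ha haa (Pi.single x 1)
      rw [Finset.sum_eq_single x (fun y _ hy => by simp [hy]) (by simp)] at this
      simp only [Pi.single_eq_same, one_smul] at this
      rw [this]
      apply Finset.sum_congr rfl
      intro i _
      rw [Finset.sum_eq_single x (fun y _ hy => by simp [hy]) (by simp)]
      simp
    -- the action on constants
    have hone : ∑ i, ‖∑ j, a i j‖ ^ 2 ≤ N * (δ * ‖u‖) ^ 2 := by
      have e := ent2_comb u a ha haa (fun _ => 1)
      simp only [one_smul, mul_one] at e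
      rw [← e]
      have h3 : ‖P1 E X u‖ ^ 2 ≤ (δ * ‖u‖) ^ 2 := pow_le_pow_left₀ (norm_nonneg _) h2 2
      rw [amp_norm_sq] at h3
      simp only [P1_apply, norm_smul, Finset.sum_const, Finset.card_univ, nsmul_eq_mul, norm_inv,
        Complex.norm_natCast, ← hN] at h3
      have hNpos : 0 < N := by linarith
      have h5 : N * (N⁻¹ * ‖∑ y, u y‖) ^ 2 = N⁻¹ * ‖∑ y, u y‖ ^ 2 := by
        field_simp
      rw [h5] at h3
      have := mul_le_mul_of_nonneg_left h3 hNpos.le
      rwa [← mul_assoc, mul_inv_cancel₀ hNpos.ne', one_mul] at this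
    -- `T0` and the difference
    let T0 : Matrix X X ℂ := fun i j => if i = j then α else β
    let α' : ℂ := α - β
    let β' : ℂ := α + (N - 1) * β
    have hrow : ∀ i (c : X → ℂ), ∑ j, T0 i j * c j = α' * c i + β * ∑ j, c j := by
      intro i c
      have : ∀ j, T0 i j * c j = (if i = j then α' * c j else 0) + β * c j := by
        intro j
        by_cases h : i = j
        · simp [T0, α', h]; ring
        · simp [T0, h]
      simp only [this, Finset.sum_add_distrib, Finset.sum_ite_eq, Finset.mem_univ, if_true,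
        Finset.mul_sum]
    have hNpos : 0 < N := by linarith
    have hNc : (N : ℂ) ≠ 0 := by exact_mod_cast hNpos.ne'
    have hNN : (Fintype.card X : ℂ) = (N : ℂ) := by rw [hN]; norm_cast
    -- (A) the bound for `β'`
    have hA : ‖β'‖ ≤ (δ + κ) * ‖u‖ := by
      have h3 := ent2_mink (ι := Unit) (fun _ i => ∑ j, a i j) (fun _ i => ∑ j, (T0 i j - a i j))
        (A := √N * (δ * ‖u‖)) (B := √N * (κ * ‖u‖)) (by positivity) (by positivity)
        (by
          rw [mul_pow, Real.sq_sqrt hNpos.le]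
          simpa using hone)
        (by
          rw [mul_pow, Real.sq_sqrt hNpos.le]
          simp only [Finset.univ_unique, Finset.sum_const, Finset.card_singleton, one_smul]
          calc ∑ i, ‖∑ j, (T0 i j - a i j)‖ ^ 2
              ≤ ∑ i, N * ∑ j, ‖a i j - (if i = j then α else β)‖ ^ 2 := by
                apply Finset.sum_le_sum
                intro i _
                calc ‖∑ j, (T0 i j - a i j)‖ ^ 2 ≤ (∑ j, ‖T0 i j - a i j‖) ^ 2 :=
                      pow_le_pow_left₀ (norm_nonneg _) (norm_sum_le _ _) 2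
                  _ ≤ N * ∑ j, ‖T0 i j - a i j‖ ^ 2 := by
                      have := sq_sum_le_card_mul_sum_sq (s := (Finset.univ : Finset X))
                        (f := fun j => ‖T0 i j - a i j‖)
                      rwa [Finset.card_univ] at this
                  _ = _ := by
                      congr 1
                      apply Finset.sum_congr rfl
                      intro j _
                      rw [norm_sub_rev]
            _ = N * ∑ i, ∑ j, ‖a i j - (if i = j then α else β)‖ ^ 2 := by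
                rw [Finset.mul_sum]
            _ ≤ N * (κ * ‖u‖) ^ 2 := mul_le_mul_of_nonneg_left h1 hNpos.le)
      simp only [Finset.univ_unique, Finset.sum_const, Finset.card_singleton, one_smul] at h3
      have h4 : ∀ i, ∑ j, a i j + ∑ j, (T0 i j - a i j) = β' := by
        intro i
        rw [← Finset.sum_add_distrib]
        have h5 : ∀ j, a i j + (T0 i j - a i j) = T0 i j * (fun _ : X => (1 : ℂ)) j := by
          intro j; simp
        simp only [h5]
        rw [hrow i (fun _ => (1 : ℂ))]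
        simp only [Finset.sum_const, Finset.card_univ, nsmul_eq_mul, mul_one, hNN, α', β']
        ring
      simp only [h4, Finset.sum_const, Finset.card_univ, nsmul_eq_mul] at h3
      rw [← hN] at h3
      have h6 : N * ‖β'‖ ^ 2 ≤ N * ((δ + κ) * ‖u‖) ^ 2 := by
        refine h3.trans (le_of_eq ?_)
        have : (√N * (δ * ‖u‖) + √N * (κ * ‖u‖)) ^ 2 = (√N) ^ 2 * ((δ + κ) * ‖u‖) ^ 2 := by ring
        rw [this, Real.sq_sqrt hNpos.le]
      have h7 := le_of_mul_le_mul_left h6 hNpos
      exact (sq_le_sq₀ (norm_nonneg _) (by positivity)).1 h7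
    -- (B) the bound for `α'`
    have hB : √(N - 1) * ‖α'‖ ≤ (1 + κ) * ‖u‖ := by
      have h3 := ent2_mink (fun i j => a i j) (fun i j => (T0 i j - a i j))
        (A := ‖u‖) (B := κ * ‖u‖) (by positivity) (by positivity) hHSa.le
        (by
          refine le_trans (le_of_eq ?_) h1
          apply Finset.sum_congr rfl
          intro i _
          apply Finset.sum_congr rfl
          intro j _
          rw [norm_sub_rev])
      have h4 : ∑ i, ∑ j, ‖a i j + (T0 i j - a i j)‖ ^ 2 =
          (N - 1) * ‖α'‖ ^ 2 + ‖β'‖ ^ 2 := by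
        have h5 : ∀ i : X, ∑ j, ‖a i j + (T0 i j - a i j)‖ ^ 2 = ‖α‖ ^ 2 + (N - 1) * ‖β‖ ^ 2 := by
          intro i
          have h6 : ∀ j, ‖a i j + (T0 i j - a i j)‖ ^ 2 =
              (if i = j then ‖α‖ ^ 2 - ‖β‖ ^ 2 else 0) + ‖β‖ ^ 2 := by
            intro j
            by_cases h : i = j
            · simp [T0, h]
            · simp [T0, h]
          simp only [h6, Finset.sum_add_distrib, Finset.sum_ite_eq, Finset.mem_univ, if_true,
            Finset.sum_const, Finset.card_univ, nsmul_eq_mul]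
          rw [← hN]; ring
        simp only [h5, Finset.sum_const, Finset.card_univ, nsmul_eq_mul]
        rw [← hN]
        have := ent2_id N α β
        simp only [α', β']
        rw [this]; ring
      rw [h4] at h3
      have h5 : (√(N - 1) * ‖α'‖) ^ 2 ≤ ((1 + κ) * ‖u‖) ^ 2 := by
        rw [mul_pow, Real.sq_sqrt (by linarith)]
        have : 0 ≤ ‖β'‖ ^ 2 := by positivity
        calc (N - 1) * ‖α'‖ ^ 2 ≤ (‖u‖ + κ * ‖u‖) ^ 2 := by linarith
          _ = _ := by ring
      exact (sq_le_sq₀ (by positivity) (by positivity)).1 h5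
    -- (C) `T0` on the orthonormal family
    have hC : ∑ k, ∑ i, ‖∑ j, T0 i j * q k j‖ ^ 2 ≤ (√r * ‖α'‖ + ‖β'‖) ^ 2 := by
      have h3 := ent2_mink (fun k i => α' * (q k i - (∑ j, q k j) / (Fintype.card X : ℂ)))
        (fun k i => β' * ((∑ j, q k j) / (Fintype.card X : ℂ)))
        (A := √r * ‖α'‖) (B := ‖β'‖) (by positivity) (by positivity)
        (by
          rw [mul_pow, Real.sq_sqrt hr0]
          have : ∀ k : Fin s, ∑ i, ‖α' * (q k i - (∑ j, q k j) / (Fintype.card X : ℂ))‖ ^ 2 ≤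
              ‖α'‖ ^ 2 := by
            intro k
            simp only [norm_mul, mul_pow]
            rw [← Finset.mul_sum]
            have h4 := ent2_mean (fun i => q k i)
            have h5 : ∑ i, ‖q k i‖ ^ 2 = 1 := by
              rw [← EuclideanSpace.norm_sq_eq, hq.1 k]; norm_num
            rw [h5] at h4
            calc _ ≤ ‖α'‖ ^ 2 * 1 := mul_le_mul_of_nonneg_left h4 (by positivity)
              _ = _ := mul_one _
          calc _ ≤ ∑ k : Fin s, ‖α'‖ ^ 2 := Finset.sum_le_sum fun k _ => this k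
            _ = (s : ℝ) * ‖α'‖ ^ 2 := by simp
            _ ≤ r * ‖α'‖ ^ 2 := by
                apply mul_le_mul_of_nonneg_right _ (by positivity)
                rw [hrdef]; exact_mod_cast hs)
        (by
          simp only [norm_mul, mul_pow, norm_div, Complex.norm_natCast, div_pow, Finset.sum_const,
            Finset.card_univ, nsmul_eq_mul]
          rw [← hN]
          have h4 : ∀ k : Fin s, N * (‖β'‖ ^ 2 * (‖∑ j, q k j‖ ^ 2 / N ^ 2)) =
              (‖β'‖ ^ 2 / N) * ‖∑ j, q k j‖ ^ 2 := by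
            intro k; field_simp
          simp only [h4]
          rw [← Finset.mul_sum]
          have h5 : ∑ k, ‖∑ j, q k j‖ ^ 2 ≤ N := by
            have h6 := hq.sum_inner_products_le (s := Finset.univ)
              (x := (WithLp.toLp 2 (fun _ => (1 : ℂ)) : EuclideanSpace ℂ X))
            rw [EuclideanSpace.norm_sq_eq] at h6
            refine le_trans (le_of_eq ?_) (h6.trans (le_of_eq ?_))
            · apply Finset.sum_congr rfl
              intro k _
              rw [← inner_conj_symm, PiLp.inner_apply, RCLike.norm_conj]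
              simp
            · simp [hN]
          calc ‖β'‖ ^ 2 / N * ∑ k, ‖∑ j, q k j‖ ^ 2 ≤ ‖β'‖ ^ 2 / N * N :=
                mul_le_mul_of_nonneg_left h5 (by positivity)
            _ = ‖β'‖ ^ 2 := by field_simp)
      refine le_trans (le_of_eq ?_) h3
      apply Finset.sum_congr rfl
      intro k _
      apply Finset.sum_congr rfl
      intro i _
      rw [hrow i (fun j => q k j), hNN]
      congr 2
      simp only [α', β']
      field_simp
      ring
    -- (D)
    have hD : ∑ k, ∑ i, ‖∑ j, a i j * q k j‖ ^ 2 ≤ ((√r * ‖α'‖ + ‖β'‖) + κ * ‖u‖) ^ 2 := by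
      have h3 := ent2_mink (fun k i => ∑ j, T0 i j * q k j)
        (fun k i => ∑ j, (a i j - T0 i j) * q k j)
        (A := √r * ‖α'‖ + ‖β'‖) (B := κ * ‖u‖) (by positivity) (by positivity) hC
        (by
          refine (ent2_bessel (fun i j => a i j - T0 i j) q hq).trans h1)
      refine le_trans (le_of_eq ?_) h3
      apply Finset.sum_congr rfl
      intro k _
      apply Finset.sum_congr rfl
      intro i _
      rw [← Finset.sum_add_distrib]
      congr 3
      ext j
      ring
    -- (E)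
    have hE : ‖tw V.starProjection (1 : Equiv.Perm X) u‖ ≤ (√r * ‖α'‖ + ‖β'‖) + κ * ‖u‖ :=
      (sq_le_sq₀ (norm_nonneg _) (by positivity)).1 (hkey.trans hD)
    have hF : √r * ‖α'‖ ≤ (√(r / (N - 1)) + κ) * ‖u‖ := by
      have hpos : 0 < √(N - 1) := Real.sqrt_pos.2 (by linarith)
      have h3 : √r = √(r / (N - 1)) * √(N - 1) := by
        rw [← Real.sqrt_mul (by apply div_nonneg hr0; linarith)]
        congr 1
        have : N - 1 ≠ 0 := by linarith
        field_simp
      have h4 : √(r / (N - 1)) ≤ 1 := by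
        rw [Real.sqrt_le_iff]
        refine ⟨zero_le_one, ?_⟩
        rw [one_pow, div_le_one (by linarith)]
        exact hr.le
      calc √r * ‖α'‖ = √(r / (N - 1)) * (√(N - 1) * ‖α'‖) := by rw [h3]; ring
        _ ≤ √(r / (N - 1)) * ((1 + κ) * ‖u‖) := mul_le_mul_of_nonneg_left hB (Real.sqrt_nonneg _)
        _ = (√(r / (N - 1)) + √(r / (N - 1)) * κ) * ‖u‖ := by ring
        _ ≤ (√(r / (N - 1)) + κ) * ‖u‖ := by
            apply mul_le_mul_of_nonneg_right _ hu0
            have := mul_le_mul_of_nonneg_right h4 hκ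
            linarith
    calc _ ≤ (√r * ‖α'‖ + ‖β'‖) + κ * ‖u‖ := hE
      _ ≤ ((√(r / (N - 1)) + κ) * ‖u‖ + (δ + κ) * ‖u‖) + κ * ‖u‖ := by gcongr
      _ = _ := by ring

end CA
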