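import Pool.Agent.Helper33.CA.UGAP
import Pool.Agent.Helper33.CA.GAP

/-! Module GAPXX (MP_464bf1_lc): nearly invariant functions on `X × X`. -/

namespace CA

/-- The representation of `Perm X` on functions on `X × X`. -/
noncomputable def gapxxRho (X : Type) [Fintype X] [DecidableEq X] :
    Equiv.Perm X →* (Amp ℂ (X × X) →L[ℂ] Amp ℂ (X × X)) where
  toFun σ := tw 1 (Equiv.prodCongr σ σ)
  map_one' := by
    have : Equiv.prodCongr (1 : Equiv.Perm X) (1 : Equiv.Perm X) = 1 := by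
      ext x <;> rfl
    rw [this, tw_one_one]
  map_mul' σ τ := by
    have : Equiv.prodCongr (σ * τ) (σ * τ) = Equiv.prodCongr σ σ * Equiv.prodCongr τ τ := by
      ext x <;> rfl
    rw [tw_mul, one_mul, this]

theorem gapxxRho_apply {X : Type} [Fintype X] [DecidableEq X] (σ : Equiv.Perm X)
    (F : Amp ℂ (X × X)) (x y : X) : gapxxRho X σ F (x, y) = F (σ.symm x, σ.symm y) := by
  show tw 1 (Equiv.prodCongr σ σ) F (x, y) = _
  rw [tw_apply]
  rfl

theorem gapxxRho_star {X : Type} [Fintype X] [DecidableEq X] (σ : Equiv.Perm X) :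
    star (gapxxRho X σ) = gapxxRho X σ⁻¹ := by
  show star (tw 1 (Equiv.prodCongr σ σ)) = tw 1 (Equiv.prodCongr σ⁻¹ σ⁻¹)
  rw [tw_star, star_one]
  rfl

theorem gapxx_g_inv {p : ℕ} {X : Type} (P : KMS p (Equiv.Perm X)) (i : Fin 3) (k : ZMod p) :
    (P.g i k)⁻¹ = P.g i (-k) := by
  rw [inv_eq_iff_mul_eq_one, ← P.g_add, add_neg_cancel, P.g_zero]

theorem gapxx_z_inv {p : ℕ} {X : Type} (P : KMS p (Equiv.Perm X)) (i : Fin 3) (k : ZMod p) :
    (P.z i k)⁻¹ = P.z i (-k) := by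
  rw [inv_eq_iff_mul_eq_one, ← P.z_add, add_neg_cancel, P.z_zero]

theorem gapxx {p : ℕ} [Fact p.Prime] (hp : 5 ≤ p) {X : Type} [Fintype X] [DecidableEq X]
    (P : KMS p (Equiv.Perm X)) (h2 : TwoTrans P) (h : X → X → ℂ) (δ : ℝ) (hδ : 0 ≤ δ)
    (hh : ∀ i k, ∑ x, ∑ y, ‖h (P.g i k x) (P.g i k y) - h x y‖ ^ 2 ≤ δ ^ 2) :
    ∃ a b : ℂ, ∑ x, ∑ y, ‖h x y - (if x = y then a else b)‖ ^ 2 ≤ (3 * δ / eps p) ^ 2 := by
  obtain ⟨hc0, hc12, hcp⟩ := ugap_cc hp
  have heps : 0 < eps p := by unfold eps; linarith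
  have hp0 : (0 : ℝ) < p := by exact_mod_cast NeZero.pos p
  have hpc : (p : ℂ) ≠ 0 := by exact_mod_cast NeZero.ne p
  set K : KMS p (Amp ℂ (X × X) →L[ℂ] Amp ℂ (X × X)) := P.map (gapxxRho X) with hK
  have hg : ∀ i k, star (K.g i k) = K.g i (-k) := by
    intro i k
    show star (gapxxRho X (P.g i k)) = gapxxRho X (P.g i (-k))
    rw [gapxxRho_star, gapxx_g_inv]
  have hz : ∀ i k, star (K.z i k) = K.z i (-k) := by
    intro i k
    show star (gapxxRho X (P.z i k)) = gapxxRho X (P.z i (-k))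
    rw [gapxxRho_star, gapxx_z_inv]
  obtain ⟨hD, hgap⟩ := unitary_gap hp K hg hz 0 (star_zero _) (mul_zero _)
    (fun i => by rw [zero_mul, mul_zero])
  set D := ∑ i, (1 - K.e ℂ i) + (0 : Amp ℂ (X × X) →L[ℂ] Amp ℂ (X × X)) with hDdef
  set H : Amp ℂ (X × X) := WithLp.toLp 2 (fun q : X × X => h q.1 q.2) with hH
  obtain ⟨w, hw0, hw⟩ := gap_dist D hD heps hgap H
  obtain ⟨hinv, -⟩ := unitary_ker K hg 0 (star_zero _) (mul_zero _) w hw0
  -- near invariance of `H`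
  have hnear : ∀ i k, ‖H - K.g i k H‖ ≤ δ := by
    intro i k
    rw [← sq_le_sq₀ (norm_nonneg _) hδ, amp_norm_sq]
    refine le_trans (le_of_eq ?_) (hh i k)
    rw [← Equiv.sum_comp (Equiv.prodCongr (P.g i k) (P.g i k)), Fintype.sum_prod_type]
    refine Finset.sum_congr rfl fun x _ => Finset.sum_congr rfl fun y _ => ?_
    congr 2
    show H (P.g i k x, P.g i k y) - gapxxRho X (P.g i k) H (P.g i k x, P.g i k y) = _
    rw [gapxxRho_apply, Equiv.symm_apply_apply, Equiv.symm_apply_apply]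
  have h1e : ∀ i, ‖(1 - K.e ℂ i) H‖ ≤ δ := by
    intro i
    have h1 : (1 - K.e ℂ i) H = (p : ℂ)⁻¹ • ∑ k, (H - K.g i k H) := by
      rw [Finset.sum_sub_distrib, Finset.sum_const, Finset.card_univ, ZMod.card, smul_sub,
        ← Nat.cast_smul_eq_nsmul ℂ, smul_smul, inv_mul_cancel₀ hpc, one_smul]
      unfold KMS.e
      rw [sub_apply, one_apply_eq_self, smul_apply, sum_apply]
    rw [h1, norm_smul, norm_inv, Complex.norm_natCast]
    have h3 : ‖∑ k, (H - K.g i k H)‖ ≤ (p : ℝ) * δ := by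
      refine (norm_sum_le _ _).trans ?_
      refine (Finset.sum_le_sum fun k _ => hnear i k).trans ?_
      rw [Finset.sum_const, Finset.card_univ, ZMod.card, nsmul_eq_mul]
    calc (p : ℝ)⁻¹ * ‖∑ k, (H - K.g i k H)‖ ≤ (p : ℝ)⁻¹ * ((p : ℝ) * δ) := by gcongr
      _ = δ := by field_simp
  have hDH : ‖D H‖ ≤ 3 * δ := by
    rw [hDdef, add_zero, sum_apply]
    refine (norm_sum_le _ _).trans ?_
    refine (Finset.sum_le_sum fun i _ => h1e i).trans ?_
    rw [Finset.sum_const, Finset.card_univ, Fintype.card_fin, nsmul_eq_mul]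
    norm_num
  obtain ⟨a, b, hab⟩ := h2 (fun x y => w (x, y)) (by
    intro i k x y
    have h1 := hinv i k
    have h2 : gapxxRho X (P.g i k) w (P.g i k x, P.g i k y) = w (P.g i k x, P.g i k y) := by
      have h3 : gapxxRho X (P.g i k) w = w := h1
      rw [h3]
    rw [gapxxRho_apply, Equiv.symm_apply_apply, Equiv.symm_apply_apply] at h2
    exact h2.symm)
  refine ⟨a, b, ?_⟩
  have hfin : ∑ x, ∑ y, ‖h x y - (if x = y then a else b)‖ ^ 2 = ‖H - w‖ ^ 2 := by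
    rw [amp_norm_sq, Fintype.sum_prod_type]
    refine Finset.sum_congr rfl fun x _ => Finset.sum_congr rfl fun y _ => ?_
    rw [← hab x y]
    rfl
  rw [hfin]
  have h5 : ‖H - w‖ ≤ 3 * δ / eps p := by
    rw [le_div_iff₀ heps, mul_comm]
    exact hw.trans hDH
  exact pow_le_pow_left₀ (norm_nonneg _) h5 2

end CA
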