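import Pool.Agent.Helper33.CA.ENT1
import Pool.Agent.Helper33.CA.ENT2
import Pool.Agent.Helper33.CA.GAPXX

/-! Module ENT (MP_464bf1_lc): nearly invariant vectors are maximally entangled. -/

namespace CA

open scoped InnerProductSpace
open Module

theorem eps_pos (p : ℕ) [Fact p.Prime] (hp : 5 ≤ p) : 0 < eps p := by
  unfold eps cc
  have h5 : (2 : ℝ) < √(p : ℝ) := by
    apply Real.lt_sqrt_of_sq_lt
    have : (5 : ℝ) ≤ p := by exact_mod_cast hp
    linarith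
  have : (√(p : ℝ))⁻¹ < 2⁻¹ := inv_strictAnti₀ (by norm_num) h5
  linarith

theorem entangle {p : ℕ} [Fact p.Prime] (hp : 5 ≤ p) {κ : ℝ} (hκ : 0 < κ) :
    ∃ δ : ℝ, 0 < δ ∧ ∀ {X : Type} [Fintype X] [DecidableEq X] [Nontrivial X]
      (P : KMS p (Equiv.Perm X)) (_ : TwoTrans P)
      {E : Type} [NormedAddCommGroup E] [InnerProductSpace ℂ E] [CompleteSpace E]
      (x : Fin 3 → ZMod p → (E →L[ℂ] E)) (u : Amp E X)
      (_ : ∀ i k, ‖tw (x i k) (P.g i k) u - u‖ ≤ δ * ‖u‖)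
      (_ : ∀ i k, ‖tw (star (x i k) * x i k - 1) (1 : Equiv.Perm X) u‖ ≤ δ * ‖u‖)
      (_ : ‖P1 E X u‖ ≤ δ * ‖u‖)
      (V : Submodule ℂ E) [FiniteDimensional ℂ V],
      ‖tw V.starProjection (1 : Equiv.Perm X) u‖ ≤
        (√((finrank ℂ V : ℝ) / (Fintype.card X - 1)) + κ) * ‖u‖ := by
  have he := eps_pos p hp
  -- choose r with 18 r / eps + r² ≤ κ, δ = r²
  set r : ℝ := min 1 (κ / (18 / eps p + 1)) with hr
  have hd : 0 < 18 / eps p + 1 := by positivity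
  have hr0 : 0 < r := lt_min one_pos (by positivity)
  have hr1 : r ≤ 1 := min_le_left _ _
  have hr2 : r * (18 / eps p + 1) ≤ κ := by
    have := min_le_right 1 (κ / (18 / eps p + 1))
    calc r * (18 / eps p + 1) ≤ κ / (18 / eps p + 1) * (18 / eps p + 1) := by gcongr
      _ = κ := by field_simp
  refine ⟨r ^ 2, by positivity, ?_⟩
  intro X _ _ _ P h2 E _ _ _ x u h3 h4 h5 V _
  obtain ⟨a, ha, haa⟩ := exists_gram_sqrt u
  have hr21 : r ^ 2 ≤ 1 := by nlinarith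
  have h6 : ∀ i k, ∑ y, ∑ y', ‖a (P.g i k y) (P.g i k y') - a y y'‖ ^ 2 ≤ (2 * r * ‖u‖) ^ 2 := by
    intro i k
    have := ent_gram (x i k) (P.g i k) u (r ^ 2) (by positivity) hr21 (h3 i k) (h4 i k) a ha haa
    calc _ ≤ 4 * r ^ 2 * ‖u‖ ^ 2 := this
      _ = _ := by ring
  obtain ⟨α', β', hab⟩ := gapxx hp P h2 a (2 * r * ‖u‖) (by positivity) h6
  have h7 : ∑ i, ∑ j, ‖a i j - (if i = j then α' else β')‖ ^ 2 ≤ ((6 * r / eps p) * ‖u‖) ^ 2 := by
    calc _ ≤ _ := hab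
      _ = _ := by ring
  have h8 := ent_alg u a ha haa α' β' (6 * r / eps p) (r ^ 2) (by positivity) (by positivity) h7
    (by calc _ ≤ _ := h5
          _ = _ := by ring) V
  refine h8.trans ?_
  apply mul_le_mul_of_nonneg_right _ (norm_nonneg _)
  have h9 : 3 * (6 * r / eps p) + r ^ 2 ≤ κ := by
    calc 3 * (6 * r / eps p) + r ^ 2 = r * (18 / eps p) + r * r := by ring
      _ ≤ r * (18 / eps p) + r * 1 := by gcongr
      _ = r * (18 / eps p + 1) := by ring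
      _ ≤ κ := hr2
  linarith

end CA
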