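import Pool.Agent.Helper33.CA.PS
import Pool.Agent.Helper33.CA.Basic

/-! Module ENT1 (MP_464bf1_lc): the square root of the Gram matrix of a nearly invariant vector is
nearly invariant. -/

namespace CA

open scoped InnerProductSpace ComplexOrder

/-- A contraction `W` on `ℂ^X` gives a contraction of `E^X`, in sesquilinear form. -/
theorem ent1_contr {X : Type} [Fintype X] [DecidableEq X]
    {E : Type} [NormedAddCommGroup E] [InnerProductSpace ℂ E]
    (W : Matrix X X ℂ) (hW : ∀ v : X → ℂ, ∑ x, ‖(W.mulVec v) x‖ ^ 2 ≤ ∑ x, ‖v x‖ ^ 2)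
    (v w : X → E) :
    ‖∑ i, ∑ j, W i j * ⟪v j, w i⟫_ℂ‖ ≤ √(∑ j, ‖v j‖ ^ 2) * √(∑ i, ‖w i‖ ^ 2) := by
  classical
  let S : Submodule ℂ E := Submodule.span ℂ (Set.range w)
  haveI : FiniteDimensional ℂ S := FiniteDimensional.span_of_finite ℂ (Set.finite_range w)
  let e : OrthonormalBasis (Fin (Module.finrank ℂ S)) ℂ S := stdOrthonormalBasis ℂ S
  have he : Orthonormal ℂ (fun k => ((e k : S) : E)) :=
    e.orthonormal.comp_linearIsometry S.subtypeₗᵢ
  have hmem : ∀ i, w i ∈ S := fun i => Submodule.subset_span ⟨i, rfl⟩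
  have hin : ∀ i j, ⟪v j, w i⟫_ℂ = ∑ k, ⟪v j, (e k : E)⟫_ℂ * ⟪(e k : E), w i⟫_ℂ := by
    intro i j
    have h1 : w i = ∑ k, ⟪(e k : E), w i⟫_ℂ • (e k : E) := by
      have := e.sum_repr' ⟨w i, hmem i⟩
      have h2 := congrArg (Subtype.val) this
      simp only [Submodule.coe_sum, Submodule.coe_smul] at h2
      exact h2.symm
    conv_lhs => rw [h1]
    rw [inner_sum]
    apply Finset.sum_congr rfl
    intro k _
    rw [inner_smul_right, mul_comm]
  have h1 : ∑ i, ∑ j, W i j * ⟪v j, w i⟫_ℂ =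
      ∑ p : X × Fin (Module.finrank ℂ S),
        (W.mulVec (fun j => ⟪v j, (e p.2 : E)⟫_ℂ) p.1) * ⟪(e p.2 : E), w p.1⟫_ℂ := by
    rw [Fintype.sum_prod_type]
    apply Finset.sum_congr rfl
    intro i _
    simp only [hin, Finset.mul_sum]
    rw [Finset.sum_comm]
    apply Finset.sum_congr rfl
    intro k _
    rw [Matrix.mulVec, dotProduct, Finset.sum_mul]
    apply Finset.sum_congr rfl
    intro j _
    ring
  rw [h1]
  refine (norm_sum_le _ _).trans ?_
  simp only [norm_mul]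
  refine (Real.sum_mul_le_sqrt_mul_sqrt _ _ _).trans ?_
  have hv : ∑ p : X × Fin (Module.finrank ℂ S),
      ‖W.mulVec (fun j => ⟪v j, (e p.2 : E)⟫_ℂ) p.1‖ ^ 2 ≤ ∑ j, ‖v j‖ ^ 2 := by
    rw [Fintype.sum_prod_type, Finset.sum_comm]
    calc _ ≤ ∑ k, ∑ j, ‖⟪v j, (e k : E)⟫_ℂ‖ ^ 2 := Finset.sum_le_sum fun k _ => hW _
      _ = ∑ j, ∑ k, ‖⟪v j, (e k : E)⟫_ℂ‖ ^ 2 := Finset.sum_comm
      _ ≤ ∑ j, ‖v j‖ ^ 2 := by
          apply Finset.sum_le_sum
          intro j _
          refine le_trans (le_of_eq ?_) (he.sum_inner_products_le (s := Finset.univ) (x := v j))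
          apply Finset.sum_congr rfl
          intro k _
          rw [← inner_conj_symm, RCLike.norm_conj]
  have hw : ∑ p : X × Fin (Module.finrank ℂ S), ‖⟪(e p.2 : E), w p.1⟫_ℂ‖ ^ 2 ≤
      ∑ i, ‖w i‖ ^ 2 := by
    rw [Fintype.sum_prod_type]
    apply Finset.sum_le_sum
    intro i _
    exact he.sum_inner_products_le (s := Finset.univ) (x := w i)
  exact mul_le_mul (Real.sqrt_le_sqrt hv) (Real.sqrt_le_sqrt hw) (Real.sqrt_nonneg _)
    (Real.sqrt_nonneg _)

theorem ent_gram {X : Type} [Fintype X] [DecidableEq X]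
    {E : Type} [NormedAddCommGroup E] [InnerProductSpace ℂ E] [CompleteSpace E]
    (x : E →L[ℂ] E) (σ : Equiv.Perm X) (u : Amp E X) (δ : ℝ) (hδ : 0 ≤ δ) (hδ1 : δ ≤ 1)
    (h1 : ‖tw x σ u - u‖ ≤ δ * ‖u‖)
    (h2 : ‖tw (star x * x - 1) (1 : Equiv.Perm X) u‖ ≤ δ * ‖u‖)
    (a : Matrix X X ℂ) (ha : a.PosSemidef) (haa : ∀ i j, (a * a) i j = ⟪u i, u j⟫_ℂ) :
    ∑ i, ∑ j, ‖a (σ i) (σ j) - a i j‖ ^ 2 ≤ 4 * δ * ‖u‖ ^ 2 := by
  have hps := powers_stormer (a.submatrix σ σ) a (ha.submatrix σ) ha (4 * δ * ‖u‖ ^ 2) (by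
    intro W hWH hW
    set u' := tw x σ u with hu'
    have hnu : √(∑ j, ‖u j‖ ^ 2) = ‖u‖ := by
      rw [← amp_norm_sq, Real.sqrt_sq (norm_nonneg _)]
    have hperm : ∀ v : Amp E X, √(∑ j, ‖v (σ j)‖ ^ 2) = ‖v‖ := by
      intro v
      rw [Equiv.sum_comp σ (fun j => ‖v j‖ ^ 2), ← amp_norm_sq, Real.sqrt_sq (norm_nonneg _)]
    have hu'σ : ∀ j, u' (σ j) = x (u j) := by
      intro j; rw [hu', tw_apply, Equiv.symm_apply_apply]
    -- the trace
    have htr : Matrix.trace (W * (a.submatrix σ σ * a.submatrix σ σ - a * a)) =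
        ∑ i, ∑ j, W i j * ⟪u (σ j) - u' (σ j), u (σ i)⟫_ℂ +
        ∑ i, ∑ j, W i j * ⟪u' (σ j), u (σ i) - u' (σ i)⟫_ℂ +
        ∑ i, ∑ j, W i j * ⟪u j, (star x * x - 1) (u i)⟫_ℂ := by
      rw [Matrix.trace]
      simp only [Matrix.diag_apply, Matrix.mul_apply, Matrix.sub_apply]
      rw [← Finset.sum_add_distrib, ← Finset.sum_add_distrib]
      apply Finset.sum_congr rfl
      intro i _
      rw [← Finset.sum_add_distrib, ← Finset.sum_add_distrib]
      apply Finset.sum_congr rfl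
      intro j _
      have e1 : ∑ k, a.submatrix σ σ j k * a.submatrix σ σ k i = ⟪u (σ j), u (σ i)⟫_ℂ := by
        rw [← haa, Matrix.mul_apply]
        exact Equiv.sum_comp σ (fun k => a (σ j) k * a k (σ i))
      have e2 : ∑ k, a j k * a k i = ⟪u j, u i⟫_ℂ := by
        rw [← haa, Matrix.mul_apply]
      rw [e1, e2, hu'σ, hu'σ]
      rw [inner_sub_left, inner_sub_right, ContinuousLinearMap.sub_apply, inner_sub_right,
        ContinuousLinearMap.mul_apply, inner_star_right, ContinuousLinearMap.one_apply]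
      ring
    rw [htr]
    have b1 := ent1_contr W hW (fun j => u (σ j) - u' (σ j)) (fun i => u (σ i))
    have b2 := ent1_contr W hW (fun j => u' (σ j)) (fun i => u (σ i) - u' (σ i))
    have b3 := ent1_contr W hW (fun j => u j) (fun i => (star x * x - 1) (u i))
    have c1 : √(∑ j, ‖u (σ j) - u' (σ j)‖ ^ 2) = ‖u' - u‖ := by
      rw [norm_sub_rev]
      exact hperm (u - u')
    have c2 : √(∑ i, ‖(star x * x - 1) (u i)‖ ^ 2) =
        ‖tw (star x * x - 1) (1 : Equiv.Perm X) u‖ := by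
      rw [← Real.sqrt_sq (norm_nonneg (tw (star x * x - 1) (1 : Equiv.Perm X) u)), amp_norm_sq]
      simp only [tw_apply]
      rfl
    rw [c1, hperm] at b1
    rw [hperm, c1] at b2
    rw [hnu, c2] at b3
    have hu0 := norm_nonneg u
    have d1 : ‖u'‖ ≤ 2 * ‖u‖ := by
      have : ‖u'‖ ≤ ‖u' - u‖ + ‖u‖ := by
        have := norm_add_le (u' - u) u
        rwa [sub_add_cancel] at this
      nlinarith
    refine (Complex.re_le_norm _).trans ?_
    refine (norm_add_le _ _).trans ?_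
    refine (add_le_add_left (norm_add_le _ _) _).trans ?_
    have b1' := b1.trans (mul_le_mul_of_nonneg_right h1 hu0)
    have b2' := b2.trans (mul_le_mul d1 h1 (norm_nonneg _) (by positivity))
    have b3' := b3.trans (mul_le_mul_of_nonneg_left h2 hu0)
    nlinarith)
  exact hps

end CA
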