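import Pool.Agent.Helper33.CA.F1a
import Pool.Agent.Helper33.CA.CPT

/-! Module F1 (MP_464bf1_lc): the uniform spectral gap modulo compact operators. -/

set_option linter.unusedSectionVars false

namespace CA

open scoped InnerProductSpace

section Uniform

variable (E : Type*) [NormedAddCommGroup E] [InnerProductSpace ℂ E] [CompleteSpace E]
    (X : ℕ → Type) [∀ n, Fintype (X n)] [∀ n, DecidableEq (X n)]

/-- Families of operators on all amplifications. -/
abbrev Fam : Type _ := ∀ n, (Amp E (X n) →L[ℂ] Amp E (X n))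

variable {E X}

/-- All coordinates of `v` are orthogonal to `F`. -/
def Perp (F : Submodule ℂ E) {Y : Type} [Fintype Y] (v : Amp E Y) : Prop := ∀ a, v a ∈ Fᗮ

theorem Perp.mono {F F' : Submodule ℂ E} (h : F ≤ F') {Y : Type} [Fintype Y] {v : Amp E Y}
    (hv : Perp F' v) : Perp F v := fun a => Submodule.orthogonal_le h (hv a)

theorem Perp.add {F : Submodule ℂ E} {Y : Type} [Fintype Y] {v w : Amp E Y}
    (hv : Perp F v) (hw : Perp F w) : Perp F (v + w) := fun a => by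
  have := Submodule.add_mem _ (hv a) (hw a)
  simpa using this

theorem Perp.smul {F : Submodule ℂ E} {Y : Type} [Fintype Y] {v : Amp E Y} (c : ℂ)
    (hv : Perp F v) : Perp F (c • v) := fun a => by
  have := Submodule.smul_mem _ c (hv a)
  simpa using this

/-- Localised families: uniformly bounded, and mapping `F'^⊥` to `F^⊥` (for suitable `F'`). -/
def Loc (T : Fam E X) : Prop :=
  (∃ C : ℝ, ∀ n, ‖T n‖ ≤ C) ∧ ∀ F : Submodule ℂ E, FiniteDimensional ℂ F →
    ∃ F' : Submodule ℂ E, FiniteDimensional ℂ F' ∧ ∀ n, ∀ v : Amp E (X n), Perp F' v → Perp F (T n v)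

theorem Loc.mul {S T : Fam E X} (hS : Loc S) (hT : Loc T) : Loc (S * T) := by
  obtain ⟨⟨C, hC⟩, h1⟩ := hS
  obtain ⟨⟨C', hC'⟩, h2⟩ := hT
  refine ⟨⟨C * C', fun n => ?_⟩, fun F hF => ?_⟩
  · refine (norm_mul_le _ _).trans ?_
    exact mul_le_mul (hC n) (hC' n) (norm_nonneg _) ((norm_nonneg _).trans (hC n))
  · obtain ⟨F1, hF1, h3⟩ := h1 F hF
    obtain ⟨F2, hF2, h4⟩ := h2 F1 hF1
    exact ⟨F2, hF2, fun n v hv => h3 n _ (h4 n v hv)⟩

theorem Loc.add {S T : Fam E X} (hS : Loc S) (hT : Loc T) : Loc (S + T) := by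
  obtain ⟨⟨C, hC⟩, h1⟩ := hS
  obtain ⟨⟨C', hC'⟩, h2⟩ := hT
  refine ⟨⟨C + C', fun n => ?_⟩, fun F hF => ?_⟩
  · exact (norm_add_le _ _).trans (add_le_add (hC n) (hC' n))
  · obtain ⟨F1, hF1, h3⟩ := h1 F hF
    obtain ⟨F2, hF2, h4⟩ := h2 F hF
    refine ⟨F1 ⊔ F2, inferInstance, fun n v hv => ?_⟩
    exact (h3 n v (hv.mono le_sup_left)).add (h4 n v (hv.mono le_sup_right))

theorem Loc.algebraMap (c : ℂ) : Loc (algebraMap ℂ (Fam E X) c) := by
  refine ⟨⟨‖c‖, fun n => ?_⟩, fun F hF => ⟨F, hF, fun n v hv => ?_⟩⟩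
  · rw [Pi.algebraMap_apply, Algebra.algebraMap_eq_smul_one, norm_smul]
    calc ‖c‖ * ‖(1 : Amp E (X n) →L[ℂ] Amp E (X n))‖ ≤ ‖c‖ * 1 := by
          gcongr
          exact ContinuousLinearMap.norm_id_le
      _ = ‖c‖ := mul_one _
  · rw [Pi.algebraMap_apply, Algebra.algebraMap_eq_smul_one]
    exact hv.smul c

theorem fam_star_mul (S T : Fam E X) : star (S * T) = star T * star S :=
  funext fun n => star_mul (S n) (T n)

theorem fam_star_add (S T : Fam E X) : star (S + T) = star S + star T :=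
  funext fun n => star_add (S n) (T n)

theorem fam_star_star (T : Fam E X) : star (star T) = T := funext fun n => star_star (T n)

variable (E X) in
/-- The *-algebra of localised families. -/
noncomputable def AdmS : StarSubalgebra ℂ (Fam E X) where
  carrier := {T | Loc T ∧ Loc (star T)}
  mul_mem' := fun {S T} hS hT => ⟨hS.1.mul hT.1, by
    rw [fam_star_mul]; exact hT.2.mul hS.2⟩
  add_mem' := fun {S T} hS hT => ⟨hS.1.add hT.1, by
    rw [fam_star_add]; exact hS.2.add hT.2⟩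
  algebraMap_mem' := fun c => ⟨Loc.algebraMap c, by
    have e : star (algebraMap ℂ (Fam E X) c) = algebraMap ℂ (Fam E X) (star c) := by
      funext n
      rw [Pi.star_apply, Pi.algebraMap_apply, Pi.algebraMap_apply, algebraMap_star_comm]
    rw [e]; exact Loc.algebraMap _⟩
  star_mem' := fun {T} hT => ⟨hT.2, by rw [fam_star_star]; exact hT.1⟩

variable (E X) in
/-- The *-algebra of localised families, as a type. -/
def Adm : Type _ := AdmS E X

noncomputable instance : Ring (Adm E X) := inferInstanceAs (Ring (AdmS E X))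
noncomputable instance : StarRing (Adm E X) := inferInstanceAs (StarRing (AdmS E X))
noncomputable instance : Algebra ℂ (Adm E X) := inferInstanceAs (Algebra ℂ (AdmS E X))
instance : StarModule ℂ (Adm E X) := inferInstanceAs (StarModule ℂ (AdmS E X))

/-- The family underlying an element of `Adm`. -/
def Adm.fam (T : Adm E X) : Fam E X := T.1

theorem Adm.loc (T : Adm E X) : Loc T.fam := T.2.1
theorem Adm.loc_star (T : Adm E X) : Loc (star T.fam) := T.2.2

/-- Constructor. -/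
def Adm.mk (T : Fam E X) (h : Loc T) (h' : Loc (star T)) : Adm E X := ⟨T, h, h'⟩

theorem Adm.fam_mk (T : Fam E X) (h : Loc T) (h' : Loc (star T)) : (Adm.mk T h h').fam = T := rfl
theorem Adm.ext {S T : Adm E X} (h : S.fam = T.fam) : S = T := Subtype.ext h
theorem Adm.fam_add (S T : Adm E X) : (S + T).fam = S.fam + T.fam := rfl
theorem Adm.fam_sub (S T : Adm E X) : (S - T).fam = S.fam - T.fam := rfl
theorem Adm.fam_mul (S T : Adm E X) : (S * T).fam = S.fam * T.fam := rfl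
theorem Adm.fam_star (S : Adm E X) : (star S).fam = star S.fam := rfl
theorem Adm.fam_smul (c : ℂ) (S : Adm E X) : (c • S).fam = c • S.fam := rfl
theorem Adm.fam_one : (1 : Adm E X).fam = 1 := rfl
theorem Adm.fam_zero : (0 : Adm E X).fam = 0 := rfl

/-- Uniformly compact families. -/
def UC (T : Fam E X) : Prop :=
  ∀ η : ℝ, 0 < η → ∃ F : Submodule ℂ E, FiniteDimensional ℂ F ∧
    ∀ n, ∀ v : Amp E (X n), Perp F v → ‖T n v‖ ≤ η * ‖v‖

theorem UC.add {S T : Fam E X} (hS : UC S) (hT : UC T) : UC (S + T) := by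
  intro η hη
  obtain ⟨F1, hF1, h1⟩ := hS (η / 2) (by positivity)
  obtain ⟨F2, hF2, h2⟩ := hT (η / 2) (by positivity)
  refine ⟨F1 ⊔ F2, inferInstance, fun n v hv => ?_⟩
  have e1 := h1 n v (hv.mono le_sup_left)
  have e2 := h2 n v (hv.mono le_sup_right)
  calc ‖(S + T) n v‖ = ‖S n v + T n v‖ := rfl
    _ ≤ ‖S n v‖ + ‖T n v‖ := norm_add_le _ _
    _ ≤ η * ‖v‖ := by linarith

theorem UC.mul_left {S T : Fam E X} (hS : Loc S) (hT : UC T) : UC (S * T) := by
  intro η hη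
  obtain ⟨⟨C, hC⟩, -⟩ := hS
  have hC0 : 0 ≤ C := (norm_nonneg _).trans (hC 0)
  obtain ⟨F, hF, h1⟩ := hT (η / (C + 1)) (by positivity)
  refine ⟨F, hF, fun n v hv => ?_⟩
  calc ‖(S * T) n v‖ = ‖S n (T n v)‖ := rfl
    _ ≤ ‖S n‖ * ‖T n v‖ := (S n).le_opNorm _
    _ ≤ (C + 1) * (η / (C + 1) * ‖v‖) := by
        gcongr
        · linarith [hC n]
        · exact h1 n v hv
    _ = η * ‖v‖ := by field_simp

theorem UC.mul_right {S T : Fam E X} (hS : Loc S) (hT : UC T) : UC (T * S) := by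
  intro η hη
  obtain ⟨⟨C, hC⟩, h2⟩ := hS
  have hC0 : 0 ≤ C := (norm_nonneg _).trans (hC 0)
  obtain ⟨F, hF, h1⟩ := hT (η / (C + 1)) (by positivity)
  obtain ⟨F', hF', h3⟩ := h2 F hF
  refine ⟨F', hF', fun n v hv => ?_⟩
  calc ‖(T * S) n v‖ = ‖T n (S n v)‖ := rfl
    _ ≤ (η / (C + 1)) * ‖S n v‖ := h1 n _ (h3 n v hv)
    _ ≤ (η / (C + 1)) * (‖S n‖ * ‖v‖) := by gcongr; exact (S n).le_opNorm _
    _ ≤ (η / (C + 1)) * ((C + 1) * ‖v‖) := by gcongr; linarith [hC n]
    _ = η * ‖v‖ := by field_simp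

theorem UC.star {T : Fam E X} (hS : Loc (star T)) (hT : UC T) : UC (star T) := by
  intro η hη
  obtain ⟨F, hF, h1⟩ := hT η hη
  obtain ⟨F', hF', h3⟩ := hS.2 F hF
  refine ⟨F', hF', fun n v hv => ?_⟩
  have e1 := h1 n _ (h3 n v hv)
  have e2 : ‖(Star.star T) n v‖ ^ 2 ≤ ‖T n ((Star.star T) n v)‖ * ‖v‖ := by
    have e3 : ⟪(Star.star T) n v, (Star.star T) n v⟫_ℂ = ⟪v, T n ((Star.star T) n v)⟫_ℂ := by
      rw [Pi.star_apply, inner_star_left]
    have e4 : ‖(Star.star T) n v‖ ^ 2 = ‖⟪v, T n ((Star.star T) n v)⟫_ℂ‖ := by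
      rw [← e3, inner_self_eq_norm_sq_to_K]
      simp
    rw [e4, mul_comm]
    exact norm_inner_le_norm _ _
  by_cases h0 : ‖(Star.star T) n v‖ = 0
  · rw [h0]; positivity
  · have h0' : 0 < ‖(Star.star T) n v‖ := lt_of_le_of_ne (norm_nonneg _) (Ne.symm h0)
    have e5 : ‖(Star.star T) n v‖ ^ 2 ≤ (η * ‖v‖) * ‖(Star.star T) n v‖ := by
      refine e2.trans ?_
      calc ‖T n ((Star.star T) n v)‖ * ‖v‖ ≤ (η * ‖(Star.star T) n v‖) * ‖v‖ := by gcongr
        _ = _ := by ring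
    rw [sq] at e5
    exact le_of_mul_le_mul_right e5 h0'

variable (E X) in
/-- The ideal of uniformly compact families. -/
def UCI : Ideal (Adm E X) where
  carrier := {T | UC T.fam}
  add_mem' := fun hS hT => UC.add hS hT
  zero_mem' := fun η hη => ⟨⊥, inferInstance, fun n v _ => by
    rw [Adm.fam_zero]
    show ‖(0 : Amp E (X n))‖ ≤ _
    rw [norm_zero]; positivity⟩
  smul_mem' := fun S _ hT => UC.mul_left S.loc hT

instance : (UCI E X).IsTwoSided where
  mul_mem_of_left := fun {T} S hT => UC.mul_right S.loc hT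

theorem UCI_star (T : Adm E X) (hT : T ∈ UCI E X) : star T ∈ UCI E X :=
  UC.star T.loc_star hT

theorem mem_UCI (T : Adm E X) : T ∈ UCI E X ↔ UC T.fam := Iff.rfl

/-- The family `a ⊗ σ_n`. -/
noncomputable def famtw (a : E →L[ℂ] E) (σ : ∀ n, Equiv.Perm (X n)) : Fam E X :=
  fun n => tw a (σ n)

theorem famtw_star (a : E →L[ℂ] E) (σ : ∀ n, Equiv.Perm (X n)) :
    star (famtw a σ) = famtw (star a) (fun n => (σ n)⁻¹) :=
  funext fun n => tw_star a (σ n)

theorem loc_famtw (a : E →L[ℂ] E) (σ : ∀ n, Equiv.Perm (X n)) : Loc (famtw a σ) := by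
  refine ⟨⟨‖a‖, fun n => norm_tw_le a (σ n)⟩, fun F hF => ?_⟩
  refine ⟨F.map (star a).toLinearMap, inferInstance, fun n v hv x => ?_⟩
  show tw a (σ n) v x ∈ Fᗮ
  rw [tw_apply, Submodule.mem_orthogonal]
  intro f hf
  rw [← inner_star_left]
  exact (Submodule.mem_orthogonal _ _).1 (hv _) _ (Submodule.mem_map_of_mem hf)

/-- `a ⊗ σ` as an element of `Adm`. -/
noncomputable def atw (a : E →L[ℂ] E) (σ : ∀ n, Equiv.Perm (X n)) : Adm E X :=
  Adm.mk (famtw a σ) (loc_famtw a σ) (by rw [famtw_star]; exact loc_famtw _ _)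

theorem atw_star (a : E →L[ℂ] E) (σ : ∀ n, Equiv.Perm (X n)) :
    star (atw a σ) = atw (star a) σ⁻¹ := Adm.ext (famtw_star a σ)

theorem atw_mul (a b : E →L[ℂ] E) (σ τ : ∀ n, Equiv.Perm (X n)) :
    atw a σ * atw b τ = atw (a * b) (σ * τ) :=
  Adm.ext (funext fun n => tw_mul a b (σ n) (τ n))

theorem atw_sub (a b : E →L[ℂ] E) (σ : ∀ n, Equiv.Perm (X n)) :
    atw a σ - atw b σ = atw (a - b) σ :=
  Adm.ext (funext fun n => (tw_sub a b (σ n)).symm)

theorem atw_one : atw (X := X) (1 : E →L[ℂ] E) 1 = 1 :=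
  Adm.ext (funext fun n => tw_one_one)

theorem norm_tw_cut {Y : Type} [Fintype Y] [DecidableEq Y] (a : E →L[ℂ] E) (σ : Equiv.Perm Y)
    (V : Submodule ℂ E) {η : ℝ} (hη : 0 ≤ η) (hV : ∀ v ∈ Vᗮ, ‖a v‖ ≤ η * ‖v‖) (v : Amp E Y)
    (hv : Perp V v) : ‖tw a σ v‖ ≤ η * ‖v‖ := by
  rw [← sq_le_sq₀ (norm_nonneg _) (by positivity), mul_pow, amp_norm_sq, amp_norm_sq, Finset.mul_sum]
  rw [← Equiv.sum_comp σ]
  apply Finset.sum_le_sum
  intro x _
  rw [tw_apply, Equiv.symm_apply_apply, ← mul_pow]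
  exact pow_le_pow_left₀ (norm_nonneg _) (hV _ (hv x)) 2

theorem atw_mem (a : E →L[ℂ] E) (ha : IsCompactOperator a) (σ : ∀ n, Equiv.Perm (X n)) :
    atw a σ ∈ UCI E X := by
  rw [mem_UCI]
  intro η hη
  obtain ⟨V, hV, h1⟩ := cpt_cut a ha hη
  exact ⟨V, hV, fun n v hv => norm_tw_cut a (σ n) V hη.le h1 v hv⟩

theorem atw_congr {a b : E →L[ℂ] E} (h : CEq a b) (σ : ∀ n, Equiv.Perm (X n)) :
    Ideal.Quotient.mkₐ ℂ (UCI E X) (atw a σ) = Ideal.Quotient.mkₐ ℂ (UCI E X) (atw b σ) := by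
  show Ideal.Quotient.mk (UCI E X) _ = Ideal.Quotient.mk (UCI E X) _
  rw [Ideal.Quotient.eq, atw_sub]
  exact atw_mem _ h σ

theorem loc_P1 : Loc (fun n => P1 E (X n) : Fam E X) := by
  refine ⟨⟨1, fun n => ?_⟩, fun F hF => ⟨F, hF, fun n v hv x => ?_⟩⟩
  · show ‖P1 E (X n)‖ ≤ 1
    by_cases hX : Nonempty (X n)
    · have h1 : star (P1 E (X n)) * P1 E (X n) = P1 E (X n) := by rw [P1_star, P1_mul_P1]
      have h2 := CStarRing.norm_star_mul_self (x := P1 E (X n))
      rw [h1] at h2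
      by_contra hcon
      push Not at hcon
      nlinarith
    · have : P1 E (X n) = 0 := by
        ext v x
        exact absurd ⟨x⟩ hX
      rw [this, norm_zero]
      exact zero_le_one
  · show P1 E (X n) v x ∈ Fᗮ
    rw [P1_apply]
    exact Submodule.smul_mem _ _ (Submodule.sum_mem _ fun y _ => hv y)

/-- `1 ⊗ P_1` as an element of `Adm`. -/
noncomputable def aP1 : Adm E X :=
  Adm.mk (fun n => P1 E (X n)) loc_P1 (by
    have : star (fun n => P1 E (X n) : Fam E X) = fun n => P1 E (X n) :=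
      funext fun n => P1_star
    rw [this]; exact loc_P1)

theorem aP1_star : star (aP1 : Adm E X) = aP1 := Adm.ext (funext fun _ => P1_star)

theorem aP1_mul [∀ n, Nonempty (X n)] : (aP1 : Adm E X) * aP1 = aP1 :=
  Adm.ext (funext fun _ => P1_mul_P1)

theorem aP1_comm (a : E →L[ℂ] E) (σ : ∀ n, Equiv.Perm (X n)) :
    (aP1 : Adm E X) * atw a σ = atw a σ * aP1 :=
  Adm.ext (funext fun n => (P1_tw a (σ n)).trans (tw_P1 a (σ n)).symm)

variable {p : ℕ} [Fact p.Prime]

/-- The KMS data in the quotient algebra. -/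
noncomputable def qK (P : ∀ n, KMS p (Equiv.Perm (X n))) {x z : Fin 3 → ZMod p → (E →L[ℂ] E)}
    (h : KMSc x z) : KMS p (Adm E X ⧸ UCI E X) where
  g i k := Ideal.Quotient.mkₐ ℂ (UCI E X) (atw (x i k) ((prodKMS P).g i k))
  z i k := Ideal.Quotient.mkₐ ℂ (UCI E X) (atw (z i k) ((prodKMS P).z i k))
  g_zero i := by
    rw [atw_congr (h.g_zero i), (prodKMS P).g_zero, atw_one, map_one]
  g_add i k l := by
    rw [← map_mul, atw_mul, ← (prodKMS P).g_add]
    exact atw_congr (h.g_add i k l) _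
  z_zero i := by
    rw [atw_congr (h.z_zero i), (prodKMS P).z_zero, atw_one, map_one]
  z_add i k l := by
    rw [← map_mul, atw_mul, ← (prodKMS P).z_add]
    exact atw_congr (h.z_add i k l) _
  comm i k l := by
    rw [← map_mul, ← map_mul, ← map_mul, atw_mul, atw_mul, atw_mul, ← (prodKMS P).comm]
    exact atw_congr (h.comm i k l) _
  z_comm_left i k l := by
    rw [← map_mul, ← map_mul, atw_mul, atw_mul, ← (prodKMS P).z_comm_left]
    exact atw_congr (h.z_comm_left i k l) _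
  z_comm_right i k l := by
    rw [← map_mul, ← map_mul, atw_mul, atw_mul, ← (prodKMS P).z_comm_right]
    exact atw_congr (h.z_comm_right i k l) _

/-- The element `e'_i` of `Adm`. -/
noncomputable def ae (P : ∀ n, KMS p (Equiv.Perm (X n))) (x : Fin 3 → ZMod p → (E →L[ℂ] E))
    (i : Fin 3) : Adm E X := (p : ℂ)⁻¹ • ∑ k, atw (x i k) ((prodKMS P).g i k)

theorem ae_fam (P : ∀ n, KMS p (Equiv.Perm (X n))) (x : Fin 3 → ZMod p → (E →L[ℂ] E))
    (i : Fin 3) : (ae P x i).fam = fun n => eop x (P n) i := by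
  have h1 : ∀ s : Finset (ZMod p), (∑ k ∈ s, atw (x i k) ((prodKMS P).g i k)).fam =
      fun n => ∑ k ∈ s, tw (x i k) ((P n).g i k) := by
    intro s
    classical
    induction s using Finset.induction_on with
    | empty => rfl
    | insert k s hk ih =>
      rw [Finset.sum_insert hk, Adm.fam_add, ih]
      funext n
      rw [Finset.sum_insert hk]
      rfl
  unfold ae
  rw [Adm.fam_smul, h1]
  rfl

theorem SAm_e (P : ∀ n, KMS p (Equiv.Perm (X n))) {x z : Fin 3 → ZMod p → (E →L[ℂ] E)}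
    (h : KMSc x z) (i : Fin 3) : SAm (UCI E X) ((qK P h).e ℂ i) := by
  refine ⟨ae P x i, ?_, ?_⟩
  · unfold ae KMS.e qK
    rw [map_smul, map_sum]
  · unfold ae KMS.e qK
    rw [star_smul, map_smul, star_sum, map_sum]
    congr 1
    · simp
    · rw [← Equiv.sum_comp (Equiv.neg (ZMod p))]
      apply Finset.sum_congr rfl
      intro k _
      rw [atw_star, atw_congr (h.star_g _ _)]
      simp only [Equiv.neg_apply, neg_neg]
      congr 2
      rw [inv_eq_iff_mul_eq_one, ← (prodKMS P).g_add, neg_add_cancel, (prodKMS P).g_zero]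

theorem SAm_ze (P : ∀ n, KMS p (Equiv.Perm (X n))) {x z : Fin 3 → ZMod p → (E →L[ℂ] E)}
    (h : KMSc x z) (i : Fin 3) : SAm (UCI E X) ((qK P h).ze ℂ i) := by
  refine ⟨(p : ℂ)⁻¹ • ∑ k, atw (z i k) ((prodKMS P).z i k), ?_, ?_⟩
  · unfold KMS.ze qK
    rw [map_smul, map_sum]
  · unfold KMS.ze qK
    rw [star_smul, map_smul, star_sum, map_sum]
    congr 1
    · simp
    · rw [← Equiv.sum_comp (Equiv.neg (ZMod p))]
      apply Finset.sum_congr rfl
      intro k _
      rw [atw_star, atw_congr (h.star_z _ _)]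
      simp only [Equiv.neg_apply, neg_neg]
      congr 2
      rw [inv_eq_iff_mul_eq_one, ← (prodKMS P).z_add, neg_add_cancel, (prodKMS P).z_zero]

end Uniform

theorem fact1 {E : Type*} [NormedAddCommGroup E] [InnerProductSpace ℂ E] [CompleteSpace E]
    {p : ℕ} [Fact p.Prime] {X : ℕ → Type} [∀ n, Fintype (X n)] [∀ n, DecidableEq (X n)]
    [∀ n, Nonempty (X n)] (hp : 5 ≤ p) (P : ∀ n, KMS p (Equiv.Perm (X n)))
    {x z : Fin 3 → ZMod p → (E →L[ℂ] E)} (h : KMSc x z) {η : ℝ} (hη : 0 < η) :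
    ∃ V : Submodule ℂ E, FiniteDimensional ℂ V ∧ ∀ n, ∀ v : Amp E (X n), (∀ a, v a ∈ Vᗮ) →
      -(η * ‖v‖ ^ 2) ≤ ‖Dop x (P n) v‖ ^ 2 - eps p * (⟪Dop x (P n) v, v⟫_ℂ).re := by
  -- the element D of Adm
  set D : Adm E X := ∑ i, star (1 - ae P x i) * (1 - ae P x i) + aP1 with hD
  have hDfam : D.fam = fun n => Dop x (P n) := by
    rw [hD, Fin.sum_univ_three]
    funext n
    simp only [Adm.fam_add, Adm.fam_mul, Adm.fam_star, Adm.fam_sub, Adm.fam_one, ae_fam,
      Pi.add_apply]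
    rw [Dop, Fin.sum_univ_three]
    rfl
  have hpos := posm_main hp (qK P h) (SAm_e P h) (SAm_ze P h)
    (Ideal.Quotient.mkₐ ℂ (UCI E X) aP1) ⟨aP1, rfl, by rw [aP1_star]⟩
    (by rw [← map_mul, aP1_mul])
    (by
      intro i
      unfold KMS.e qK
      refine Commute.smul_right ?_ _
      refine Commute.sum_right _ _ _ fun k _ => ?_
      show _ * _ = _ * _
      rw [← map_mul, ← map_mul, aP1_comm])
  have hmkD : Ideal.Quotient.mkₐ ℂ (UCI E X) D =
      ∑ i, (1 - (qK P h).e ℂ i) + Ideal.Quotient.mkₐ ℂ (UCI E X) aP1 := by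
    rw [hD, map_add, map_sum]
    congr 1
    apply Finset.sum_congr rfl
    intro i _
    obtain ⟨t, h1, h2⟩ := SAm_e P h i
    have e1 : Ideal.Quotient.mkₐ ℂ (UCI E X) (ae P x i) = (qK P h).e ℂ i := by
      unfold ae KMS.e qK
      rw [map_smul, map_sum]
    have e2 : Ideal.Quotient.mkₐ ℂ (UCI E X) (star (ae P x i)) = (qK P h).e ℂ i := by
      have h3 : Ideal.Quotient.mk (UCI E X) t = Ideal.Quotient.mk (UCI E X) (ae P x i) :=
        h1.trans e1.symm
      rw [Ideal.Quotient.eq] at h3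
      have h4 := UCI_star _ h3
      rw [star_sub, ← Ideal.Quotient.eq] at h4
      exact (h4.symm.trans h2)
    rw [map_mul, star_sub, star_one, map_sub, map_sub, map_one, e1, e2]
    rw [mul_sub, mul_one, sub_mul, one_mul, KMS.e_idem, sub_self, sub_zero]
  rw [← hmkD, ← map_mul, ← map_smul, ← map_sub] at hpos
  obtain ⟨s, hs0, hs⟩ := hpos
  have hs' : Ideal.Quotient.mk (UCI E X) (D * D - ((eps p : ℝ) : ℂ) • D) =
    Ideal.Quotient.mk (UCI E X) ((s.map fun y => (y.1 : ℂ) • (star y.2 * y.2)).sum) := hs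
  rw [Ideal.Quotient.eq, mem_UCI] at hs'
  obtain ⟨V, hV, hcut⟩ := hs' η hη
  refine ⟨V, hV, fun n v hv => ?_⟩
  have e1 := hcut n v hv
  -- positivity of the sum of squares
  have hsum : ∀ s : List (ℝ × Adm E X), (∀ y ∈ s, 0 ≤ y.1) →
      0 ≤ (⟪((s.map fun y : ℝ × Adm E X => (y.1 : ℂ) • (star y.2 * y.2)).sum).fam n v, v⟫_ℂ).re := by
    intro s
    induction s with
    | nil =>
      intro _
      rw [List.map_nil, List.sum_nil, Adm.fam_zero]
      simp
    | cons y s ih =>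
      intro hy
      rw [List.map_cons, List.sum_cons, Adm.fam_add]
      have e2 : (((y.1 : ℂ) • (star y.2 * y.2)).fam +
          ((s.map fun y : ℝ × Adm E X => (y.1 : ℂ) • (star y.2 * y.2)).sum).fam) n v =
          (y.1 : ℂ) • (star (y.2.fam n) (y.2.fam n v)) +
          ((s.map fun y : ℝ × Adm E X => (y.1 : ℂ) • (star y.2 * y.2)).sum).fam n v := rfl
      rw [e2, inner_add_left, Complex.add_re, inner_smul_left, Complex.conj_ofReal,
        Complex.re_ofReal_mul, inner_star_left, inner_self_eq_norm_sq_to_K]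
      have e3 := ih (fun y' hy' => hy y' (List.mem_cons_of_mem _ hy'))
      have e4 := hy y (List.mem_cons_self)
      have e5 : ((((‖y.2.fam n v‖ : ℝ) : ℂ)) ^ 2).re = ‖y.2.fam n v‖ ^ 2 := by
        norm_cast
      have e6 : 0 ≤ y.1 * ‖y.2.fam n v‖ ^ 2 := by positivity
      have e7 : y.1 * ((((‖y.2.fam n v‖ : ℝ) : ℂ)) ^ 2).re = y.1 * ‖y.2.fam n v‖ ^ 2 := by rw [e5]
      calc (0 : ℝ) ≤ y.1 * ‖y.2.fam n v‖ ^ 2 + _ := add_nonneg e6 e3
        _ = _ := by rw [← e7]; rfl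
  have e2 := hsum s hs0
  set Q := ((s.map fun y => (y.1 : ℂ) • (star y.2 * y.2)).sum) with hQ
  have hDn : D.fam n = Dop x (P n) := by rw [hDfam]
  have hsa : star (Dop x (P n)) = Dop x (P n) := by
    unfold Dop
    apply ContinuousLinearMap.ext
    intro w
    apply ext_inner_left ℂ
    intro w'
    rw [inner_star_right]
    simp only [add_apply, sum_apply, inner_add_left, inner_add_right, sum_inner, inner_sum,
      mul_apply_eq_comp]
    congr 1
    · apply Finset.sum_congr rfl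
      intro i _
      rw [inner_star_left, inner_star_right]
    · conv_lhs => rw [← P1_star, inner_star_left]
  have e3 : (D * D - ((eps p : ℝ) : ℂ) • D - Q).fam n v =
      Dop x (P n) (Dop x (P n) v) - ((eps p : ℝ) : ℂ) • Dop x (P n) v - Q.fam n v := by
    rw [← hDn]; rfl
  rw [e3] at e1
  have e4 : |(⟪Dop x (P n) (Dop x (P n) v) - ((eps p : ℝ) : ℂ) • Dop x (P n) v - Q.fam n v, v⟫_ℂ).re|
      ≤ η * ‖v‖ * ‖v‖ := by
    refine (Complex.abs_re_le_norm _).trans ((norm_inner_le_norm _ _).trans ?_)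
    gcongr
  have e5 := (abs_le.mp e4).1
  rw [inner_sub_left, inner_sub_left, Complex.sub_re, Complex.sub_re, inner_smul_left,
    Complex.conj_ofReal, Complex.re_ofReal_mul] at e5
  have e6 : (⟪Dop x (P n) (Dop x (P n) v), v⟫_ℂ).re = ‖Dop x (P n) v‖ ^ 2 := by
    conv_lhs => rw [← hsa, inner_star_left, hsa, inner_self_eq_norm_sq_to_K]
    norm_cast
  rw [e6] at e5
  nlinarith

end CA
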