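import Pool.Agent.Helper33.CA.SOS

/-! Module F1a (MP_464bf1_lc): the sum-of-squares identity modulo a *-ideal. -/

set_option linter.unusedSectionVars false

namespace CA

section Abs

variable {A : Type*} [Ring A] [StarRing A] [Algebra ℂ A] [StarModule ℂ A]
  {I : Ideal A} [I.IsTwoSided]

/-- Self-adjointness modulo the ideal. -/
def SAm (I : Ideal A) [I.IsTwoSided] (q : A ⧸ I) : Prop :=
  ∃ t : A, Ideal.Quotient.mkₐ ℂ I t = q ∧ Ideal.Quotient.mkₐ ℂ I (star t) = q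

theorem SAm.one : SAm I (1 : A ⧸ I) := ⟨1, map_one _, by rw [star_one, map_one]⟩

theorem SAm.add {q r : A ⧸ I} (hq : SAm I q) (hr : SAm I r) : SAm I (q + r) := by
  obtain ⟨t, h1, h2⟩ := hq
  obtain ⟨s, h3, h4⟩ := hr
  exact ⟨t + s, by rw [map_add, h1, h3], by rw [star_add, map_add, h2, h4]⟩

theorem SAm.smul {q : A ⧸ I} (hq : SAm I q) (c : ℝ) : SAm I ((c : ℂ) • q) := by
  obtain ⟨t, h1, h2⟩ := hq
  exact ⟨(c : ℂ) • t, by rw [map_smul, h1], by
    rw [star_smul, map_smul, h2]; simp⟩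

theorem SAm.neg {q : A ⧸ I} (hq : SAm I q) : SAm I (-q) := by
  obtain ⟨t, h1, h2⟩ := hq
  exact ⟨-t, by rw [map_neg, h1], by rw [star_neg, map_neg, h2]⟩

theorem SAm.sub {q r : A ⧸ I} (hq : SAm I q) (hr : SAm I r) : SAm I (q - r) := by
  rw [sub_eq_add_neg]; exact hq.add hr.neg

theorem SAm.mul {q r : A ⧸ I} (hq : SAm I q) (hr : SAm I r) (h : Commute q r) :
    SAm I (q * r) := by
  obtain ⟨t, h1, h2⟩ := hq
  obtain ⟨s, h3, h4⟩ := hr
  exact ⟨t * s, by rw [map_mul, h1, h3], by rw [star_mul, map_mul, h2, h4, h.eq]⟩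

/-- Sums of squares modulo the ideal. -/
def Posm (I : Ideal A) [I.IsTwoSided] (q : A ⧸ I) : Prop :=
  ∃ s : List (ℝ × A), (∀ y ∈ s, 0 ≤ y.1) ∧
    q = Ideal.Quotient.mkₐ ℂ I ((s.map fun y => (y.1 : ℂ) • (star y.2 * y.2)).sum)

theorem Posm.zero : Posm I 0 := ⟨[], by simp, by simp⟩

theorem Posm.add {q r : A ⧸ I} (hq : Posm I q) (hr : Posm I r) : Posm I (q + r) := by
  obtain ⟨s, h1, h2⟩ := hq
  obtain ⟨s', h3, h4⟩ := hr
  refine ⟨s ++ s', ?_, ?_⟩
  · intro y hy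
    rcases List.mem_append.1 hy with h | h
    · exact h1 y h
    · exact h3 y h
  · rw [List.map_append, List.sum_append, map_add, h2, h4]

theorem Posm.sum {ι : Type*} (s : Finset ι) (q : ι → A ⧸ I) (h : ∀ i ∈ s, Posm I (q i)) :
    Posm I (∑ i ∈ s, q i) := by
  classical
  induction s using Finset.induction_on with
  | empty => exact Posm.zero
  | insert i s hi ih =>
    rw [Finset.sum_insert hi]
    exact (h i (Finset.mem_insert_self _ _)).add (ih fun j hj => h j (Finset.mem_insert_of_mem hj))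

theorem SAm.posm {q : A ⧸ I} (hq : SAm I q) {c : ℝ} (hc : 0 ≤ c) :
    Posm I ((c : ℂ) • (q * q)) := by
  obtain ⟨t, h1, h2⟩ := hq
  refine ⟨[(c, t)], by simpa using hc, ?_⟩
  rw [List.map_cons, List.map_nil, List.sum_singleton, map_smul, map_mul, h1, h2]

theorem cc_sq (p : ℕ) [Fact p.Prime] : ((cc p : ℝ) : ℂ) ^ 2 * (p : ℂ) = 1 := by
  have hp : (0 : ℝ) < p := by exact_mod_cast (Fact.out : p.Prime).pos
  have : (cc p) ^ 2 * (p : ℝ) = 1 := by
    unfold cc
    rw [inv_pow, Real.sq_sqrt hp.le]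
    field_simp
  exact_mod_cast this

theorem cc_pos (p : ℕ) [Fact p.Prime] : 0 < cc p := by
  have hp : (0 : ℝ) < p := by exact_mod_cast (Fact.out : p.Prime).pos
  unfold cc
  positivity

theorem cc_lt (p : ℕ) [Fact p.Prime] (hp : 5 ≤ p) : 2 * cc p < 1 := by
  unfold cc
  have h5 : (2 : ℝ) < √(p : ℝ) := by
    apply Real.lt_sqrt_of_sq_lt
    have : (5 : ℝ) ≤ p := by exact_mod_cast hp
    linarith
  have : (√(p : ℝ))⁻¹ < 2⁻¹ := by
    apply inv_strictAnti₀ (by norm_num) h5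
  linarith

theorem kap_nonneg (c : ℝ) (h0 : 0 < c) (h1 : c < 1) (j : Fin 4) :
    ∃ k : ℝ, 0 ≤ k ∧ kap (c : ℂ) j = (k : ℂ) := by
  have h2 : 0 < 1 - c := by linarith
  fin_cases j
  · exact ⟨(1 + c) / 2, by positivity, by simp [kap]⟩
  · exact ⟨c, h0.le, by simp [kap]⟩
  · exact ⟨2 / ((1 + c) * (1 - c) ^ 2), by positivity, by simp [kap]⟩
  · exact ⟨(1 + c) / (2 * c * (1 - c) ^ 2), by positivity, by simp [kap]⟩

variable {p : ℕ} [Fact p.Prime]

theorem sq_SAm (K : KMS p (A ⧸ I)) (he : ∀ i, SAm I (K.e ℂ i)) (hz : ∀ i, SAm I (K.ze ℂ i))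
    (c : ℝ) (i : Fin 3) (j : Fin 4) : SAm I (K.sq (c : ℂ) i j) := by
  have ha : SAm I (K.e ℂ i + K.e ℂ (i + 1)) := (he i).add (he (i + 1))
  have hza : Commute (K.e ℂ i + K.e ℂ (i + 1)) (K.ze ℂ i) :=
    Commute.add_left (K.ze_comm_left (𝕜 := ℂ) i).symm (K.ze_comm_right (𝕜 := ℂ) i).symm
  have h2 : SAm I (2 : A ⧸ I) := by
    have := (SAm.one (I := I)).add (SAm.one (I := I))
    rwa [one_add_one_eq_two] at this
  have hc1 : SAm I ((1 + (c : ℂ)) • (1 : A ⧸ I)) := by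
    have := (SAm.one (I := I)).smul (1 + c)
    simpa using this
  have hc2 : SAm I ((1 - (c : ℂ)) • (1 : A ⧸ I)) := by
    have := (SAm.one (I := I)).smul (1 - c)
    simpa using this
  set a := K.e ℂ i + K.e ℂ (i + 1) with hadef
  have c2a : Commute (2 : A ⧸ I) a := Commute.ofNat_left 2 a
  have c1a : ∀ d : ℂ, Commute (d • (1 : A ⧸ I)) a := fun d => (Commute.one_left a).smul_left d
  have c2z : Commute (2 : A ⧸ I) (K.ze ℂ i) := Commute.ofNat_left 2 _
  have c1z : ∀ d : ℂ, Commute (d • (1 : A ⧸ I)) (K.ze ℂ i) :=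
    fun d => (Commute.one_left _).smul_left d
  have hzc : SAm I (1 - K.ze ℂ i) := SAm.one.sub (hz i)
  fin_cases j
  · show SAm I ((2 - a) * (1 - a) * K.ze ℂ i)
    refine ((h2.sub ha).mul (SAm.one.sub ha) ?_).mul (hz i) ?_
    · exact ((Commute.one_right _).sub_right (c2a.sub_left (Commute.refl a)))
    · exact (c2z.sub_left hza).mul_left ((Commute.one_left _).sub_left hza)
  · show SAm I ((2 - a) * a * K.ze ℂ i)
    refine ((h2.sub ha).mul ha ?_).mul (hz i) ?_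
    · exact c2a.sub_left (Commute.refl a)
    · exact (c2z.sub_left hza).mul_left hza
  · show SAm I (((1 + (c : ℂ)) • (1 : A ⧸ I) - a) * ((1 - (c : ℂ)) • (1 : A ⧸ I) - a) *
      (1 - K.ze ℂ i))
    refine ((hc1.sub ha).mul (hc2.sub ha) ?_).mul hzc ?_
    · refine Commute.sub_right ?_ ((c1a _).sub_left (Commute.refl a))
      exact (Commute.one_right _).smul_right _
    · refine Commute.sub_right (Commute.one_right _) ?_
      exact ((c1z _).sub_left hza).mul_left ((c1z _).sub_left hza)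
  · show SAm I (((1 + (c : ℂ)) • (1 : A ⧸ I) - a) * a * (1 - K.ze ℂ i))
    refine ((hc1.sub ha).mul ha ?_).mul hzc ?_
    · exact (c1a _).sub_left (Commute.refl a)
    · refine Commute.sub_right (Commute.one_right _) ?_
      exact ((c1z _).sub_left hza).mul_left hza

/-- The main algebraic statement: for KMS data modulo a *-ideal and a projection `q` commuting with
them, `D² - ε D` is a sum of squares modulo the ideal, `D = ∑ (1 - e_i) + q`. -/
theorem posm_main (hp : 5 ≤ p) (K : KMS p (A ⧸ I)) (he : ∀ i, SAm I (K.e ℂ i))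
    (hz : ∀ i, SAm I (K.ze ℂ i)) (q : A ⧸ I) (hq : SAm I q) (hqq : q * q = q)
    (hqe : ∀ i, Commute q (K.e ℂ i)) :
    Posm I ((∑ i, (1 - K.e ℂ i) + q) * (∑ i, (1 - K.e ℂ i) + q)
      - ((eps p : ℝ) : ℂ) • (∑ i, (1 - K.e ℂ i) + q)) := by
  have hc0 := cc_pos p
  have hc1 := cc_lt p hp
  have hsos := K.sos (𝕜 := ℂ) ((cc p : ℝ) : ℂ) (cc_sq p)
    (by
      have : (1 : ℝ) - cc p ≠ 0 := by linarith
      exact_mod_cast this)
    (by
      have : (1 : ℝ) + cc p ≠ 0 := by linarith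
      exact_mod_cast this)
  have hee : (1 : ℂ) - 2 * ((cc p : ℝ) : ℂ) = ((eps p : ℝ) : ℂ) := by
    unfold eps; push_cast; ring
  rw [hee] at hsos
  set Δ := ∑ i, (1 - K.e ℂ i) with hΔ
  have hqΔ : q * Δ = Δ * q := by
    have : Commute q Δ := by
      rw [hΔ]
      exact Commute.sum_right _ _ _ fun i _ => (Commute.one_right q).sub_right (hqe i)
    exact this.eq
  have key : (Δ + q) * (Δ + q) - ((eps p : ℝ) : ℂ) • (Δ + q) =
      (∑ i, ∑ j, kap ((cc p : ℝ) : ℂ) j • (K.sq ((cc p : ℝ) : ℂ) i j * K.sq ((cc p : ℝ) : ℂ) i j))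
      + (∑ i, ((2 : ℝ) : ℂ) • (((1 - K.e ℂ i) * q) * ((1 - K.e ℂ i) * q)))
      + (((1 - eps p : ℝ)) : ℂ) • (q * q) := by
    rw [← hsos]
    have h3 : ∀ i, ((1 - K.e ℂ i) * q) * ((1 - K.e ℂ i) * q) = (1 - K.e ℂ i) * q := by
      intro i
      have h4 : q * (1 - K.e ℂ i) = (1 - K.e ℂ i) * q :=
        ((Commute.one_right q).sub_right (hqe i)).eq
      have h5 : (1 - K.e ℂ i) * (1 - K.e ℂ i) = 1 - K.e ℂ i := by
        rw [mul_sub, mul_one, sub_mul, one_mul, K.e_idem, sub_self, sub_zero]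
      calc ((1 - K.e ℂ i) * q) * ((1 - K.e ℂ i) * q)
          = (1 - K.e ℂ i) * (q * (1 - K.e ℂ i)) * q := by simp only [mul_assoc]
        _ = ((1 - K.e ℂ i) * (1 - K.e ℂ i)) * (q * q) := by rw [h4]; simp only [mul_assoc]
        _ = _ := by rw [h5, hqq]
    have h6 : (∑ i, ((2 : ℝ) : ℂ) • (((1 - K.e ℂ i) * q) * ((1 - K.e ℂ i) * q))) =
        (2 : ℂ) • (Δ * q) := by
      rw [hΔ, Finset.sum_mul, Finset.smul_sum]
      apply Finset.sum_congr rfl
      intro i _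
      rw [h3]; simp
    rw [h6, hqq]
    have h7 : (Δ + q) * (Δ + q) = Δ * Δ + (2 : ℂ) • (Δ * q) + q := by
      rw [add_mul, mul_add, mul_add, hqΔ, hqq, two_smul]; abel
    rw [h7]
    push_cast
    rw [smul_add, sub_smul, one_smul]
    abel
  rw [key]
  refine Posm.add (Posm.add ?_ ?_) ?_
  · refine Posm.sum _ _ fun i _ => Posm.sum _ _ fun j _ => ?_
    obtain ⟨k, hk, hk'⟩ := kap_nonneg (cc p) hc0 (by linarith) j
    rw [hk']
    exact (sq_SAm K he hz (cc p) i j).posm hk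
  · refine Posm.sum _ _ fun i _ => ?_
    refine SAm.posm ?_ (by norm_num)
    refine SAm.mul (SAm.one.sub (he i)) hq ?_
    exact ((Commute.one_right q).sub_right (hqe i)).symm
  · refine hq.posm ?_
    unfold eps
    linarith

end Abs

end CA
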