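import Pool.Agent.Helper33.CA.Basic

/-! Module FC (MP_464bf1_lc): functional calculus facts. -/

namespace CA

open scoped InnerProductSpace

variable {G : Type*} [NormedAddCommGroup G] [InnerProductSpace ℂ G] [CompleteSpace G]

theorem fc_inner_nonneg (D : G →L[ℂ] G) (g : ℝ → ℝ) (hg : ∀ r ∈ spectrum ℝ D, 0 ≤ g r) (v : G) :
    0 ≤ (⟪cfc g D v, v⟫_ℂ).re := by
  have h : 0 ≤ cfc g D := cfc_nonneg hg
  rw [ContinuousLinearMap.nonneg_iff_isPositive] at h
  exact h.re_inner_nonneg_left v

theorem fc_quad (D : G →L[ℂ] G) (hD : IsSelfAdjoint D) (f q : ℝ → ℝ) (hf : Continuous f)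
    (hq : Continuous q) (v : G) :
    ⟪cfc q D (cfc f D v), cfc f D v⟫_ℂ = ⟪cfc (fun r => f r * (q r * f r)) D v, v⟫_ℂ := by
  have h1 : cfc (fun r => f r * (q r * f r)) D = cfc f D * (cfc q D * cfc f D) := by
    rw [cfc_mul f (fun r => q r * f r) D hf.continuousOn (hq.mul hf).continuousOn,
      cfc_mul q f D hq.continuousOn hf.continuousOn]
  have h2 : star (cfc f D) = cfc f D := (IsSelfAdjoint.cfc (f := f) (a := D)).star_eq
  rw [h1]
  simp only [mul_apply_eq_comp]
  conv_rhs => rw [← h2, inner_star_left]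
  rw [h2]

theorem fc_quad_nonneg (D : G →L[ℂ] G) (hD : IsSelfAdjoint D) (f q : ℝ → ℝ) (hf : Continuous f)
    (hq : Continuous q) (h : ∀ r ∈ spectrum ℝ D, 0 ≤ f r * (q r * f r)) (v : G) :
    0 ≤ (⟪cfc q D (cfc f D v), cfc f D v⟫_ℂ).re := by
  rw [fc_quad D hD f q hf hq v]
  exact fc_inner_nonneg D _ h v

theorem fc_spec (D : G →L[ℂ] G) (hD : 0 ≤ D) : ∀ r ∈ spectrum ℝ D, 0 ≤ r := by
  intro r hr
  exact spectrum_nonneg_of_nonneg hD hr

theorem fc_hcut_cont (s t : ℝ) : Continuous (hcut s t) := by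
  unfold hcut; fun_prop

theorem fc_fcut_cont (s t : ℝ) : Continuous (fcut s t) := by
  unfold fcut; fun_prop

theorem fc_fcut_nonneg (s t r : ℝ) : 0 ≤ fcut s t r := le_max_left _ _

theorem fc_fcut_le_one (s t r : ℝ) : fcut s t r ≤ 1 :=
  max_le zero_le_one (min_le_left _ _)

theorem fc_fcut_zero (s t r : ℝ) (hst : s < t) (hr : t ≤ r) : fcut s t r = 0 := by
  unfold fcut
  apply max_eq_left
  apply (min_le_right _ _).trans
  apply div_nonpos_of_nonpos_of_nonneg <;> linarith

theorem fc_fcut_one (s t r : ℝ) (hst : s < t) (hr : r ≤ s) : fcut s t r = 1 := by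
  unfold fcut
  have h : 1 ≤ (t - r) / (t - s) := by
    rw [le_div_iff₀ (by linarith)]
    linarith
  rw [min_eq_left h]
  exact max_eq_right zero_le_one

theorem fc_mid (D : G →L[ℂ] G) (hD : 0 ≤ D) {s t ε : ℝ} (hs : 0 ≤ s) (hst : s < t) (htε : t < ε)
    (v : G) :
    ‖D (cfc (hcut s t) D v)‖ ^ 2 - ε * (⟪D (cfc (hcut s t) D v), cfc (hcut s t) D v⟫_ℂ).re
      ≤ -(s * (ε - t)) * ‖cfc (hcut s t) D v‖ ^ 2 := by
  have hsa : IsSelfAdjoint D := IsSelfAdjoint.of_nonneg hD
  set y := cfc (hcut s t) D v with hy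
  have hq : cfc (fun r : ℝ => ε * r - r ^ 2 - s * (ε - t)) D
      = ε • D - D * D - (s * (ε - t)) • (1 : G →L[ℂ] G) := by
    rw [cfc_sub (fun r : ℝ => ε * r - r ^ 2) (fun _ => s * (ε - t)) D (by fun_prop) (by fun_prop),
      cfc_sub (fun r : ℝ => ε * r) (fun r => r ^ 2) D (by fun_prop) (by fun_prop),
      cfc_const_mul_id ε D hsa, cfc_pow_id D 2 hsa, cfc_const _ D hsa,
      Algebra.algebraMap_eq_smul_one, pow_two]
  have h := fc_quad_nonneg D hsa (hcut s t) (fun r : ℝ => ε * r - r ^ 2 - s * (ε - t))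
    (fc_hcut_cont s t) (by fun_prop) (by
      intro r hr
      have hr0 := fc_spec D hD r hr
      unfold hcut
      rcases le_or_gt ((r - s) * (t - r)) 0 with h1 | h1
      · rw [max_eq_left h1]; simp
      · have h2 : s < r ∧ r < t := by
          rcases pos_and_pos_or_neg_and_neg_of_mul_pos h1 with h3 | h3
          · constructor <;> linarith [h3.1, h3.2]
          · exfalso; linarith [h3.1, h3.2]
        rw [max_eq_right h1.le]
        have h4 : 0 ≤ ε * r - r ^ 2 - s * (ε - t) := by nlinarith [h2.1, h2.2]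
        positivity) v
  rw [hq, ← hy] at h
  have e1 : (ε • D - D * D - (s * (ε - t)) • (1 : G →L[ℂ] G)) y
      = (ε : ℂ) • D y - D (D y) - ((s * (ε - t) : ℝ) : ℂ) • y := by
    rw [Complex.coe_smul, Complex.coe_smul]
    rfl
  rw [e1, inner_sub_left, inner_sub_left, inner_smul_left, inner_smul_left,
    inner_self_eq_norm_sq_to_K, Complex.conj_ofReal, Complex.conj_ofReal] at h
  have e2 : ⟪D (D y), y⟫_ℂ = ((‖D y‖ : ℂ)) ^ 2 := by
    have e2a : ⟪D (D y), y⟫_ℂ = ⟪D y, D y⟫_ℂ := by
      rw [← inner_star_left D, hsa.star_eq]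
    rw [e2a]
    exact inner_self_eq_norm_sq_to_K (𝕜 := ℂ) (D y)
  rw [e2] at h
  have e3 : ((ε : ℂ) * ⟪D y, y⟫_ℂ - ((‖D y‖ : ℂ)) ^ 2 - ((s * (ε - t) : ℝ) : ℂ) * ((‖y‖ : ℂ)) ^ 2).re
      = ε * (⟪D y, y⟫_ℂ).re - ‖D y‖ ^ 2 - (s * (ε - t)) * ‖y‖ ^ 2 := by
    rw [Complex.sub_re, Complex.sub_re, Complex.re_ofReal_mul, ← Complex.ofReal_pow,
      ← Complex.ofReal_pow, ← Complex.ofReal_mul, Complex.ofReal_re, Complex.ofReal_re]
  erw [e3] at h
  linarith

theorem fc_split (D : G →L[ℂ] G) (hD : 0 ≤ D) {s s' t' t : ℝ} (hs : 0 ≤ s) (h1 : s < s')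
    (h2 : s' < t') (h3 : t' < t) (v : G) (hv : cfc (hcut s t) D v = 0) :
    (⟪D (cfc (fcut s' t') D v), cfc (fcut s' t') D v⟫_ℂ).re ≤ s * ‖cfc (fcut s' t') D v‖ ^ 2 ∧
    t * ‖v - cfc (fcut s' t') D v‖ ^ 2 ≤
      (⟪D (v - cfc (fcut s' t') D v), v - cfc (fcut s' t') D v⟫_ℂ).re := by
  have hsa : IsSelfAdjoint D := IsSelfAdjoint.of_nonneg hD
  have key : ∀ (f q : ℝ → ℝ) (C : ℝ), Continuous f → Continuous q →
      (∀ r : ℝ, 0 ≤ f r * (q r * f r) + C * hcut s t r) →
      0 ≤ (⟪cfc q D (cfc f D v), cfc f D v⟫_ℂ).re := by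
    intro f q C hf hq hpos
    rw [fc_quad D hsa f q hf hq v]
    have h4 := fc_inner_nonneg D (fun r => f r * (q r * f r) + C * hcut s t r)
      (fun r _ => hpos r) v
    have hc := fc_hcut_cont s t
    rw [cfc_add (a := D) (fun r => f r * (q r * f r)) (fun r => C * hcut s t r)
      (hf.mul (hq.mul hf)).continuousOn (continuous_const.mul (fc_hcut_cont s t)).continuousOn,
      cfc_const_mul C (hcut s t) D (fc_hcut_cont s t).continuousOn] at h4
    have h5 : (cfc (fun r => f r * (q r * f r)) D + C • cfc (hcut s t) D) v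
        = cfc (fun r => f r * (q r * f r)) D v := by
      simp [hv]
    rwa [h5] at h4
  have expand : ∀ (c : ℝ) (y : G), (⟪cfc (fun r : ℝ => c - r) D y, y⟫_ℂ).re
      = c * ‖y‖ ^ 2 - (⟪D y, y⟫_ℂ).re := by
    intro c y
    have hq : cfc (fun r : ℝ => c - r) D = c • (1 : G →L[ℂ] G) - D := by
      rw [cfc_sub (fun _ : ℝ => c) (fun r => r) D (by fun_prop) (by fun_prop), cfc_const _ D hsa,
        cfc_id' ℝ D hsa, Algebra.algebraMap_eq_smul_one]
    have e1 : (c • (1 : G →L[ℂ] G) - D) y = (c : ℂ) • y - D y := by simp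
    rw [hq, e1, inner_sub_left, inner_smul_left, inner_self_eq_norm_sq_to_K, Complex.conj_ofReal,
      Complex.sub_re]
    have : ((c : ℂ) * ((‖y‖ : ℂ)) ^ 2).re = c * ‖y‖ ^ 2 := by
      rw [← Complex.ofReal_pow, ← Complex.ofReal_mul, Complex.ofReal_re]
    erw [this]
  constructor
  · have h4 := key (fcut s' t') (fun r => s - r) (1 / (t - t')) (fc_fcut_cont s' t') (by fun_prop)
      (by
        intro r
        have g1 := fc_fcut_nonneg s' t' r
        have g2 := fc_fcut_le_one s' t' r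
        have g3 : 0 ≤ hcut s t r := le_max_left _ _
        have g4 : (r - s) * (t - r) ≤ hcut s t r := le_max_right _ _
        have g5 : 0 < t - t' := by linarith
        rcases le_or_gt r s with hr | hr
        · have : 0 ≤ s - r := by linarith
          positivity
        · rcases le_or_gt t' r with hr2 | hr2
          · rw [fc_fcut_zero s' t' r h2 hr2]
            have : 0 ≤ 1 / (t - t') * hcut s t r := by positivity
            simpa using this
          · have g6 : (r - s) ≤ 1 / (t - t') * hcut s t r := by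
              rw [div_mul_eq_mul_div, le_div_iff₀ g5, one_mul]
              nlinarith
            have g7 : fcut s' t' r * fcut s' t' r ≤ 1 := by nlinarith
            nlinarith)
    rw [expand] at h4
    linarith
  · have h4 := key (fun r => 1 - fcut s' t' r) (fun r => r - t) (1 / (s' - s))
      (continuous_const.sub (fc_fcut_cont s' t')) (by fun_prop)
      (by
        intro r
        have g1 := fc_fcut_nonneg s' t' r
        have g2 := fc_fcut_le_one s' t' r
        have g3 : 0 ≤ hcut s t r := le_max_left _ _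
        have g4 : (r - s) * (t - r) ≤ hcut s t r := le_max_right _ _
        have g5 : 0 < s' - s := by linarith
        rcases le_or_gt r s' with hr | hr
        · rw [fc_fcut_one s' t' r h2 hr]
          have : 0 ≤ 1 / (s' - s) * hcut s t r := by positivity
          simpa using this
        · rcases le_or_gt t r with hr2 | hr2
          · have g6 : 0 ≤ r - t := by linarith
            have g7 : 0 ≤ 1 - fcut s' t' r := by linarith
            positivity
          · have g6 : (t - r) ≤ 1 / (s' - s) * hcut s t r := by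
              rw [div_mul_eq_mul_div, le_div_iff₀ g5, one_mul]
              nlinarith
            have g7 : (1 - fcut s' t' r) * (1 - fcut s' t' r) ≤ 1 := by nlinarith
            nlinarith)
    have h5 : cfc (fun r => 1 - fcut s' t' r) D v = v - cfc (fcut s' t') D v := by
      rw [cfc_sub (fun _ : ℝ => (1 : ℝ)) (fcut s' t') D (by fun_prop)
        (fc_fcut_cont s' t').continuousOn, cfc_const _ D hsa]
      simp
    have h6 : cfc (fun r : ℝ => r - t) D = - cfc (fun r : ℝ => t - r) D := by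
      rw [← cfc_neg]
      congr 1
      ext r; ring
    rw [h5, h6, neg_apply, inner_neg_left, Complex.neg_re, expand] at h4
    linarith

end CA
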