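import Pool.Agent.Helper33.CA.CPT
import Pool.Agent.Helper33.CA.FC

/-! Module F2 (MP_464bf1_lc): `f(D) ≡ W W*` modulo compact operators. -/

namespace CA

open scoped InnerProductSpace

theorem f2_expand {G : Type*} [NormedAddCommGroup G] [InnerProductSpace ℂ G] [CompleteSpace G]
    (D : G →L[ℂ] G) (hsa : IsSelfAdjoint D) (c : ℝ) (y : G) :
    (⟪cfc (fun r : ℝ => c - r) D y, y⟫_ℂ).re = c * ‖y‖ ^ 2 - (⟪D y, y⟫_ℂ).re := by
  have hq : cfc (fun r : ℝ => c - r) D = c • (1 : G →L[ℂ] G) - D := by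
    rw [cfc_sub (fun _ : ℝ => c) (fun r => r) D (by fun_prop) (by fun_prop), cfc_const _ D hsa,
      cfc_id' ℝ D hsa, Algebra.algebraMap_eq_smul_one]
  have e1 : (c • (1 : G →L[ℂ] G) - D) y = (c : ℂ) • y - D y := by simp
  rw [hq, e1, inner_sub_left, inner_smul_left, inner_self_eq_norm_sq_to_K, Complex.conj_ofReal,
    Complex.sub_re]
  have : ((c : ℂ) * ((‖y‖ : ℂ)) ^ 2).re = c * ‖y‖ ^ 2 := by
    rw [← Complex.ofReal_pow, ← Complex.ofReal_mul, Complex.ofReal_re]
  erw [this]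

theorem f2 {G : Type*} [NormedAddCommGroup G] [InnerProductSpace ℂ G] [CompleteSpace G]
    (D W Y : G →L[ℂ] G) (hD : 0 ≤ D) {s t ε : ℝ} (hs : 0 < s) (hst : s < t) (htε : t < ε)
    (hW : CEq (star W * W) 1) (hDW : CEq (D * W) 0)
    (hY : CEq (D - (ε : ℂ) • (1 - W * star W)) (star Y * Y)) :
    CEq (cfc (fcut s t) D) (W * star W) := by
  have hsa : IsSelfAdjoint D := IsSelfAdjoint.of_nonneg hD
  set F : G →L[ℂ] G := cfc (fcut s t) D with hF
  have hFs : star F = F := (IsSelfAdjoint.cfc (f := fcut s t) (a := D)).star_eq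
  set P : G →L[ℂ] G := W * star W with hP
  have hPs : star P = P := by rw [hP, star_mul, star_star]
  -- `F W ≡ W`
  have hcg : Continuous (fun r : ℝ => (fcut s t r - 1) / max r s) := by
    apply Continuous.div ((fc_fcut_cont s t).sub continuous_const) (by fun_prop)
    intro r
    have : s ≤ max r s := le_max_right _ _
    linarith
  have hF1 : F = 1 + cfc (fun r : ℝ => (fcut s t r - 1) / max r s) D * D := by
    have e1 : F = cfc (fun r : ℝ => 1 + (fcut s t r - 1) / max r s * r) D := by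
      rw [hF]
      congr 1
      ext r
      rcases le_or_gt r s with hr | hr
      · rw [fc_fcut_one s t r hst hr]; simp
      · rw [max_eq_left hr.le]
        have : r ≠ 0 := by linarith
        field_simp
        ring
    rw [e1, cfc_add (a := D) (fun _ : ℝ => (1 : ℝ)) (fun r => (fcut s t r - 1) / max r s * r)
      (by fun_prop) (hcg.mul continuous_id).continuousOn,
      cfc_mul (fun r : ℝ => (fcut s t r - 1) / max r s) (fun r => r) D hcg.continuousOn
        (by fun_prop), cfc_id' ℝ D hsa, cfc_const_one ℝ D hsa]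
  have hFW : CEq (F * W) W := by
    rw [hF1, add_mul, one_mul, mul_assoc]
    have h1 := (CEq.refl W).add (hDW.mul_left (cfc (fun r : ℝ => (fcut s t r - 1) / max r s) D))
    rwa [mul_zero, add_zero] at h1
  have hFP : CEq (F * P) P := by
    rw [hP, ← mul_assoc]
    exact hFW.mul_right _
  have hPF : CEq (P * F) P := by
    have h1 := CEq.star hFP
    rwa [star_mul, hFs, hPs] at h1
  have hPP : CEq (P * P) P := by
    have h1 := (hW.mul_right (star W)).mul_left W
    rw [one_mul] at h1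
    have e : P * P = W * (star W * W * star W) := by rw [hP]; simp only [mul_assoc]
    rw [e]; exact h1
  -- the compact operator
  set K : G →L[ℂ] G := (1 - P) * (F * ((ε : ℂ) • 1 - D) * F + F * (star Y * Y) * F) * (1 - P)
    with hK
  have hK0 : CEq K 0 := by
    have h1 : CEq ((ε : ℂ) • (1 : G →L[ℂ] G) - D + star Y * Y) ((ε : ℂ) • P) := by
      have h2 := (CEq.refl ((ε : ℂ) • (1 : G →L[ℂ] G) - D)).add hY.symm
      have e : (ε : ℂ) • (1 : G →L[ℂ] G) - D + (D - (ε : ℂ) • (1 - W * star W)) = (ε : ℂ) • P := by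
        rw [hP, smul_sub]; abel
      rwa [e] at h2
    have h3 : CEq (F * ((ε : ℂ) • 1 - D) * F + F * (star Y * Y) * F) ((ε : ℂ) • P) := by
      have e : F * ((ε : ℂ) • 1 - D) * F + F * (star Y * Y) * F
          = F * ((ε : ℂ) • (1 : G →L[ℂ] G) - D + star Y * Y) * F := by
        rw [mul_add, add_mul]
      rw [e]
      refine ((h1.mul_left F).mul_right F).trans ?_
      rw [mul_smul_comm, smul_mul_assoc]
      exact ((hFP.mul_right F).trans hPF).smul _
    have h4 : CEq ((1 - P) * P) 0 := by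
      rw [sub_mul, one_mul]
      have := (CEq.refl P).sub hPP
      rwa [sub_self] at this
    rw [hK]
    refine ((h3.mul_left (1 - P)).mul_right (1 - P)).trans ?_
    rw [mul_smul_comm, smul_mul_assoc]
    have h5 := ((h4.mul_right (1 - P)).smul (ε : ℂ))
    rwa [zero_mul, smul_zero] at h5
  -- the domination
  have hdom : ∀ v, ‖(F * (1 - P)) v‖ ^ 2 ≤
      (⟪((((ε - t)⁻¹ : ℝ) : ℂ) • K) v, v⟫_ℂ).re := by
    intro v
    set w := (1 - P) v with hw
    set u := F w with hu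
    have hu2 : (F * (1 - P)) v = u := rfl
    have e1 : K v = (1 - P) (F (((ε : ℂ) • (1 : G →L[ℂ] G) - D) u + star Y (Y u))) := by
      rw [map_add]
      rfl
    have e2 : star (1 - P) = 1 - P := by rw [star_sub, star_one, hPs]
    have e3 : ⟪K v, v⟫_ℂ = (ε : ℂ) * ⟪u, u⟫_ℂ - ⟪D u, u⟫_ℂ + ⟪Y u, Y u⟫_ℂ := by
      have e4 : ⟪K v, v⟫_ℂ = ⟪((ε : ℂ) • (1 : G →L[ℂ] G) - D) u + star Y (Y u), u⟫_ℂ := by
        rw [e1]
        conv_lhs => rw [← e2, inner_star_left, ← hw, ← hFs, inner_star_left, ← hu]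
      rw [e4, inner_add_left, inner_star_left]
      have e5 : ((ε : ℂ) • (1 : G →L[ℂ] G) - D) u = (ε : ℂ) • u - D u := rfl
      rw [e5, inner_sub_left, inner_smul_left, Complex.conj_ofReal]
    have h1 : (⟪D u, u⟫_ℂ).re ≤ t * ‖u‖ ^ 2 := by
      have h2 := fc_quad_nonneg D hsa (fcut s t) (fun r => t - r) (fc_fcut_cont s t) (by fun_prop)
        (by
          intro r _
          rcases le_or_gt t r with hr | hr
          · rw [fc_fcut_zero s t r hst hr]; simp
          · have g1 := fc_fcut_nonneg s t r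
            have g2 : 0 ≤ t - r := by linarith
            positivity) w
      rw [← hF, ← hu, f2_expand D hsa] at h2
      linarith
    have e6 : (⟪((((ε - t)⁻¹ : ℝ) : ℂ) • K) v, v⟫_ℂ).re = (ε - t)⁻¹ * (⟪K v, v⟫_ℂ).re := by
      rw [smul_apply, inner_smul_left, Complex.conj_ofReal, Complex.re_ofReal_mul]
    have e7 : ((ε : ℂ) * ⟪u, u⟫_ℂ - ⟪D u, u⟫_ℂ + ⟪Y u, Y u⟫_ℂ).re
        = ε * ‖u‖ ^ 2 - (⟪D u, u⟫_ℂ).re + ‖Y u‖ ^ 2 := by
      rw [inner_self_eq_norm_sq_to_K, inner_self_eq_norm_sq_to_K]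
      rw [Complex.add_re, Complex.sub_re]
      have a1 : ((ε : ℂ) * ((‖u‖ : ℂ)) ^ 2).re = ε * ‖u‖ ^ 2 := by
        rw [← Complex.ofReal_pow, ← Complex.ofReal_mul, Complex.ofReal_re]
      have a2 : (((‖Y u‖ : ℂ)) ^ 2).re = ‖Y u‖ ^ 2 := by
        rw [← Complex.ofReal_pow, Complex.ofReal_re]
      erw [a1, a2]
    rw [hu2, e6, e3, e7, ← div_eq_inv_mul, le_div_iff₀ (by linarith)]
    nlinarith [sq_nonneg ‖Y u‖]
  have hT : IsCompactOperator (⇑(F * (1 - P) : G →L[ℂ] G)) := by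
    have hK1 := hK0.smul (((ε - t)⁻¹ : ℝ) : ℂ)
    rw [smul_zero] at hK1
    exact cpt_dom (E := G) (F := G) _ ((((ε - t)⁻¹ : ℝ) : ℂ) • K) (CEq.zero_iff.mp hK1) hdom
  have h6 : CEq (F * (1 - P)) 0 := CEq.zero_iff.mpr hT
  have h7 := h6.add hFP
  rwa [mul_sub, mul_one, sub_add_cancel, zero_add] at h7

end CA
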