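import Pool.Agent.Helper33.CA.INJ

/-! Module FRAME (MP_464bf1_lc): existence of a frame on `ℓ²(ℕ)`. -/

namespace CA

theorem frame_injOp_congr {φ ψ : ℕ → ℕ} (hφ : Function.Injective φ) (hψ : Function.Injective ψ)
    (h : φ = ψ) : injOp φ hφ = injOp ψ hψ := by
  subst h
  rfl

/-- The index set of the frame. -/
abbrev FrameIdx (X : ℕ → Type) : Type := (Σ n, X n × X n) × ℕ

/-- The action of a family of permutations on the index set. -/
def frameAct {X : ℕ → Type} (σ : ∀ n, Equiv.Perm (X n)) (a : FrameIdx X) : FrameIdx X :=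
  (⟨a.1.1, (σ a.1.1 a.1.2.1, a.1.2.2)⟩, a.2)

theorem frameAct_inj {X : ℕ → Type} (σ : ∀ n, Equiv.Perm (X n)) :
    Function.Injective (frameAct σ) := by
  rintro ⟨⟨n, y, j⟩, k⟩ ⟨⟨m, y', j'⟩, l⟩ h
  simp only [frameAct, Prod.mk.injEq, Sigma.mk.injEq] at h
  obtain ⟨⟨rfl, h2⟩, rfl⟩ := h
  have h3 := eq_of_heq h2
  simp only [Prod.mk.injEq, EmbeddingLike.apply_eq_iff_eq] at h3
  obtain ⟨rfl, rfl⟩ := h3
  rfl

theorem exists_frame (X : ℕ → Type) [∀ n, Fintype (X n)] [∀ n, Nonempty (X n)] :
    ∃ (V : ∀ n, X n → X n → (L2N →L[ℂ] L2N)) (U : (∀ n, Equiv.Perm (X n)) →* (L2N →L[ℂ] L2N))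
      (J : L2N →L[ℂ] L2N), Frame V U J shift := by
  classical
  have : Nonempty (Σ n, X n × X n) :=
    ⟨⟨0, (Classical.arbitrary (X 0), Classical.arbitrary (X 0))⟩⟩
  obtain ⟨e⟩ : Nonempty (FrameIdx X ≃ ℕ) := nonempty_equiv_of_countable
  have hV : ∀ n (y j : X n), Function.Injective (fun k : ℕ => e (⟨n, (y, j)⟩, k)) := by
    intro n y j k l h
    have := e.injective h
    simpa using this
  have hU : ∀ σ : (∀ n, Equiv.Perm (X n)),
      Function.Injective (fun m : ℕ => e (frameAct σ (e.symm m))) := by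
    intro σ k l h
    exact e.symm.injective (frameAct_inj σ (e.injective h))
  have hJ : Function.Injective (fun m : ℕ => e ((e.symm m).1, (e.symm m).2 + 1)) := by
    intro k l h
    have h1 := e.injective h
    simp only [Prod.mk.injEq, Nat.add_right_cancel_iff] at h1
    exact e.symm.injective (Prod.ext h1.1 h1.2)
  let V : ∀ n, X n → X n → (L2N →L[ℂ] L2N) := fun n y j => injOp _ (hV n y j)
  let U : (∀ n, Equiv.Perm (X n)) →* (L2N →L[ℂ] L2N) :=
    { toFun := fun σ => injOp _ (hU σ)
      map_one' := by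
        have h1 : injOp (fun m : ℕ => m) (fun _ _ h => h) = 1 := by
          ext f m
          exact injOp_apply (fun m : ℕ => m) (fun _ _ h => h) f m
        rw [← h1]
        apply frame_injOp_congr
        funext m
        have : frameAct (1 : ∀ n, Equiv.Perm (X n)) (e.symm m) = e.symm m := rfl
        rw [this, e.apply_symm_apply]
      map_mul' := by
        intro σ τ
        rw [injOp_mul]
        apply frame_injOp_congr
        funext m
        simp only [Function.comp, e.symm_apply_apply]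
        rfl }
  let J : L2N →L[ℂ] L2N := injOp _ hJ
  have hUe : ∀ σ, U σ = injOp _ (hU σ) := fun σ => rfl
  refine ⟨V, U, J, ?_⟩
  refine { v_iso := ?_, v_orth := ?_, v_orth' := ?_, v_total := ?_, u_v := ?_, u_star := ?_,
           j_iso := ?_, j_u := ?_, j_v := ?_ }
  · intro n y j
    exact star_injOp_mul _ _
  · intro n y j y' j' h
    apply star_injOp_mul_of_disjoint
    intro k l hkl
    have h1 := e.injective hkl
    simp only [Prod.mk.injEq, Sigma.mk.injEq, heq_eq_eq, true_and] at h1
    rcases h with h | h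
    · exact h h1.1.1
    · exact h h1.1.2
  · intro n m y j y' j' h
    apply star_injOp_mul_of_disjoint
    intro k l hkl
    have h1 := e.injective hkl
    simp only [Prod.mk.injEq, Sigma.mk.injEq] at h1
    exact h h1.1.1
  · intro v hv
    ext m
    have h1 := hv (e.symm m).1.1 (e.symm m).1.2.1 (e.symm m).1.2.2
    have h2 : (star (V (e.symm m).1.1 (e.symm m).1.2.1 (e.symm m).1.2.2) v) (e.symm m).2 =
        v (e (⟨(e.symm m).1.1, ((e.symm m).1.2.1, (e.symm m).1.2.2)⟩, (e.symm m).2)) :=
      star_injOp_apply _ _ _ _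
    rw [h1] at h2
    have h3 : e (⟨(e.symm m).1.1, ((e.symm m).1.2.1, (e.symm m).1.2.2)⟩, (e.symm m).2) = m :=
      e.apply_symm_apply m
    rw [h3] at h2
    rw [← h2]
    rfl
  · intro σ n y j
    change injOp _ (hU σ) * injOp _ (hV n y j) = injOp _ (hV n (σ n y) j)
    rw [injOp_mul]
    apply frame_injOp_congr
    funext k
    simp only [Function.comp, e.symm_apply_apply]
    rfl
  · intro σ
    have h1 : U σ * U σ⁻¹ = 1 := by rw [← map_mul, mul_inv_cancel, map_one]
    have h2 : star (U σ) * U σ = 1 := star_injOp_mul _ (hU σ)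
    calc star (U σ) = star (U σ) * (U σ * U σ⁻¹) := by rw [h1, mul_one]
      _ = U σ⁻¹ := by rw [← mul_assoc, h2, one_mul]
  · exact star_injOp_mul _ _
  · intro σ
    change injOp _ hJ * injOp _ (hU σ) = injOp _ (hU σ) * injOp _ hJ
    rw [injOp_mul, injOp_mul]
    apply frame_injOp_congr
    funext k
    simp only [Function.comp, e.symm_apply_apply]
    rfl
  · intro n y j
    change injOp _ hJ * injOp _ (hV n y j) = injOp _ (hV n y j) * injOp _ _
    rw [injOp_mul, injOp_mul]
    apply frame_injOp_congr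
    funext k
    simp only [Function.comp, e.symm_apply_apply, Nat.succ_eq_add_one]

end CA
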