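import Pool.Agent.Helper33.CA.CPT

/-! Module NI (MP_464bf1_lc): near invariance, uniformly in `n`. -/

namespace CA

open scoped InnerProductSpace

theorem ni_cuts {E : Type*} [NormedAddCommGroup E] [InnerProductSpace ℂ E] [CompleteSpace E]
    {ι : Type*} [Finite ι] (T : ι → (E →L[ℂ] E)) (hT : ∀ j, IsCompactOperator (T j)) {η : ℝ}
    (hη : 0 < η) :
    ∃ V : Submodule ℂ E, FiniteDimensional ℂ V ∧ ∀ j, ∀ v ∈ Vᗮ, ‖T j v‖ ≤ η * ‖v‖ := by
  choose W hW1 hW2 using fun j => cpt_cut (T j) (hT j) hη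
  refine ⟨⨆ j, W j, ?_, ?_⟩
  · exact Submodule.finiteDimensional_iSup W
  · intro j v hv
    exact hW2 j v (Submodule.orthogonal_le (le_iSup W j) hv)

theorem ni_tw_bound {E : Type*} [NormedAddCommGroup E] [InnerProductSpace ℂ E]
    {X : Type*} [Fintype X] [DecidableEq X] (T : E →L[ℂ] E) (σ : Equiv.Perm X)
    (V : Submodule ℂ E) {η : ℝ} (hη : 0 ≤ η) (hV : ∀ v ∈ Vᗮ, ‖T v‖ ≤ η * ‖v‖)
    (v : Amp E X) (hv : ∀ a, v a ∈ Vᗮ) : ‖tw T σ v‖ ≤ η * ‖v‖ := by
  rw [← sq_le_sq₀ (norm_nonneg _) (by positivity), mul_pow, amp_norm_sq, amp_norm_sq,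
    Finset.mul_sum]
  rw [← Equiv.sum_comp σ]
  apply Finset.sum_le_sum
  intro x _
  rw [tw_apply, Equiv.symm_apply_apply, ← mul_pow]
  exact pow_le_pow_left₀ (norm_nonneg _) (hV _ (hv x)) 2

theorem near_inv {E : Type*} [NormedAddCommGroup E] [InnerProductSpace ℂ E] [CompleteSpace E]
    {p : ℕ} [Fact p.Prime] {X : ℕ → Type} [∀ n, Fintype (X n)] [∀ n, DecidableEq (X n)]
    (P : ∀ n, KMS p (Equiv.Perm (X n))) {x z : Fin 3 → ZMod p → (E →L[ℂ] E)}
    (h : KMSc x z) (hx : ∀ i k, ‖x i k‖ ≤ 2) {η : ℝ} (hη : 0 < η) :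
    ∃ V : Submodule ℂ E, FiniteDimensional ℂ V ∧ ∀ n, ∀ v : Amp E (X n), (∀ a, v a ∈ Vᗮ) →
      ∀ i k, ‖tw (x i k) ((P n).g i k) v - v‖ ≤ 3 * ‖(1 - eop x (P n) i) v‖ + η * ‖v‖ ∧
        ‖tw (star (x i k) * x i k - 1) (1 : Equiv.Perm (X n)) v‖ ≤ η * ‖v‖ := by
  have hp : (p : ℂ) ≠ 0 := by exact_mod_cast NeZero.ne p
  have hc1 : ∀ i k m, IsCompactOperator (x i k * x i m - x i (k + m)) :=
    fun i k m => (h.g_add i k m).symm
  have hc2 : ∀ i k, IsCompactOperator (star (x i k) * x i k - (1 : E →L[ℂ] E)) := by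
    intro i k
    have h1 : CEq (star (x i k) * x i k) (x i (-k) * x i k) := (h.star_g i k).mul_right _
    have h2 : CEq (x i (-k) * x i k) (x i (-k + k)) := (h.g_add i (-k) k).symm
    rw [neg_add_cancel] at h2
    have h3 : CEq (star (x i k) * x i k) 1 := (h1.trans h2).trans (h.g_zero i)
    exact h3
  obtain ⟨V1, hV1, hV1'⟩ := ni_cuts
    (fun j : Fin 3 × ZMod p × ZMod p => x j.1 j.2.1 * x j.1 j.2.2 - x j.1 (j.2.1 + j.2.2))
    (fun j => hc1 j.1 j.2.1 j.2.2) hη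
  obtain ⟨V2, hV2, hV2'⟩ := ni_cuts
    (fun j : Fin 3 × ZMod p => star (x j.1 j.2) * x j.1 j.2 - 1)
    (fun j => hc2 j.1 j.2) hη
  refine ⟨V1 ⊔ V2, Submodule.finiteDimensional_sup V1 V2, ?_⟩
  intro n v hv i k
  have hv1 : ∀ a, v a ∈ V1ᗮ := fun a => Submodule.orthogonal_le le_sup_left (hv a)
  have hv2 : ∀ a, v a ∈ V2ᗮ := fun a => Submodule.orthogonal_le le_sup_right (hv a)
  constructor
  · set e := eop x (P n) i with he
    set t := tw (x i k) ((P n).g i k) with ht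
    have h1 : t * e - e = (p : ℂ)⁻¹ • ∑ m, tw (x i k * x i m - x i (k + m)) ((P n).g i (k + m)) := by
      have h2 : t * e = (p : ℂ)⁻¹ • ∑ m, tw (x i k * x i m) ((P n).g i (k + m)) := by
        rw [ht, he]
        unfold eop
        rw [mul_smul_comm, Finset.mul_sum]
        congr 1
        refine Finset.sum_congr rfl fun m _ => ?_
        rw [tw_mul, (P n).g_add]
      have h3 : e = (p : ℂ)⁻¹ • ∑ m, tw (x i (k + m)) ((P n).g i (k + m)) := by
        rw [he]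
        unfold eop
        congr 1
        exact (Equiv.sum_comp (Equiv.addLeft k) (fun m => tw (x i m) ((P n).g i m))).symm
      have h5 : ∑ m, tw (x i k * x i m - x i (k + m)) ((P n).g i (k + m)) =
          ∑ m, tw (x i k * x i m) ((P n).g i (k + m)) - ∑ m, tw (x i (k + m)) ((P n).g i (k + m)) := by
        rw [eq_sub_iff_add_eq, ← Finset.sum_add_distrib]
        refine Finset.sum_congr rfl fun m _ => ?_
        rw [← tw_add, sub_add_cancel]
      rw [h5, h2]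
      conv_lhs => rw [h3]
      exact (smul_sub _ _ _).symm
    have h2 : ‖(t * e - e) v‖ ≤ η * ‖v‖ := by
      rw [h1]
      simp only [smul_apply, sum_apply]
      rw [norm_smul]
      have h3 : ‖∑ m, (tw (x i k * x i m - x i (k + m)) ((P n).g i (k + m))) v‖ ≤
          (p : ℝ) * (η * ‖v‖) := by
        refine (norm_sum_le _ _).trans ?_
        have h4 : ∀ m ∈ (Finset.univ : Finset (ZMod p)),
            ‖(tw (x i k * x i m - x i (k + m)) ((P n).g i (k + m))) v‖ ≤ η * ‖v‖ := by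
          intro m _
          exact ni_tw_bound _ _ V1 hη.le (hV1' (i, k, m)) v hv1
        refine (Finset.sum_le_sum h4).trans ?_
        rw [Finset.sum_const, Finset.card_univ, ZMod.card, nsmul_eq_mul]
      have hp0 : (0 : ℝ) < p := by exact_mod_cast NeZero.pos p
      have h5 : ‖((p : ℂ)⁻¹)‖ = (p : ℝ)⁻¹ := by
        rw [norm_inv, Complex.norm_natCast]
      rw [h5]
      calc (p : ℝ)⁻¹ * ‖∑ m, (tw (x i k * x i m - x i (k + m)) ((P n).g i (k + m))) v‖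
          ≤ (p : ℝ)⁻¹ * ((p : ℝ) * (η * ‖v‖)) := by gcongr
        _ = η * ‖v‖ := by field_simp
    have h3 : t v - v = t ((1 - e) v) - (1 - e) v + (t * e - e) v := by
      simp only [sub_apply, one_apply_eq_self, mul_apply_eq_comp, map_sub]
      abel
    rw [h3]
    have h4 : ‖t ((1 - e) v)‖ ≤ 2 * ‖(1 - e) v‖ :=
      (norm_tw_apply_le _ _ _).trans (mul_le_mul_of_nonneg_right (hx i k) (norm_nonneg _))
    calc ‖t ((1 - e) v) - (1 - e) v + (t * e - e) v‖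
        ≤ ‖t ((1 - e) v) - (1 - e) v‖ + ‖(t * e - e) v‖ := norm_add_le _ _
      _ ≤ (‖t ((1 - e) v)‖ + ‖(1 - e) v‖) + ‖(t * e - e) v‖ := by
          gcongr; exact norm_sub_le _ _
      _ ≤ (2 * ‖(1 - e) v‖ + ‖(1 - e) v‖) + η * ‖v‖ := by gcongr
      _ = 3 * ‖(1 - e) v‖ + η * ‖v‖ := by ring
  · exact ni_tw_bound _ _ V2 hη.le (hV2' (i, k)) v hv2

end CA
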