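import Pool.Agent.Helper33.CA.KER1
import Pool.Agent.Helper33.CA.F1
import Pool.Agent.Helper33.CA.NI
import Pool.Agent.Helper33.CA.ENT
import Pool.Agent.Helper33.CA.FC

/-! Module KER (MP_464bf1_lc): the kernel bound. -/

namespace CA

open scoped InnerProductSpace
open Module

theorem ker_eps_pos {p : ℕ} (hp : 5 ≤ p) : 0 < eps p := by
  unfold eps cc
  have h5 : (4 : ℝ) < p := by exact_mod_cast (by omega : 4 < p)
  have h2 : (2 : ℝ) < √(p : ℝ) := by
    rw [Real.lt_sqrt (by norm_num)]; norm_num; linarith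
  have h3 : (√(p : ℝ))⁻¹ < 2⁻¹ := inv_strictAnti₀ (by norm_num) h2
  linarith

theorem ker_eps_le {p : ℕ} : eps p ≤ 1 := by
  unfold eps cc
  have : 0 ≤ (√(p : ℝ))⁻¹ := by positivity
  linarith

/-- finite-dimensional subspace cutting finitely many compact operators -/
theorem ker_cut_finite {E : Type*} [NormedAddCommGroup E] [InnerProductSpace ℂ E] [CompleteSpace E]
    {ι : Type*} [Finite ι] (K : ι → (E →L[ℂ] E)) (hK : ∀ i, IsCompactOperator (K i)) {η : ℝ}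
    (hη : 0 < η) : ∃ V : Submodule ℂ E, FiniteDimensional ℂ V ∧
      ∀ i, ∀ v ∈ Vᗮ, ‖K i v‖ ≤ η * ‖v‖ := by
  choose V hV hVc using fun i => cpt_cut (K i) (hK i) hη
  haveI := hV
  refine ⟨⨆ i, V i, inferInstance, fun i v hv => hVc i v ?_⟩
  exact Submodule.orthogonal_le (le_iSup V i) hv

/-- commutation of `e'` with `J ⊗ 1` up to compact errors -/
theorem ker_comm {E : Type*} [NormedAddCommGroup E] [InnerProductSpace ℂ E]
    {X : Type*} [Fintype X] [DecidableEq X] {p : ℕ} [NeZero p]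
    (x : Fin 3 → ZMod p → (E →L[ℂ] E)) (P : KMS p (Equiv.Perm X)) (J : E →L[ℂ] E) (i : Fin 3)
    (u : Amp E X) :
    (1 - eop x P i) (tw J (1 : Equiv.Perm X) u) = tw J (1 : Equiv.Perm X) ((1 - eop x P i) u)
      + (p : ℂ)⁻¹ • ∑ k, tw (J * x i k - x i k * J) (P.g i k) u := by
  have hk : ∀ k, tw (x i k) (P.g i k) (tw J (1 : Equiv.Perm X) u)
      = tw J (1 : Equiv.Perm X) (tw (x i k) (P.g i k) u)
        - tw (J * x i k - x i k * J) (P.g i k) u := by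
    intro k
    have a1 := congrArg (fun T : Amp E X →L[ℂ] Amp E X => T u)
      (tw_mul (E := E) (x i k) J (P.g i k) (1 : Equiv.Perm X))
    have a2 := congrArg (fun T : Amp E X →L[ℂ] Amp E X => T u)
      (tw_mul (E := E) J (x i k) (1 : Equiv.Perm X) (P.g i k))
    simp only [mul_apply_eq_comp, mul_one, one_mul] at a1 a2
    rw [a1, a2, tw_sub, ContinuousLinearMap.sub_apply]
    abel
  have h2 : eop x P i (tw J (1 : Equiv.Perm X) u) = tw J (1 : Equiv.Perm X) (eop x P i u)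
      - (p : ℂ)⁻¹ • ∑ k, tw (J * x i k - x i k * J) (P.g i k) u := by
    unfold eop
    rw [ContinuousLinearMap.smul_apply, ContinuousLinearMap.sum_apply,
      ContinuousLinearMap.smul_apply, ContinuousLinearMap.sum_apply, map_smul, map_sum,
      ← smul_sub, ← Finset.sum_sub_distrib]
    congr 1
    exact Finset.sum_congr rfl fun k _ => hk k
  rw [ContinuousLinearMap.sub_apply, ContinuousLinearMap.one_apply, ContinuousLinearMap.sub_apply,
    ContinuousLinearMap.one_apply, map_sub, h2]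
  abel

/-- the core of the argument: a nearly invariant vector, whose image under `J ⊗ 1` has no
low spectral part, vanishes -/
theorem ker_core {E : Type*} [NormedAddCommGroup E] [InnerProductSpace ℂ E] [CompleteSpace E]
    {X : Type*} [Fintype X] [DecidableEq X] [Nonempty X] {p : ℕ} [NeZero p]
    (x : Fin 3 → ZMod p → (E →L[ℂ] E)) (P : KMS p (Equiv.Perm X)) (J : E →L[ℂ] E)
    (hJ : ‖J‖ ≤ 2) {s t τ : ℝ} (ht : 0 < t) (ht1 : t ≤ 1) (_hs0 : 0 ≤ s) (hs : s ≤ t / 64)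
    (hτ0 : 0 ≤ τ) (hτ : τ ≤ t / 8)
    (u w : Amp E X) (hw : w = -(tw J (1 : Equiv.Perm X) u))
    (h1 : (⟪Dop x P u, u⟫_ℂ).re ≤ s * ‖u‖ ^ 2)
    (h2 : t * ‖w‖ ^ 2 ≤ (⟪Dop x P w, w⟫_ℂ).re)
    (hK : ∀ i k, ‖tw (J * x i k - x i k * J) (P.g i k) u‖ ≤ τ * ‖u‖)
    (hK0 : ‖tw (star J * J - 1) (1 : Equiv.Perm X) u‖ ≤ τ * ‖u‖) : u = 0 := by
  have hp : (0 : ℝ) < p := by exact_mod_cast Nat.pos_of_ne_zero (NeZero.ne p)
  set U : ℝ := ‖u‖ with hU
  have hU0 : 0 ≤ U := norm_nonneg u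
  have hJ' : ‖tw J (1 : Equiv.Perm X)‖ ≤ 2 := (norm_tw_le _ _).trans hJ
  -- the three errors
  have he : ∀ i, ‖(1 - eop x P i) w‖ ≤ 2 * ‖(1 - eop x P i) u‖ + τ * U := by
    intro i
    rw [hw, map_neg, norm_neg, ker_comm]
    refine (norm_add_le _ _).trans (add_le_add ?_ ?_)
    · exact (ContinuousLinearMap.le_opNorm _ _).trans
        (mul_le_mul_of_nonneg_right hJ' (norm_nonneg _))
    · rw [norm_smul, norm_inv, Complex.norm_natCast]
      have h3 : ‖∑ k, tw (J * x i k - x i k * J) (P.g i k) u‖ ≤ p * (τ * U) := by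
        refine (norm_sum_le _ _).trans ((Finset.sum_le_sum fun k _ => hK i k).trans ?_)
        rw [Finset.sum_const, Finset.card_univ, ZMod.card, nsmul_eq_mul]
      calc (p : ℝ)⁻¹ * ‖∑ k, tw (J * x i k - x i k * J) (P.g i k) u‖
          ≤ (p : ℝ)⁻¹ * (p * (τ * U)) := mul_le_mul_of_nonneg_left h3 (by positivity)
        _ = τ * U := by field_simp
  have hP : ‖P1 E X w‖ ≤ 2 * ‖P1 E X u‖ := by
    rw [hw, map_neg, norm_neg]
    have h3 := congrArg (fun T : Amp E X →L[ℂ] Amp E X => T u)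
      (P1_tw (E := E) J (1 : Equiv.Perm X))
    simp only [mul_apply_eq_comp] at h3
    rw [h3]
    exact (ContinuousLinearMap.le_opNorm _ _).trans
      (mul_le_mul_of_nonneg_right hJ' (norm_nonneg _))
  have hwn : (1 - τ) * U ^ 2 ≤ ‖w‖ ^ 2 := by
    have h3 : ‖w‖ ^ 2 = (⟪tw (star J * J) (1 : Equiv.Perm X) u, u⟫_ℂ).re := by
      have h4 : tw (star J * J) (1 : Equiv.Perm X)
          = star (tw J (1 : Equiv.Perm X)) * tw J (1 : Equiv.Perm X) := by
        rw [tw_star, tw_mul, inv_one, mul_one]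
      rw [h4, mul_apply_eq_comp, inner_star_left, hw, norm_neg]
      rw [inner_self_eq_norm_sq_to_K]
      norm_cast
    have h5 : tw (star J * J) (1 : Equiv.Perm X) u
        = u + tw (star J * J - 1) (1 : Equiv.Perm X) u := by
      rw [tw_sub, tw_one_one, ContinuousLinearMap.sub_apply, ContinuousLinearMap.one_apply]
      abel
    have h6 : -(τ * U ^ 2) ≤ (⟪tw (star J * J - 1) (1 : Equiv.Perm X) u, u⟫_ℂ).re := by
      have h7 := Complex.abs_re_le_norm (⟪tw (star J * J - 1) (1 : Equiv.Perm X) u, u⟫_ℂ)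
      have h8 := norm_inner_le_norm (𝕜 := ℂ) (tw (star J * J - 1) (1 : Equiv.Perm X) u) u
      have h9 : ‖tw (star J * J - 1) (1 : Equiv.Perm X) u‖ * ‖u‖ ≤ τ * U * U :=
        mul_le_mul_of_nonneg_right hK0 hU0
      have h10 := neg_abs_le (⟪tw (star J * J - 1) (1 : Equiv.Perm X) u, u⟫_ℂ).re
      nlinarith
    rw [h3, h5, inner_add_left, Complex.add_re, inner_self_eq_norm_sq_to_K]
    have h11 : ((((‖u‖ : ℝ) : ℂ)) ^ 2).re = U ^ 2 := by
      rw [← Complex.ofReal_pow, Complex.ofReal_re]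
    have h12 : (((RCLike.ofReal ‖u‖ : ℂ)) ^ 2).re = U ^ 2 := h11
    rw [h12]
    linarith
  rw [Dop_inner] at h1 h2
  have hsum : ∑ i, ‖(1 - eop x P i) w‖ ^ 2 ≤
      8 * ∑ i, ‖(1 - eop x P i) u‖ ^ 2 + 6 * (τ * U) ^ 2 := by
    have h3 : ∀ i, ‖(1 - eop x P i) w‖ ^ 2 ≤ 8 * ‖(1 - eop x P i) u‖ ^ 2 + 2 * (τ * U) ^ 2 := by
      intro i
      have h4 : ‖(1 - eop x P i) w‖ ^ 2 ≤ (2 * ‖(1 - eop x P i) u‖ + τ * U) ^ 2 :=
        pow_le_pow_left₀ (norm_nonneg _) (he i) 2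
      nlinarith [sq_nonneg (2 * ‖(1 - eop x P i) u‖ - τ * U)]
    calc ∑ i, ‖(1 - eop x P i) w‖ ^ 2
        ≤ ∑ i, (8 * ‖(1 - eop x P i) u‖ ^ 2 + 2 * (τ * U) ^ 2) :=
          Finset.sum_le_sum fun i _ => h3 i
      _ = 8 * ∑ i, ‖(1 - eop x P i) u‖ ^ 2 + 6 * (τ * U) ^ 2 := by
          rw [Finset.sum_add_distrib, ← Finset.mul_sum]
          simp
          ring
  have hP2 : ‖P1 E X w‖ ^ 2 ≤ 4 * ‖P1 E X u‖ ^ 2 := by
    have := pow_le_pow_left₀ (norm_nonneg _) hP 2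
    nlinarith
  have hPn : 0 ≤ ‖P1 E X u‖ ^ 2 := by positivity
  have hSn : 0 ≤ ∑ i, ‖(1 - eop x P i) u‖ ^ 2 := Finset.sum_nonneg fun _ _ => by positivity
  -- final inequality
  have hfin : t * ((1 - τ) * U ^ 2) ≤ 8 * (s * U ^ 2) + 6 * (τ * U) ^ 2 := by
    have h3 := mul_le_mul_of_nonneg_left hwn ht.le
    linarith
  by_contra hne
  have hUpos : 0 < U := norm_pos_iff.2 hne
  have hU2 : 0 < U ^ 2 := by positivity
  have h3 : t * (1 - τ) ≤ 8 * s + 6 * τ ^ 2 := by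
    have h4 : (t * (1 - τ)) * U ^ 2 ≤ (8 * s + 6 * τ ^ 2) * U ^ 2 := by nlinarith
    exact le_of_mul_le_mul_right h4 hU2
  have h5 : τ ^ 2 ≤ (t / 8) ^ 2 := pow_le_pow_left₀ hτ0 hτ 2
  nlinarith

theorem fact4 {E : Type} [NormedAddCommGroup E] [InnerProductSpace ℂ E] [CompleteSpace E]
    {p : ℕ} [Fact p.Prime] (hp : 5 ≤ p) {X : ℕ → Type} [∀ n, Fintype (X n)] [∀ n, DecidableEq (X n)]
    [∀ n, Nontrivial (X n)] (P : ∀ n, KMS p (Equiv.Perm (X n))) (h2 : ∀ n, TwoTrans (P n))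
    {x z : Fin 3 → ZMod p → (E →L[ℂ] E)} (h : KMSc x z) (hx : ∀ i k, ‖x i k‖ ≤ 2) :
    ∃ s t : ℝ, 0 < s ∧ s < t ∧ t < eps p ∧ ∃ r : ℕ, ∀ J : E →L[ℂ] E, ‖J‖ ≤ 2 →
      CEq (star J * J) 1 → (∀ i k, CEq (J * x i k) (x i k * J)) →
      ∃ N : ℕ, ∀ n, N ≤ Fintype.card (X n) →
        finrank ℂ (LinearMap.ker (1 - cfc (fcut s t) (Dop x (P n)) +
          tw J 1 * cfc (fcut s t) (Dop x (P n))).toLinearMap) ≤ r * Fintype.card (X n) := by
  have hε := ker_eps_pos hp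
  have hε1 : eps p ≤ 1 := ker_eps_le
  set ε : ℝ := eps p with hεd
  set t1 : ℝ := ε / 2 with ht1
  have ht1p : 0 < t1 := by positivity
  have ht11 : t1 ≤ 1 := by rw [ht1]; linarith
  set κ : ℝ := t1 / 136 with hκd
  have hκ : 0 < κ := by positivity
  obtain ⟨δ, hδ, hent⟩ := entangle hp hκ
  set s0 : ℝ := min (t1 / 64) ((δ / 6) ^ 2) with hs0d
  have hs0 : 0 < s0 := lt_min (by positivity) (by positivity)
  have hs0t : s0 ≤ t1 / 64 := min_le_left _ _
  have hs0δ : √s0 ≤ δ / 6 := by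
    rw [Real.sqrt_le_left (by positivity)]
    exact min_le_right _ _
  obtain ⟨F0, hF0, hgap⟩ := fact1 hp P h (η := s0 * (ε - t1) / 2)
    (by have : 0 < ε - t1 := by rw [ht1]; linarith
        positivity)
  obtain ⟨FK, hFK, hnear⟩ := near_inv P h hx (η := δ / 2) (by positivity)
  refine ⟨t1 / 4, t1 / 2, by positivity, by linarith, by rw [ht1]; linarith,
    finrank ℂ F0 + finrank ℂ FK, ?_⟩
  intro J hJ hJJ hJx
  obtain ⟨V1, hV1, hcut1⟩ := ker_cut_finite (fun q : Fin 3 × ZMod p => J * x q.1 q.2 - x q.1 q.2 * J)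
    (fun q => hJx q.1 q.2) hκ
  obtain ⟨V2, hV2, hcut2⟩ := cpt_cut (star J * J - 1) hJJ hκ
  set V : Submodule ℂ E := V1 ⊔ V2 with hVd
  haveI : FiniteDimensional ℂ V := inferInstance
  refine ⟨⌈(finrank ℂ V : ℝ) / κ ^ 2⌉₊ + 2, ?_⟩
  intro n hn
  haveI : Nonempty (X n) := inferInstance
  set D := Dop x (P n) with hD
  have hDn : 0 ≤ D := Dop_nonneg x (P n)
  refine ker_dim_bound _ (cfc (fcut (t1 / 4) (t1 / 2)) D) (cfc (hcut s0 t1) D) F0 FK ?_
  intro v hZ hv0 hvK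
  -- the middle part vanishes
  have hy : cfc (hcut s0 t1) D v = 0 := by
    have a1 := hgap n _ hv0
    have a2 := fc_mid D hDn (s := s0) (t := t1) (ε := ε) hs0.le (by linarith)
      (by rw [ht1]; linarith) v
    have a3 : 0 < s0 * (ε - t1) := by
      have : 0 < ε - t1 := by rw [ht1]; linarith
      positivity
    by_contra hne
    have a4 : 0 < ‖cfc (hcut s0 t1) D v‖ ^ 2 := by
      have := norm_pos_iff.2 hne
      positivity
    nlinarith
  obtain ⟨b1, b2⟩ := fc_split D hDn (s := s0) (s' := t1 / 4) (t' := t1 / 2) (t := t1) hs0.le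
    (by linarith) (by linarith) (by linarith) v hy
  set u := cfc (fcut (t1 / 4) (t1 / 2)) D v with hu
  have hw : v - u = -(tw J (1 : Equiv.Perm (X n)) u) := by
    have c1 : (1 - cfc (fcut (t1 / 4) (t1 / 2)) D +
        tw J 1 * cfc (fcut (t1 / 4) (t1 / 2)) D : Amp E (X n) →L[ℂ] Amp E (X n)) v
        = v - u + tw J 1 u := by
      simp only [ContinuousLinearMap.add_apply, ContinuousLinearMap.sub_apply,
        ContinuousLinearMap.one_apply, mul_apply_eq_comp, ← hu]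
    rw [c1] at hZ
    exact eq_neg_of_add_eq_zero_left hZ
  -- near invariance of u
  have hU0 : 0 ≤ ‖u‖ := norm_nonneg u
  have hlow : ∑ i, ‖(1 - eop x (P n) i) u‖ ^ 2 + ‖P1 E (X n) u‖ ^ 2 ≤ s0 * ‖u‖ ^ 2 := by
    rw [← Dop_inner]; exact b1
  have hsq : ∀ r : ℝ, 0 ≤ r → r ^ 2 ≤ s0 * ‖u‖ ^ 2 → r ≤ √s0 * ‖u‖ := by
    intro r hr hrs
    have : r ^ 2 ≤ (√s0 * ‖u‖) ^ 2 := by rw [mul_pow, Real.sq_sqrt hs0.le]; exact hrs
    exact (pow_le_pow_iff_left₀ hr (by positivity) two_ne_zero).1 this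
  have hei : ∀ i, ‖(1 - eop x (P n) i) u‖ ≤ √s0 * ‖u‖ := by
    intro i
    apply hsq _ (norm_nonneg _)
    have c2 : ‖(1 - eop x (P n) i) u‖ ^ 2 ≤ ∑ i, ‖(1 - eop x (P n) i) u‖ ^ 2 :=
      Finset.single_le_sum (f := fun i => ‖(1 - eop x (P n) i) u‖ ^ 2)
        (fun _ _ => by positivity) (Finset.mem_univ i)
    have c3 : 0 ≤ ‖P1 E (X n) u‖ ^ 2 := by positivity
    linarith
  have hP1 : ‖P1 E (X n) u‖ ≤ √s0 * ‖u‖ := by
    apply hsq _ (norm_nonneg _)
    have c2 : 0 ≤ ∑ i, ‖(1 - eop x (P n) i) u‖ ^ 2 :=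
      Finset.sum_nonneg fun _ _ => by positivity
    linarith
  have hδu : √s0 * ‖u‖ ≤ δ / 6 * ‖u‖ := mul_le_mul_of_nonneg_right hs0δ hU0
  have hn1 := hnear n u hvK
  have hnotcard : (1 : ℝ) < (Fintype.card (X n) : ℝ) := by
    exact_mod_cast Fintype.one_lt_card
  have hentV : ‖tw V.starProjection (1 : Equiv.Perm (X n)) u‖ ≤ 2 * κ * ‖u‖ := by
    have d1 := hent (P n) (h2 n) x u
      (fun i k => (hn1 i k).1.trans (by have := hei i; nlinarith))
      (fun i k => (hn1 i k).2.trans (by nlinarith [mul_nonneg hδ.le hU0]))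
      (hP1.trans (by nlinarith [mul_nonneg hδ.le hU0])) V
    refine d1.trans (mul_le_mul_of_nonneg_right ?_ hU0)
    have d2 : √((finrank ℂ V : ℝ) / (Fintype.card (X n) - 1)) ≤ κ := by
      rw [Real.sqrt_le_left hκ.le, div_le_iff₀ (by linarith)]
      have d3 : (finrank ℂ V : ℝ) / κ ^ 2 ≤ (⌈(finrank ℂ V : ℝ) / κ ^ 2⌉₊ : ℝ) := Nat.le_ceil _
      have d4 : ((⌈(finrank ℂ V : ℝ) / κ ^ 2⌉₊ : ℝ)) + 2 ≤ (Fintype.card (X n) : ℝ) := by
        exact_mod_cast hn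
      rw [div_le_iff₀ (by positivity)] at d3
      nlinarith [sq_nonneg κ, mul_pos hκ hκ]
    linarith
  have hτ : t1 / 8 = κ + 8 * (2 * κ) := by rw [hκd]; ring
  have hVV1 : V1 ≤ V := le_sup_left
  have hVV2 : V2 ≤ V := le_sup_right
  have hK1 : ∀ i k, ‖tw (J * x i k - x i k * J) ((P n).g i k) u‖ ≤ t1 / 8 * ‖u‖ := by
    intro i k
    have e1 := cut_small (J * x i k - x i k * J) V hκ.le
      (fun v hv => hcut1 (i, k) v (Submodule.orthogonal_le hVV1 hv)) ((P n).g i k) u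
    have e2 : ‖J * x i k - x i k * J‖ ≤ 8 := by
      refine (norm_sub_le _ _).trans ?_
      have e3 : ‖J * x i k‖ ≤ 2 * 2 := (norm_mul_le _ _).trans
        (mul_le_mul hJ (hx i k) (norm_nonneg _) (by norm_num))
      have e4 : ‖x i k * J‖ ≤ 2 * 2 := (norm_mul_le _ _).trans
        (mul_le_mul (hx i k) hJ (norm_nonneg _) (by norm_num))
      linarith
    have e5 : ‖J * x i k - x i k * J‖ * ‖tw V.starProjection (1 : Equiv.Perm (X n)) u‖
        ≤ 8 * (2 * κ * ‖u‖) := mul_le_mul e2 hentV (norm_nonneg _) (by norm_num)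
    rw [hτ]
    nlinarith
  have hK2 : ‖tw (star J * J - 1) (1 : Equiv.Perm (X n)) u‖ ≤ t1 / 8 * ‖u‖ := by
    have e1 := cut_small (star J * J - 1) V hκ.le
      (fun v hv => hcut2 v (Submodule.orthogonal_le hVV2 hv)) (1 : Equiv.Perm (X n)) u
    have e2 : ‖star J * J - 1‖ ≤ 8 := by
      refine (norm_sub_le _ _).trans ?_
      have e3 : ‖star J * J‖ ≤ 2 * 2 := (norm_mul_le _ _).trans
        (mul_le_mul (by rw [norm_star]; exact hJ) hJ (norm_nonneg _) (by norm_num))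
      have e4 : ‖(1 : E →L[ℂ] E)‖ ≤ 1 := ContinuousLinearMap.norm_id_le
      linarith
    have e5 : ‖star J * J - 1‖ * ‖tw V.starProjection (1 : Equiv.Perm (X n)) u‖
        ≤ 8 * (2 * κ * ‖u‖) := mul_le_mul e2 hentV (norm_nonneg _) (by norm_num)
    rw [hτ]
    nlinarith
  have hu0 : u = 0 := ker_core x (P n) J hJ ht1p ht11 hs0.le hs0t (by positivity) le_rfl u (v - u)
    hw b1 b2 hK1 hK2
  rw [hu0, map_zero, neg_zero, sub_zero] at hw
  exact hw

end CA
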