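import Pool.Agent.Helper33.CA.SETS1

/-! Module SETS (MP_464bf1_lc): finite 2-transitive KMS sets. -/

namespace CA

open Matrix.SpecialLinearGroup
open scoped LinearAlgebra.Projectivization

/-- a finite field is generated by one nonzero element -/
theorem sets_gen (p : ℕ) [Fact p.Prime] (F : Type) [Field F] [Finite F] [Algebra (ZMod p) F] :
    ∃ t : F, t ≠ 0 ∧ Algebra.adjoin (ZMod p) {t} = ⊤ := by
  obtain ⟨u, hu⟩ := IsCyclic.exists_generator (α := Fˣ)
  refine ⟨u, u.ne_zero, ?_⟩
  rw [eq_top_iff]
  intro x _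
  by_cases hx : x = 0
  · rw [hx]
    exact Subalgebra.zero_mem _
  · have h1 := hu (Units.mk0 x hx)
    rw [← mem_powers_iff_mem_zpowers] at h1
    obtain ⟨m, hm⟩ := h1
    have h2 : x = (u : F) ^ m := by
      have := congrArg Units.val hm
      simpa using this.symm
    rw [h2]
    exact Subalgebra.pow_mem _ (Algebra.subset_adjoin (Set.mem_singleton _)) m

/-- the projective plane over `F` is a 2-transitive KMS set -/
theorem sets_one (p : ℕ) [Fact p.Prime] (F : Type) [Field F] [Finite F] [Algebra (ZMod p) F]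
    [DecidableEq (ℙ F (Fin 3 → F))] :
    ∃ P : KMS p (Equiv.Perm (ℙ F (Fin 3 → F))), TwoTrans P := by
  obtain ⟨t, ht, hgen⟩ := sets_gen p F
  obtain ⟨K, k0, k1, k2⟩ := exists_kmsSL p F t
  refine ⟨K.map (MulAction.toPermHom _ _), ?_⟩
  intro T hT
  -- the invariance group
  let Γ : Subgroup (Matrix.SpecialLinearGroup (Fin 3) F) :=
    { carrier := {M | ∀ x y : ℙ F (Fin 3 → F), T (M • x) (M • y) = T x y}
      mul_mem' := by
        intro A B hA hB x y
        rw [mul_smul, mul_smul, hA, hB]
      one_mem' := by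
        intro x y
        rw [one_smul, one_smul]
      inv_mem' := by
        intro A hA x y
        have := hA (A⁻¹ • x) (A⁻¹ • y)
        rw [smul_inv_smul, smul_inv_smul] at this
        exact this.symm }
  have hg : ∀ i k, K.g i k ∈ Γ := fun i k x y => hT i k x y
  have hΓ : Γ = ⊤ := by
    rw [eq_top_iff, ← sl3_closure p F t ht hgen, Subgroup.closure_le]
    intro M hM
    rcases hM with rfl | rfl | rfl
    · have := hg 0 1
      rw [k0, map_one] at this
      exact this
    · have := hg 1 1
      rw [k1, map_one] at this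
      exact this
    · have := hg 2 1
      rw [k2, map_one, one_mul] at this
      exact this
  have hall : ∀ (M : Matrix.SpecialLinearGroup (Fin 3) F) (x y : ℙ F (Fin 3 → F)),
      T (M • x) (M • y) = T x y := by
    intro M
    have : M ∈ Γ := by rw [hΓ]; exact Subgroup.mem_top _
    exact this
  have htwo : MulAction.IsMultiplyPretransitive (Matrix.SpecialLinearGroup (Fin 3) F)
    (ℙ F (Fin 3 → F)) 2 := inferInstance
  rw [MulAction.is_two_pretransitive_iff] at htwo
  -- two different points
  have hne : ∀ x : ℙ F (Fin 3 → F), ∃ y, x ≠ y := by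
    intro x
    by_contra hcon
    push Not at hcon
    have hsub : ∀ y y' : ℙ F (Fin 3 → F), y = y' := fun y y' => (hcon y).symm.trans (hcon y')
    have e0 : (Pi.single 0 1 : Fin 3 → F) ≠ 0 := by
      intro h
      have := congrFun h 0
      simp at this
    have e1 : (Pi.single 1 1 : Fin 3 → F) ≠ 0 := by
      intro h
      have := congrFun h 1
      simp at this
    have h := hsub (Projectivization.mk F _ e0) (Projectivization.mk F _ e1)
    rw [Projectivization.mk_eq_mk_iff'] at h
    obtain ⟨a, ha⟩ := h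
    have := congrFun ha 0
    simp at this
  have e0 : (Pi.single 0 1 : Fin 3 → F) ≠ 0 := by
    intro h
    have := congrFun h 0
    simp at this
  set x0 : ℙ F (Fin 3 → F) := Projectivization.mk F _ e0
  obtain ⟨y0, hxy0⟩ := hne x0
  refine ⟨T x0 x0, T x0 y0, fun x y => ?_⟩
  by_cases hxy : x = y
  · subst hxy
    rw [if_pos rfl]
    obtain ⟨y', hy'⟩ := hne x
    obtain ⟨M, hM, _⟩ := htwo hxy0 hy'
    rw [← hM, hall]
  · rw [if_neg hxy]
    obtain ⟨M, hM, hM'⟩ := htwo hxy0 hxy
    rw [← hM, ← hM', hall]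

theorem exists_sets (p : ℕ) [Fact p.Prime] : ∃ (X : ℕ → Type) (_ : ∀ n, Fintype (X n))
    (_ : ∀ n, DecidableEq (X n)) (P : ∀ n, KMS p (Equiv.Perm (X n))),
    (∀ n, TwoTrans (P n)) ∧ (∀ n, Odd (Fintype.card (X n))) ∧ (∀ n, n + 3 ≤ Fintype.card (X n)) ∧
      Function.Injective (fun n => Fintype.card (X n)) := by
  classical
  let X : ℕ → Type := fun n => ℙ (GaloisField p (n + 1)) (Fin 3 → GaloisField p (n + 1))
  have hfin : ∀ n, Finite (X n) := fun n => by
    change Finite (ℙ (GaloisField p (n + 1)) (Fin 3 → GaloisField p (n + 1)))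
    rw [Projectivization.finite_iff_of_finite]
    infer_instance
  let i1 : ∀ n, Fintype (X n) := fun n => Fintype.ofFinite _
  let i2 : ∀ n, DecidableEq (X n) := fun n => Classical.decEq _
  have hex : ∀ n, ∃ P : KMS p (Equiv.Perm (X n)), TwoTrans P := fun n =>
    sets_one p (GaloisField p (n + 1))
  choose P hP using hex
  have hcard : ∀ n, Fintype.card (X n) = 1 + p ^ (n + 1) + (p ^ (n + 1)) ^ 2 := by
    intro n
    rw [← Nat.card_eq_fintype_card]
    have h := Projectivization.card_of_finrank (GaloisField p (n + 1))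
      (Fin 3 → GaloisField p (n + 1)) (n := 3) (by simp)
    refine h.trans ?_
    rw [GaloisField.card p (n + 1) (by omega)]
    simp [Finset.sum_range_succ]
  have hp2 : 2 ≤ p := (Fact.out : p.Prime).two_le
  refine ⟨X, i1, i2, P, hP, ?_, ?_, ?_⟩
  · intro n
    rw [hcard, Nat.odd_iff]
    have h1 : (p ^ (n + 1) + (p ^ (n + 1)) ^ 2) % 2 = 0 := by
      have := Nat.even_mul_succ_self (p ^ (n + 1))
      rw [Nat.even_iff] at this
      rw [← this]
      congr 1
      ring
    omega
  · intro n
    rw [hcard]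
    have h1 : n + 1 < 2 ^ (n + 1) := Nat.lt_two_pow_self
    have h2 : 2 ^ (n + 1) ≤ p ^ (n + 1) := Nat.pow_le_pow_left hp2 _
    have h3 : 0 < (p ^ (n + 1)) ^ 2 := by positivity
    nlinarith
  · have hmono : StrictMono (fun n => Fintype.card (X n)) := by
      refine strictMono_nat_of_lt_succ fun n => ?_
      rw [hcard, hcard]
      have h1 : p ^ (n + 1) < p ^ (n + 1 + 1) := Nat.pow_lt_pow_right (by omega) (by omega)
      have h2 : (p ^ (n + 1)) ^ 2 < (p ^ (n + 1 + 1)) ^ 2 := Nat.pow_lt_pow_left h1 (by norm_num)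
      omega
    exact hmono.injective

end CA
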