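import Pool.Agent.Helper33.CA.INJ
import Pool.Agent.Helper33.CA.CPT

/-! Module SHIFT (MP_464bf1_lc): amplified powers of the shift. -/

namespace CA

open Module

theorem shift_pow_eq (M : ℕ) : ∃ h : Function.Injective (fun k : ℕ => k + M),
    shift ^ M = injOp (fun k : ℕ => k + M) h := by
  induction M with
  | zero =>
    refine ⟨fun a b h => by simpa using h, ?_⟩
    rw [pow_zero]
    ext f m
    have := injOp_apply (fun k : ℕ => k + 0) (fun a b h => by simpa using h) f m
    exact this.symm
  | succ M ih =>
    obtain ⟨h, ih⟩ := ih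
    refine ⟨fun a b h => by simpa using h, ?_⟩
    rw [pow_succ', ih]
    unfold shift
    rw [injOp_mul]
    rfl

theorem shift_star_pow_apply (M : ℕ) (f : L2N) (k : ℕ) : (star shift ^ M) f k = f (k + M) := by
  obtain ⟨h, e⟩ := shift_pow_eq M
  rw [← star_pow, e, star_injOp_apply]

theorem shift_pow_apply (M : ℕ) (f : L2N) (k : ℕ) : (shift ^ M) f (k + M) = f k := by
  obtain ⟨h, e⟩ := shift_pow_eq M
  rw [e]
  exact injOp_apply (fun k : ℕ => k + M) h f k

theorem shift_pow_apply_lt (M : ℕ) (f : L2N) (m : ℕ) (hm : m < M) : (shift ^ M) f m = 0 := by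
  obtain ⟨h, e⟩ := shift_pow_eq M
  rw [e, injOp_apply_notMem]
  rintro ⟨k, hk⟩
  simp only at hk
  omega

variable {X : Type} [Fintype X] [DecidableEq X]

/-- The vectors supported on `{0, …, M - 1}`. -/
def shiftSub (X : Type) [Fintype X] (M : ℕ) : Submodule ℂ (Amp L2N X) where
  carrier := {v | ∀ x k, M ≤ k → (v x : L2N) k = 0}
  add_mem' := by
    intro a b ha hb x k hk
    have h1 := ha x k hk
    have h2 := hb x k hk
    change (a x : L2N) k + (b x : L2N) k = 0
    rw [h1, h2, add_zero]
  zero_mem' := by
    intro x k _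
    rfl
  smul_mem' := by
    intro c a ha x k hk
    have h1 := ha x k hk
    change c • (a x : L2N) k = 0
    rw [h1, smul_zero]

/-- The coordinates of a vector supported on `{0, …, M - 1}`. -/
def shiftCoord (X : Type) [Fintype X] (M : ℕ) : shiftSub X M →ₗ[ℂ] (X → Fin M → ℂ) where
  toFun v x i := ((v : Amp L2N X) x : L2N) i
  map_add' a b := rfl
  map_smul' c a := rfl

theorem shiftCoord_bijective (X : Type) [Fintype X] (M : ℕ) :
    Function.Bijective (shiftCoord X M) := by
  constructor
  · rw [injective_iff_map_eq_zero]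
    intro v hv
    apply Subtype.ext
    ext x k
    by_cases hk : k < M
    · exact congrFun (congrFun hv x) ⟨k, hk⟩
    · exact v.2 x k (not_lt.1 hk)
  · intro g
    have key : ∀ (x : X) (m : ℕ), (∑ i : Fin M, lp.single 2 (i : ℕ) (g x i) : L2N) m =
        if h : m < M then g x ⟨m, h⟩ else 0 := by
      intro x m
      rw [lp.coeFn_sum, Finset.sum_apply]
      split_ifs with h
      · rw [Finset.sum_eq_single (⟨m, h⟩ : Fin M)]
        · simp
        · intro i _ hi
          have : m ≠ (i : ℕ) := fun hc => hi (Fin.ext hc.symm)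
          simp [lp.single_apply, this]
        · simp
      · apply Finset.sum_eq_zero
        intro i _
        have : m ≠ (i : ℕ) := fun hc => h (hc ▸ i.2)
        simp [lp.single_apply, this]
    refine ⟨⟨WithLp.toLp 2 (fun x => ∑ i : Fin M, lp.single 2 (i : ℕ) (g x i)), ?_⟩, ?_⟩
    · intro x k hk
      change (∑ i : Fin M, lp.single 2 (i : ℕ) (g x i) : L2N) k = 0
      rw [key, dif_neg (not_lt.2 hk)]
    · funext x i
      change (∑ i : Fin M, lp.single 2 (i : ℕ) (g x i) : L2N) i = g x i
      rw [key, dif_pos i.2]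

theorem shiftSub_finiteDimensional (X : Type) [Fintype X] (M : ℕ) :
    FiniteDimensional ℂ (shiftSub X M) :=
  FiniteDimensional.of_injective (shiftCoord X M) (shiftCoord_bijective X M).1

theorem shift_amp_cpt (M : ℕ) :
    CEq (tw (shift ^ M * star shift ^ M) (1 : Equiv.Perm X)) 1 := by
  unfold CEq
  apply cpt_finiteRange
  haveI := shiftSub_finiteDimensional X M
  apply Submodule.finiteDimensional_of_le (S₂ := shiftSub X M)
  rintro _ ⟨v, rfl⟩
  intro x k hk
  obtain ⟨m, rfl⟩ := Nat.exists_eq_add_of_le' hk
  change (tw (shift ^ M * star shift ^ M) (1 : Equiv.Perm X) v x - v x : L2N) (m + M) = 0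
  rw [tw_apply]
  change (shift ^ M) ((star shift ^ M) (v x)) (m + M) - (v x : L2N) (m + M) = 0
  rw [shift_pow_apply, shift_star_pow_apply, sub_self]

theorem shift_amp_ker (M : ℕ) :
    finrank ℂ (LinearMap.ker (tw (star shift ^ M) (1 : Equiv.Perm X)).toLinearMap) =
      M * Fintype.card X := by
  have h1 : LinearMap.ker (tw (star shift ^ M) (1 : Equiv.Perm X)).toLinearMap = shiftSub X M := by
    ext v
    rw [LinearMap.mem_ker]
    constructor
    · intro h x k hk
      obtain ⟨m, rfl⟩ := Nat.exists_eq_add_of_le' hk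
      have h2 : (tw (star shift ^ M) (1 : Equiv.Perm X) v x : L2N) m = 0 := by
        have : tw (star shift ^ M) (1 : Equiv.Perm X) v = 0 := h
        rw [this]
        rfl
      rw [tw_apply] at h2
      rw [← shift_star_pow_apply]
      exact h2
    · intro h
      change tw (star shift ^ M) (1 : Equiv.Perm X) v = 0
      ext x m
      rw [tw_apply]
      change ((star shift ^ M) (v x) : L2N) m = 0
      rw [shift_star_pow_apply]
      exact h x (m + M) (Nat.le_add_left M m)
  rw [h1, (LinearEquiv.ofBijective _ (shiftCoord_bijective X M)).finrank_eq]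
  rw [Module.finrank_pi_fintype]
  simp [mul_comm]

end CA
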