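import Pool.Agent.Helper33.CA.CPT

/-! Module TRANSP (MP_464bf1_lc): transport of matrices by a lift of a Calkin endomorphism. -/

namespace CA

variable {E : Type*} [NormedAddCommGroup E] [InnerProductSpace ℂ E] [CompleteSpace E]
variable {X : Type*} [Fintype X] [DecidableEq X] {l : (E →L[ℂ] E) → (E →L[ℂ] E)}

theorem transp_lift_zero (h : LiftHom l) : CEq (l 0) 0 := by
  have h1 := h.smul 0 1
  rwa [zero_smul, zero_smul] at h1

theorem transp_lift_sum (h : LiftHom l) {ι : Type*} (s : Finset ι) (f : ι → (E →L[ℂ] E)) :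
    CEq (l (∑ i ∈ s, f i)) (∑ i ∈ s, l (f i)) := by
  classical
  induction s using Finset.induction_on with
  | empty => simpa using transp_lift_zero h
  | insert i s hi ih =>
    rw [Finset.sum_insert hi, Finset.sum_insert hi]
    exact (h.add _ _).trans ((CEq.refl _).add ih)

theorem transp_lift_neg (h : LiftHom l) (a : E →L[ℂ] E) : CEq (l (-a)) (-l a) := by
  have h1 := h.smul (-1) a
  rwa [neg_one_smul, neg_one_smul] at h1

theorem transp_lift_sub (h : LiftHom l) (a b : E →L[ℂ] E) : CEq (l (a - b)) (l a - l b) := by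
  rw [sub_eq_add_neg, sub_eq_add_neg]
  exact (h.add _ _).trans ((CEq.refl _).add (transp_lift_neg h b))

theorem lift_mul (h : LiftHom l) (M N : Matrix X X (E →L[ℂ] E)) :
    CEq (opM ((M * N).map l)) (opM (M.map l) * opM (N.map l)) := by
  rw [← opM_mul]
  apply CEq.opM
  intro x y
  rw [Matrix.map_apply, Matrix.mul_apply, Matrix.mul_apply]
  exact (transp_lift_sum h _ _).trans (CEq.sum _ fun z _ => h.mul _ _)

theorem lift_add (h : LiftHom l) (M N : Matrix X X (E →L[ℂ] E)) :
    CEq (opM ((M + N).map l)) (opM (M.map l) + opM (N.map l)) := by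
  rw [← opM_add]
  apply CEq.opM
  intro x y
  exact h.add _ _

theorem lift_smul (h : LiftHom l) (c : ℂ) (M : Matrix X X (E →L[ℂ] E)) :
    CEq (opM ((c • M).map l)) (c • opM (M.map l)) := by
  rw [← opM_smul]
  apply CEq.opM
  intro x y
  exact h.smul _ _

theorem lift_zero (h : LiftHom l) : CEq (opM ((0 : Matrix X X (E →L[ℂ] E)).map l)) 0 := by
  rw [← opM_zero]
  apply CEq.opM
  intro x y
  exact transp_lift_zero h

theorem lift_sub (h : LiftHom l) (M N : Matrix X X (E →L[ℂ] E)) :
    CEq (opM ((M - N).map l)) (opM (M.map l) - opM (N.map l)) := by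
  rw [← opM_sub]
  apply CEq.opM
  intro x y
  exact transp_lift_sub h _ _

theorem transp_lift_msum (h : LiftHom l) {ι : Type*} (s : Finset ι)
    (M : ι → Matrix X X (E →L[ℂ] E)) :
    CEq (opM ((∑ i ∈ s, M i).map l)) (∑ i ∈ s, opM ((M i).map l)) := by
  classical
  induction s using Finset.induction_on with
  | empty => simpa using lift_zero h
  | insert i s hi ih =>
    rw [Finset.sum_insert hi, Finset.sum_insert hi]
    exact (lift_add h _ _).trans ((CEq.refl _).add ih)

theorem lift_star (h : LiftHom l) (M : Matrix X X (E →L[ℂ] E)) :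
    CEq (opM ((star M).map l)) (star (opM (M.map l))) := by
  rw [← opM_star]
  apply CEq.opM
  intro x y
  rw [Matrix.map_apply, Matrix.star_apply, Matrix.star_apply]
  exact h.star' _

theorem lift_one (h : LiftHom l) : CEq (opM ((1 : Matrix X X (E →L[ℂ] E)).map l)) 1 := by
  rw [← opM_one]
  apply CEq.opM
  intro x y
  rw [Matrix.map_apply, Matrix.one_apply]
  split_ifs
  · exact h.one
  · exact transp_lift_zero h

theorem lift_tw (h : LiftHom l) (a : E →L[ℂ] E) (σ : Equiv.Perm X) :
    CEq (opM ((twM a σ).map l)) (tw (l a) σ) := by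
  rw [tw]
  apply CEq.opM
  intro x y
  rw [Matrix.map_apply]
  unfold twM
  split_ifs
  · exact CEq.refl _
  · exact transp_lift_zero h

theorem transp_lift_P1 (h : LiftHom l) : CEq (opM ((P1M E X).map l)) (P1 E X) := by
  rw [P1]
  apply CEq.opM
  intro x y
  rw [Matrix.map_apply]
  unfold P1M
  exact (h.smul _ _).trans (h.one.smul _)

theorem transp_lift_eM {p : ℕ} [NeZero p] (h : LiftHom l)
    (x : Fin 3 → ZMod p → (E →L[ℂ] E)) (P : KMS p (Equiv.Perm X)) (i : Fin 3) :
    CEq (opM ((eM x P i).map l)) (eop (fun i k => l (x i k)) P i) := by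
  unfold eM eop
  refine (lift_smul h _ _).trans (CEq.smul _ ?_)
  exact (transp_lift_msum h _ _).trans (CEq.sum _ fun k _ => lift_tw h _ _)

omit [Fintype X] [DecidableEq X] in
theorem transp_g_inv {p : ℕ} (P : KMS p (Equiv.Perm X)) (i : Fin 3) (k : ZMod p) :
    (P.g i k)⁻¹ = P.g i (-k) := by
  rw [inv_eq_iff_mul_eq_one, ← P.g_add, add_neg_cancel, P.g_zero]

theorem transp_star_eop {p : ℕ} [NeZero p] {x z : Fin 3 → ZMod p → (E →L[ℂ] E)} (hx : KMSc x z)
    (P : KMS p (Equiv.Perm X)) (i : Fin 3) : CEq (star (eop x P i)) (eop x P i) := by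
  have h1 : star (eop x P i) = (p : ℂ)⁻¹ • ∑ k, tw (star (x i (-k))) (P.g i k) := by
    unfold eop
    rw [star_smul, star_sum (s := Finset.univ) (f := fun k => tw (x i k) (P.g i k))]
    congr 1
    · simp
    · rw [← Equiv.sum_comp (Equiv.neg (ZMod p))]
      refine Finset.sum_congr rfl fun k _ => ?_
      rw [tw_star, transp_g_inv]
      simp
  rw [h1]
  unfold eop
  refine CEq.smul _ (CEq.sum _ fun k _ => CEq.tw ?_ _)
  have := hx.star_g i (-k)
  rwa [neg_neg] at this

theorem transp_eop_mul {p : ℕ} [NeZero p] {x z : Fin 3 → ZMod p → (E →L[ℂ] E)} (hx : KMSc x z)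
    (P : KMS p (Equiv.Perm X)) (i : Fin 3) : CEq (eop x P i * eop x P i) (eop x P i) := by
  have hp : (p : ℂ) ≠ 0 := by exact_mod_cast NeZero.ne p
  have h1 : eop x P i * eop x P i =
      (p : ℂ)⁻¹ • ∑ k, (p : ℂ)⁻¹ • ∑ m, tw (x i k * x i m) (P.g i (k + m)) := by
    unfold eop
    rw [smul_mul_assoc, Finset.sum_mul]
    congr 1
    refine Finset.sum_congr rfl fun k _ => ?_
    rw [mul_smul_comm, Finset.mul_sum]
    congr 1
    refine Finset.sum_congr rfl fun m _ => ?_
    rw [tw_mul, P.g_add]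
  have h2 : eop x P i =
      (p : ℂ)⁻¹ • ∑ k : ZMod p, (p : ℂ)⁻¹ • ∑ m, tw (x i (k + m)) (P.g i (k + m)) := by
    have h3 : ∀ k : ZMod p, ∑ m, tw (x i (k + m)) (P.g i (k + m)) = ∑ m, tw (x i m) (P.g i m) :=
      fun k => Equiv.sum_comp (Equiv.addLeft k) (fun m => tw (x i m) (P.g i m))
    simp only [h3]
    rw [Finset.sum_const, Finset.card_univ, ZMod.card, ← Nat.cast_smul_eq_nsmul ℂ, smul_smul,
      smul_smul, inv_mul_cancel₀ hp, one_mul]
    rfl
  rw [h1]
  conv => rhs; rw [h2]
  refine CEq.smul _ (CEq.sum _ fun k _ => CEq.smul _ (CEq.sum _ fun m _ => CEq.tw ?_ _))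
  exact (hx.g_add i k m).symm

theorem lift_DM {p : ℕ} [Fact p.Prime] [Nonempty X] (h : LiftHom l)
    {x z : Fin 3 → ZMod p → (E →L[ℂ] E)}
    (hx : KMSc (fun i k => l (x i k)) (fun i k => l (z i k)))
    (P : KMS p (Equiv.Perm X)) :
    CEq (opM ((DM x P).map l)) (Dop (fun i k => l (x i k)) P) := by
  unfold DM Dop
  refine (lift_add h _ _).trans (CEq.add ?_ (transp_lift_P1 h))
  refine (transp_lift_msum h _ _).trans (CEq.sum _ fun i _ => ?_)
  have h1 : CEq (opM ((1 - eM x P i).map l)) (1 - eop (fun i k => l (x i k)) P i) :=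
    (lift_sub h _ _).trans ((lift_one h).sub (transp_lift_eM h x P i))
  refine h1.trans ?_
  set e := eop (fun i k => l (x i k)) P i with he
  have h2 : CEq (star (1 - e) * (1 - e)) ((1 - e) * (1 - e)) := by
    refine CEq.mul_right _ ?_
    rw [star_sub 1 e, star_one]
    exact (CEq.refl _).sub (transp_star_eop hx P i)
  have h3 : CEq ((1 - e) * (1 - e)) (1 - e) := by
    have e1 : (1 - e) * (1 - e) = 1 - e - e + e * e := by
      rw [sub_mul, one_mul, mul_sub, mul_one]; abel
    have e2 : (1 : Amp E X →L[ℂ] Amp E X) - e = 1 - e - e + e := by abel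
    rw [e1]
    conv => rhs; rw [e2]
    exact (CEq.refl _).add (transp_eop_mul hx P i)
  exact (h2.trans h3).symm

theorem lift_KMS {p : ℕ} (h : LiftHom l) (K : KMS p (E →L[ℂ] E))
    (hg : ∀ i k, star (K.g i k) = K.g i (-k)) (hz : ∀ i k, star (K.z i k) = K.z i (-k)) :
    KMSc (fun i k => l (K.g i k)) (fun i k => l (K.z i k)) where
  g_zero i := by
    show CEq (l (K.g i 0)) 1
    rw [K.g_zero]; exact h.one
  g_add i k m := by
    show CEq (l (K.g i (k + m))) (l (K.g i k) * l (K.g i m))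
    rw [K.g_add]; exact h.mul _ _
  z_zero i := by
    show CEq (l (K.z i 0)) 1
    rw [K.z_zero]; exact h.one
  z_add i k m := by
    show CEq (l (K.z i (k + m))) (l (K.z i k) * l (K.z i m))
    rw [K.z_add]; exact h.mul _ _
  comm i k m := by
    show CEq (l (K.g i k) * l (K.g (i + 1) m)) (l (K.z i (k * m)) * l (K.g (i + 1) m) * l (K.g i k))
    refine (h.mul _ _).symm.trans ?_
    rw [K.comm]
    exact (h.mul _ _).trans ((h.mul _ _).mul_right _)
  z_comm_left i k m := by
    show CEq (l (K.z i k) * l (K.g i m)) (l (K.g i m) * l (K.z i k))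
    refine (h.mul _ _).symm.trans ?_
    rw [K.z_comm_left]
    exact h.mul _ _
  z_comm_right i k m := by
    show CEq (l (K.z i k) * l (K.g (i + 1) m)) (l (K.g (i + 1) m) * l (K.z i k))
    refine (h.mul _ _).symm.trans ?_
    rw [K.z_comm_right]
    exact h.mul _ _
  star_g i k := by
    show CEq (star (l (K.g i k))) (l (K.g i (-k)))
    rw [← hg]; exact (h.star' _).symm
  star_z i k := by
    show CEq (star (l (K.z i k))) (l (K.z i (-k)))
    rw [← hz]; exact (h.star' _).symm

end CA
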