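import Pool.Agent.Helper33.CA.IDX
import Pool.Agent.Helper33.CA.F2
import Pool.Agent.Helper33.CA.KER
import Pool.Agent.Helper33.CA.SETS
import Pool.Agent.Helper33.CA.FRAME
import Pool.Agent.Helper33.CA.SHIFT
import Pool.Agent.Helper33.CA.CONC3
import Pool.Agent.Helper33.CA.TRANSP

/-! Module FINAL (MP_464bf1_lc): no lift of a Calkin endomorphism exchanges the shift and its
adjoint. -/

namespace CA

open scoped InnerProductSpace
open Module

theorem LiftHom.congr_mul {E : Type*} [NormedAddCommGroup E] [InnerProductSpace ℂ E]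
    [CompleteSpace E] {l : (E →L[ℂ] E) → (E →L[ℂ] E)} (h : LiftHom l) {a b : E →L[ℂ] E} :
    CEq (l (a * b)) (l a * l b) := h.mul a b

theorem LiftHom.pow {E : Type*} [NormedAddCommGroup E] [InnerProductSpace ℂ E]
    [CompleteSpace E] {l : (E →L[ℂ] E) → (E →L[ℂ] E)} (h : LiftHom l) (a b : E →L[ℂ] E)
    (hab : CEq (l a) b) (M : ℕ) : CEq (l (a ^ M)) (b ^ M) := by
  induction M with
  | zero => simpa using h.one
  | succ M ih =>
    rw [pow_succ, pow_succ]
    exact (h.mul _ _).trans (ih.mul hab)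

theorem star_pow_mul_pow {E : Type*} [NormedAddCommGroup E] [InnerProductSpace ℂ E]
    [CompleteSpace E] (a : E →L[ℂ] E) (h : star a * a = 1) (M : ℕ) :
    star (a ^ M) * a ^ M = 1 := by
  induction M with
  | zero => simp
  | succ M ih =>
    rw [pow_succ', star_mul, mul_assoc, ← mul_assoc (star a) a, h, one_mul, ih]

theorem final_abs {E : Type} [NormedAddCommGroup E] [InnerProductSpace ℂ E] [CompleteSpace E]
    (shift : E →L[ℂ] E)
    (hframe : ∀ (X : ℕ → Type) [∀ n, Fintype (X n)] [∀ n, Nonempty (X n)],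
      ∃ (V : ∀ n, X n → X n → (E →L[ℂ] E)) (U : (∀ n, Equiv.Perm (X n)) →* (E →L[ℂ] E))
      (J : E →L[ℂ] E), Frame V U J shift)
    (hss : star shift * shift = 1)
    (hcpt : ∀ (X : Type) [Fintype X] [DecidableEq X] (M : ℕ),
      CEq (tw (shift ^ M * star shift ^ M) (1 : Equiv.Perm X)) 1)
    (hker : ∀ (X : Type) [Fintype X] [DecidableEq X] (M : ℕ),
      finrank ℂ (LinearMap.ker (tw (star shift ^ M) (1 : Equiv.Perm X)).toLinearMap) =
      M * Fintype.card X)
    (l : (E →L[ℂ] E) → (E →L[ℂ] E)) (h : LiftHom l)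
    (hs : CEq (l shift) (star shift)) : False := by
  have : Fact (Nat.Prime 5) := ⟨by norm_num⟩
  obtain ⟨X, iF, iD, P, h2, ho, hc, hinj⟩ := exists_sets 5
  have hc3 : ∀ n, 3 ≤ Fintype.card (X n) := fun n => le_trans (by omega) (hc n)
  have : ∀ n, Nontrivial (X n) := fun n => by
    rw [← Fintype.one_lt_card_iff_nontrivial]
    have := hc3 n
    omega
  obtain ⟨V, U, J, hF⟩ := hframe X
  set K := xK P U with hK
  have hg : ∀ i k, star (K.g i k) = K.g i (-k) := by
    intro i k
    show star (U ((prodKMS P).g i k)) = U ((prodKMS P).g i (-k))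
    rw [hF.u_star]
    congr 1
    rw [inv_eq_iff_mul_eq_one, ← (prodKMS P).g_add, add_neg_cancel, (prodKMS P).g_zero]
  have hz : ∀ i k, star (K.z i k) = K.z i (-k) := by
    intro i k
    show star (U ((prodKMS P).z i k)) = U ((prodKMS P).z i (-k))
    rw [hF.u_star]
    congr 1
    rw [inv_eq_iff_mul_eq_one, ← (prodKMS P).z_add, add_neg_cancel, (prodKMS P).z_zero]
  have hgg : ∀ i k, star (K.g i k) * K.g i k = 1 := by
    intro i k
    rw [hg, ← K.g_add, neg_add_cancel, K.g_zero]
  have hKc := lift_KMS h K hg hz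
  have hxn : ∀ i k, ‖l (K.g i k)‖ ≤ 2 := fun i k => h.norm_le _ (hgg i k)
  obtain ⟨s, t, hs0, hst, hte, r, hr⟩ := fact4 (le_refl 5) P h2 hKc hxn
  have hJJ := star_pow_mul_pow J hF.j_iso (r + 1)
  obtain ⟨N, hN⟩ := hr (l (J ^ (r + 1))) (h.norm_le _ hJJ)
    (by
      refine ((h.star' _).symm.mul_right _).trans ((h.mul _ _).symm.trans ?_)
      rw [hJJ]
      exact h.one)
    (by
      intro i k
      refine (h.mul _ _).symm.trans (CEq.trans (CEq.of_eq ?_) (h.mul _ _))
      congr 1
      have hc : Commute J (K.g i k) := hF.j_u _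
      exact (hc.pow_left (r + 1)))
  have hNc : N ≤ Fintype.card (X N) := le_trans (by omega) (hc N)
  have hbound := hN N hNc
  -- the transported data at level `N`
  obtain ⟨Y, hY⟩ := D_gap (le_refl 5) hF h2 ho hc3 hinj N
  set D' := Dop (fun i k => l (K.g i k)) (P N) with hD'
  set W' : Amp E (X N) →L[ℂ] Amp E (X N) := opM ((Wm V N).map l) with hW'
  set Y' : Amp E (X N) →L[ℂ] Amp E (X N) := opM (Y.map l) with hY'
  have hDl : CEq (opM ((DM K.g (P N)).map l)) D' := lift_DM h hKc (P N)
  have hWW : CEq (star W' * W') 1 := by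
    refine ((lift_star h (Wm V N)).symm.mul_right _).trans ((lift_mul h _ _).symm.trans ?_)
    rw [W_iso hF N]
    exact lift_one h
  have hDW : CEq (D' * W') 0 := by
    refine (hDl.symm.mul_right _).trans ((lift_mul h _ _).symm.trans ?_)
    rw [D_W hF N]
    exact lift_zero h
  have hWWl : CEq (opM ((Wm V N * star (Wm V N)).map l)) (W' * star W') :=
    (lift_mul h _ _).trans ((lift_star h _).mul_left _)
  have hYY : CEq (D' - (eps 5 : ℂ) • (1 - W' * star W')) (star Y' * Y') := by
    have e1 : CEq (opM ((DM K.g (P N) - (eps 5 : ℂ) • (1 - Wm V N * star (Wm V N))).map l))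
        (D' - (eps 5 : ℂ) • (1 - W' * star W')) := by
      refine (lift_sub h _ _).trans (hDl.sub ?_)
      refine (lift_smul h _ _).trans (CEq.smul _ ?_)
      exact (lift_sub h _ _).trans ((lift_one h).sub hWWl)
    rw [hY] at e1
    refine e1.symm.trans ((lift_mul h _ _).trans ?_)
    exact (lift_star h _).mul_right _
  have hf := f2 D' W' Y' (Dop_nonneg _ _) hs0 hst hte hWW hDW hYY
  set f := cfc (fcut s t) D' with hfd
  set Jt : Amp E (X N) →L[ℂ] Amp E (X N) := tw (l (J ^ (r + 1))) 1 with hJt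
  set T : Amp E (X N) →L[ℂ] Amp E (X N) := tw (star shift ^ (r + 1)) 1 with hT
  set R : Amp E (X N) →L[ℂ] Amp E (X N) := tw (shift ^ (r + 1)) 1 with hR
  have hJW : CEq (Jt * W') (W' * T) := by
    have e1 : CEq (opM ((twM (J ^ (r + 1)) 1 * Wm V N).map l)) (Jt * W') :=
      (lift_mul h _ _).trans ((lift_tw h _ _).mul_right _)
    rw [W_J hF N] at e1
    refine e1.symm.trans ((lift_mul h _ _).trans (CEq.mul_left _ ?_))
    exact (lift_tw h _ _).trans ((h.pow _ _ hs (r + 1)).tw 1)
  have hidx := idx_main (1 - f + Jt * f) ((Jt - 1) * W') (star W') T R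
    (by
      have : (1 - f + Jt * f) = 1 + (Jt - 1) * f := by rw [sub_mul, one_mul]; abel
      rw [this, mul_assoc]
      exact (CEq.refl _).add (hf.mul_left _))
    (by
      have e1 : CEq (1 + star W' * ((Jt - 1) * W')) (1 + (star W' * W') * (T - 1)) := by
        refine (CEq.refl _).add ?_
        have : CEq ((Jt - 1) * W') (W' * (T - 1)) := by
          rw [sub_mul, mul_sub, one_mul, mul_one]
          exact hJW.sub (CEq.refl _)
        rw [mul_assoc]
        exact this.mul_left _
      refine e1.trans ?_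
      have e2 : CEq (1 + (star W' * W') * (T - 1)) (1 + 1 * (T - 1)) :=
        (CEq.refl _).add (hWW.mul_right _)
      refine e2.trans (CEq.of_eq ?_)
      rw [one_mul]; abel)
    (by
      rw [hT, hR, tw_mul, ← star_pow, star_pow_mul_pow _ hss, one_mul, tw_one_one])
    (by
      rw [hT, hR, tw_mul, one_mul]
      exact hcpt (X N) (r + 1))
  have hk := hker (X N) (r + 1)
  have h1 := hidx.2
  rw [hk] at h1
  have h3 := le_trans h1 hbound
  have h4 : 0 < Fintype.card (X N) := by have := hc3 N; omega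
  have h5 : r + 1 ≤ r := Nat.le_of_mul_le_mul_right h3 h4
  omega

theorem final_lift (l : (L2N →L[ℂ] L2N) → (L2N →L[ℂ] L2N)) (h : LiftHom l)
    (hs : CEq (l shift) (star shift)) : False :=
  final_abs shift (fun X _ _ => exists_frame X) (star_injOp_mul _ _)
    (fun X _ _ M => shift_amp_cpt M) (fun X _ _ M => shift_amp_ker M) l h hs

end CA
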