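import Mathlib

/-! Module IDX2 (MP_464bf1_lc): algebraic index of linear maps. -/

namespace CA

open Module

variable {k V W U : Type*} [Field k] [AddCommGroup V] [Module k V] [AddCommGroup W] [Module k W]
  [AddCommGroup U] [Module k U]

/-- Algebraic Fredholm property. -/
def AFred (f : V →ₗ[k] W) : Prop :=
  FiniteDimensional k (LinearMap.ker f) ∧ FiniteDimensional k (W ⧸ LinearMap.range f)

/-- Algebraic index. -/
noncomputable def aind (f : V →ₗ[k] W) : ℤ :=
  (finrank k (LinearMap.ker f) : ℤ) - finrank k (W ⧸ LinearMap.range f)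

/-- Rank-nullity when kernel and range are finite dimensional. -/
theorem idx2_seq (f : V →ₗ[k] W) (h1 : FiniteDimensional k (LinearMap.ker f))
    (h2 : FiniteDimensional k (LinearMap.range f)) :
    FiniteDimensional k V ∧
      finrank k V = finrank k (LinearMap.ker f) + finrank k (LinearMap.range f) := by
  have h3 : FiniteDimensional k (V ⧸ LinearMap.ker f) :=
    f.quotKerEquivRange.symm.finiteDimensional
  have h4 : FiniteDimensional k V := Module.Finite.of_submodule_quotient (LinearMap.ker f)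
  refine ⟨h4, ?_⟩
  have := f.finrank_range_add_finrank_ker
  omega

/-- The map `V ⧸ P → V ⧸ Q` for `P ≤ Q` : dimensions. -/
theorem idx2_quot (P Q : Submodule k V) (h : P ≤ Q) (h1 : FiniteDimensional k (Q.map P.mkQ))
    (h2 : FiniteDimensional k (V ⧸ Q)) :
    FiniteDimensional k (V ⧸ P) ∧
      finrank k (V ⧸ P) = finrank k (Q.map P.mkQ) + finrank k (V ⧸ Q) := by
  set φ : (V ⧸ P) →ₗ[k] (V ⧸ Q) := P.mapQ Q LinearMap.id h with hφ
  have hker : LinearMap.ker φ = Q.map P.mkQ := by
    rw [hφ, Submodule.ker_mapQ, Submodule.comap_id]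
  have hran : LinearMap.range φ = ⊤ := by
    rw [hφ, Submodule.range_mapQ]
    simp
  have e1 : LinearMap.range φ ≃ₗ[k] (V ⧸ Q) := (LinearEquiv.ofEq _ _ hran).trans Submodule.topEquiv
  have h3 : FiniteDimensional k (LinearMap.ker φ) := by rw [hker]; exact h1
  have h4 : FiniteDimensional k (LinearMap.range φ) := e1.symm.finiteDimensional
  have h5 := idx2_seq φ h3 h4
  rw [hker, e1.finrank_eq] at h5
  exact h5

theorem aind_comp (f : V →ₗ[k] W) (g : W →ₗ[k] U) (hf : AFred f) (hg : AFred g) :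
    AFred (g ∘ₗ f) ∧ aind (g ∘ₗ f) = aind g + aind f := by
  obtain ⟨hf1, hf2⟩ := hf
  obtain ⟨hg1, hg2⟩ := hg
  set K := LinearMap.ker g with hK
  set Rf := LinearMap.range f with hRf
  -- step A
  have hA : FiniteDimensional k (LinearMap.ker (g ∘ₗ f)) ∧
      finrank k (LinearMap.ker (g ∘ₗ f)) =
        finrank k (LinearMap.ker f) + finrank k (Rf ⊓ K : Submodule k W) := by
    set φ := f.domRestrict (LinearMap.ker (g ∘ₗ f)) with hφ
    have hle : LinearMap.ker f ≤ LinearMap.ker (g ∘ₗ f) := LinearMap.ker_le_ker_comp f g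
    have hker : LinearMap.ker φ = (LinearMap.ker f).comap (LinearMap.ker (g ∘ₗ f)).subtype := by
      rw [hφ]
      ext x
      simp
    have hran : LinearMap.range φ = Rf ⊓ K := by
      rw [hφ, LinearMap.range_domRestrict, LinearMap.ker_comp, Submodule.map_comap_eq]
    have e1 : LinearMap.ker φ ≃ₗ[k] LinearMap.ker f :=
      (LinearEquiv.ofEq _ _ hker).trans (Submodule.comapSubtypeEquivOfLe hle)
    have h3 : FiniteDimensional k (LinearMap.ker φ) := e1.symm.finiteDimensional
    have h4 : FiniteDimensional k (LinearMap.range φ) := by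
      rw [hran]
      exact Submodule.finiteDimensional_of_le inf_le_right
    have h5 := idx2_seq φ h3 h4
    rw [e1.finrank_eq, hran] at h5
    exact h5
  -- step C
  set χ : K →ₗ[k] (W ⧸ Rf) := Rf.mkQ ∘ₗ K.subtype with hχ
  have hχran : LinearMap.range χ = (Rf ⊔ K).map Rf.mkQ := by
    rw [hχ, LinearMap.range_comp, Submodule.range_subtype, Submodule.map_sup]
    have : Rf.map Rf.mkQ = ⊥ := by
      rw [Submodule.mkQ_map_self]
    rw [this, bot_sup_eq]
  have hχker : finrank k (LinearMap.ker χ) = finrank k (Rf ⊓ K : Submodule k W) := by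
    have h1 : LinearMap.ker χ = (Rf ⊓ K).comap K.subtype := by
      rw [hχ, LinearMap.ker_comp, Submodule.ker_mkQ]
      ext x
      simp
    rw [h1]
    exact (Submodule.comapSubtypeEquivOfLe (inf_le_right : Rf ⊓ K ≤ K)).finrank_eq
  have hχ1 : finrank k K = finrank k (LinearMap.ker χ) + finrank k (LinearMap.range χ) := by
    have := χ.finrank_range_add_finrank_ker
    omega
  have hC : FiniteDimensional k (W ⧸ (Rf ⊔ K)) := by
    have : FiniteDimensional k (W ⧸ Rf) := hf2
    have h1 : Function.Surjective (Rf.mapQ (Rf ⊔ K) LinearMap.id (le_sup_left : Rf ≤ Rf ⊔ K)) := by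
      intro y
      obtain ⟨x, rfl⟩ := Submodule.mkQ_surjective _ y
      exact ⟨Rf.mkQ x, by simp⟩
    exact Module.Finite.of_surjective _ h1
  have hC2 := idx2_quot Rf (Rf ⊔ K) le_sup_left (by
    have : FiniteDimensional k (W ⧸ Rf) := hf2
    infer_instance) hC
  -- step B
  set ψ : W →ₗ[k] (U ⧸ LinearMap.range (g ∘ₗ f)) := (LinearMap.range (g ∘ₗ f)).mkQ ∘ₗ g with hψ
  have hψker : LinearMap.ker ψ = Rf ⊔ K := by
    rw [hψ, LinearMap.ker_comp, Submodule.ker_mkQ, LinearMap.range_comp, Submodule.comap_map_eq]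
  have hψran : LinearMap.range ψ = (LinearMap.range g).map (LinearMap.range (g ∘ₗ f)).mkQ := by
    exact LinearMap.range_comp _ _
  have e2 : (W ⧸ (Rf ⊔ K)) ≃ₗ[k]
      (LinearMap.range g).map (LinearMap.range (g ∘ₗ f)).mkQ :=
    ((Submodule.quotEquivOfEq _ _ hψker.symm).trans ψ.quotKerEquivRange).trans
      (LinearEquiv.ofEq _ _ hψran)
  have hB := idx2_quot (LinearMap.range (g ∘ₗ f)) (LinearMap.range g)
    (LinearMap.range_comp_le_range f g) e2.finiteDimensional hg2
  refine ⟨⟨hA.1, hB.1⟩, ?_⟩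
  unfold aind
  rw [hA.2, hB.2, ← e2.finrank_eq, hC2.2, ← hχran, ← hK, hχ1, hχker]
  push_cast
  ring

/-- If `R ∘ Z` and `Z ∘ R'` are Fredholm then `Z` is Fredholm. -/
theorem afred_of_comp (Z : V →ₗ[k] W) (R R' : W →ₗ[k] V) (h1 : AFred (R ∘ₗ Z))
    (h2 : AFred (Z ∘ₗ R')) : AFred Z := by
  obtain ⟨h1, -⟩ := h1
  obtain ⟨-, h2⟩ := h2
  refine ⟨Submodule.finiteDimensional_of_le (LinearMap.ker_le_ker_comp Z R), ?_⟩
  have h3 : Function.Surjective ((LinearMap.range (Z ∘ₗ R')).mapQ (LinearMap.range Z)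
      LinearMap.id (LinearMap.range_comp_le_range R' Z)) := by
    intro y
    obtain ⟨x, rfl⟩ := Submodule.mkQ_surjective _ y
    exact ⟨(LinearMap.range (Z ∘ₗ R')).mkQ x, by simp⟩
  exact Module.Finite.of_surjective _ h3

/-- The kernels of `1 + AB` and `1 + BA`. -/
noncomputable def idx2_ker (A : V →ₗ[k] W) (B : W →ₗ[k] V) :
    LinearMap.ker (LinearMap.id + A ∘ₗ B) ≃ₗ[k] LinearMap.ker (LinearMap.id + B ∘ₗ A) :=
  LinearEquiv.ofLinearMap
    ((B ∘ₗ (LinearMap.ker (LinearMap.id + A ∘ₗ B)).subtype).codRestrict _ (by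
      rintro ⟨w, hw⟩
      rw [LinearMap.mem_ker] at hw ⊢
      have := congrArg B hw
      simpa using this))
    (((-A) ∘ₗ (LinearMap.ker (LinearMap.id + B ∘ₗ A)).subtype).codRestrict _ (by
      rintro ⟨v, hv⟩
      rw [LinearMap.mem_ker] at hv ⊢
      have := congrArg (fun x => -A x) hv
      simp only [LinearMap.add_apply, LinearMap.id_apply, LinearMap.comp_apply, map_add,
        map_zero, neg_zero, neg_add_rev] at this
      simp only [LinearMap.comp_apply, Submodule.subtype_apply, LinearMap.neg_apply,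
        LinearMap.add_apply, LinearMap.id_apply, map_neg]
      rw [← this]
      abel))
    (by
      ext ⟨v, hv⟩
      rw [LinearMap.mem_ker] at hv
      simp only [LinearMap.add_apply, LinearMap.id_apply, LinearMap.comp_apply] at hv
      simp only [LinearMap.comp_apply, LinearMap.codRestrict_apply, Submodule.subtype_apply,
        LinearMap.neg_apply, map_neg, LinearMap.id_apply]
      rw [neg_eq_iff_add_eq_zero, add_comm]
      exact hv)
    (by
      ext ⟨w, hw⟩
      rw [LinearMap.mem_ker] at hw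
      simp only [LinearMap.add_apply, LinearMap.id_apply, LinearMap.comp_apply] at hw
      simp only [LinearMap.comp_apply, LinearMap.codRestrict_apply, Submodule.subtype_apply,
        LinearMap.neg_apply, LinearMap.id_apply]
      rw [neg_eq_iff_add_eq_zero, add_comm]
      exact hw)

/-- The cokernels of `1 + AB` and `1 + BA`. -/
noncomputable def idx2_coker (A : V →ₗ[k] W) (B : W →ₗ[k] V) :
    (W ⧸ LinearMap.range (LinearMap.id + A ∘ₗ B)) ≃ₗ[k]
      (V ⧸ LinearMap.range (LinearMap.id + B ∘ₗ A)) :=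
  LinearEquiv.ofLinearMap
    (Submodule.mapQ _ _ B (by
      rintro _ ⟨w, rfl⟩
      rw [Submodule.mem_comap]
      exact ⟨B w, by simp⟩))
    (Submodule.mapQ _ _ (-A) (by
      rintro _ ⟨v, rfl⟩
      rw [Submodule.mem_comap]
      exact ⟨-A v, by simp [add_comm]⟩))
    (by
      ext v
      simp only [LinearMap.comp_apply, Submodule.mkQ_apply, Submodule.mapQ_apply,
        LinearMap.id_apply]
      rw [Submodule.Quotient.eq]
      exact ⟨-v, by simp; abel⟩)
    (by
      ext w
      simp only [LinearMap.comp_apply, Submodule.mkQ_apply, Submodule.mapQ_apply,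
        LinearMap.id_apply]
      rw [Submodule.Quotient.eq]
      exact ⟨-w, by simp; abel⟩)

/-- `ind (1 + AB) = ind (1 + BA)`. -/
theorem aind_one_add (A : V →ₗ[k] W) (B : W →ₗ[k] V) (h : AFred (LinearMap.id + A ∘ₗ B)) :
    AFred (LinearMap.id + B ∘ₗ A) ∧
      aind (LinearMap.id + A ∘ₗ B) = aind (LinearMap.id + B ∘ₗ A) := by
  obtain ⟨h1, h2⟩ := h
  refine ⟨⟨(idx2_ker A B).finiteDimensional, (idx2_coker A B).finiteDimensional⟩, ?_⟩
  unfold aind
  rw [(idx2_ker A B).finrank_eq, (idx2_coker A B).finrank_eq]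

end CA
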