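import Pool.Agent.Helper33.CA.IDX1
import Pool.Agent.Helper33.CA.IDX2

/-! Module IDX (MP_464bf1_lc): Fredholm index. -/

namespace CA

open Module

variable {G : Type*} [NormedAddCommGroup G] [InnerProductSpace ℂ G] [CompleteSpace G]

theorem idx_of_ceq_one (Q : G →L[ℂ] G) (h : CEq Q 1) :
    AFred Q.toLinearMap ∧ aind Q.toLinearMap = 0 := by
  have h1 := one_add_compact_index (Q - 1) h
  rw [add_sub_cancel] at h1
  refine ⟨⟨h1.1, h1.2.1⟩, ?_⟩
  unfold aind
  rw [h1.2.2, sub_self]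

theorem idx_param (Z R : G →L[ℂ] G) (h1 : CEq (R * Z) 1) (h2 : CEq (Z * R) 1) :
    AFred Z.toLinearMap ∧ AFred R.toLinearMap ∧
      aind Z.toLinearMap = - aind R.toLinearMap := by
  obtain ⟨a1, i1⟩ := idx_of_ceq_one _ h1
  obtain ⟨a2, i2⟩ := idx_of_ceq_one _ h2
  have hZ : AFred Z.toLinearMap := afred_of_comp Z.toLinearMap R.toLinearMap R.toLinearMap a1 a2
  have hR : AFred R.toLinearMap := afred_of_comp R.toLinearMap Z.toLinearMap Z.toLinearMap a2 a1
  refine ⟨hZ, hR, ?_⟩
  have h3 := (aind_comp Z.toLinearMap R.toLinearMap hZ hR).2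
  have h4 : aind (R.toLinearMap ∘ₗ Z.toLinearMap) = 0 := i1
  rw [h4] at h3
  linarith

theorem idx_congr (Z Z' R : G →L[ℂ] G) (h1 : CEq (R * Z) 1) (h2 : CEq (Z * R) 1) (h : CEq Z Z') :
    AFred Z'.toLinearMap ∧ aind Z'.toLinearMap = aind Z.toLinearMap := by
  have h3 := idx_param Z R h1 h2
  have h4 := idx_param Z' R ((h.symm.mul_left R).trans h1) ((h.symm.mul_right R).trans h2)
  exact ⟨h4.1, by rw [h4.2.2, h3.2.2]⟩

theorem idx_main
    (Z A B T R : G →L[ℂ] G) (h1 : CEq Z (1 + A * B)) (h2 : CEq (1 + B * A) T)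
    (hTR : T * R = 1) (hRT : CEq (R * T) 1) :
    FiniteDimensional ℂ (LinearMap.ker Z.toLinearMap) ∧
      finrank ℂ (LinearMap.ker T.toLinearMap) ≤ finrank ℂ (LinearMap.ker Z.toLinearMap) := by
  have p1 : CEq ((1 + A * B) * (1 - A * R * B)) 1 := by
    have e1 : (1 + A * B) * (1 - A * R * B) = 1 + A * B - A * ((1 + B * A) * R) * B := by
      noncomm_ring
    have e2 : CEq (1 + A * B - A * ((1 + B * A) * R) * B) (1 + A * B - A * (T * R) * B) :=
      (CEq.refl _).sub (((h2.mul_right R).mul_left A).mul_right B)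
    rw [e1]
    refine e2.trans (CEq.of_eq ?_)
    rw [hTR, mul_one, add_sub_cancel_right]
  have p2 : CEq ((1 - A * R * B) * (1 + A * B)) 1 := by
    have e1 : (1 - A * R * B) * (1 + A * B) = 1 + A * B - A * (R * (1 + B * A)) * B := by
      noncomm_ring
    have e2 : CEq (1 + A * B - A * (R * (1 + B * A)) * B) (1 + A * B - A * 1 * B) :=
      (CEq.refl _).sub ((((h2.mul_left R).trans hRT).mul_left A).mul_right B)
    rw [e1]
    refine e2.trans (CEq.of_eq ?_)
    rw [mul_one, add_sub_cancel_right]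
  have q1 : CEq (R * (1 + B * A)) 1 := (h2.mul_left R).trans hRT
  have q2 : CEq ((1 + B * A) * R) 1 := (h2.mul_right R).trans (CEq.of_eq hTR)
  have c1 := idx_congr (1 + A * B) Z (1 - A * R * B) p2 p1 h1.symm
  have c2 := idx_congr (1 + B * A) T R q1 q2 h2
  have c3 := idx_param (1 + A * B) (1 - A * R * B) p2 p1
  have c4 := (aind_one_add B.toLinearMap A.toLinearMap
    (by
      have := (idx_param (1 + B * A) R q1 q2).1
      exact this)).2
  have c5 : aind (1 + B * A).toLinearMap = aind (1 + A * B).toLinearMap := c4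
  refine ⟨c1.1.1, ?_⟩
  have hT : LinearMap.range T.toLinearMap = ⊤ := by
    rw [LinearMap.range_eq_top]
    intro v
    refine ⟨R v, ?_⟩
    have := congrArg (fun f : G →L[ℂ] G => f v) hTR
    exact this
  have hT0 : finrank ℂ (G ⧸ LinearMap.range T.toLinearMap) = 0 := by
    rw [hT]
    exact finrank_zero_of_subsingleton
  have e1 : aind T.toLinearMap = finrank ℂ (LinearMap.ker T.toLinearMap) := by
    unfold aind
    rw [hT0]; simp
  have e2 : aind Z.toLinearMap = aind T.toLinearMap := by rw [c1.2, c2.2, c5]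
  have e3 : aind Z.toLinearMap ≤ finrank ℂ (LinearMap.ker Z.toLinearMap) := by
    unfold aind
    have : (0 : ℤ) ≤ finrank ℂ (G ⧸ LinearMap.range Z.toLinearMap) := Int.natCast_nonneg _
    linarith
  rw [e2, e1] at e3
  exact_mod_cast e3

end CA
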