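import Pool.Agent.Helper33.CA.CPT
import Pool.Agent.Helper33.CA.IDX2

/-! Module IDX1 (MP_464bf1_lc): `1 + K` has index zero. -/

namespace CA

open Module

/-- Index zero in finite dimensions. -/
theorem idx1_fin {k V : Type*} [Field k] [AddCommGroup V] [Module k V] [FiniteDimensional k V]
    (f : V →ₗ[k] V) : AFred f ∧ aind f = 0 := by
  refine ⟨⟨inferInstance, inferInstance⟩, ?_⟩
  unfold aind
  have h1 := f.finrank_range_add_finrank_ker
  have h2 := Submodule.finrank_quotient_add_finrank (LinearMap.range f)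
  omega

/-- Index zero of `1 + F` for `F` of finite rank. -/
theorem idx1_rank {k V : Type*} [Field k] [AddCommGroup V] [Module k V]
    (f : V →ₗ[k] V) (h : FiniteDimensional k (LinearMap.range f)) :
    AFred (LinearMap.id + f) ∧ aind (LinearMap.id + f) = 0 := by
  have h1 := idx1_fin (LinearMap.id + f.rangeRestrict ∘ₗ (LinearMap.range f).subtype)
  have h2 := aind_one_add f.rangeRestrict (LinearMap.range f).subtype h1.1
  rw [h1.2] at h2
  have h3 : (LinearMap.range f).subtype ∘ₗ f.rangeRestrict = f := by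
    ext v
    rfl
  rw [h3] at h2
  exact ⟨h2.1, h2.2.symm⟩

/-- Index zero of bijective maps. -/
theorem idx1_bij {k V W : Type*} [Field k] [AddCommGroup V] [Module k V] [AddCommGroup W]
    [Module k W] (f : V →ₗ[k] W) (h : Function.Bijective f) : AFred f ∧ aind f = 0 := by
  have h1 : LinearMap.ker f = ⊥ := LinearMap.ker_eq_bot.2 h.1
  have h2 : LinearMap.range f = ⊤ := LinearMap.range_eq_top.2 h.2
  have h3 : Subsingleton (W ⧸ LinearMap.range f) := by
    rw [h2]
    infer_instance
  have h4 : Subsingleton (LinearMap.ker f) := by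
    rw [h1]
    infer_instance
  refine ⟨⟨inferInstance, inferInstance⟩, ?_⟩
  unfold aind
  rw [finrank_zero_of_subsingleton, finrank_zero_of_subsingleton]
  simp

theorem one_add_compact_index {G : Type*} [NormedAddCommGroup G] [InnerProductSpace ℂ G]
    [CompleteSpace G] (K : G →L[ℂ] G) (hK : IsCompactOperator K) :
    FiniteDimensional ℂ (LinearMap.ker (1 + K).toLinearMap) ∧
    FiniteDimensional ℂ (G ⧸ LinearMap.range (1 + K).toLinearMap) ∧
    finrank ℂ (LinearMap.ker (1 + K).toLinearMap) =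
      finrank ℂ (G ⧸ LinearMap.range (1 + K).toLinearMap) := by
  obtain ⟨V, hV, hVK⟩ := cpt_cut K hK (η := 1 / 2) (by norm_num)
  set P : G →L[ℂ] G := V.starProjection with hP
  have hPv : ∀ v, v - P v ∈ Vᗮ := fun v => Submodule.sub_starProjection_mem_orthogonal v
  have hPn : ∀ v, ‖v - P v‖ ≤ ‖v‖ := by
    intro v
    have h1 : v - P v = Vᗮ.starProjection v := by
      rw [Submodule.starProjection_orthogonal_val]
    rw [h1]
    exact Submodule.norm_starProjection_apply_le _ _
  have hnorm : ‖K * (P - 1)‖ < 1 := by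
    refine lt_of_le_of_lt (ContinuousLinearMap.opNorm_le_bound _ (M := 1 / 2) (by norm_num) ?_)
      (by norm_num)
    intro v
    have h1 : (K * (P - 1)) v = -K (v - P v) := by
      rw [← map_neg]
      simp
    rw [h1, norm_neg]
    refine (hVK _ (hPv v)).trans ?_
    exact mul_le_mul_of_nonneg_left (hPn v) (by norm_num)
  set A : (G →L[ℂ] G)ˣ := Units.oneSub (K * (P - 1)) hnorm with hA
  have hAval : (A : G →L[ℂ] G) = 1 - K * (P - 1) := rfl
  set F : G →L[ℂ] G := (↑A⁻¹ : G →L[ℂ] G) * K * P with hF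
  have hdec : (1 + K : G →L[ℂ] G) = (A : G →L[ℂ] G) * (1 + F) := by
    rw [hF, mul_add, mul_one, mul_assoc, ← mul_assoc (A : G →L[ℂ] G), Units.mul_inv, one_mul, hAval]
    noncomm_ring
  have hFin : FiniteDimensional ℂ (LinearMap.range F.toLinearMap) := by
    have hle : LinearMap.range F.toLinearMap ≤
        V.map ((↑A⁻¹ : G →L[ℂ] G) * K).toLinearMap := by
      rintro _ ⟨v, rfl⟩
      exact ⟨P v, Submodule.starProjection_apply_mem _ _, rfl⟩
    exact Submodule.finiteDimensional_of_le hle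
  obtain ⟨h1, h2⟩ := idx1_rank F.toLinearMap hFin
  have hbij : Function.Bijective (A : G →L[ℂ] G).toLinearMap := by
    refine ⟨fun x y hxy => ?_, fun y => ⟨(↑A⁻¹ : G →L[ℂ] G) y, ?_⟩⟩
    · have h3 : ∀ x, (↑A⁻¹ : G →L[ℂ] G) ((A : G →L[ℂ] G) x) = x := by
        intro x
        rw [← ContinuousLinearMap.mul_apply, Units.inv_mul, ContinuousLinearMap.one_apply]
      rw [← h3 x, ← h3 y]
      exact congrArg _ hxy
    · change (A : G →L[ℂ] G) ((↑A⁻¹ : G →L[ℂ] G) y) = y
      rw [← ContinuousLinearMap.mul_apply, Units.mul_inv, ContinuousLinearMap.one_apply]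
  obtain ⟨h4, h5⟩ := idx1_bij _ hbij
  obtain ⟨h6, h7⟩ := aind_comp (LinearMap.id + F.toLinearMap) (A : G →L[ℂ] G).toLinearMap h1 h4
  have h8 : (A : G →L[ℂ] G).toLinearMap ∘ₗ (LinearMap.id + F.toLinearMap) =
      (1 + K : G →L[ℂ] G).toLinearMap := by
    rw [hdec]
    rfl
  rw [h8] at h6 h7
  rw [h2, h5] at h7
  unfold aind at h7
  exact ⟨h6.1, h6.2, by omega⟩

end CA
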