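import Pool.Agent.Helper33.CA.Basic

/-! Module INJ (MP_464bf1_lc): operators on `ℓ²(ℕ)` induced by injections; the shift. -/

namespace CA

open scoped InnerProductSpace

theorem inj_extend_memℓp (φ : ℕ → ℕ) (hφ : Function.Injective φ) (f : L2N) :
    Memℓp (Function.extend φ (f : ℕ → ℂ) 0) (2 : ENNReal) := by
  have h2 : (0 : ℝ) < (2 : ENNReal).toReal := by norm_num
  rw [memℓp_gen_iff h2]
  have hf := (memℓp_gen_iff h2).1 (lp.memℓp f)
  have h := (hφ.summable_iff
    (f := fun i => ‖Function.extend φ (f : ℕ → ℂ) 0 i‖ ^ (2 : ENNReal).toReal) ?_).1 ?_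
  · exact h
  · intro m hm
    rw [Function.extend_apply' _ _ _ hm]
    norm_num
  · have e : ((fun i => ‖Function.extend φ (f : ℕ → ℂ) 0 i‖ ^ (2 : ENNReal).toReal) ∘ φ) =
        fun i => ‖f i‖ ^ (2 : ENNReal).toReal := by
      funext k
      simp only [Function.comp]
      rw [hφ.extend_apply]
    rw [e]
    exact hf

/-- The linear isometry induced by an injection. -/
noncomputable def injLI (φ : ℕ → ℕ) (hφ : Function.Injective φ) : L2N →ₗᵢ[ℂ] L2N where
  toFun f := ⟨Function.extend φ (f : ℕ → ℂ) 0, inj_extend_memℓp φ hφ f⟩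
  map_add' f g := by
    ext m
    change Function.extend φ (⇑(f + g)) 0 m = Function.extend φ (⇑f) 0 m + Function.extend φ (⇑g) 0 m
    by_cases hm : m ∈ Set.range φ
    · obtain ⟨k, rfl⟩ := hm
      rw [hφ.extend_apply, hφ.extend_apply, hφ.extend_apply]
      rfl
    · rw [Function.extend_apply' _ _ _ hm, Function.extend_apply' _ _ _ hm,
        Function.extend_apply' _ _ _ hm]
      simp
  map_smul' c f := by
    ext m
    change Function.extend φ (⇑(c • f)) 0 m = c • Function.extend φ (⇑f) 0 m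
    by_cases hm : m ∈ Set.range φ
    · obtain ⟨k, rfl⟩ := hm
      rw [hφ.extend_apply, hφ.extend_apply]
      rfl
    · rw [Function.extend_apply' _ _ _ hm, Function.extend_apply' _ _ _ hm]
      simp
  norm_map' f := by
    have h2 : (0 : ℝ) < (2 : ENNReal).toReal := by norm_num
    rw [lp.norm_eq_tsum_rpow h2, lp.norm_eq_tsum_rpow h2]
    congr 1
    have := hφ.tsum_eq
      (f := fun i => ‖Function.extend φ (f : ℕ → ℂ) 0 i‖ ^ (2 : ENNReal).toReal) ?_
    · change ∑' i, ‖Function.extend φ (f : ℕ → ℂ) 0 i‖ ^ (2 : ENNReal).toReal = _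
      rw [← this]
      congr 1
      funext k
      rw [hφ.extend_apply]
    · intro m hm
      by_contra hc
      apply hm
      change ‖Function.extend φ (f : ℕ → ℂ) 0 m‖ ^ (2 : ENNReal).toReal = 0
      rw [Function.extend_apply' _ _ _ hc]
      norm_num

theorem injLI_apply (φ : ℕ → ℕ) (hφ : Function.Injective φ) (f : L2N) (m : ℕ) :
    injLI φ hφ f m = Function.extend φ (f : ℕ → ℂ) 0 m := rfl

theorem exists_injOp (φ : ℕ → ℕ) (hφ : Function.Injective φ) : ∃ T : L2N →L[ℂ] L2N,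
    (∀ (f : L2N) k, T f (φ k) = f k) ∧ (∀ (f : L2N) m, m ∉ Set.range φ → T f m = 0) ∧
      (∀ (f : L2N) k, (star T f) k = f (φ k)) := by
  have h1 : ∀ (f : L2N) k, injLI φ hφ f (φ k) = f k := by
    intro f k
    rw [injLI_apply, hφ.extend_apply]
  have h2 : ∀ (f : L2N) m, m ∉ Set.range φ → injLI φ hφ f m = 0 := by
    intro f m hm
    rw [injLI_apply, Function.extend_apply' _ _ _ hm]
    rfl
  have h3 : ∀ k : ℕ, injLI φ hφ (lp.single 2 k (1 : ℂ)) = lp.single 2 (φ k) (1 : ℂ) := by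
    intro k
    ext m
    by_cases hm : m ∈ Set.range φ
    · obtain ⟨l, rfl⟩ := hm
      rw [h1]
      by_cases hl : l = k
      · subst hl
        simp
      · have : φ l ≠ φ k := fun h => hl (hφ h)
        simp [lp.single_apply, hl, this]
    · rw [h2 _ _ hm]
      have : m ≠ φ k := fun h => hm ⟨k, h.symm⟩
      simp [lp.single_apply, this]
  refine ⟨(injLI φ hφ).toContinuousLinearMap, h1, h2, ?_⟩
  intro f k
  rw [ContinuousLinearMap.star_eq_adjoint]
  have e1 : ∀ (g : L2N) (m : ℕ), g m = ⟪lp.single 2 m (1 : ℂ), g⟫_ℂ := by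
    intro g m
    rw [lp.inner_single_left]
    simp
  rw [e1, e1 f, ContinuousLinearMap.adjoint_inner_right]
  congr 1
  exact h3 k

/-- The operator induced by an injection. -/
noncomputable def injOp (φ : ℕ → ℕ) (hφ : Function.Injective φ) : L2N →L[ℂ] L2N :=
  Classical.choose (exists_injOp φ hφ)

theorem injOp_apply (φ : ℕ → ℕ) (hφ : Function.Injective φ) (f : L2N) (k : ℕ) :
    injOp φ hφ f (φ k) = f k := (Classical.choose_spec (exists_injOp φ hφ)).1 f k

theorem injOp_apply_notMem (φ : ℕ → ℕ) (hφ : Function.Injective φ) (f : L2N) (m : ℕ)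
    (hm : m ∉ Set.range φ) : injOp φ hφ f m = 0 :=
  (Classical.choose_spec (exists_injOp φ hφ)).2.1 f m hm

theorem star_injOp_apply (φ : ℕ → ℕ) (hφ : Function.Injective φ) (f : L2N) (k : ℕ) :
    (star (injOp φ hφ) f) k = f (φ k) := (Classical.choose_spec (exists_injOp φ hφ)).2.2 f k

/-- The unilateral shift. -/
noncomputable def shift : L2N →L[ℂ] L2N := injOp Nat.succ Nat.succ_injective

theorem star_injOp_mul (φ : ℕ → ℕ) (hφ : Function.Injective φ) :
    star (injOp φ hφ) * injOp φ hφ = 1 := by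
  ext f k
  change (star (injOp φ hφ) (injOp φ hφ f)) k = f k
  rw [star_injOp_apply, injOp_apply]

theorem injOp_mul (φ ψ : ℕ → ℕ) (hφ : Function.Injective φ) (hψ : Function.Injective ψ) :
    injOp φ hφ * injOp ψ hψ = injOp (φ ∘ ψ) (hφ.comp hψ) := by
  ext f m
  change (injOp φ hφ (injOp ψ hψ f)) m = injOp (φ ∘ ψ) (hφ.comp hψ) f m
  by_cases hm : m ∈ Set.range φ
  · obtain ⟨k, rfl⟩ := hm
    rw [injOp_apply]
    by_cases hk : k ∈ Set.range ψ
    · obtain ⟨l, rfl⟩ := hk
      rw [injOp_apply]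
      exact (injOp_apply (φ ∘ ψ) (hφ.comp hψ) f l).symm
    · rw [injOp_apply_notMem _ _ _ _ hk, injOp_apply_notMem]
      rintro ⟨l, hl⟩
      exact hk ⟨l, hφ hl⟩
  · rw [injOp_apply_notMem _ _ _ _ hm, injOp_apply_notMem]
    rintro ⟨l, hl⟩
    exact hm ⟨ψ l, hl⟩

theorem star_injOp_mul_of_disjoint (φ ψ : ℕ → ℕ) (hφ : Function.Injective φ)
    (hψ : Function.Injective ψ) (h : ∀ k l, φ k ≠ ψ l) :
    star (injOp φ hφ) * injOp ψ hψ = 0 := by
  ext f k
  change (star (injOp φ hφ) (injOp ψ hψ f)) k = (0 : ℂ)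
  rw [star_injOp_apply, injOp_apply_notMem]
  rintro ⟨l, hl⟩
  exact h k l hl.symm

theorem injOp_single (φ : ℕ → ℕ) (hφ : Function.Injective φ) (n : ℕ) :
    injOp φ hφ (lp.single 2 n (1 : ℂ)) = lp.single 2 (φ n) (1 : ℂ) := by
  ext m
  by_cases hm : m ∈ Set.range φ
  · obtain ⟨l, rfl⟩ := hm
    rw [injOp_apply]
    by_cases hl : l = n
    · subst hl
      simp
    · have : φ l ≠ φ n := fun h => hl (hφ h)
      simp [lp.single_apply, hl, this]
  · rw [injOp_apply_notMem _ _ _ _ hm]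
    have : m ≠ φ n := fun h => hm ⟨n, h.symm⟩
    simp [lp.single_apply, this]

theorem shift_single (n : ℕ) : shift (lp.single 2 n (1 : ℂ)) = lp.single 2 (n + 1) (1 : ℂ) :=
  injOp_single _ _ n

end CA
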