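import Pool.Agent.Helper33.CA.Defs

/-! Module INTER (MP_464bf1_lc): no intertwiners between different sets. -/

namespace CA

open ComplexConjugate

/-- the arithmetic: the trace of the (scaled) projection cannot match -/
theorem inter_arith {n n' : ℕ} {a b α : ℂ} (ho : Odd n) (ho' : Odd n') (h3 : 3 ≤ n)
    (h3' : 3 ≤ n') (hne : n ≠ n') (h1 : (a - b) ^ 2 = α * (a - b))
    (h2 : 2 * (a - b) * b + n * b ^ 2 = α * b) (h4 : (n : ℂ) * a = ((n' : ℂ) - 1) * α) :
    a = 0 := by
  have hn : (n : ℂ) ≠ 0 := by exact_mod_cast (by omega : n ≠ 0)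
  by_cases hα : α = 0
  · rw [hα, mul_zero] at h4
    exact (mul_eq_zero.1 h4).resolve_left hn
  exfalso
  have hA : (a - b) * (a - b - α) = 0 := by linear_combination h1
  have hB : b * (2 * (a - b) + n * b - α) = 0 := by linear_combination h2
  rcases mul_eq_zero.1 hA with hA | hA <;> rcases mul_eq_zero.1 hB with hB | hB
  · -- a = b = 0
    have ha : a = 0 := by linear_combination hA + hB
    rw [ha, mul_zero] at h4
    rcases mul_eq_zero.1 h4.symm with h5 | h5
    · have : (n' : ℂ) = 1 := by linear_combination h5
      have : n' = 1 := by exact_mod_cast this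
      omega
    · exact hα h5
  · -- trace 1
    have h5 : ((n' : ℂ) - 2) * α = 0 := by
      linear_combination -h4 + (n : ℂ) * hA + hB - 2 * hA
    rcases mul_eq_zero.1 h5 with h6 | h6
    · have : (n' : ℂ) = 2 := by linear_combination h6
      have : n' = 2 := by exact_mod_cast this
      omega
    · exact hα h6
  · -- trace n
    have h5 : ((n : ℂ) - n' + 1) * α = 0 := by
      linear_combination h4 - (n : ℂ) * hA - (n : ℂ) * hB
    rcases mul_eq_zero.1 h5 with h6 | h6
    · have : ((n + 1 : ℕ) : ℂ) = n' := by push_cast; linear_combination h6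
      have : n + 1 = n' := by exact_mod_cast this
      obtain ⟨c, hc⟩ := ho
      obtain ⟨d, hd⟩ := ho'
      omega
    · exact hα h6
  · -- trace n - 1
    have h5 : ((n : ℂ) - n') * α = 0 := by
      linear_combination h4 - (n : ℂ) * hA - hB + 2 * hA
    rcases mul_eq_zero.1 h5 with h6 | h6
    · have : (n : ℂ) = n' := by linear_combination h6
      exact hne (by exact_mod_cast this)
    · exact hα h6

theorem inter_zero {p : ℕ} {X X' : Type} [Fintype X] [DecidableEq X] [Fintype X'] [DecidableEq X']
    (P : KMS p (Equiv.Perm X)) (P' : KMS p (Equiv.Perm X')) (h : TwoTrans P) (h' : TwoTrans P')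
    (ho : Odd (Fintype.card X)) (ho' : Odd (Fintype.card X')) (h3 : 3 ≤ Fintype.card X)
    (h3' : 3 ≤ Fintype.card X') (hne : Fintype.card X ≠ Fintype.card X')
    (T : X → X' → ℂ) (hT : ∀ i k x x', T (P.g i k x) (P'.g i k x') = T x x')
    (hs : ∀ x, ∑ x', T x x' = 0) : ∀ x x', T x x' = 0 := by
  obtain ⟨a, b, hM⟩ := h (fun x y => ∑ x', T x x' * conj (T y x')) (by
    intro i k x y
    rw [← Equiv.sum_comp (P'.g i k)]
    exact Finset.sum_congr rfl fun x' _ => by rw [hT, hT])
  obtain ⟨a', b', hM'⟩ := h' (fun x' y' => ∑ x, conj (T x x') * T x y') (by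
    intro i k x y
    rw [← Equiv.sum_comp (P.g i k)]
    exact Finset.sum_congr rfl fun x' _ => by rw [hT, hT])
  -- row sums of M'
  have hX' : Nonempty X' := Fintype.card_pos_iff.1 (by omega)
  have hX : Nontrivial X := Fintype.one_lt_card_iff_nontrivial.1 (by omega)
  have sumite : ∀ {Y : Type} [Fintype Y] [DecidableEq Y] (y : Y) (a b : ℂ) (f : Y → ℂ),
      ∑ z, (if y = z then a else b) * f z = (a - b) * f y + b * ∑ z, f z := by
    intro Y _ _ y a b f
    have e1 : ∀ z, (if y = z then a else b) * f z = (if y = z then (a - b) * f z else 0)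
        + b * f z := by
      intro z
      split_ifs <;> ring
    rw [Finset.sum_congr rfl fun z _ => e1 z, Finset.sum_add_distrib, Finset.sum_ite_eq,
      if_pos (Finset.mem_univ _), Finset.mul_sum]
  have e1 : a' - b' + b' * Fintype.card X' = 0 := by
    obtain ⟨x'⟩ := hX'
    have e2 : ∑ y', ∑ x, conj (T x x') * T x y' = 0 := by
      rw [Finset.sum_comm]
      refine Finset.sum_eq_zero fun x _ => ?_
      rw [← Finset.mul_sum, hs, mul_zero]
    have e3 : ∑ y', ∑ x, conj (T x x') * T x y' = ∑ y', (if x' = y' then a' else b') * 1 := by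
      refine Finset.sum_congr rfl fun y' _ => ?_
      rw [mul_one]
      exact hM' x' y'
    rw [e2, sumite] at e3
    rw [Finset.sum_const, Finset.card_univ, nsmul_eq_mul, mul_one, mul_one] at e3
    exact e3.symm
  -- traces
  have e4 : (Fintype.card X : ℂ) * a = Fintype.card X' * a' := by
    have e5 : ∑ x, ∑ x', T x x' * conj (T x x') = Fintype.card X * a := by
      rw [Finset.sum_congr rfl fun x _ => (hM x x).trans (if_pos rfl), Finset.sum_const,
        Finset.card_univ, nsmul_eq_mul]
    have e6 : ∑ x', ∑ x, conj (T x x') * T x x' = Fintype.card X' * a' := by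
      rw [Finset.sum_congr rfl fun x _ => (hM' x x).trans (if_pos rfl), Finset.sum_const,
        Finset.card_univ, nsmul_eq_mul]
    rw [← e5, ← e6, Finset.sum_comm]
    exact Finset.sum_congr rfl fun x' _ => Finset.sum_congr rfl fun x _ => mul_comm _ _
  -- the quadratic relation
  have e7 : ∀ x z : X, (a - b) * (if x = z then a else b) + b * (a - b + b * Fintype.card X)
      = (a' - b') * (if x = z then a else b) := by
    intro x z
    have f1 : ∑ y, (∑ x', T x x' * conj (T y x')) * (∑ y', T y y' * conj (T z y'))
        = (a' - b') * ∑ x', T x x' * conj (T z x') := by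
      have f2 : ∀ x', ∑ y', (∑ y, conj (T y x') * T y y') * conj (T z y')
          = (a' - b') * conj (T z x') := by
        intro x'
        rw [Finset.sum_congr rfl fun y' _ => congrArg (· * conj (T z y')) (hM' x' y'), sumite]
        rw [← map_sum, hs, map_zero, mul_zero, add_zero]
      calc ∑ y, (∑ x', T x x' * conj (T y x')) * (∑ y', T y y' * conj (T z y'))
          = ∑ y, ∑ x', ∑ y', T x x' * (conj (T y x') * T y y' * conj (T z y')) := by
            refine Finset.sum_congr rfl fun y _ => ?_
            rw [Finset.sum_mul_sum]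
            exact Finset.sum_congr rfl fun x' _ => Finset.sum_congr rfl fun y' _ => by ring
        _ = ∑ x', T x x' * ∑ y', (∑ y, conj (T y x') * T y y') * conj (T z y') := by
            rw [Finset.sum_comm]
            refine Finset.sum_congr rfl fun x' _ => ?_
            rw [Finset.sum_comm, Finset.mul_sum]
            refine Finset.sum_congr rfl fun y' _ => ?_
            rw [Finset.sum_mul, Finset.mul_sum]
        _ = (a' - b') * ∑ x', T x x' * conj (T z x') := by
            rw [Finset.mul_sum]
            exact Finset.sum_congr rfl fun x' _ => by rw [f2]; ring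
    have f3 : ∑ x', T x x' * conj (T z x') = if x = z then a else b := hM x z
    have f4 : ∑ y, (∑ x', T x x' * conj (T y x')) * (∑ y', T y y' * conj (T z y'))
        = (a - b) * (if x = z then a else b) + b * (a - b + b * Fintype.card X) := by
      rw [Finset.sum_congr rfl fun y _ => congrArg₂ (· * ·) (hM x y) (hM y z), sumite]
      congr 2
      have f5 : ∀ y, (if y = z then a else b) = (if z = y then a else b) * 1 := by
        intro y
        rw [mul_one]
        exact if_congr eq_comm rfl rfl
      rw [Finset.sum_congr rfl fun y _ => f5 y, sumite, Finset.sum_const, Finset.card_univ,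
        nsmul_eq_mul, mul_one, mul_one]
    rw [← f4, f1, f3]
  obtain ⟨x0, z0, hxz⟩ := hX
  have g1 := e7 x0 x0
  have g2 := e7 x0 z0
  rw [if_pos rfl] at g1
  rw [if_neg hxz] at g2
  have q1 : (a - b) ^ 2 = (a' - b') * (a - b) := by linear_combination g1 - g2
  have q2 : 2 * (a - b) * b + (Fintype.card X : ℂ) * b ^ 2 = (a' - b') * b := by
    linear_combination g2
  have q3 : (Fintype.card X : ℂ) * a = ((Fintype.card X' : ℂ) - 1) * (a' - b') := by
    rw [e4]
    linear_combination e1
  have ha : a = 0 := inter_arith ho ho' h3 h3' hne q1 q2 q3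
  intro x x'
  have k1 : ∑ y', T x y' * conj (T x y') = 0 := by
    have := (hM x x).trans (if_pos rfl)
    rw [ha] at this
    exact this
  have k2 : ∑ y', Complex.normSq (T x y') = 0 := by
    have : ((∑ y', Complex.normSq (T x y') : ℝ) : ℂ) = 0 := by
      rw [← k1]
      push_cast
      exact Finset.sum_congr rfl fun y' _ => (Complex.mul_conj _).symm
    exact_mod_cast this
  have k3 := (Finset.sum_eq_zero_iff_of_nonneg fun y' _ => Complex.normSq_nonneg _).1 k2 x'
    (Finset.mem_univ _)
  exact Complex.normSq_eq_zero.1 k3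

end CA
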