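import Pool.Agent.Helper33.CA.Basic

/-! Module KER1 (MP_464bf1_lc): dimension count and cut estimates. -/

namespace CA

open Module

theorem ker_dim_bound {E : Type} [NormedAddCommGroup E] [InnerProductSpace ℂ E] [CompleteSpace E]
    {X : Type} [Fintype X] [DecidableEq X] (Z f h : Amp E X →L[ℂ] Amp E X)
    (F0 FK : Submodule ℂ E) [FiniteDimensional ℂ F0] [FiniteDimensional ℂ FK]
    (hinj : ∀ v, Z v = 0 → (∀ x, (h v) x ∈ F0ᗮ) → (∀ x, (f v) x ∈ FKᗮ) → v = 0) :
    finrank ℂ (LinearMap.ker Z.toLinearMap) ≤ (finrank ℂ F0 + finrank ℂ FK) * Fintype.card X := by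
  let L0 : X → (Amp E X →ₗ[ℂ] F0) := fun x =>
    (F0.orthogonalProjectionOnto ∘L pr E x ∘L h).toLinearMap
  let LK : X → (Amp E X →ₗ[ℂ] FK) := fun x =>
    (FK.orthogonalProjectionOnto ∘L pr E x ∘L f).toLinearMap
  let L : (LinearMap.ker Z.toLinearMap) →ₗ[ℂ] ((X → F0) × (X → FK)) :=
    ((LinearMap.pi L0).prod (LinearMap.pi LK)) ∘ₗ (LinearMap.ker Z.toLinearMap).subtype
  have hL : Function.Injective L := by
    rw [← LinearMap.ker_eq_bot, LinearMap.ker_eq_bot']
    intro v hv
    have hv1 : ∀ x, F0.orthogonalProjectionOnto ((h v.1) x) = 0 := by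
      intro x
      have := congrFun (congrArg Prod.fst hv) x
      simpa [L, L0] using this
    have hv2 : ∀ x, FK.orthogonalProjectionOnto ((f v.1) x) = 0 := by
      intro x
      have := congrFun (congrArg Prod.snd hv) x
      simpa [L, LK] using this
    have hz : Z v.1 = 0 := LinearMap.mem_ker.1 v.2
    have := hinj v.1 hz
      (fun x => (Submodule.orthogonalProjectionOnto_eq_zero_iff).1 (hv1 x))
      (fun x => (Submodule.orthogonalProjectionOnto_eq_zero_iff).1 (hv2 x))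
    exact Subtype.ext this
  have h1 := LinearMap.finrank_le_finrank_of_injective hL
  refine h1.trans (le_of_eq ?_)
  rw [Module.finrank_prod, Module.finrank_pi_fintype, Module.finrank_pi_fintype]
  simp
  ring

theorem cut_small {E : Type*} [NormedAddCommGroup E] [InnerProductSpace ℂ E] [CompleteSpace E]
    {X : Type*} [Fintype X] [DecidableEq X] (K : E →L[ℂ] E) (V : Submodule ℂ E)
    [FiniteDimensional ℂ V] {η : ℝ} (hη : 0 ≤ η) (hV : ∀ v ∈ Vᗮ, ‖K v‖ ≤ η * ‖v‖)
    (σ : Equiv.Perm X) (u : Amp E X) :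
    ‖tw K σ u‖ ≤ η * ‖u‖ + ‖K‖ * ‖tw V.starProjection (1 : Equiv.Perm X) u‖ := by
  have h1 : tw K σ = tw (K * (1 - V.starProjection)) σ
      + tw K σ * tw V.starProjection (1 : Equiv.Perm X) := by
    rw [tw_mul, mul_one, ← tw_add, ← mul_add, sub_add_cancel, mul_one]
  have h2 : ‖K * (1 - V.starProjection)‖ ≤ η := by
    refine ContinuousLinearMap.opNorm_le_bound _ hη fun v => ?_
    have hmem : v - V.starProjection v ∈ Vᗮ := Submodule.sub_starProjection_mem_orthogonal v
    have h3 := hV _ hmem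
    have h4 : ‖v - V.starProjection v‖ ≤ ‖v‖ := by
      have h5 : ‖v‖ ^ 2 = ‖V.starProjection v‖ ^ 2 + ‖v - V.starProjection v‖ ^ 2 := by
        have h6 := norm_add_sq_eq_norm_sq_add_norm_sq_of_inner_eq_zero (𝕜 := ℂ)
          (V.starProjection v) (v - V.starProjection v)
          (Submodule.inner_right_of_mem_orthogonal (Submodule.starProjection_apply_mem V v) hmem)
        rw [add_sub_cancel] at h6
        nlinarith
      have h7 : ‖v - V.starProjection v‖ ^ 2 ≤ ‖v‖ ^ 2 := by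
        rw [h5]; nlinarith [sq_nonneg ‖V.starProjection v‖]
      exact (pow_le_pow_iff_left₀ (norm_nonneg _) (norm_nonneg _) two_ne_zero).1 h7
    calc ‖(K * (1 - V.starProjection)) v‖ = ‖K (v - V.starProjection v)‖ := by simp
      _ ≤ η * ‖v - V.starProjection v‖ := h3
      _ ≤ η * ‖v‖ := mul_le_mul_of_nonneg_left h4 hη
  calc ‖tw K σ u‖ = ‖tw (K * (1 - V.starProjection)) σ u
        + tw K σ (tw V.starProjection (1 : Equiv.Perm X) u)‖ := by
        conv_lhs => rw [h1]
        rfl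
    _ ≤ ‖tw (K * (1 - V.starProjection)) σ u‖
        + ‖tw K σ (tw V.starProjection (1 : Equiv.Perm X) u)‖ := norm_add_le _ _
    _ ≤ η * ‖u‖ + ‖K‖ * ‖tw V.starProjection (1 : Equiv.Perm X) u‖ := by
        refine add_le_add ?_ (norm_tw_apply_le _ _ _)
        exact (norm_tw_apply_le _ _ _).trans (mul_le_mul_of_nonneg_right h2 (norm_nonneg _))

theorem Dop_inner {E : Type*} [NormedAddCommGroup E] [InnerProductSpace ℂ E] [CompleteSpace E]
    {X : Type*} [Fintype X] [DecidableEq X] [Nonempty X] {p : ℕ} [NeZero p]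
    (x : Fin 3 → ZMod p → (E →L[ℂ] E)) (P : KMS p (Equiv.Perm X)) (v : Amp E X) :
    (inner ℂ (Dop x P v) v : ℂ).re =
      ∑ i, ‖(1 - eop x P i) v‖ ^ 2 + ‖P1 E X v‖ ^ 2 := by
  have h1 : P1 E X v = star (P1 E X) (P1 E X v) := by
    rw [P1_star]
    have := congrArg (fun T : Amp E X →L[ℂ] Amp E X => T v) (P1_mul_P1 (E := E) (X := X))
    simpa using this.symm
  have h2 : inner ℂ (P1 E X v) v = ((‖P1 E X v‖ ^ 2 : ℝ) : ℂ) := by
    conv_lhs => rw [h1]
    rw [inner_star_left, inner_self_eq_norm_sq_to_K]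
    push_cast; rfl
  have h3 : ∀ i, inner ℂ ((star (1 - eop x P i) * (1 - eop x P i)) v) v
      = ((‖(1 - eop x P i) v‖ ^ 2 : ℝ) : ℂ) := by
    intro i
    rw [mul_apply_eq_comp, inner_star_left, inner_self_eq_norm_sq_to_K]
    push_cast; rfl
  have h4 : Dop x P v = ∑ i, (star (1 - eop x P i) * (1 - eop x P i)) v + P1 E X v := by
    simp [Dop]
  rw [h4, inner_add_left, sum_inner, h2]
  simp only [h3, Complex.add_re, Complex.re_sum, Complex.ofReal_re]

theorem Dop_nonneg {E : Type*} [NormedAddCommGroup E] [InnerProductSpace ℂ E] [CompleteSpace E]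
    {X : Type*} [Fintype X] [DecidableEq X] [Nonempty X] {p : ℕ} [NeZero p]
    (x : Fin 3 → ZMod p → (E →L[ℂ] E)) (P : KMS p (Equiv.Perm X)) : 0 ≤ Dop x P := by
  have h1 : 0 ≤ P1 E X := by
    have h2 : P1 E X = star (P1 E X) * P1 E X := by rw [P1_star, P1_mul_P1]
    rw [h2]
    exact star_mul_self_nonneg _
  unfold Dop
  exact add_nonneg (Finset.sum_nonneg fun i _ => star_mul_self_nonneg _) h1

end CA
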