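import Mathlib

/-! Module PS (MP_464bf1_lc): the Powers-Størmer inequality for matrices. -/

namespace CA

open scoped ComplexOrder

lemma ps_sum_sq {X : Type*} [Fintype X] (v : X → ℂ) :
    ((∑ x, ‖v x‖ ^ 2 : ℝ) : ℂ) = star v ⬝ᵥ v := by
  simp only [dotProduct, Pi.star_apply, Complex.ofReal_sum, RCLike.star_def, Complex.conj_mul',
    Complex.ofReal_pow]

lemma ps_unitary {X : Type*} [Fintype X] [DecidableEq X] (W : Matrix X X ℂ)
    (hW : W.conjTranspose * W = 1) (v : X → ℂ) :
    ∑ x, ‖(W.mulVec v) x‖ ^ 2 = ∑ x, ‖v x‖ ^ 2 := by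
  have h : ((∑ x, ‖(W.mulVec v) x‖ ^ 2 : ℝ) : ℂ) = ((∑ x, ‖v x‖ ^ 2 : ℝ) : ℂ) := by
    rw [ps_sum_sq, ps_sum_sq, Matrix.star_mulVec, ← Matrix.dotProduct_mulVec,
      Matrix.mulVec_mulVec, hW, Matrix.one_mulVec]
  exact_mod_cast h

theorem powers_stormer {X : Type*} [Fintype X] [DecidableEq X] (a b : Matrix X X ℂ)
    (ha : a.PosSemidef) (hb : b.PosSemidef) (κ : ℝ)
    (h : ∀ W : Matrix X X ℂ, W.IsHermitian →
      (∀ v : X → ℂ, ∑ x, ‖(W.mulVec v) x‖ ^ 2 ≤ ∑ x, ‖v x‖ ^ 2) →
      (Matrix.trace (W * (a * a - b * b))).re ≤ κ) :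
    ∑ x, ∑ y, ‖a x y - b x y‖ ^ 2 ≤ κ := by
  classical
  have hH : (a - b).IsHermitian := ha.isHermitian.sub hb.isHermitian
  obtain ⟨U, lam, hUU, hUU', hspec⟩ : ∃ (U : Matrix X X ℂ) (lam : X → ℝ),
      U.conjTranspose * U = 1 ∧ U * U.conjTranspose = 1 ∧
      a - b = U * Matrix.diagonal (fun i => (lam i : ℂ)) * U.conjTranspose := by
    refine ⟨hH.eigenvectorUnitary, hH.eigenvalues, ?_, ?_, ?_⟩
    · exact Unitary.coe_star_mul_self hH.eigenvectorUnitary
    · exact Unitary.coe_mul_star_self hH.eigenvectorUnitary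
    · exact hH.spectral_theorem
  set L : Matrix X X ℂ := Matrix.diagonal (fun i => (lam i : ℂ)) with hL
  set sg : X → ℂ := fun i => if 0 ≤ lam i then 1 else -1 with hsg
  have hsg2 : ∀ i, sg i * sg i = 1 := by
    intro i; simp only [hsg]; split_ifs <;> norm_num
  have hsgs : ∀ i, star (sg i) = sg i := by
    intro i; simp only [hsg]; split_ifs <;> simp
  set W : Matrix X X ℂ := U * Matrix.diagonal sg * U.conjTranspose with hW
  have hDD : Matrix.diagonal sg * Matrix.diagonal sg = 1 := by
    rw [Matrix.diagonal_mul_diagonal]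
    simp only [hsg2]
    exact Matrix.diagonal_one
  have hDs : (Matrix.diagonal sg).conjTranspose = Matrix.diagonal sg := by
    rw [Matrix.diagonal_conjTranspose]
    congr 1
    ext i; exact hsgs i
  have hWH : W.IsHermitian := by
    unfold Matrix.IsHermitian
    rw [hW, Matrix.conjTranspose_mul, Matrix.conjTranspose_mul, Matrix.conjTranspose_conjTranspose,
      hDs, Matrix.mul_assoc]
  have hWW : W.conjTranspose * W = 1 := by
    rw [hWH.eq, hW]
    calc U * Matrix.diagonal sg * U.conjTranspose * (U * Matrix.diagonal sg * U.conjTranspose)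
        = U * (Matrix.diagonal sg * (U.conjTranspose * U) * Matrix.diagonal sg) *
          U.conjTranspose := by simp only [Matrix.mul_assoc]
      _ = 1 := by rw [hUU, Matrix.mul_one, hDD, Matrix.mul_one, hUU']
  have h1 := h W hWH (fun v => (ps_unitary W hWW v).le)
  -- conjugated matrices
  set a' : Matrix X X ℂ := U.conjTranspose * a * U with ha'
  set b' : Matrix X X ℂ := U.conjTranspose * b * U with hb'
  have ha'p : a'.PosSemidef := ha.conjTranspose_mul_mul_same U
  have hb'p : b'.PosSemidef := hb.conjTranspose_mul_mul_same U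
  have hab : a' = b' + L := by
    have h2 : U.conjTranspose * (a - b) * U = L := by
      rw [hspec]
      calc U.conjTranspose * (U * L * U.conjTranspose) * U
          = (U.conjTranspose * U) * L * (U.conjTranspose * U) := by simp only [Matrix.mul_assoc]
        _ = L := by rw [hUU, Matrix.one_mul, Matrix.mul_one]
    rw [← h2, ha', hb', Matrix.mul_sub, Matrix.sub_mul]
    abel
  have htr : Matrix.trace (W * (a * a - b * b))
      = Matrix.trace (Matrix.diagonal sg * (a' * a' - b' * b')) := by
    have e1 : ∀ m : Matrix X X ℂ, U.conjTranspose * m * U * (U.conjTranspose * m * U)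
        = U.conjTranspose * (m * m) * U := by
      intro m
      calc U.conjTranspose * m * U * (U.conjTranspose * m * U)
          = U.conjTranspose * m * (U * U.conjTranspose) * m * U := by simp only [Matrix.mul_assoc]
        _ = _ := by rw [hUU', Matrix.mul_one]; simp only [Matrix.mul_assoc]
    have e2 : a' * a' - b' * b' = U.conjTranspose * (a * a - b * b) * U := by
      rw [ha', hb', e1, e1, Matrix.mul_sub, Matrix.sub_mul]
    rw [e2, hW]
    have e3 : U * Matrix.diagonal sg * U.conjTranspose * (a * a - b * b)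
        = U * (Matrix.diagonal sg * U.conjTranspose * (a * a - b * b)) := by
      simp only [Matrix.mul_assoc]
    rw [e3, Matrix.trace_mul_comm]
    simp only [Matrix.mul_assoc]
  have hdiag : Matrix.trace (Matrix.diagonal sg * (a' * a' - b' * b'))
      = ∑ i, sg i * (2 * (lam i : ℂ) * b' i i + (lam i : ℂ) ^ 2) := by
    unfold Matrix.trace
    refine Finset.sum_congr rfl fun i _ => ?_
    rw [Matrix.diag_apply, Matrix.diagonal_mul]
    congr 1
    have e4 : a' * a' - b' * b' = b' * L + L * b' + L * L := by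
      rw [hab, Matrix.add_mul, Matrix.mul_add, Matrix.mul_add]
      abel
    rw [e4, Matrix.add_apply, Matrix.add_apply, hL, Matrix.mul_diagonal, Matrix.diagonal_mul,
      Matrix.diagonal_mul, Matrix.diagonal_apply_eq]
    ring
  have hbi : ∀ i, 0 ≤ (b' i i).re := fun i => (Complex.nonneg_iff.1 (hb'p.diag_nonneg)).1
  have hai : ∀ i, 0 ≤ (b' i i).re + lam i := by
    intro i
    have h3 : 0 ≤ (a' i i).re := (Complex.nonneg_iff.1 (ha'p.diag_nonneg)).1
    rw [hab, Matrix.add_apply, hL, Matrix.diagonal_apply_eq] at h3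
    simpa using h3
  have hlow : ∑ i, lam i ^ 2 ≤ (Matrix.trace (W * (a * a - b * b))).re := by
    rw [htr, hdiag, Complex.re_sum]
    refine Finset.sum_le_sum fun i _ => ?_
    have e5 : 2 * (lam i : ℂ) * b' i i + (lam i : ℂ) ^ 2
        = ((2 * lam i : ℝ) : ℂ) * b' i i + ((lam i ^ 2 : ℝ) : ℂ) := by push_cast; ring
    have e6 : (2 * (lam i : ℂ) * b' i i + (lam i : ℂ) ^ 2).re
        = 2 * lam i * (b' i i).re + lam i ^ 2 := by
      rw [e5, Complex.add_re, Complex.re_ofReal_mul, Complex.ofReal_re]
    have h4 := hbi i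
    have h5 := hai i
    simp only [hsg]
    split_ifs with h6
    · rw [one_mul, e6]
      nlinarith [mul_nonneg h6 h4]
    · rw [neg_one_mul, Complex.neg_re, e6]
      push Not at h6
      nlinarith [mul_nonneg (neg_nonneg.2 h6.le) h5]
  have hHS : ∑ x, ∑ y, ‖a x y - b x y‖ ^ 2 = ∑ i, lam i ^ 2 := by
    have e7 : ((∑ x, ∑ y, ‖a x y - b x y‖ ^ 2 : ℝ) : ℂ)
        = Matrix.trace ((a - b).conjTranspose * (a - b)) := by
      rw [Finset.sum_comm]
      unfold Matrix.trace
      rw [Complex.ofReal_sum]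
      refine Finset.sum_congr rfl fun y _ => ?_
      rw [Matrix.diag_apply, Matrix.mul_apply, Complex.ofReal_sum]
      refine Finset.sum_congr rfl fun x _ => ?_
      rw [Matrix.conjTranspose_apply, Matrix.sub_apply, RCLike.star_def, Complex.conj_mul',
        Complex.ofReal_pow]
    have e8 : Matrix.trace ((a - b).conjTranspose * (a - b)) = Matrix.trace (L * L) := by
      rw [hH.eq, hspec]
      calc Matrix.trace (U * L * U.conjTranspose * (U * L * U.conjTranspose))
          = Matrix.trace (U * (L * (U.conjTranspose * U) * L * U.conjTranspose)) := by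
            simp only [Matrix.mul_assoc]
        _ = Matrix.trace (L * L * (U.conjTranspose * U)) := by
            rw [Matrix.trace_mul_comm, hUU, Matrix.mul_one, Matrix.mul_assoc, hUU]
        _ = _ := by rw [hUU, Matrix.mul_one]
    have e9 : Matrix.trace (L * L) = ((∑ i, lam i ^ 2 : ℝ) : ℂ) := by
      rw [hL, Matrix.diagonal_mul_diagonal, Matrix.trace_diagonal, Complex.ofReal_sum]
      refine Finset.sum_congr rfl fun i _ => ?_
      push_cast; ring
    rw [e8, e9] at e7
    exact_mod_cast e7
  rw [hHS]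
  exact hlow.trans h1

end CA
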