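import Pool.Agent.Helper33.CA.Defs

/-! Module SETS1 (MP_464bf1_lc): KMS data in `SL(3, F)` and generation. -/

namespace CA

open Matrix.SpecialLinearGroup

section

variable {F : Type} [Field F]

theorem sets1_comm_same {i j k l : Fin 3} (hij : i ≠ j) (hkl : k ≠ l) (hjk : j ≠ k) (hil : i ≠ l)
    (a b : F) : (transvection hij a) * (transvection hkl b) =
      (transvection hkl b) * (transvection hij a) := by
  refine Subtype.ext ?_
  simp only [coe_mul, transvection_coe, mul_add, add_mul,
    Matrix.single_mul_single_of_ne _ _ _ _ hjk, Matrix.single_mul_single_of_ne _ _ _ _ hil.symm,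
    one_mul, mul_one, add_zero]
  abel

theorem sets1_comm_diff {i j k : Fin 3} (hij : i ≠ j) (hjk : j ≠ k) (hik : i ≠ k)
    (a b : F) : (transvection hij a) * (transvection hjk b) =
      (transvection hik (a * b)) * (transvection hjk b) * (transvection hij a) := by
  refine Subtype.ext ?_
  simp only [coe_mul, transvection_coe, mul_add, add_mul, Matrix.single_mul_single_same,
    Matrix.single_mul_single_of_ne _ _ _ _ hij.symm, Matrix.single_mul_single_of_ne _ _ _ _ hjk.symm,
    Matrix.single_mul_single_of_ne _ _ _ _ hik.symm, one_mul, mul_one, add_zero]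
  abel

end

/-- The KMS data in `SL(3, F)`: `g 0 k = e₀₁(k)`, `g 1 k = e₁₂(k)`, `g 2 k = e₂₀(k t)`. -/
theorem exists_kmsSL (p : ℕ) [Fact p.Prime] (F : Type) [Field F] [Algebra (ZMod p) F] (t : F) :
    ∃ K : KMS p (Matrix.SpecialLinearGroup (Fin 3) F),
      (∀ k, K.g 0 k = transvection (i := 0) (j := 1) (by decide) (algebraMap (ZMod p) F k)) ∧
      (∀ k, K.g 1 k = transvection (i := 1) (j := 2) (by decide) (algebraMap (ZMod p) F k)) ∧
      (∀ k, K.g 2 k = transvection (i := 2) (j := 0) (by decide) (algebraMap (ZMod p) F k * t)) := by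
  have h01 : (0 : Fin 3) ≠ 1 := by decide
  have h12 : (1 : Fin 3) ≠ 2 := by decide
  have h20 : (2 : Fin 3) ≠ 0 := by decide
  let g : Fin 3 → ZMod p → Matrix.SpecialLinearGroup (Fin 3) F :=
    ![fun k => transvection h01 (algebraMap (ZMod p) F k),
      fun k => transvection h12 (algebraMap (ZMod p) F k),
      fun k => transvection h20 (algebraMap (ZMod p) F k * t)]
  let z : Fin 3 → ZMod p → Matrix.SpecialLinearGroup (Fin 3) F :=
    ![fun k => transvection h20.symm (algebraMap (ZMod p) F k),
      fun k => transvection h01.symm (algebraMap (ZMod p) F k * t),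
      fun k => transvection h12.symm (algebraMap (ZMod p) F k * t)]
  have g0 : ∀ k, g 0 k = transvection h01 (algebraMap (ZMod p) F k) := fun _ => rfl
  have g1 : ∀ k, g 1 k = transvection h12 (algebraMap (ZMod p) F k) := fun _ => rfl
  have g2 : ∀ k, g 2 k = transvection h20 (algebraMap (ZMod p) F k * t) := fun _ => rfl
  have z0 : ∀ k, z 0 k = transvection h20.symm (algebraMap (ZMod p) F k) := fun _ => rfl
  have z1 : ∀ k, z 1 k = transvection h01.symm (algebraMap (ZMod p) F k * t) := fun _ => rfl
  have z2 : ∀ k, z 2 k = transvection h12.symm (algebraMap (ZMod p) F k * t) := fun _ => rfl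
  have e01 : (0 : Fin 3) + 1 = 1 := rfl
  have e12 : (1 : Fin 3) + 1 = 2 := rfl
  have e20 : (2 : Fin 3) + 1 = 0 := rfl
  refine ⟨⟨g, z, ?_, ?_, ?_, ?_, ?_, ?_, ?_⟩, g0, g1, g2⟩
  · intro i
    fin_cases i
    · exact (g0 0).trans (by simp)
    · exact (g1 0).trans (by simp)
    · exact (g2 0).trans (by simp)
  · intro i k l
    fin_cases i
    · change g 0 _ = g 0 _ * g 0 _
      rw [g0, g0, g0, map_add, transvection_add]
    · change g 1 _ = g 1 _ * g 1 _
      rw [g1, g1, g1, map_add, transvection_add]
    · change g 2 _ = g 2 _ * g 2 _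
      rw [g2, g2, g2, map_add, add_mul, transvection_add]
  · intro i
    fin_cases i
    · exact (z0 0).trans (by simp)
    · exact (z1 0).trans (by simp)
    · exact (z2 0).trans (by simp)
  · intro i k l
    fin_cases i
    · change z 0 _ = z 0 _ * z 0 _
      rw [z0, z0, z0, map_add, transvection_add]
    · change z 1 _ = z 1 _ * z 1 _
      rw [z1, z1, z1, map_add, add_mul, transvection_add]
    · change z 2 _ = z 2 _ * z 2 _
      rw [z2, z2, z2, map_add, add_mul, transvection_add]
  · intro i k l
    fin_cases i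
    · change g 0 k * g 1 l = z 0 (k * l) * g 1 l * g 0 k
      rw [g0, g1, z0, sets1_comm_diff h01 h12 h20.symm, map_mul]
    · change g 1 k * g 2 l = z 1 (k * l) * g 2 l * g 1 k
      rw [g1, g2, z1, sets1_comm_diff h12 h20 h01.symm, map_mul,
        ← mul_assoc (algebraMap (ZMod p) F k)]
    · change g 2 k * g 0 l = z 2 (k * l) * g 0 l * g 2 k
      rw [g2, g0, z2, sets1_comm_diff h20 h01 h12.symm, map_mul, mul_right_comm]
  · intro i k l
    fin_cases i
    · change z 0 k * g 0 l = g 0 l * z 0 k
      rw [z0, g0]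
      exact sets1_comm_same _ _ (by decide) (by decide) _ _
    · change z 1 k * g 1 l = g 1 l * z 1 k
      rw [z1, g1]
      exact sets1_comm_same _ _ (by decide) (by decide) _ _
    · change z 2 k * g 2 l = g 2 l * z 2 k
      rw [z2, g2]
      exact sets1_comm_same _ _ (by decide) (by decide) _ _
  · intro i k l
    fin_cases i
    · change z 0 k * g 1 l = g 1 l * z 0 k
      rw [z0, g1]
      exact sets1_comm_same _ _ (by decide) (by decide) _ _
    · change z 1 k * g 2 l = g 2 l * z 1 k
      rw [z1, g2]
      exact sets1_comm_same _ _ (by decide) (by decide) _ _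
    · change z 2 k * g 0 l = g 0 l * z 2 k
      rw [z2, g0]
      exact sets1_comm_same _ _ (by decide) (by decide) _ _

section

variable {F : Type} [Field F]

theorem sets1_mem_comm {Γ : Subgroup (Matrix.SpecialLinearGroup (Fin 3) F)} {i j k : Fin 3}
    (hij : i ≠ j) (hjk : j ≠ k) (hik : i ≠ k) {a b : F} (ha : transvection hij a ∈ Γ)
    (hb : transvection hjk b ∈ Γ) : transvection hik (a * b) ∈ Γ := by
  have h := sets1_comm_diff hij hjk hik a b
  have h2 : transvection hik (a * b) = (transvection hij a) * (transvection hjk b) *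
      (transvection hij a)⁻¹ * (transvection hjk b)⁻¹ := by
    rw [h]
    group
  rw [h2]
  exact Γ.mul_mem (Γ.mul_mem (Γ.mul_mem ha hb) (Γ.inv_mem ha)) (Γ.inv_mem hb)

theorem sets1_mem_nsmul {Γ : Subgroup (Matrix.SpecialLinearGroup (Fin 3) F)} {i j : Fin 3}
    (hij : i ≠ j) {a : F} (ha : transvection hij a ∈ Γ) (n : ℕ) :
    transvection hij ((n : F) * a) ∈ Γ := by
  induction n with
  | zero => simp
  | succ n ih =>
    rw [Nat.cast_succ, add_mul, one_mul, transvection_add]
    exact Γ.mul_mem ih ha

theorem sets1_all (p : ℕ) [Fact p.Prime] [Algebra (ZMod p) F] (t : F)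
    (hgen : Algebra.adjoin (ZMod p) {t} = ⊤)
    {Γ : Subgroup (Matrix.SpecialLinearGroup (Fin 3) F)} {i j : Fin 3} (hij : i ≠ j)
    (h : ∀ m : ℕ, transvection hij (t ^ m) ∈ Γ) (a : F) : transvection hij a ∈ Γ := by
  have ha : a ∈ Algebra.adjoin (ZMod p) {t} := by rw [hgen]; exact Algebra.mem_top
  rw [Algebra.adjoin_singleton_eq_range_aeval] at ha
  obtain ⟨q, rfl⟩ := ha
  induction q using Polynomial.induction_on' with
  | add q r hq hr =>
    have e : (Polynomial.aeval t).toRingHom (q + r) = (Polynomial.aeval t) q + (Polynomial.aeval t) r :=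
      map_add (Polynomial.aeval t) q r
    rw [e, transvection_add]
    exact Γ.mul_mem hq hr
  | monomial m c =>
    have e : (Polynomial.aeval t).toRingHom (Polynomial.monomial m c) = (c.val : F) * t ^ m := by
      have := Polynomial.aeval_monomial (R := ZMod p) t (n := m) (r := c)
      refine this.trans ?_
      congr 1
      conv_lhs => rw [← ZMod.natCast_zmod_val c]
      rw [map_natCast]
    rw [e]
    exact sets1_mem_nsmul hij (h m) _

theorem sets1_diag {i j : Fin 3} (hij : i ≠ j) {c : F} (hc : c ≠ 0) :
    diag2n hij c hc = transvection hij c * transvection hij.symm (-c⁻¹) * transvection hij c *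
      transvection hij (-1) * transvection hij.symm 1 * transvection hij (-1) := by
  refine Subtype.ext ?_
  simp only [coe_mul, transvection_coe, diag2n_coe, mul_add, add_mul, Matrix.single_mul_single_same,
    Matrix.single_mul_single_of_ne _ _ _ _ hij.symm, Matrix.single_mul_single_of_ne _ _ _ _ hij,
    one_mul, mul_one, add_zero]
  ext k l
  simp only [Matrix.diagonal_apply, Matrix.add_apply, Matrix.single_apply, Matrix.one_apply]
  by_cases hki : k = i
  · subst hki
    by_cases hlk : l = k
    · subst hlk
      simp [hij, hij.symm, hc]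
    · by_cases hlj : l = j
      · subst hlj
        simp [hij, hij.symm, hc]
      · simp [hij, hij.symm, hc, hlk, hlj, Ne.symm hlk, Ne.symm hlj]
  · by_cases hkj : k = j
    · subst hkj
      by_cases hlk : l = k
      · subst hlk
        simp [hij, hij.symm, hc]
      · by_cases hli : l = i
        · subst hli
          simp [hij, hij.symm, hc]
        · simp [hij, hij.symm, hc, hlk, hli, Ne.symm hlk, Ne.symm hli]
    · simp [hij, hij.symm, hc, hki, hkj, Ne.symm hki, Ne.symm hkj]

end

/-- The elements `e₀₁(1)`, `e₁₂(1)`, `e₂₀(t)` generate `SL(3, F)` when `t ≠ 0` generates the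
`ZMod p`-algebra `F`. -/
theorem sl3_closure (p : ℕ) [Fact p.Prime] (F : Type) [Field F] [Algebra (ZMod p) F] (t : F)
    (ht : t ≠ 0) (hgen : Algebra.adjoin (ZMod p) {t} = ⊤) :
    Subgroup.closure ({transvection (i := 0) (j := 1) (by decide) (1 : F),
      transvection (i := 1) (j := 2) (by decide) (1 : F),
      transvection (i := 2) (j := 0) (by decide) t} :
        Set (Matrix.SpecialLinearGroup (Fin 3) F)) = ⊤ := by
  have h01 : (0 : Fin 3) ≠ 1 := by decide
  have h12 : (1 : Fin 3) ≠ 2 := by decide
  have h20 : (2 : Fin 3) ≠ 0 := by decide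
  set Γ := Subgroup.closure ({transvection (i := 0) (j := 1) (by decide) (1 : F),
      transvection (i := 1) (j := 2) (by decide) (1 : F),
      transvection (i := 2) (j := 0) (by decide) t} :
        Set (Matrix.SpecialLinearGroup (Fin 3) F)) with hΓ
  have a01 : transvection h01 (1 : F) ∈ Γ := Subgroup.subset_closure (Or.inl rfl)
  have a12 : transvection h12 (1 : F) ∈ Γ := Subgroup.subset_closure (Or.inr (Or.inl rfl))
  have a20 : transvection h20 t ∈ Γ := Subgroup.subset_closure (Or.inr (Or.inr rfl))
  have a21 : transvection h12.symm t ∈ Γ := by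
    have := sets1_mem_comm h20 h01 h12.symm a20 a01
    rwa [mul_one] at this
  have a10 : transvection h01.symm t ∈ Γ := by
    have := sets1_mem_comm h12 h20 h01.symm a12 a20
    rwa [one_mul] at this
  have key : ∀ m : ℕ, transvection h01 (t ^ m) ∈ Γ ∧ transvection h12 (t ^ m) ∈ Γ := by
    intro m
    induction m with
    | zero => rw [pow_zero]; exact ⟨a01, a12⟩
    | succ m ih =>
      have b02 : transvection h20.symm (t ^ m) ∈ Γ := by
        have := sets1_mem_comm h01 h12 h20.symm ih.1 a12
        rwa [mul_one] at this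
      refine ⟨?_, ?_⟩
      · have := sets1_mem_comm h20.symm h12.symm h01 b02 a21
        rwa [← pow_succ] at this
      · have := sets1_mem_comm h01.symm h20.symm h12 a10 b02
        rwa [← pow_succ'] at this
  have b01 : ∀ a, transvection h01 a ∈ Γ := sets1_all p t hgen h01 fun m => (key m).1
  have b12 : ∀ a, transvection h12 a ∈ Γ := sets1_all p t hgen h12 fun m => (key m).2
  have b02 : ∀ a, transvection h20.symm a ∈ Γ := by
    intro a
    have := sets1_mem_comm h01 h12 h20.symm (b01 a) (b12 1)
    rwa [mul_one] at this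
  have b21 : ∀ a, transvection h12.symm a ∈ Γ := by
    intro a
    have := sets1_mem_comm h20 h01 h12.symm a20 (b01 (a / t))
    rwa [mul_div_cancel₀ a ht] at this
  have b10 : ∀ a, transvection h01.symm a ∈ Γ := by
    intro a
    have := sets1_mem_comm h12 h20 h01.symm (b12 (a / t)) a20
    rwa [div_mul_cancel₀ a ht] at this
  have b20 : ∀ a, transvection h20 a ∈ Γ := by
    intro a
    have := sets1_mem_comm h12.symm h01.symm h20 (b21 a) (b10 1)
    rwa [mul_one] at this
  have ball : ∀ (i j : Fin 3) (hij : i ≠ j) (a : F), transvection hij a ∈ Γ := by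
    intro i j hij a
    fin_cases i <;> fin_cases j
    · exact absurd rfl hij
    · exact b01 a
    · exact b02 a
    · exact b10 a
    · exact absurd rfl hij
    · exact b12 a
    · exact b20 a
    · exact b21 a
    · exact absurd rfl hij
  refine (Subgroup.eq_top_iff' _).2 fun M => ?_
  refine diagonal_transvection_induction' (fun M => M ∈ Γ) M ?_ ball
    (fun A B hA hB => Γ.mul_mem hA hB)
  intro i j hij c hc
  rw [sets1_diag hij hc]
  exact Γ.mul_mem (Γ.mul_mem (Γ.mul_mem (Γ.mul_mem (Γ.mul_mem (ball _ _ _ _) (ball _ _ _ _))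
    (ball _ _ _ _)) (ball _ _ _ _)) (ball _ _ _ _)) (ball _ _ _ _)

end CA
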