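import Pool.Agent.Helper33.CA.Basic

/-! Module SOS (MP_464bf1_lc): the sum-of-squares identity for KMS data. -/

namespace CA

section Heis

variable {𝕜 R : Type*} [Field 𝕜] [CharZero 𝕜] [Ring R] [Algebra 𝕜 R] {p : ℕ} [Fact p.Prime]

/-- The average of a family. -/
noncomputable def sos_av (𝕜 : Type*) {R : Type*} [Field 𝕜] [Ring R] [Algebra 𝕜 R] {p : ℕ}
    [NeZero p] (u : ZMod p → R) : R := (p : 𝕜)⁻¹ • ∑ k, u k

omit [CharZero 𝕜] in
lemma sos_mul_av {u : ZMod p → R} (hu : ∀ k l, u (k + l) = u k * u l) (k : ZMod p) :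
    u k * sos_av 𝕜 u = sos_av 𝕜 u := by
  unfold sos_av
  rw [mul_smul_comm, Finset.mul_sum]
  congr 1
  rw [← Equiv.sum_comp (Equiv.addLeft k) u]
  exact Finset.sum_congr rfl fun l _ => (hu k l).symm

lemma sos_av_const {p : ℕ} [Fact p.Prime] (x : R) :
    ((p : 𝕜)⁻¹) • ∑ _k : ZMod p, x = x := by
  have hp : (p : 𝕜) ≠ 0 := Nat.cast_ne_zero.2 (Fact.out : p.Prime).ne_zero
  rw [Finset.sum_const, Finset.card_univ, ZMod.card, ← Nat.cast_smul_eq_nsmul 𝕜, smul_smul,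
    inv_mul_cancel₀ hp, one_smul]

lemma sos_av_idem {u : ZMod p → R} (hu : ∀ k l, u (k + l) = u k * u l) :
    sos_av 𝕜 u * sos_av 𝕜 u = sos_av 𝕜 u := by
  conv_lhs => rw [show sos_av 𝕜 u * sos_av 𝕜 u = ((p : 𝕜)⁻¹ • ∑ k, u k) * sos_av 𝕜 u from rfl]
  rw [smul_mul_assoc, Finset.sum_mul]
  simp only [sos_mul_av hu]
  exact sos_av_const _

omit [CharZero 𝕜] in
lemma sos_comm_av {u : ZMod p → R} {x : R} (h : ∀ k, x * u k = u k * x) :
    x * sos_av 𝕜 u = sos_av 𝕜 u * x := by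
  unfold sos_av
  rw [mul_smul_comm, smul_mul_assoc, Finset.mul_sum, Finset.sum_mul]
  congr 1
  exact Finset.sum_congr rfl fun l _ => h l

omit [CharZero 𝕜] in
lemma sos_av_comm_av {u v : ZMod p → R} (h : ∀ k l, u k * v l = v l * u k) :
    sos_av 𝕜 u * sos_av 𝕜 v = sos_av 𝕜 v * sos_av 𝕜 u :=
  sos_comm_av fun l => (sos_comm_av (𝕜 := 𝕜) (x := v l) fun k => (h k l).symm).symm

omit [CharZero 𝕜] in
lemma sos_heis1 {u v w : ZMod p → R} (hw : ∀ k l, w (k + l) = w k * w l)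
    (hc : ∀ k l, u k * v l = w (k * l) * v l * u k)
    (hwu : ∀ k l, w k * u l = u l * w k) (hwv : ∀ k l, w k * v l = v l * w k) :
    sos_av 𝕜 u * sos_av 𝕜 v * sos_av 𝕜 w = sos_av 𝕜 v * sos_av 𝕜 u * sos_av 𝕜 w := by
  have h1 : ∀ k l, u k * v l * sos_av 𝕜 w = v l * u k * sos_av 𝕜 w := by
    intro k l
    rw [hc, hwv, mul_assoc (v l), hwu, ← mul_assoc (v l), mul_assoc (v l * u k), sos_mul_av hw]
  have h2 : ∀ x : R, ∀ (a b : ZMod p → R), sos_av 𝕜 a * sos_av 𝕜 b * x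
      = ((p : 𝕜)⁻¹ * (p : 𝕜)⁻¹) • ∑ k, ∑ l, a k * b l * x := by
    intro x a b
    unfold sos_av
    rw [smul_mul_smul_comm, smul_mul_assoc, Finset.sum_mul_sum, Finset.sum_mul]
    simp only [Finset.sum_mul]
  rw [h2, h2, Finset.sum_comm]
  congr 1
  exact Finset.sum_congr rfl fun l _ => Finset.sum_congr rfl fun k _ => h1 k l

lemma sos_heis2 {u v w : ZMod p → R} (hu : ∀ k l, u (k + l) = u k * u l) (hv0 : v 0 = 1)
    (hw : ∀ k l, w (k + l) = w k * w l)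
    (hc : ∀ k l, u k * v l = w (k * l) * v l * u k)
    (hwu : ∀ k l, w k * u l = u l * w k) (hwv : ∀ k l, w k * v l = v l * w k) :
    sos_av 𝕜 u * sos_av 𝕜 v * sos_av 𝕜 u * (1 - sos_av 𝕜 w)
      = (p : 𝕜)⁻¹ • (sos_av 𝕜 u * (1 - sos_av 𝕜 w)) := by
  have hp : (p : 𝕜) ≠ 0 := Nat.cast_ne_zero.2 (Fact.out : p.Prime).ne_zero
  set E := sos_av 𝕜 u with hE
  set Z := sos_av 𝕜 w with hZ
  have hZZ : Z * Z = Z := sos_av_idem hw
  have hZv : ∀ l, Z * v l = v l * Z := fun l =>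
    (sos_comm_av (𝕜 := 𝕜) (x := v l) fun k => (hwv k l).symm).symm
  have hZE : Z * E = E * Z := sos_av_comm_av hwu
  have h0 : E * sos_av 𝕜 v * E * (1 - Z)
      = (p : 𝕜)⁻¹ • ∑ l, E * v l * E * (1 - Z) := by
    unfold sos_av
    rw [mul_smul_comm, smul_mul_assoc, smul_mul_assoc, Finset.mul_sum, Finset.sum_mul,
      Finset.sum_mul]
  have h1 : ∀ l, E * v l * E = ((p : 𝕜)⁻¹ • ∑ k, w (k * l)) * (v l * E) := by
    intro l
    conv_lhs => rw [hE, show sos_av 𝕜 u * v l * sos_av 𝕜 u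
      = ((p : 𝕜)⁻¹ • ∑ k, u k) * v l * sos_av 𝕜 u from rfl]
    rw [smul_mul_assoc, smul_mul_assoc, smul_mul_assoc, Finset.sum_mul, Finset.sum_mul,
      Finset.sum_mul]
    congr 1
    refine Finset.sum_congr rfl fun k _ => ?_
    rw [hc, mul_assoc, sos_mul_av hu, mul_assoc]
  have h2 : ∀ l, l ≠ 0 → E * v l * E * (1 - Z) = 0 := by
    intro l hl
    have e1 : ((p : 𝕜)⁻¹ • ∑ k, w (k * l)) = Z := by
      rw [hZ]
      unfold sos_av
      congr 1
      exact Equiv.sum_comp (Equiv.mulRight₀ l hl) w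
    rw [h1, e1, ← mul_assoc, hZv, mul_assoc (v l), hZE, ← mul_assoc, mul_assoc (v l * E),
      mul_sub, mul_one, hZZ, sub_self, mul_zero]
  have h3 : E * v 0 * E * (1 - Z) = E * (1 - Z) := by
    rw [hv0, mul_one, hE, sos_av_idem hu]
  rw [h0, Finset.sum_eq_single (0 : ZMod p) (fun l _ hl => h2 l hl)
    (fun h => absurd (Finset.mem_univ _) h), h3]

end Heis

lemma sos_comm_id {S : Type*} [CommRing S] (A Z C K0 K2 K3 : S) (hZ : Z * Z = Z)
    (h1 : A * (A - 1) * (A - 2) * Z = 0) (h2 : A * ((A - 1) * (A - 1) - C * C) * (1 - Z) = 0)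
    (r0 : 2 * K0 = 1 + C) (r1 : K2 * (1 - C) * (1 + C) - 2 * C * K3 * (1 - C) = 1)
    (r2 : K2 * (1 - C) * (1 + C) * (1 + C) = 4 * C * K3 * (1 - C)) :
    (2 - A) * (2 - A) - (1 - C) * (2 - A) =
      K0 * (((2 - A) * (1 - A) * Z) * ((2 - A) * (1 - A) * Z))
      + C * (((2 - A) * A * Z) * ((2 - A) * A * Z))
      + K2 * (((1 + C - A) * (1 - C - A) * (1 - Z)) * ((1 + C - A) * (1 - C - A) * (1 - Z)))
      + K3 * (((1 + C - A) * A * (1 - Z)) * ((1 + C - A) * A * (1 - Z))) := by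
  have e1 : ((2 - A) * (2 - A) - (1 - C) * (2 - A) - K0 * ((2 - A) * (1 - A)) ^ 2
      - C * ((2 - A) * A) ^ 2) * Z = 0 := by
    linear_combination (-(-(K0 + C) * (2 - A) + (C - K0))) * h1
      - (2 - A) * (1 - A) * Z * r0
  have e2 : ((2 - A) * (2 - A) - (1 - C) * (2 - A) - K2 * ((1 + C - A) * (1 - C - A)) ^ 2
      - K3 * ((1 + C - A) * A) ^ 2) * (1 - Z) = 0 := by
    linear_combination (-(-(K2 + K3) * (2 - A) + 2 * K3 * (1 - C))) * h2
      - (1 + C - A) * (2 - A) * (1 - Z) * r1 + (1 + C - A) * (1 - Z) * r2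
  linear_combination e1 + e2 - (K0 * ((2 - A) * (1 - A)) ^ 2 + C * ((2 - A) * A) ^ 2
    + K2 * ((1 + C - A) * (1 - C - A)) ^ 2 + K3 * ((1 + C - A) * A) ^ 2) * hZ

section Pair

variable {𝕜 R : Type*} [Field 𝕜] [Ring R] [Algebra 𝕜 R]

/-- Transfer along an injective homomorphism from a commutative algebra. -/
lemma sos_two_aux {S : Type*} [CommRing S] [Algebra 𝕜 S] (f : S →ₐ[𝕜] R)
    (hf : Function.Injective f) (A Z : S) (c : 𝕜) (k : Fin 4 → 𝕜) (hZ : f Z * f Z = f Z)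
    (h1 : f A * (f A - 1) * (f A - 2) * f Z = 0)
    (h2 : f A * ((f A - 1) * (f A - 1) - (c ^ 2) • (1 : R)) * (1 - f Z) = 0)
    (r0 : 2 * k 0 = 1 + c) (rc : k 1 = c)
    (r1 : k 2 * (1 - c) * (1 + c) - 2 * c * k 3 * (1 - c) = 1)
    (r2 : k 2 * (1 - c) * (1 + c) * (1 + c) = 4 * c * k 3 * (1 - c)) :
    (2 - f A) * (2 - f A) - (1 - c) • (2 - f A) =
      k 0 • (((2 - f A) * (1 - f A) * f Z) * ((2 - f A) * (1 - f A) * f Z))
      + k 1 • (((2 - f A) * f A * f Z) * ((2 - f A) * f A * f Z))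
      + k 2 • ((((1 + c) • (1 : R) - f A) * ((1 - c) • (1 : R) - f A) * (1 - f Z)) *
          (((1 + c) • (1 : R) - f A) * ((1 - c) • (1 : R) - f A) * (1 - f Z)))
      + k 3 • ((((1 + c) • (1 : R) - f A) * f A * (1 - f Z)) *
          (((1 + c) • (1 : R) - f A) * f A * (1 - f Z))) := by
  have key := sos_comm_id A Z (algebraMap 𝕜 S c) (algebraMap 𝕜 S (k 0)) (algebraMap 𝕜 S (k 2))
    (algebraMap 𝕜 S (k 3))
    (hf (by rw [map_mul, hZ]))
    (hf (by simpa only [map_mul, map_sub, map_one, map_ofNat, map_zero] using h1))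
    (hf (by
      rw [← Algebra.algebraMap_eq_smul_one, pow_two, map_mul] at h2
      simpa only [map_mul, map_sub, map_one, map_zero, AlgHom.commutes] using h2))
    (by
      have := congrArg (algebraMap 𝕜 S) r0
      simpa only [map_mul, map_add, map_one, map_ofNat] using this)
    (by
      have := congrArg (algebraMap 𝕜 S) r1
      simpa only [map_mul, map_add, map_sub, map_one, map_ofNat] using this)
    (by
      have := congrArg (algebraMap 𝕜 S) r2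
      simpa only [map_mul, map_add, map_sub, map_one, map_ofNat] using this)
  have key2 := congrArg f key
  simp only [map_mul, map_add, map_sub, map_one, map_ofNat, AlgHom.commutes] at key2
  simp only [Algebra.smul_def, rc, map_add, map_sub, map_one, mul_one]
  exact key2

open scoped IsMulCommutative in
/-- Transfer to a noncommutative algebra with two commuting elements. -/
lemma sos_two_id (A Z : R) (c : 𝕜) (k : Fin 4 → 𝕜) (hAZ : A * Z = Z * A) (hZ : Z * Z = Z)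
    (h1 : A * (A - 1) * (A - 2) * Z = 0)
    (h2 : A * ((A - 1) * (A - 1) - (c ^ 2) • (1 : R)) * (1 - Z) = 0)
    (r0 : 2 * k 0 = 1 + c) (rc : k 1 = c)
    (r1 : k 2 * (1 - c) * (1 + c) - 2 * c * k 3 * (1 - c) = 1)
    (r2 : k 2 * (1 - c) * (1 + c) * (1 + c) = 4 * c * k 3 * (1 - c)) :
    (2 - A) * (2 - A) - (1 - c) • (2 - A) =
      k 0 • (((2 - A) * (1 - A) * Z) * ((2 - A) * (1 - A) * Z))
      + k 1 • (((2 - A) * A * Z) * ((2 - A) * A * Z))
      + k 2 • ((((1 + c) • (1 : R) - A) * ((1 - c) • (1 : R) - A) * (1 - Z)) *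
          (((1 + c) • (1 : R) - A) * ((1 - c) • (1 : R) - A) * (1 - Z)))
      + k 3 • ((((1 + c) • (1 : R) - A) * A * (1 - Z)) * (((1 + c) • (1 : R) - A) * A * (1 - Z))) := by
  have hcomm : ∀ a ∈ ({A, Z} : Set R), ∀ b ∈ ({A, Z} : Set R), a * b = b * a := by
    intro a ha b hb
    rcases ha with rfl | rfl <;> rcases hb with rfl | rfl
    · rfl
    · exact hAZ
    · exact hAZ.symm
    · rfl
  have := Algebra.isMulCommutative_adjoin 𝕜 hcomm
  exact sos_two_aux (Algebra.adjoin 𝕜 ({A, Z} : Set R)).val Subtype.val_injective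
    (⟨A, Algebra.subset_adjoin (by simp)⟩) (⟨Z, Algebra.subset_adjoin (by simp)⟩) c k hZ h1 h2
    r0 rc r1 r2

/-- The identity for a pair of idempotents. -/
lemma sos_pair (E F Z : R) (c : 𝕜) (k : Fin 4 → 𝕜) (hE : E * E = E) (hF : F * F = F)
    (hZ : Z * Z = Z) (hZE : Z * E = E * Z) (hZF : Z * F = F * Z) (h1 : E * F * Z = F * E * Z)
    (h2 : E * F * E * (1 - Z) = (c ^ 2) • (E * (1 - Z)))
    (h3 : F * E * F * (1 - Z) = (c ^ 2) • (F * (1 - Z)))
    (r0 : 2 * k 0 = 1 + c) (rc : k 1 = c)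
    (r1 : k 2 * (1 - c) * (1 + c) - 2 * c * k 3 * (1 - c) = 1)
    (r2 : k 2 * (1 - c) * (1 + c) * (1 + c) = 4 * c * k 3 * (1 - c)) :
    (2 - (E + F)) * (2 - (E + F)) - (1 - c) • (2 - (E + F)) =
      k 0 • (((2 - (E + F)) * (1 - (E + F)) * Z) * ((2 - (E + F)) * (1 - (E + F)) * Z))
      + k 1 • (((2 - (E + F)) * (E + F) * Z) * ((2 - (E + F)) * (E + F) * Z))
      + k 2 • ((((1 + c) • (1 : R) - (E + F)) * ((1 - c) • (1 : R) - (E + F)) * (1 - Z)) *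
          (((1 + c) • (1 : R) - (E + F)) * ((1 - c) • (1 : R) - (E + F)) * (1 - Z)))
      + k 3 • ((((1 + c) • (1 : R) - (E + F)) * (E + F) * (1 - Z)) *
          (((1 + c) • (1 : R) - (E + F)) * (E + F) * (1 - Z))) := by
  have a1 : (E + F) * (E + F - 1) = E * F + F * E := by
    have : (E + F) * (E + F - 1) = E * E + F * F + E * F + F * E - E - F := by noncomm_ring
    rw [this, hE, hF]; abel
  refine sos_two_id (E + F) Z c k (by rw [add_mul, mul_add, hZE, hZF]) hZ ?_ ?_ r0 rc r1 r2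
  · have a2 : (E + F) * (E + F - 1) * (E + F - 2) * Z
        = E * (F * E * Z) + E * (F * F) * Z + F * (E * E) * Z + F * (E * F * Z)
          - 2 • (E * F * Z) - 2 • (F * E * Z) := by
      rw [a1]; noncomm_ring
    have a3 : E * (F * E * Z) = E * F * Z := by
      rw [← h1, mul_assoc E F Z, ← mul_assoc E E, hE]
    have a4 : F * (E * F * Z) = F * E * Z := by
      rw [h1, mul_assoc F E Z, ← mul_assoc F F, hF]
    rw [a2, a3, a4, hE, hF, h1]
    abel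
  · have a2 : (E + F) * ((E + F - 1) * (E + F - 1) - (c ^ 2) • (1 : R)) * (1 - Z)
        = (E * F * E * (1 - Z) + E * (F * F) * (1 - Z) + F * (E * E) * (1 - Z)
          + F * E * F * (1 - Z) - E * F * (1 - Z) - F * E * (1 - Z))
          - (c ^ 2) • ((E + F) * (1 - Z)) := by
      rw [mul_sub (E + F), ← mul_assoc, a1, mul_smul_comm, mul_one,
        sub_mul _ ((c ^ 2) • (E + F)), smul_mul_assoc]
      congr 1
      noncomm_ring
    rw [a2, h2, h3, hE, hF, add_mul, smul_add]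
    abel

end Pair

section Main

variable {𝕜 R : Type*} [Field 𝕜] [CharZero 𝕜] [Ring R] [Algebra 𝕜 R] {p : ℕ} [Fact p.Prime]

theorem KMS.g_mul_e (K : KMS p R) (i : Fin 3) (k : ZMod p) : K.g i k * K.e 𝕜 i = K.e 𝕜 i :=
  sos_mul_av (K.g_add i) k

theorem KMS.e_idem (K : KMS p R) (i : Fin 3) : K.e 𝕜 i * K.e 𝕜 i = K.e 𝕜 i :=
  sos_av_idem (K.g_add i)

theorem KMS.ze_idem (K : KMS p R) (i : Fin 3) : K.ze 𝕜 i * K.ze 𝕜 i = K.ze 𝕜 i :=
  sos_av_idem (K.z_add i)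

theorem KMS.ze_comm_left (K : KMS p R) (i : Fin 3) : K.ze 𝕜 i * K.e 𝕜 i = K.e 𝕜 i * K.ze 𝕜 i :=
  sos_av_comm_av (K.z_comm_left i)

theorem KMS.ze_comm_right (K : KMS p R) (i : Fin 3) :
    K.ze 𝕜 i * K.e 𝕜 (i + 1) = K.e 𝕜 (i + 1) * K.ze 𝕜 i :=
  sos_av_comm_av (K.z_comm_right i)

omit [CharZero 𝕜] in
/-- The averages of a family and of its reflection agree. -/
lemma sos_av_neg (w : ZMod p → R) : sos_av 𝕜 (fun k => w (-k)) = sos_av 𝕜 w := by
  unfold sos_av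
  congr 1
  exact Equiv.sum_comp (Equiv.neg (ZMod p)) w

lemma sos_kms_pair (K : KMS p R) (c : 𝕜) (hc : c ^ 2 * (p : 𝕜) = 1) (hc1 : 1 - c ≠ 0)
    (hc2 : 1 + c ≠ 0) (i : Fin 3) :
    (2 - (K.e 𝕜 i + K.e 𝕜 (i + 1))) * (2 - (K.e 𝕜 i + K.e 𝕜 (i + 1)))
      - (1 - c) • (2 - (K.e 𝕜 i + K.e 𝕜 (i + 1))) =
      ∑ j, kap c j • (K.sq c i j * K.sq c i j) := by
  have hp : (p : 𝕜) ≠ 0 := Nat.cast_ne_zero.2 (Fact.out : p.Prime).ne_zero
  have hc0 : c ≠ 0 := by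
    rintro rfl
    simp at hc
  have hcp : (p : 𝕜)⁻¹ = c ^ 2 := by
    rw [inv_eq_iff_eq_inv, ← one_div, eq_div_iff (pow_ne_zero 2 hc0), mul_comm, hc]
  have h1 := sos_heis1 (𝕜 := 𝕜) (K.z_add i) (K.comm i) (K.z_comm_left i) (K.z_comm_right i)
  have h2 := sos_heis2 (𝕜 := 𝕜) (K.g_add i) (K.g_zero (i + 1)) (K.z_add i) (K.comm i)
    (K.z_comm_left i) (K.z_comm_right i)
  have h3 := sos_heis2 (𝕜 := 𝕜) (w := fun k => K.z i (-k)) (K.g_add (i + 1)) (K.g_zero i)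
    (fun k l => by rw [neg_add, K.z_add]) (v := K.g i) (fun k l => by
      have e1 : K.z i (-(k * l)) * K.z i (l * k) = 1 := by
        rw [← K.z_add, mul_comm l k, neg_add_cancel, K.z_zero]
      rw [mul_assoc, K.comm, ← mul_assoc, ← mul_assoc, e1, one_mul])
    (fun k l => K.z_comm_right i _ _) (fun k l => K.z_comm_left i _ _)
  rw [sos_av_neg] at h3
  rw [hcp] at h2 h3
  rw [Fin.sum_univ_four]
  have e2 : (2 : 𝕜) ≠ 0 := two_ne_zero
  have k0 : kap c 0 = (1 + c) / 2 := rfl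
  have k1 : kap c 1 = c := rfl
  have k2 : kap c 2 = 2 / ((1 + c) * (1 - c) ^ 2) := rfl
  have k3 : kap c 3 = (1 + c) / (2 * c * (1 - c) ^ 2) := rfl
  exact sos_pair (K.e 𝕜 i) (K.e 𝕜 (i + 1)) (K.ze 𝕜 i) c (kap c) (K.e_idem i) (K.e_idem (i + 1))
    (K.ze_idem i) (K.ze_comm_left i) (K.ze_comm_right i) h1 h2 h3
    (by rw [k0]; field_simp) k1
    (by rw [k2, k3]; field_simp; ring)
    (by rw [k2, k3]; field_simp; ring)

theorem KMS.sos (K : KMS p R) (c : 𝕜) (hc : c ^ 2 * (p : 𝕜) = 1) (hc1 : 1 - c ≠ 0)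
    (hc2 : 1 + c ≠ 0) :
    (∑ i, (1 - K.e 𝕜 i)) * (∑ i, (1 - K.e 𝕜 i)) - (1 - 2 * c) • (∑ i, (1 - K.e 𝕜 i)) =
      ∑ i, ∑ j, kap c j • (K.sq c i j * K.sq c i j) := by
  simp only [← sos_kms_pair K c hc hc1 hc2]
  rw [Fin.sum_univ_three, Fin.sum_univ_three]
  have e0 : (0 : Fin 3) + 1 = 1 := rfl
  have e1 : (1 : Fin 3) + 1 = 2 := rfl
  have e2 : (2 : Fin 3) + 1 = 0 := rfl
  rw [e0, e1, e2]
  have hx := K.e_idem (𝕜 := 𝕜) 0
  have hy := K.e_idem (𝕜 := 𝕜) 1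
  have hz := K.e_idem (𝕜 := 𝕜) 2
  generalize K.e 𝕜 0 = x at hx ⊢
  generalize K.e 𝕜 1 = y at hy ⊢
  generalize K.e 𝕜 2 = z at hz ⊢
  have a1 : ∀ x y : R, x * x = x → y * y = y → (2 - (x + y)) * (2 - (x + y))
      = 4 • (1 : R) - 3 • x - 3 • y + x * y + y * x := by
    intro x y hx hy
    have : (2 - (x + y)) * (2 - (x + y))
        = 4 • (1 : R) - 4 • x - 4 • y + x * x + y * y + x * y + y * x := by
      rw [← one_add_one_eq_two]; noncomm_ring
    rw [this, hx, hy]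
    abel
  have a2 : (1 - x + (1 - y) + (1 - z)) * (1 - x + (1 - y) + (1 - z))
      = 9 • (1 : R) - 5 • x - 5 • y - 5 • z + x * y + y * x + x * z + z * x + y * z + z * y := by
    have : (1 - x + (1 - y) + (1 - z)) * (1 - x + (1 - y) + (1 - z))
        = 9 • (1 : R) - 6 • x - 6 • y - 6 • z + x * x + y * y + z * z + x * y + y * x + x * z
          + z * x + y * z + z * y := by noncomm_ring
    rw [this, hx, hy, hz]
    abel
  have a3 : (2 : R) = (2 : 𝕜) • (1 : R) := by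
    rw [← Algebra.algebraMap_eq_smul_one, map_ofNat]
  rw [a1 x y hx hy, a1 y z hy hz, a1 z x hz hx, a2, a3]
  module

end Main

end CA
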